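import Mathlib

/-!
# Subgroups of finitely generated nilpotent groups are finitely generated

Say that `G` is Noetherian if all its subgroups are `FG`. (1) If `N` is a normal subgroup, all
subgroups of `G` contained in `N` are `FG` and `G ⧸ N` is Noetherian then `G` is: for `K ≤ G` choose lifts
in `K` of generators of the image of `K`, and generators of `K ⊓ N`. (2) A finitely generated abelian
group is Noetherian (`Module.Finite ℤ`, `IsNoetherian`, `Additive`; `Subgroup.fg_iff_add_fg`,
`Submodule.fg_iff_addSubgroup_fg`). (3) Induction on `n` with `lowerCentralSeries ⊤ n = ⊥`: let `N = lowerCentralSeries ⊤ n`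
where `lowerCentralSeries ⊤ (n + 1) = ⊥`, a central subgroup; `G ⧸ N` is finitely generated with
`lowerCentralSeries ⊤ n = ⊥`, so Noetherian by induction, and by (1), (2) it is enough that `N` is `FG`. If
`n = 0` then `N = ⊤` is abelian. If `n = k + 1` then `N = ⁅M, ⊤⁆`, `M = lowerCentralSeries ⊤ k`; by the
Noetherian property of `G ⧸ N`, `M` is generated by finitely many `x_i` together with `N`; let `g_j`
generate `G`. As `N` is central, `(x, g) ↦ ⁅x, g⁆`, `x ∈ M`, has values in the centre and is
multiplicative in each variable, and trivial for `x ∈ N`, so `N` is generated by the finitely many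
`⁅x_i, g_j⁆`.
-/

set_option autoImplicit false

namespace Pool.Agent.Lib.Pf720nn

namespace GNoethAux

open Subgroup (closure_le subset_closure closure_mono)
open scoped commutatorElement

/-- extensions -/
theorem ext_noeth {G : Type} [Group G] (N : Subgroup G) [N.Normal]
    (hN : ∀ K : Subgroup G, K ≤ N → K.FG) (hQ : ∀ K : Subgroup (G ⧸ N), K.FG)
    (K : Subgroup G) : K.FG := by
  obtain ⟨S, hS, hSf⟩ := (Subgroup.fg_iff _).1 (hQ (K.map (QuotientGroup.mk' N)))
  obtain ⟨R, hR, hRf⟩ := (Subgroup.fg_iff _).1 (hN (K ⊓ N) inf_le_right)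
  have hlift : ∀ s : G ⧸ N, s ∈ S → ∃ g ∈ K, QuotientGroup.mk' N g = s := by
    intro s hs
    have h1 : s ∈ K.map (QuotientGroup.mk' N) := by
      rw [← hS]
      exact subset_closure hs
    obtain ⟨g, hg, hgs⟩ := Subgroup.mem_map.1 h1
    exact ⟨g, hg, hgs⟩
  choose! lf hlf1 hlf2 using hlift
  refine (Subgroup.fg_iff _).2 ⟨lf '' S ∪ R, ?_, (hSf.image lf).union hRf⟩
  apply le_antisymm
  · rw [closure_le]
    rintro g (⟨s, hs, rfl⟩ | hg)
    · exact hlf1 s hs
    · have : g ∈ K ⊓ N := by
        rw [← hR]
        exact subset_closure hg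
      exact this.1
  · intro k hk
    have h1 : QuotientGroup.mk' N k ∈ (Subgroup.closure (lf '' S)).map (QuotientGroup.mk' N) := by
      have h2 : (Subgroup.closure (lf '' S)).map (QuotientGroup.mk' N) = Subgroup.closure S := by
        rw [MonoidHom.map_closure]
        congr 1
        ext s
        constructor
        · rintro ⟨g, ⟨s', hs', rfl⟩, rfl⟩
          rw [hlf2 s' hs']
          exact hs'
        · intro hs
          exact ⟨lf s, ⟨s, hs, rfl⟩, hlf2 s hs⟩
      rw [h2, hS]
      exact Subgroup.mem_map_of_mem _ hk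
    obtain ⟨t, ht, htk⟩ := Subgroup.mem_map.1 h1
    have htK : t ∈ K := by
      have : Subgroup.closure (lf '' S) ≤ K := by
        rw [closure_le]
        rintro g ⟨s, hs, rfl⟩
        exact hlf1 s hs
      exact this ht
    have hn : t⁻¹ * k ∈ K ⊓ N := ⟨K.mul_mem (K.inv_mem htK) hk, QuotientGroup.eq.1 htk⟩
    have e : k = t * (t⁻¹ * k) := by group
    rw [e]
    refine Subgroup.mul_mem _ (closure_mono Set.subset_union_left ht) ?_
    rw [← hR] at hn
    exact closure_mono Set.subset_union_right hn

theorem comm_noeth (A : Type) [CommGroup A] (hA : Group.FG A) (K : Subgroup A) : K.FG := by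
  have h1 : Module.Finite ℤ (Additive A) := Module.Finite.iff_addGroup_fg.2 (GroupFG.iff_add_fg.1 hA)
  rw [Subgroup.fg_iff_add_fg]
  have h2 := IsNoetherian.noetherian (R := ℤ) (AddSubgroup.toIntSubmodule K.toAddSubgroup)
  rw [Submodule.fg_iff_addSubgroup_fg] at h2
  exact h2

theorem central_noeth {G : Type} [Group G] (N : Subgroup G) (hc : ∀ n ∈ N, ∀ m ∈ N, n * m = m * n)
    (hN : N.FG) (K : Subgroup G) (hK : K ≤ N) : K.FG := by
  let _ : CommGroup N := { (inferInstance : Group N) with
    mul_comm := fun x y => Subtype.ext (hc x x.2 y y.2) }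
  have h1 : Group.FG N := (Group.fg_iff_subgroup_fg N).2 hN
  have h2 : (K.subgroupOf N).FG := comm_noeth N h1 (K.subgroupOf N)
  obtain ⟨S, hS, hSf⟩ := (Subgroup.fg_iff _).1 h2
  refine (Subgroup.fg_iff _).2 ⟨N.subtype '' S, ?_, hSf.image _⟩
  have h3 : Subgroup.closure (N.subtype '' S) = (Subgroup.closure S).map N.subtype :=
    (MonoidHom.map_closure N.subtype S).symm
  rw [h3, hS, Subgroup.subgroupOf_map_subtype, inf_eq_left.2 hK]

theorem comm_mul_right {G : Type} [Group G] (p q q' : G)
    (hc : ∀ g : G, g * ⁅p, q'⁆ = ⁅p, q'⁆ * g) : ⁅p, q * q'⁆ = ⁅p, q⁆ * ⁅p, q'⁆ := by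
  have h1 : ⁅p, q * q'⁆ = p * q * p⁻¹ * (⁅p, q'⁆ * q⁻¹) := by
    simp only [commutatorElement_def]
    group
  rw [h1, ← hc q⁻¹]
  simp only [commutatorElement_def]
  group

theorem comm_mul_left {G : Type} [Group G] (p p' q : G)
    (hc : ∀ g : G, g * ⁅p', q⁆ = ⁅p', q⁆ * g) : ⁅p * p', q⁆ = ⁅p', q⁆ * ⁅p, q⁆ := by
  have h1 : ⁅p * p', q⁆ = (p * ⁅p', q⁆) * q * p⁻¹ * q⁻¹ := by
    simp only [commutatorElement_def]
    group
  rw [h1, hc p]
  simp only [commutatorElement_def]
  group

theorem main (n : ℕ) : ∀ (G : Type) [Group G], Group.FG G →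
    Subgroup.lowerCentralSeries (⊤ : Subgroup G) n = ⊥ → ∀ K : Subgroup G, K.FG := by
  induction n with
  | zero =>
    intro G _ _ h K
    have h1 : K = ⊥ := by
      rw [eq_bot_iff, ← h, Subgroup.lowerCentralSeries_zero]
      exact le_top
    rw [h1]
    exact (Subgroup.fg_iff _).2 ⟨∅, by simp, Set.finite_empty⟩
  | succ n ih =>
    intro G _ hG h
    set N : Subgroup G := Subgroup.lowerCentralSeries (⊤ : Subgroup G) n with hN
    have hcent : ∀ m ∈ N, ∀ g : G, g * m = m * g := by
      intro m hm g
      rw [Subgroup.lowerCentralSeries_succ, ← hN] at h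
      have h1 := (Subgroup.commutator_eq_bot_iff_le_centralizer.1 h) hm
      exact Subgroup.mem_centralizer_iff.1 h1 g (Subgroup.mem_top g)
    have hQfg : Group.FG (G ⧸ N) := inferInstance
    have hQl : Subgroup.lowerCentralSeries (⊤ : Subgroup (G ⧸ N)) n = ⊥ := by
      have h1 := Subgroup.map_lowerCentralSeries (⊤ : Subgroup G) (QuotientGroup.mk' N) n
      rw [Subgroup.map_top_of_surjective _ (QuotientGroup.mk'_surjective N), ← hN,
        QuotientGroup.map_mk'_self] at h1
      exact h1.symm
    have hQ := ih (G ⧸ N) hQfg hQl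
    have hNfg : N.FG := by
      rcases Nat.eq_zero_or_pos n with h0 | h0
      · rw [hN, h0, Subgroup.lowerCentralSeries_zero]
        exact Group.fg_def.1 hG
      · obtain ⟨k, rfl⟩ : ∃ k, n = k + 1 := ⟨n - 1, by omega⟩
        set M : Subgroup G := Subgroup.lowerCentralSeries (⊤ : Subgroup G) k with hM
        have hNM : N = ⁅M, (⊤ : Subgroup G)⁆ := Subgroup.lowerCentralSeries_succ _ _
        have hmemN : ∀ p ∈ M, ∀ q : G, ⁅p, q⁆ ∈ N := by
          intro p hp q
          rw [hNM]
          exact Subgroup.commutator_mem_commutator hp (Subgroup.mem_top q)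
        obtain ⟨S, hS, hSf⟩ := (Subgroup.fg_iff _).1 (hQ (M.map (QuotientGroup.mk' N)))
        obtain ⟨T, hT, hTf⟩ := (Subgroup.fg_iff _).1 (Group.fg_def.1 hG)
        have hlift : ∀ s : G ⧸ N, s ∈ S → ∃ g ∈ M, QuotientGroup.mk' N g = s := by
          intro s hs
          have h1 : s ∈ M.map (QuotientGroup.mk' N) := by
            rw [← hS]
            exact subset_closure hs
          obtain ⟨g, hg, hgs⟩ := Subgroup.mem_map.1 h1
          exact ⟨g, hg, hgs⟩
        choose! lf hlf1 hlf2 using hlift
        set X := lf '' S with hX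
        have hXM : Subgroup.closure X ≤ M := by
          rw [closure_le]
          rintro g ⟨s, hs, rfl⟩
          exact hlf1 s hs
        set D : Set G := (fun pq : G × G => ⁅pq.1, pq.2⁆) '' (X ×ˢ T) with hD
        refine (Subgroup.fg_iff _).2 ⟨D, ?_, ((hSf.image lf).prod hTf).image _⟩
        apply le_antisymm
        · rw [closure_le]
          rintro _ ⟨⟨p, q⟩, ⟨hp, _⟩, rfl⟩
          exact hmemN p (hXM (subset_closure hp)) q
        · -- step (i)
          have h1 : ∀ x ∈ X, ∀ q : G, ⁅x, q⁆ ∈ Subgroup.closure D := by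
            intro x hx q
            have hxM : x ∈ M := hXM (subset_closure hx)
            have hq : q ∈ Subgroup.closure T := by
              rw [hT]
              exact Subgroup.mem_top q
            induction hq using Subgroup.closure_induction with
            | mem y hy => exact subset_closure ⟨(x, y), ⟨hx, hy⟩, rfl⟩
            | one =>
              rw [commutatorElement_one_right]
              exact Subgroup.one_mem _
            | mul y z _ _ hy hz =>
              rw [comm_mul_right x y z (hcent _ (hmemN x hxM z))]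
              exact Subgroup.mul_mem _ hy hz
            | inv y _ hy =>
              have h2 := comm_mul_right x y y⁻¹ (hcent _ (hmemN x hxM y⁻¹))
              rw [mul_inv_cancel, commutatorElement_one_right] at h2
              have h3 : ⁅x, y⁻¹⁆ = (⁅x, y⁆)⁻¹ := (eq_inv_of_mul_eq_one_right h2.symm)
              rw [h3]
              exact Subgroup.inv_mem _ hy
          have h2 : ∀ t ∈ Subgroup.closure X, ∀ q : G, ⁅t, q⁆ ∈ Subgroup.closure D := by
            intro t ht q
            induction ht using Subgroup.closure_induction with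
            | mem y hy => exact h1 y hy q
            | one =>
              rw [commutatorElement_one_left]
              exact Subgroup.one_mem _
            | mul y z _ hz' hy hz =>
              rw [comm_mul_left y z q (hcent _ (hmemN z (hXM hz') q))]
              exact Subgroup.mul_mem _ hz hy
            | inv y hy' hy =>
              have h3 := comm_mul_left y⁻¹ y q (hcent _ (hmemN y (hXM hy') q))
              rw [inv_mul_cancel, commutatorElement_one_left] at h3
              have h4 : ⁅y⁻¹, q⁆ = (⁅y, q⁆)⁻¹ := (eq_inv_of_mul_eq_one_right h3.symm)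
              rw [h4]
              exact Subgroup.inv_mem _ hy
          rw [hNM, Subgroup.commutator_le]
          intro p hp q _
          have h3 : QuotientGroup.mk' N p ∈ (Subgroup.closure X).map (QuotientGroup.mk' N) := by
            have h4 : (Subgroup.closure X).map (QuotientGroup.mk' N) = Subgroup.closure S := by
              rw [MonoidHom.map_closure]
              congr 1
              ext s
              constructor
              · rintro ⟨g, ⟨s', hs', rfl⟩, rfl⟩
                rw [hlf2 s' hs']
                exact hs'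
              · intro hs
                exact ⟨lf s, ⟨s, hs, rfl⟩, hlf2 s hs⟩
            rw [h4, hS]
            exact Subgroup.mem_map_of_mem _ hp
          obtain ⟨t, ht, htp⟩ := Subgroup.mem_map.1 h3
          have hn : t⁻¹ * p ∈ N := QuotientGroup.eq.1 htp
          have e : p = t * (t⁻¹ * p) := by group
          have h5 : ⁅t⁻¹ * p, q⁆ = 1 := by
            rw [commutatorElement_eq_one_iff_mul_comm]
            exact (hcent _ hn q).symm
          have h6 : ⁅p, q⁆ = ⁅t, q⁆ := by
            conv_lhs => rw [e]
            rw [comm_mul_left t (t⁻¹ * p) q (by rw [h5]; simp), h5, one_mul]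
          rw [h6]
          exact h2 t ht q
    exact ext_noeth N (central_noeth N (fun m _ m' hm' => hcent m' hm' m) hNfg) hQ

end GNoethAux

theorem subgroup_fg (G : Type) [Group G] [Group.IsNilpotent G] (hG : Group.FG G)
    (K : Subgroup G) : K.FG := by
  obtain ⟨n, hn⟩ := Subgroup.nilpotent_iff_lowerCentralSeries.1 (inferInstance : Group.IsNilpotent G)
  exact GNoethAux.main n G hG hn K

end Pool.Agent.Lib.Pf720nn
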