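import Pool.Agent.Lib.Pf720nn.PDefs

/-!
# The commutator inclusions of the lower central series

`⁅γ_i, γ_j⁆ ≤ γ_{i+j}`, in Mathlib's numbering (`γ_{n+1} = lowerCentralSeries ⊤ n`):
`⁅lcs a, lcs b⁆ ≤ lcs (a + b + 1)`. Induction on `b` with the three subgroups lemma
(`Subgroup.commutator_commutator_eq_bot_of_rotate` in the quotient by the normal subgroup `lcs (a + b + 2)`,
or directly with the Hall-Witt identity on generators and normality).

`lc_comm`: if `i = 0` then `lc G e 0 = lc G e 1`-type trivialities (`0 - 1 = 0`): `⁅⊤, lc e j⁆ ≤ lc e j` by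
normality; same for `j = 0`; for `i, j ≥ 1`: `(i + j - 1) / e ≤ (i - 1) / e + (j - 1) / e + 1`.
-/

set_option autoImplicit false
set_option linter.unusedSectionVars false

namespace Pool.Agent.Lib.Pf720nn

variable {G : Type} [Group G]

namespace PLcAux

/-- the three subgroups lemma modulo a normal subgroup -/
lemma three (N : Subgroup G) [N.Normal] (H₁ H₂ H₃ : Subgroup G) (h1 : ⁅⁅H₂, H₃⁆, H₁⁆ ≤ N)
    (h2 : ⁅⁅H₃, H₁⁆, H₂⁆ ≤ N) : ⁅⁅H₁, H₂⁆, H₃⁆ ≤ N := by
  have key : ∀ K : Subgroup G, K ≤ N ↔ K.map (QuotientGroup.mk' N) = ⊥ := by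
    intro K
    rw [Subgroup.map_eq_bot_iff, QuotientGroup.ker_mk']
  rw [key] at h1 h2 ⊢
  simp only [Subgroup.map_commutator] at h1 h2 ⊢
  exact Subgroup.commutator_commutator_eq_bot_of_rotate h1 h2

end PLcAux

theorem lcs_comm (a b : ℕ) : ⁅(⊤ : Subgroup G).lowerCentralSeries a,
    (⊤ : Subgroup G).lowerCentralSeries b⁆ ≤ (⊤ : Subgroup G).lowerCentralSeries (a + b + 1) := by
  induction b generalizing a with
  | zero => exact le_rfl
  | succ b ih =>
    rw [Subgroup.commutator_comm, Subgroup.lowerCentralSeries_succ]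
    refine PLcAux.three _ _ _ _ ?_ ?_
    · rw [Subgroup.commutator_comm ⊤, ← Subgroup.lowerCentralSeries_succ]
      have h := ih (a + 1)
      have e : a + 1 + b + 1 = a + (b + 1) + 1 := by ring
      rwa [e] at h
    · have h := ih a
      have e : a + (b + 1) + 1 = (a + b + 1) + 1 := by ring
      rw [e, Subgroup.lowerCentralSeries_succ]
      exact Subgroup.commutator_mono h le_rfl

theorem lc_comm {e : ℕ} (he : 0 < e) (i j : ℕ) : ⁅lc G e i, lc G e j⁆ ≤ lc G e (i + j) := by
  have hn : ∀ k, (lc G e k).Normal := fun k => by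
    unfold lc
    infer_instance
  rcases Nat.eq_zero_or_pos i with hi | hi
  · subst hi
    rw [zero_add]
    have := hn j
    exact Subgroup.commutator_le_right _ _
  rcases Nat.eq_zero_or_pos j with hj | hj
  · subst hj
    rw [add_zero]
    have := hn i
    exact Subgroup.commutator_le_left _ _
  refine (lcs_comm _ _).trans (Subgroup.lowerCentralSeries_antitone _ ?_)
  have h1 : i - 1 < e * ((i - 1) / e + 1) := Nat.lt_mul_div_succ _ he
  have h2 : j - 1 < e * ((j - 1) / e + 1) := Nat.lt_mul_div_succ _ he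
  have h3 : (i + j - 1) / e < (i - 1) / e + (j - 1) / e + 2 := by
    rw [Nat.div_lt_iff_lt_mul he]
    have h4 : ((i - 1) / e + (j - 1) / e + 2) * e = e * ((i - 1) / e + 1) + e * ((j - 1) / e + 1) := by
      ring
    rw [h4]
    omega
  omega

end Pool.Agent.Lib.Pf720nn
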