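import Pool.Agent.Lib.Pf720nn.PDefs

/-!
# Products and inverses of polynomial maps (Lazard, Leibman)

`F` antitone with `⁅F i, F j⁆ ≤ F (i + j)`. Truncate: `T n a w := ∀ hs, hs.length ≤ n → ∀ m,
dgs hs w m ∈ F (a + hs.length)`; `T (n + 1) a w ↔ (∀ m, w m ∈ F a) ∧ ∀ h, T n (a + 1) (dg h w)`;
`T (n + 1) a w → T n a w`; `T n b w → T n a w` for `a ≤ b`. Prove by induction on `n`, for all `a, b, w, v`
simultaneously: `T n a w → T n a v → T n a (w v)`, `T n a w → T n a w⁻¹`, and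
`T n a w → T n b v → T n (a + b) ⁅w, v⁆` (pointwise, `⁅x, y⁆ = x y x⁻¹ y⁻¹`). Step from `n` to `n + 1`, with
`w' = dg h w`, `v' = dg h v` (so `w (m + h) = w' w`, `v (m + h) = v' v` at `m`), `c = ⁅w, v⁆`:
* `dg h (w v) = w' * (w v' w⁻¹) = w' * ⁅w, v'⁆ * v'`;
* `dg h w⁻¹ = w⁻¹ w'⁻¹ w = ⁅w⁻¹, w'⁻¹⁆ * w'⁻¹`;
* `dg h c = (w' ⁅w, v'⁆ w'⁻¹) * ⁅w' v', c⁆ * (c ⁅w', v' v⁆ c⁻¹)` (`group`), where conjugates are
  `x y x⁻¹ = ⁅x, y⁆ y`. All terms are in `T n (a + b + 1)` by the induction hypothesis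
  (`w' v' ∈ T n 1`, `c ∈ T n (a + b)`, `v' v ∈ T n b`).
-/

set_option autoImplicit false
set_option linter.unusedSectionVars false

namespace Pool.Agent.Lib.Pf720nn

variable {κ : Type} {G : Type} [Group G]

open scoped commutatorElement

namespace PGrpAux

/-- truncated polynomiality -/
def T (F : ℕ → Subgroup G) (n a : ℕ) (w : (κ → ℕ) → G) : Prop :=
  ∀ hs : List (κ → ℕ), hs.length ≤ n → ∀ m : κ → ℕ, dgs hs w m ∈ F (a + hs.length)

lemma T.val {F : ℕ → Subgroup G} {n a : ℕ} {w : (κ → ℕ) → G} (h : T F n a w) (m : κ → ℕ) :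
    w m ∈ F a := h [] (Nat.zero_le _) m

lemma T_zero {F : ℕ → Subgroup G} {a : ℕ} {w : (κ → ℕ) → G} : T F 0 a w ↔ ∀ m, w m ∈ F a := by
  constructor
  · intro h m
    exact h.val m
  · intro h hs hl m
    have : hs = [] := List.length_eq_zero_iff.mp (Nat.le_zero.mp hl)
    subst this
    exact h m

lemma T_succ {F : ℕ → Subgroup G} {n a : ℕ} {w : (κ → ℕ) → G} :
    T F (n + 1) a w ↔ (∀ m, w m ∈ F a) ∧ ∀ h, T F n (a + 1) (dg h w) := by
  constructor
  · intro h
    refine ⟨fun m => h.val m, fun k hs hl m => ?_⟩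
    have h1 := h (k :: hs) (by rw [List.length_cons]; omega) m
    rw [dgs_cons, List.length_cons] at h1
    have e : a + (hs.length + 1) = a + 1 + hs.length := by ring
    rwa [e] at h1
  · rintro ⟨h0, h1⟩ hs hl m
    cases hs with
    | nil => exact h0 m
    | cons k hs =>
      rw [dgs_cons, List.length_cons]
      rw [List.length_cons] at hl
      have h2 := h1 k hs (by omega) m
      have e : a + (hs.length + 1) = a + 1 + hs.length := by ring
      rwa [e]

lemma T.pred {F : ℕ → Subgroup G} {n a : ℕ} {w : (κ → ℕ) → G} (h : T F (n + 1) a w) : T F n a w :=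
  fun hs hl m => h hs (by omega) m

lemma T.anti {F : ℕ → Subgroup G} (hF : Antitone F) {n a b : ℕ} (hab : a ≤ b)
    {w : (κ → ℕ) → G} (h : T F n b w) : T F n a w := fun hs hl m => hF (by omega) (h hs hl m)

/-- the simultaneous induction -/
lemma main {F : ℕ → Subgroup G} (hF : Antitone F) (hc : ∀ i j, ⁅F i, F j⁆ ≤ F (i + j)) (n : ℕ) :
    (∀ (a : ℕ) (w v : (κ → ℕ) → G), T F n a w → T F n a v → T F n a fun m => w m * v m) ∧
    (∀ (a : ℕ) (w : (κ → ℕ) → G), T F n a w → T F n a fun m => (w m)⁻¹) ∧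
    (∀ (a b : ℕ) (w v : (κ → ℕ) → G), T F n a w → T F n b v →
      T F n (a + b) fun m => ⁅w m, v m⁆) := by
  induction n with
  | zero =>
    refine ⟨fun a w v hw hv => ?_, fun a w hw => ?_, fun a b w v hw hv => ?_⟩
    · rw [T_zero] at *
      exact fun m => (F a).mul_mem (hw m) (hv m)
    · rw [T_zero] at *
      exact fun m => (F a).inv_mem (hw m)
    · rw [T_zero] at *
      exact fun m => hc a b (Subgroup.commutator_mem_commutator (hw m) (hv m))
  | succ n ih =>
    obtain ⟨ihm, ihi, ihc⟩ := ih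
    refine ⟨fun a w v hw hv => ?_, fun a w hw => ?_, fun a b w v hw hv => ?_⟩
    · rw [T_succ]
      refine ⟨fun m => (F a).mul_mem (hw.val m) (hv.val m), fun h => ?_⟩
      have hw' := (T_succ.mp hw).2 h
      have hv' := (T_succ.mp hv).2 h
      have h1 : T F n (a + 1) fun m => ⁅w m, dg h v m⁆ :=
        (ihc a (a + 1) w (dg h v) hw.pred hv').anti hF (by omega)
      have h2 := ihm (a + 1) _ _ (ihm (a + 1) _ _ hw' h1) hv'
      have e : (dg h fun m => w m * v m) = fun m => dg h w m * ⁅w m, dg h v m⁆ * dg h v m := by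
        funext m
        simp only [dg, commutatorElement_def]
        group
      rw [e]
      exact h2
    · rw [T_succ]
      refine ⟨fun m => (F a).inv_mem (hw.val m), fun h => ?_⟩
      have hw' := (T_succ.mp hw).2 h
      have h1 := ihi a w hw.pred
      have h2 := ihi (a + 1) _ hw'
      have h3 : T F n (a + 1) fun m => ⁅(w m)⁻¹, (dg h w m)⁻¹⁆ :=
        (ihc a (a + 1) _ _ h1 h2).anti hF (by omega)
      have h4 := ihm (a + 1) _ _ h3 h2
      have e : (dg h fun m => (w m)⁻¹) = fun m => ⁅(w m)⁻¹, (dg h w m)⁻¹⁆ * (dg h w m)⁻¹ := by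
        funext m
        simp only [dg, commutatorElement_def]
        group
      rw [e]
      exact h4
    · rw [T_succ]
      refine ⟨fun m => hc a b (Subgroup.commutator_mem_commutator (hw.val m) (hv.val m)), fun h => ?_⟩
      have hw' := (T_succ.mp hw).2 h
      have hv' := (T_succ.mp hv).2 h
      have hw0 := hw.pred
      have hv0 := hv.pred
      have hcc : T F n (a + b) fun m => ⁅w m, v m⁆ := ihc a b w v hw0 hv0
      -- first factor
      have h1 : T F n (a + b + 1) fun m => ⁅w m, dg h v m⁆ :=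
        (ihc a (b + 1) w (dg h v) hw0 hv').anti hF (by omega)
      have h2 : T F n (a + b + 1) fun m => ⁅dg h w m, ⁅w m, dg h v m⁆⁆ :=
        (ihc (a + 1) (a + b + 1) _ _ hw' h1).anti hF (by omega)
      have h3 := ihm (a + b + 1) _ _ h2 h1
      -- second factor
      have h4 : T F n 1 fun m => dg h w m * dg h v m :=
        ihm 1 _ _ (hw'.anti hF (by omega)) (hv'.anti hF (by omega))
      have h5 : T F n (a + b + 1) fun m => ⁅dg h w m * dg h v m, ⁅w m, v m⁆⁆ :=
        (ihc 1 (a + b) _ _ h4 hcc).anti hF (by omega)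
      -- third factor
      have h6 : T F n b fun m => dg h v m * v m := ihm b _ _ (hv'.anti hF (by omega)) hv0
      have h7 : T F n (a + b + 1) fun m => ⁅dg h w m, dg h v m * v m⁆ :=
        (ihc (a + 1) b _ _ hw' h6).anti hF (by omega)
      have h8 : T F n (a + b + 1) fun m => ⁅⁅w m, v m⁆, ⁅dg h w m, dg h v m * v m⁆⁆ :=
        (ihc (a + b) (a + b + 1) _ _ hcc h7).anti hF (by omega)
      have h9 := ihm (a + b + 1) _ _ h8 h7
      have h10 := ihm (a + b + 1) _ _ (ihm (a + b + 1) _ _ h3 h5) h9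
      have e : (dg h fun m => ⁅w m, v m⁆) = fun m =>
          ⁅dg h w m, ⁅w m, dg h v m⁆⁆ * ⁅w m, dg h v m⁆ * ⁅dg h w m * dg h v m, ⁅w m, v m⁆⁆ *
            (⁅⁅w m, v m⁆, ⁅dg h w m, dg h v m * v m⁆⁆ * ⁅dg h w m, dg h v m * v m⁆) := by
        funext m
        simp only [dg, commutatorElement_def]
        group
      rw [e]
      exact h10

lemma T.toPolF {F : ℕ → Subgroup G} {a : ℕ} {w : (κ → ℕ) → G} (h : ∀ n, T F n a w) : PolF F a w :=
  fun hs m => h hs.length hs le_rfl m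

lemma ofPolF {F : ℕ → Subgroup G} {a : ℕ} {w : (κ → ℕ) → G} (h : PolF F a w) (n : ℕ) : T F n a w :=
  fun hs _ m => h hs m

end PGrpAux

theorem PolF.mul {F : ℕ → Subgroup G} (hF : Antitone F) (hc : ∀ i j, ⁅F i, F j⁆ ≤ F (i + j))
    {a : ℕ} {w v : (κ → ℕ) → G} (hw : PolF F a w) (hv : PolF F a v) :
    PolF F a fun m => w m * v m :=
  PGrpAux.T.toPolF fun n => (PGrpAux.main hF hc n).1 a w v (PGrpAux.ofPolF hw n)
    (PGrpAux.ofPolF hv n)

theorem PolF.inv {F : ℕ → Subgroup G} (hF : Antitone F) (hc : ∀ i j, ⁅F i, F j⁆ ≤ F (i + j))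
    {a : ℕ} {w : (κ → ℕ) → G} (hw : PolF F a w) : PolF F a fun m => (w m)⁻¹ :=
  PGrpAux.T.toPolF fun n => (PGrpAux.main hF hc n).2.1 a w (PGrpAux.ofPolF hw n)

end Pool.Agent.Lib.Pf720nn
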