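import Pool.Agent.Lib.Pf720mp.ActMax
import Pool.Agent.Lib.Pf720ae.Lift

/-!
# Maximal inequality for products of polynomial maps in separate variables

For the maps `T_1^{P_1(m)} ⋯ T_d^{P_d(m)}` when non-commuting `T_i` have exponents in separate
variables.
-/

set_option autoImplicit false
set_option linter.unusedSectionVars false

open Finset MeasureTheory Filter Topology
open scoped ENNReal

namespace Pool.Agent.Lib.Pf720nn

open Pool.Agent.Lib.Pf720ae
open Pool.Agent.Lib.Pf720mp (maxBd_mp)

section prod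

variable {κ X : Type} [Fintype κ] [DecidableEq κ] {mX : MeasurableSpace X} {μ : Measure X}

lemma sum_split {R : Type} [CommSemiring R] (vis : κ → Prop) [DecidablePred vis] (M : κ → ℕ)
    (Ψ : (κ → ℕ) → (κ → ℕ) → R)
    (hΨ : ∀ m₁ m m₁' m', (∀ l, vis l → m₁ l = m₁' l) → (∀ l, ¬ vis l → m l = m' l) →
      Ψ m₁ m = Ψ m₁' m') :
    ∑ m ∈ box M, ∑ m₁ ∈ box M, Ψ m₁ m = ((box M).card : R) * ∑ a ∈ box M, Ψ a a := by
  have h1 : ∑ m ∈ box M, ∑ m₁ ∈ box M, Ψ m₁ m = ∑ p ∈ box M ×ˢ box M, Ψ p.2 p.1 :=
    (Finset.sum_product (box M) (box M) fun p => Ψ p.2 p.1).symm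
  have h2 : ((box M).card : R) * ∑ a ∈ box M, Ψ a a = ∑ p ∈ box M ×ˢ box M, Ψ p.1 p.1 := by
    rw [Finset.sum_product (box M) (box M) fun p => Ψ p.1 p.1]
    simp only [Finset.sum_const, nsmul_eq_mul]
    rw [Finset.mul_sum]
  rw [h1, h2]
  refine Finset.sum_nbij' (fun p => (fun l => if vis l then p.2 l else p.1 l,
      fun l => if vis l then p.1 l else p.2 l))
    (fun p => (fun l => if vis l then p.2 l else p.1 l,
      fun l => if vis l then p.1 l else p.2 l)) ?_ ?_ ?_ ?_ ?_
  · rintro ⟨m, m₁⟩ h
    rw [Finset.mem_product, mem_box, mem_box] at h ⊢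
    constructor <;> intro l <;> simp only <;> split_ifs
    exacts [h.2 l, h.1 l, h.1 l, h.2 l]
  · rintro ⟨m, m₁⟩ h
    rw [Finset.mem_product, mem_box, mem_box] at h ⊢
    constructor <;> intro l <;> simp only <;> split_ifs
    exacts [h.2 l, h.1 l, h.1 l, h.2 l]
  · rintro ⟨m, m₁⟩ _
    refine Prod.ext ?_ ?_ <;> funext l <;> simp only <;> split_ifs <;> rfl
  · rintro ⟨m, m₁⟩ _
    refine Prod.ext ?_ ?_ <;> funext l <;> simp only <;> split_ifs <;> rfl
  · rintro ⟨m, m₁⟩ _
    refine hΨ _ _ _ _ (fun l hl => ?_) (fun l hl => ?_)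
    · simp only [if_pos hl]
    · simp only [if_neg hl]

/-- products of maps in separate variables -/
theorem maxBd_mul {U V : (κ → ℕ) → X → X} (hU : MaxBd μ U) (hV : MaxBd μ V)
    (hUm : ∀ m, Measurable (U m)) (vis : κ → Prop)
    (hUv : ∀ m m', (∀ l, vis l → m l = m' l) → U m = U m')
    (hVv : ∀ m m', (∀ l, ¬ vis l → m l = m' l) → V m = V m') :
    MaxBd μ fun m x => U m (V m x) := by
  classical
  obtain ⟨A, hA, hU⟩ := hU
  obtain ⟨B, hB, hV⟩ := hV
  refine ⟨B * A, ENNReal.mul_ne_top hB hA, fun g hg => ?_⟩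
  have hpt : ∀ x, NS (fun m x => U m (V m x)) g x ≤ NS V (NS U g) x := by
    intro x
    refine iSup_le fun M => ?_
    refine le_trans ?_ (le_iSup _ M)
    refine mul_le_mul_right ?_ _
    rw [boxs_univ]
    set c : ℝ≥0∞ := (∏ l : κ, ((M l : ℝ≥0∞) + 1))⁻¹ with hc
    have hcard : (((box fun l => M l + 1).card : ℕ) : ℝ≥0∞) = ∏ l : κ, ((M l : ℝ≥0∞) + 1) := by
      rw [card_box]
      push_cast
      rfl
    have hcc : c * (((box fun l => M l + 1).card : ℕ) : ℝ≥0∞) = 1 := by
      rw [hcard, hc]
      refine ENNReal.inv_mul_cancel ?_ ?_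
      · exact Finset.prod_ne_zero_iff.2 fun l _ => by simp
      · exact ENNReal.prod_ne_top fun l _ => by finiteness
    have h1 := sum_split vis (fun l => M l + 1) (fun m₁ m => g (U m₁ (V m x)))
      (fun m₁ m m₁' m' h h' => by rw [hUv m₁ m₁' h, hVv m m' h'])
    calc ∑ m ∈ box fun l => M l + 1, g (U m (V m x))
        = c * (((box fun l => M l + 1).card : ℕ) : ℝ≥0∞) *
            ∑ m ∈ box fun l => M l + 1, g (U m (V m x)) := by rw [hcc, one_mul]
      _ = c * ∑ m ∈ box (fun l => M l + 1), ∑ m₁ ∈ box (fun l => M l + 1),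
            g (U m₁ (V m x)) := by rw [mul_assoc, ← h1]
      _ = ∑ m ∈ box (fun l => M l + 1), c * ∑ m₁ ∈ box (fun l => M l + 1),
            g (U m₁ (V m x)) := Finset.mul_sum _ _ _
      _ ≤ ∑ m ∈ box (fun l => M l + 1), NS U g (V m x) := by
          refine Finset.sum_le_sum fun m _ => ?_
          refine le_trans (le_of_eq ?_) (le_iSup _ M)
          rw [boxs_univ]
  calc ∫⁻ x, (NS (fun m x => U m (V m x)) g x) ^ 2 ∂μ
      ≤ ∫⁻ x, (NS V (NS U g) x) ^ 2 ∂μ := by
        gcongr with x
        exact hpt x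
    _ ≤ B * ∫⁻ x, (NS U g x) ^ 2 ∂μ := hV _ (measurable_NS hUm hg)
    _ ≤ B * (A * ∫⁻ x, (g x) ^ 2 ∂μ) := by gcongr; exact hU g hg
    _ = B * A * ∫⁻ x, (g x) ^ 2 ∂μ := by rw [mul_assoc]

lemma maxBd_id : MaxBd μ fun (_ : κ → ℕ) (x : X) => x := by
  refine ⟨1, ENNReal.one_ne_top, fun g hg => ?_⟩
  rw [one_mul]
  gcongr with x
  refine iSup_le fun M => ?_
  rw [boxs_univ, Finset.sum_const, nsmul_eq_mul, card_box]
  push_cast
  rw [← mul_assoc, ENNReal.inv_mul_cancel, one_mul]
  · exact Finset.prod_ne_zero_iff.2 fun l _ => by simp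
  · exact ENNReal.prod_ne_top fun l _ => by finiteness

end prod

/-- splitting an ordered product along a monotone labelling -/
lemma prod_split {G : Type} [Group G] {d : ℕ} (β : Fin d → ℕ) (hβ : Monotone β) (b : ℕ)
    (x : Fin d → G) : (List.ofFn x).prod = (List.ofFn fun i => if β i < b then x i else 1).prod *
      (List.ofFn fun i => if β i < b then 1 else x i).prod := by
  induction d with
  | zero => simp
  | succ d ih =>
    have ih' := ih (fun i => β i.succ) (fun i j hij => hβ (Fin.succ_le_succ_iff.2 hij))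
      (fun i => x i.succ)
    simp only [List.ofFn_succ, List.prod_cons]
    by_cases h0 : β 0 < b
    · simp only [if_pos h0, one_mul]
      rw [ih', mul_assoc]
    · have hall : ∀ i, ¬ β i < b := fun i hi => h0 (lt_of_le_of_lt (hβ (Fin.zero_le i)) hi)
      simp only [if_neg (hall _)]
      simp

/-- the polynomials divide into consecutive blocks, commuting inside a block and in separate
variables for different blocks -/
def Sep {X : Type} {d k : ℕ} (T : Fin d → Equiv.Perm X) (P : Fin d → MvPolynomial (Fin k) ℤ) :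
    Prop :=
  ∃ β : Fin d → ℕ, Monotone β ∧ ∀ i i', P i ≠ 0 → P i' ≠ 0 →
    (β i = β i' → T i * T i' = T i' * T i) ∧ (β i ≠ β i' → Disjoint (P i).vars (P i').vars)

/-- the map of a tuple of polynomials, at `m + 1` -/
noncomputable def pS {X : Type} {d k : ℕ} (T : Fin d → Equiv.Perm X)
    (P : Fin d → MvPolynomial (Fin k) ℤ) (m : Fin k → ℕ) : X → X :=
  pw T fun i => MvPolynomial.eval (fun l => (((m + 1) l : ℕ) : ℤ)) (P i)

section seps

variable {X : Type} {mX : MeasurableSpace X} {μ : Measure X} [IsProbabilityMeasure μ] {d : ℕ}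
  (T : Fin d → Equiv.Perm X)

lemma pS_mp (hT : ∀ i, Measurable (T i) ∧ Measurable (T i).symm ∧ MeasurePreserving (T i) μ μ)
    {k : ℕ} (P : Fin d → MvPolynomial (Fin k) ℤ) (m : Fin k → ℕ) :
    MeasurePreserving (pS T P m) μ μ := mp_pw T hT _

lemma pS_congr {k : ℕ} (P : Fin d → MvPolynomial (Fin k) ℤ) {m m' : Fin k → ℕ}
    (h : ∀ i, ∀ l ∈ (P i).vars, m l = m' l) : pS T P m = pS T P m' := by
  have e : (fun i => MvPolynomial.eval (fun l => (((m + 1) l : ℕ) : ℤ)) (P i)) =
      fun i => MvPolynomial.eval (fun l => (((m' + 1) l : ℕ) : ℤ)) (P i) := by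
    funext i
    refine MvPolynomial.eval₂Hom_congr' rfl (fun l hl _ => ?_) rfl
    rw [Pi.add_apply, Pi.add_apply, h i l hl]
  unfold pS
  rw [e]

/-- the polynomial `P(m + 1)` -/
noncomputable def shQ {k : ℕ} (p : MvPolynomial (Fin k) ℤ) : MvPolynomial (Fin k) ℤ :=
  MvPolynomial.bind₁ (fun l => MvPolynomial.X l + 1) p

lemma eval_shQ {k : ℕ} (p : MvPolynomial (Fin k) ℤ) (m : Fin k → ℕ) :
    MvPolynomial.eval (fun l => (m l : ℤ)) (shQ p) =
      MvPolynomial.eval (fun l => (((m + 1) l : ℕ) : ℤ)) p := by
  unfold shQ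
  show MvPolynomial.eval₂Hom (RingHom.id ℤ) (fun l => (m l : ℤ))
      (MvPolynomial.bind₁ (fun l => MvPolynomial.X l + 1) p) =
    MvPolynomial.eval₂Hom (RingHom.id ℤ) (fun l => (((m + 1) l : ℕ) : ℤ)) p
  rw [MvPolynomial.eval₂Hom_bind₁]
  congr 2
  funext l
  simp

/-- the case of commuting maps -/
lemma pS_comm_act (hT : ∀ i, Measurable (T i) ∧ Measurable (T i).symm ∧ MeasurePreserving (T i) μ μ)
    {k : ℕ} (P : Fin d → MvPolynomial (Fin k) ℤ)
    (hc : ∀ i i', P i ≠ 0 → P i' ≠ 0 → T i * T i' = T i' * T i) :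
    ∃ act : (Fin d → ℤ) → X → X, (∀ p q x, act (p + q) x = act p (act q x)) ∧
      (∀ p, MeasurePreserving (act p) μ μ) ∧ pS T P = fun (m : Fin k → ℕ) x =>
        act (fun i => MvPolynomial.eval (fun l => (m l : ℤ)) (shQ (P i))) x := by
  classical
  set T' : Fin d → Equiv.Perm X := fun i => if P i ≠ 0 then T i else 1 with hT'
  have hT'mp : ∀ i, Measurable (T' i) ∧ Measurable (T' i).symm ∧ MeasurePreserving (T' i) μ μ := by
    intro i
    simp only [hT']
    split_ifs with h
    · exact hT i
    · exact ⟨measurable_id, measurable_id, MeasurePreserving.id μ⟩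
  have hT'c : ∀ i i', T' i * T' i' = T' i' * T' i := by
    intro i i'
    simp only [hT']
    split_ifs with h h'
    · exact hc i i' h h'
    all_goals simp
  refine ⟨fun e x => pw T' e x, ?_, fun p => mp_pw T' hT'mp p, ?_⟩
  · intro p q x
    simp only [pw_add T' hT'c]
    rfl
  · funext m x
    unfold pS
    show pw T _ x = pw T' _ x
    congr 1
    unfold pw
    congr 2
    funext i
    beta_reduce
    rw [eval_shQ]
    simp only [hT']
    split_ifs with h
    · rfl
    · push Not at h
      rw [h, map_zero, zpow_zero, zpow_zero]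

lemma pS_comm_max (hT : ∀ i, Measurable (T i) ∧ Measurable (T i).symm ∧
      MeasurePreserving (T i) μ μ) {k : ℕ} (P : Fin d → MvPolynomial (Fin k) ℤ)
    (hc : ∀ i i', P i ≠ 0 → P i' ≠ 0 → T i * T i' = T i' * T i) : MaxBd μ (pS T P) := by
  obtain ⟨act, hadd, hmp, e⟩ := pS_comm_act T hT P hc
  rw [e]
  exact maxBd_mp (act := act) hadd hmp fun i => shQ (P i)

/-- induction over the blocks -/
theorem block_induction {k : ℕ} (C : ((Fin k → ℕ) → X → X) → Prop)
    (hid : C fun _ x => x)
    (hcomm : ∀ P : Fin d → MvPolynomial (Fin k) ℤ,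
      (∀ i i', P i ≠ 0 → P i' ≠ 0 → T i * T i' = T i' * T i) → C (pS T P))
    (hmul : ∀ (P P' : Fin d → MvPolynomial (Fin k) ℤ) (vis : Fin k → Prop),
      C (pS T P) → C (pS T P') →
      (∀ m m' : Fin k → ℕ, (∀ l, vis l → m l = m' l) → pS T P m = pS T P m') →
      (∀ m m' : Fin k → ℕ, (∀ l, ¬ vis l → m l = m' l) → pS T P' m = pS T P' m') →
      C fun m x => pS T P m (pS T P' m x))
    (P : Fin d → MvPolynomial (Fin k) ℤ) (hP : Sep T P) : C (pS T P) := by
  classical
  obtain ⟨β, hβ, hs⟩ := hP
  have key : ∀ b : ℕ, C (pS T fun i => if β i < b then P i else 0) := by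
    intro b
    induction b with
    | zero =>
      have e : (pS T fun i => if β i < 0 then P i else 0) = fun _ x => x := by
        funext m x
        unfold pS
        simp only [Nat.not_lt_zero, if_false, map_zero]
        have : (fun _ : Fin d => (0 : ℤ)) = 0 := rfl
        rw [this, @pw_zero X ⊤ d T]
        rfl
      rw [e]
      exact hid
    | succ b ih =>
      have hb := hcomm (fun i => if β i = b then P i else 0) (by
        intro i i' hi hi'
        by_cases h : β i = b
        · by_cases h' : β i' = b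
          · simp only [if_pos h] at hi
            simp only [if_pos h'] at hi'
            exact (hs i i' hi hi').1 (h.trans h'.symm)
          · simp [if_neg h'] at hi'
        · simp [if_neg h] at hi)
      have hv1 : ∀ m m' : Fin k → ℕ, (∀ l, (∃ i, β i < b ∧ l ∈ (P i).vars) → m l = m' l) →
          pS T (fun i => if β i < b then P i else 0) m =
            pS T (fun i => if β i < b then P i else 0) m' := by
        intro m m' h
        refine pS_congr T _ fun i l hl => ?_
        by_cases hi : β i < b
        · rw [if_pos hi] at hl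
          exact h l ⟨i, hi, hl⟩
        · rw [if_neg hi, MvPolynomial.vars_0] at hl
          exact absurd hl (Finset.notMem_empty l)
      have hv2 : ∀ m m' : Fin k → ℕ, (∀ l, ¬ (∃ i, β i < b ∧ l ∈ (P i).vars) → m l = m' l) →
          pS T (fun i => if β i = b then P i else 0) m =
            pS T (fun i => if β i = b then P i else 0) m' := by
        intro m m' h
        refine pS_congr T _ fun i l hl => ?_
        by_cases hi : β i = b
        · rw [if_pos hi] at hl
          refine h l ?_
          rintro ⟨i', hi', hl'⟩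
          have hPi : P i ≠ 0 := by
            rintro h0
            rw [h0, MvPolynomial.vars_0] at hl
            exact Finset.notMem_empty l hl
          have hPi' : P i' ≠ 0 := by
            rintro h0
            rw [h0, MvPolynomial.vars_0] at hl'
            exact Finset.notMem_empty l hl'
          exact (Finset.disjoint_left.1 ((hs i i' hPi hPi').2 (by omega))) hl hl'
        · rw [if_neg hi, MvPolynomial.vars_0] at hl
          exact absurd hl (Finset.notMem_empty l)
      have e : (pS T fun i => if β i < b + 1 then P i else 0) =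
          fun (m : Fin k → ℕ) x => pS T (fun i => if β i < b then P i else 0) m
            (pS T (fun i => if β i = b then P i else 0) m x) := by
        funext m x
        have e1 : pw T (fun i => MvPolynomial.eval (fun l => (((m + 1) l : ℕ) : ℤ))
              (if β i < b + 1 then P i else 0)) =
            pw T (fun i => MvPolynomial.eval (fun l => (((m + 1) l : ℕ) : ℤ))
              (if β i < b then P i else 0)) *
            pw T (fun i => MvPolynomial.eval (fun l => (((m + 1) l : ℕ) : ℤ))
              (if β i = b then P i else 0)) := by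
          unfold pw
          rw [prod_split β hβ b]
          congr 3
          · funext i
            beta_reduce
            by_cases h : β i < b
            · rw [if_pos h, if_pos h, if_pos (by omega)]
            · rw [if_neg h, if_neg h, map_zero, zpow_zero]
          · funext i
            beta_reduce
            by_cases h : β i < b
            · rw [if_pos h, if_neg (by omega), map_zero, zpow_zero]
            · rw [if_neg h]
              by_cases h' : β i = b
              · rw [if_pos h', if_pos (by omega)]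
              · rw [if_neg h', if_neg (by omega)]
        unfold pS
        rw [e1]
        rfl
      rw [e]
      exact hmul _ _ _ ih hb hv1 hv2
  have h := key ((∑ i, β i) + 1)
  have e : (fun i => if β i < (∑ i, β i) + 1 then P i else 0) = P := by
    funext i
    have : β i ≤ ∑ i, β i := Finset.single_le_sum (f := β) (fun _ _ => Nat.zero_le _)
      (Finset.mem_univ i)
    rw [if_pos (by omega)]
  rw [e] at h
  exact h

/-- separated tuples -/
theorem pS_sep_max (hT : ∀ i, Measurable (T i) ∧ Measurable (T i).symm ∧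
      MeasurePreserving (T i) μ μ) {k : ℕ} (P : Fin d → MvPolynomial (Fin k) ℤ)
    (hP : Sep T P) : MaxBd μ (pS T P) :=
  block_induction T (fun U => MaxBd μ U) maxBd_id (pS_comm_max T hT)
    (fun P P' vis h h' hv hv' => maxBd_mul h h' (fun m => (pS_mp T hT _ m).measurable) vis hv hv')
    P hP

end seps

end Pool.Agent.Lib.Pf720nn
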