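import Pool.Agent.Lib.Pf720nn.PGrp
import Pool.Agent.Lib.Pf720nn.PLc
import Pool.Agent.Lib.Pf720np.Poly

/-!
# Powers with polynomial exponents, and words

`polF_zpow`: for `f : (κ → ℕ) → ℤ` let `Δ_h f m = f (m + h) - f m`; then
`dgs hs (fun m => g ^ f m) = fun m => g ^ (Δ_hs f) m`. If `f` is the evaluation of a polynomial of total
degree `≤ e`, then all iterated differences of length `≥ e + 1` vanish: let `E n` be the set of functions
all of whose differences of length `≥ n` vanish; `E n` is closed under sums, multiples and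
translations, constants are in `E 1`, and `f ∈ E n → m_l f ∈ E (n + 1)` (induction on `n`:
`Δ_h (m_l f) = m_l Δ_h f + h_l f(· + h)`), so a monomial of degree `k` is in `E (k + 1)`
(`MvPolynomial.as_sum`/`eval_eq'` and `MvPolynomial.le_totalDegree`). So for `hs.length ≥ e + 1` the iterated
difference is `1`, and for `hs.length ≤ e` the group `lc G e hs.length` is `⊤`.

`polF_word`: `gw t x = (List.ofFn fun i => t i ^ x i).prod` (Lib/Pf720np/Poly.lean): induction on `d` with
`List.ofFn_succ` and `PolF.mul` (`lc_anti`, `lc_comm`).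
-/

set_option autoImplicit false
set_option linter.unusedSectionVars false

namespace Pool.Agent.Lib.Pf720nn

open Pool.Agent.Lib.Pf720np (gw)

variable {κ : Type} {G : Type} [Group G]

namespace PPowAux

/-- iterated additive differences -/
def dz : List (κ → ℕ) → ((κ → ℕ) → ℤ) → (κ → ℕ) → ℤ
  | [], f => f
  | h :: hs, f => dz hs (fun m => f (m + h) - f m)

/-- functions all of whose differences of order `n` vanish -/
def Ed : ℕ → ((κ → ℕ) → ℤ) → Prop
  | 0, f => ∀ m, f m = 0
  | n + 1, f => ∀ h, Ed n (fun m => f (m + h) - f m)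

lemma dgs_zpow (g : G) (hs : List (κ → ℕ)) (f : (κ → ℕ) → ℤ) (m : κ → ℕ) :
    dgs hs (fun m => g ^ f m) m = g ^ dz hs f m := by
  induction hs generalizing f with
  | nil => rfl
  | cons h hs ih =>
    rw [dgs_cons]
    have e : dg h (fun m => g ^ f m) = fun m => g ^ ((fun m => f (m + h) - f m) m) := by
      funext n
      show g ^ f (n + h) * (g ^ f n)⁻¹ = g ^ (f (n + h) - f n)
      rw [zpow_sub]
    rw [e, ih]
    rfl

lemma ed_zero (n : ℕ) {f : (κ → ℕ) → ℤ} (hf : ∀ m, f m = 0) : Ed n f := by
  induction n generalizing f with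
  | zero => exact hf
  | succ n ih => exact fun h => ih fun m => by rw [hf, hf, sub_zero]

lemma ed_succ {n : ℕ} {f : (κ → ℕ) → ℤ} (hf : Ed n f) : Ed (n + 1) f := by
  induction n generalizing f with
  | zero => exact ed_zero 1 hf
  | succ n ih => exact fun h => ih (hf h)

lemma ed_mono {n k : ℕ} (hnk : n ≤ k) {f : (κ → ℕ) → ℤ} (hf : Ed n f) : Ed k f := by
  induction hnk with
  | refl => exact hf
  | step _ ih => exact ed_succ ih

lemma ed_add {n : ℕ} {f g : (κ → ℕ) → ℤ} (hf : Ed n f) (hg : Ed n g) :
    Ed n (fun m => f m + g m) := by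
  induction n generalizing f g with
  | zero =>
    intro m
    show f m + g m = 0
    rw [hf m, hg m, add_zero]
  | succ n ih =>
    intro h
    have h1 := ih (hf h) (hg h)
    have e : (fun m => f (m + h) + g (m + h) - (f m + g m)) =
        fun m => (f (m + h) - f m) + (g (m + h) - g m) := by
      funext m
      ring
    show Ed n (fun m => f (m + h) + g (m + h) - (f m + g m))
    rw [e]
    exact h1

lemma ed_const_mul {n : ℕ} (c : ℤ) {f : (κ → ℕ) → ℤ} (hf : Ed n f) :
    Ed n (fun m => c * f m) := by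
  induction n generalizing f with
  | zero =>
    intro m
    show c * f m = 0
    rw [hf m, mul_zero]
  | succ n ih =>
    intro h
    have h1 := ih (hf h)
    have e : (fun m => c * f (m + h) - c * f m) = fun m => c * (f (m + h) - f m) := by
      funext m
      ring
    show Ed n (fun m => c * f (m + h) - c * f m)
    rw [e]
    exact h1

lemma ed_trans {n : ℕ} (r : κ → ℕ) {f : (κ → ℕ) → ℤ} (hf : Ed n f) :
    Ed n (fun m => f (m + r)) := by
  induction n generalizing f with
  | zero => exact fun m => hf (m + r)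
  | succ n ih =>
    intro h
    have h1 := ih (hf h)
    have e : (fun m => f (m + h + r) - f (m + r)) = fun m => f (m + r + h) - f (m + r) := by
      funext m
      rw [add_right_comm]
    show Ed n (fun m => f (m + h + r) - f (m + r))
    rw [e]
    exact h1

lemma ed_var_mul {n : ℕ} (l : κ) {f : (κ → ℕ) → ℤ} (hf : Ed n f) :
    Ed (n + 1) (fun m => (m l : ℤ) * f m) := by
  induction n generalizing f with
  | zero => exact ed_zero 1 fun m => by rw [hf m, mul_zero]
  | succ n ih =>
    intro h
    have h1 := ih (hf h)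
    have h2 := ed_const_mul (h l : ℤ) (ed_trans h hf)
    have e : (fun m : κ → ℕ => ((m + h) l : ℤ) * f (m + h) - (m l : ℤ) * f m) =
        fun m => (m l : ℤ) * (f (m + h) - f m) + (h l : ℤ) * f (m + h) := by
      funext m
      rw [Pi.add_apply]
      push_cast
      ring
    show Ed (n + 1) (fun m : κ → ℕ => ((m + h) l : ℤ) * f (m + h) - (m l : ℤ) * f m)
    rw [e]
    exact ed_add h1 h2

lemma ed_pow_mul {n : ℕ} (l : κ) (k : ℕ) {f : (κ → ℕ) → ℤ} (hf : Ed n f) :
    Ed (n + k) (fun m => (m l : ℤ) ^ k * f m) := by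
  induction k with
  | zero =>
    have e : (fun m : κ → ℕ => (m l : ℤ) ^ 0 * f m) = f := by
      funext m
      rw [pow_zero, one_mul]
    rw [e]
    exact hf
  | succ k ih =>
    have e : (fun m : κ → ℕ => (m l : ℤ) ^ (k + 1) * f m) =
        fun m => (m l : ℤ) * ((m l : ℤ) ^ k * f m) := by
      funext m
      rw [pow_succ]
      ring
    rw [e]
    exact ed_var_mul l ih

lemma ed_mono_fun (a : κ → ℕ) (S : Finset κ) :
    Ed (∑ i ∈ S, a i + 1) (fun m : κ → ℕ => ∏ i ∈ S, (m i : ℤ) ^ a i) := by
  classical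
  induction S using Finset.induction_on with
  | empty =>
    intro h
    refine ed_zero 0 fun m => ?_
    simp
  | insert j S hj ih =>
    have h1 := ed_pow_mul j (a j) ih
    have e : (fun m : κ → ℕ => ∏ i ∈ insert j S, (m i : ℤ) ^ a i) =
        fun m => (m j : ℤ) ^ a j * ∏ i ∈ S, (m i : ℤ) ^ a i := by
      funext m
      rw [Finset.prod_insert hj]
    rw [e, Finset.sum_insert hj]
    have e2 : a j + ∑ i ∈ S, a i + 1 = ∑ i ∈ S, a i + 1 + a j := by omega
    rw [e2]
    exact h1

lemma ed_sum {ι : Type*} {n : ℕ} (S : Finset ι) (f : ι → (κ → ℕ) → ℤ)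
    (hf : ∀ i ∈ S, Ed n (f i)) : Ed n (fun m => ∑ i ∈ S, f i m) := by
  classical
  induction S using Finset.induction_on with
  | empty => exact ed_zero n fun m => by simp
  | insert j S hj ih =>
    have h1 := ed_add (hf j (Finset.mem_insert_self j S))
      (ih fun i hi => hf i (Finset.mem_insert_of_mem hi))
    have e : (fun m => ∑ i ∈ insert j S, f i m) = fun m => f j m + ∑ i ∈ S, f i m := by
      funext m
      rw [Finset.sum_insert hj]
    rw [e]
    exact h1

lemma ed_eval (p : MvPolynomial κ ℤ) {e : ℕ} (hp : p.totalDegree ≤ e) :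
    Ed (e + 1) (fun m : κ → ℕ => MvPolynomial.eval (fun l => (m l : ℤ)) p) := by
  have e1 : (fun m : κ → ℕ => MvPolynomial.eval (fun l => (m l : ℤ)) p) =
      fun m => ∑ d ∈ p.support, p.coeff d * ∏ i ∈ d.support, (m i : ℤ) ^ d i := by
    funext m
    exact MvPolynomial.eval_eq _ _
  rw [e1]
  refine ed_sum p.support (fun d m => p.coeff d * ∏ i ∈ d.support, (m i : ℤ) ^ d i)
    fun d hd => ?_
  refine ed_const_mul _ (ed_mono ?_ (ed_mono_fun (fun i => d i) d.support))
  have h1 : (d.sum fun _ k => k) ≤ p.totalDegree := MvPolynomial.le_totalDegree hd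
  have h2 : (d.sum fun _ k => k) = ∑ i ∈ d.support, d i := rfl
  omega

lemma dz_zero {n : ℕ} {f : (κ → ℕ) → ℤ} (hf : Ed n f) (hs : List (κ → ℕ))
    (hn : n ≤ hs.length) (m : κ → ℕ) : dz hs f m = 0 := by
  induction hs generalizing n f with
  | nil =>
    have : n = 0 := by simpa using hn
    subst this
    exact hf m
  | cons h hs ih =>
    cases n with
    | zero =>
      have h1 : Ed 0 (fun m => f (m + h) - f m) := ed_succ hf h
      exact ih h1 (Nat.zero_le _)
    | succ n => exact ih (hf h) (by simpa using hn)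

end PPowAux

open PPowAux in
theorem polF_zpow (g : G) (p : MvPolynomial κ ℤ) {e : ℕ} (he : 0 < e) (hp : p.totalDegree ≤ e) :
    PolF (lc G e) 0 fun m : κ → ℕ => g ^ MvPolynomial.eval (fun l => (m l : ℤ)) p := by
  intro hs m
  rw [dgs_zpow]
  rcases Nat.lt_or_ge e hs.length with h | h
  · rw [dz_zero (ed_eval p hp) hs h m, zpow_zero]
    exact Subgroup.one_mem _
  · have h1 : (0 + hs.length - 1) / e = 0 := Nat.div_eq_of_lt (by omega)
    unfold lc
    rw [h1, Subgroup.lowerCentralSeries_zero]
    exact Subgroup.mem_top _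

theorem polF_word {d : ℕ} (t : Fin d → G) (P : Fin d → MvPolynomial κ ℤ) {e : ℕ} (he : 0 < e)
    (hP : ∀ i, (P i).totalDegree ≤ e) : PolF (lc G e) 0 fun m : κ → ℕ =>
      gw t fun i => MvPolynomial.eval (fun l => (m l : ℤ)) (P i) := by
  induction d with
  | zero =>
    have h := polF_zpow (1 : G) (0 : MvPolynomial κ ℤ) he (by simp)
    simpa [gw] using h
  | succ d ih =>
    have h1 := polF_zpow (t 0) (P 0) he (hP 0)
    have h2 := ih (fun i => t i.succ) (fun i => P i.succ) (fun i => hP i.succ)
    have h3 := PolF.mul (lc_anti e) (lc_comm he) h1 h2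
    have e1 : (fun m : κ → ℕ => gw t fun i => MvPolynomial.eval (fun l => (m l : ℤ)) (P i)) =
        fun m : κ → ℕ => t 0 ^ MvPolynomial.eval (fun l => (m l : ℤ)) (P 0) *
          gw (fun i => t i.succ) fun i => MvPolynomial.eval (fun l => (m l : ℤ)) (P i.succ) := by
      funext m
      unfold gw
      rw [List.ofFn_succ, List.prod_cons]
    rw [e1]
    exact h3

end Pool.Agent.Lib.Pf720nn
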