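import Pool.Agent.Lib.Pf720nn.BlkA
import Pool.Agent.Lib.Pf720mp.PolL2
import Pool.Agent.Lib.Pf720ae.Rel

/-!
# Products of polynomial maps in separate variables

Pointwise convergence (`n = 1`) for the maps `T_1^{P_1(m)} ⋯ T_d^{P_d(m)}` when non-commuting `T_i`
have exponents in separate variables.
-/

set_option autoImplicit false
set_option linter.unusedSectionVars false

open Finset MeasureTheory Filter Topology
open scoped ENNReal

namespace Pool.Agent.Lib.Pf720nn

open Pool.Agent.Lib.Pf720ae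
open Pool.Agent.Lib.Pf720mp (poly_L2_mp)

section prod

variable {κ X : Type} [Fintype κ] [DecidableEq κ] {mX : MeasurableSpace X} {μ : Measure X}

/-- pointwise convergence for square integrable functions -/
def CvL2 (μ : Measure X) (U : (κ → ℕ) → X → X) : Prop :=
  ∀ φ : X → ℝ, MemLp φ 2 μ → ∀ᵐ x ∂μ, Cvg fun m : κ → ℕ => φ (U m x)

lemma cvL2_id : CvL2 μ fun (_ : κ → ℕ) (x : X) => x := fun φ _ =>
  Eventually.of_forall fun x => Cvg.const (φ x)

lemma memLp_of_lintegral {φ : X → ℝ} (hφ : AEStronglyMeasurable φ μ)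
    (h : ∫⁻ x, (ENNReal.ofReal |φ x|) ^ 2 ∂μ ≠ ⊤) : MemLp φ 2 μ := by
  refine ⟨hφ, ?_⟩
  rw [eLpNorm_lt_top_iff_lintegral_rpow_enorm_lt_top (by norm_num) (by norm_num)]
  refine lt_of_le_of_lt (le_of_eq ?_) (lt_top_iff_ne_top.2 h)
  refine lintegral_congr fun x => ?_
  rw [Real.enorm_eq_ofReal_abs]
  norm_num

lemma lintegral_of_memLp {φ : X → ℝ} (h : MemLp φ 2 μ) :
    ∫⁻ x, (ENNReal.ofReal |φ x|) ^ 2 ∂μ ≠ ⊤ := by
  have h1 := (eLpNorm_lt_top_iff_lintegral_rpow_enorm_lt_top (by norm_num) (by norm_num)).1 h.2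
  refine ne_top_of_le_ne_top h1.ne (le_of_eq (lintegral_congr fun x => ?_))
  rw [Real.enorm_eq_ofReal_abs]
  norm_num

/-- convergence along products of maps in separate variables -/
theorem cvL2_mul {U V : (κ → ℕ) → X → X} (hU : CvL2 μ U) (hV : CvL2 μ V) (mU : MaxBd μ U)
    (mV : MaxBd μ V) (hUm : ∀ m, MeasurePreserving (U m) μ μ)
    (hVm : ∀ m, MeasurePreserving (V m) μ μ) (vis : κ → Prop)
    (hUv : ∀ m m', (∀ l, vis l → m l = m' l) → U m = U m')
    (hVv : ∀ m m', (∀ l, ¬ vis l → m l = m' l) → V m = V m') :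
    CvL2 μ fun m x => U m (V m x) := by
  classical
  -- measurable functions suffice
  suffices hmain : ∀ φ : X → ℝ, Measurable φ → MemLp φ 2 μ →
      ∀ᵐ x ∂μ, Cvg fun m : κ → ℕ => φ (U m (V m x)) by
    intro φ hφ
    obtain ⟨ψ, hψ, hφψ⟩ := hφ.1
    have h1 := hmain ψ hψ.measurable (hφ.ae_eq hφψ)
    have h2 : ∀ᵐ x ∂μ, ∀ m, φ (U m (V m x)) = ψ (U m (V m x)) := ae_all_iff.2 fun m =>
      ((hUm m).comp (hVm m)).quasiMeasurePreserving.ae hφψ
    filter_upwards [h1, h2] with x h1 h2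
    exact h1.congr fun m => (h2 m).symm
  intro φ hφm hφ
  have hUme : ∀ m, Measurable (U m) := fun m => (hUm m).measurable
  have hVme : ∀ m, Measurable (V m) := fun m => (hVm m).measurable
  -- the limit along `U`
  have ham : ∀ M, Measurable fun x => avg M fun m => φ (U m x) := fun M => by
    unfold avg
    exact (Finset.measurable_fun_sum _ fun m _ => hφm.comp (hUme m)).const_mul _
  obtain ⟨L, hLm, hL⟩ := measurable_limit_of_tendsto_metrizable_ae (μ := μ)
    (f := fun (M : κ → ℕ) x => avg M fun m => φ (U m x)) (L := atTop)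
    (fun M => (ham M).aemeasurable) (hU φ hφ)
  set g : X → ℝ≥0∞ := fun x => ENNReal.ofReal |φ x| with hg
  have hgm : Measurable g := (continuous_abs.measurable.comp hφm).ennreal_ofReal
  have hg2 : ∫⁻ x, (g x) ^ 2 ∂μ ≠ ⊤ := lintegral_of_memLp hφ
  obtain ⟨A, hA, hUA⟩ := mU
  have hNS : ∫⁻ x, (NS U g x) ^ 2 ∂μ ≠ ⊤ :=
    ne_top_of_le_ne_top (ENNReal.mul_ne_top hA hg2) (hUA g hgm)
  have habs : ∀ (M : κ → ℕ), (∀ l, 0 < M l) → ∀ x,
      ENNReal.ofReal |avg M fun m => φ (U m x)| ≤ NS U g x := by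
    intro M hM x
    refine (ENNReal.ofReal_le_ofReal (abs_avg_le M _)).trans ?_
    exact ofReal_avg_le_NS (U := U) hM (fun x => |φ x|) (fun x => abs_nonneg _) x
  have hLle : ∀ᵐ x ∂μ, ENNReal.ofReal |L x| ≤ NS U g x := by
    filter_upwards [hL] with x hx
    have h1 : Tendsto (fun M : κ → ℕ => ENNReal.ofReal |avg M fun m => φ (U m x)|) atTop
        (𝓝 (ENNReal.ofReal |L x|)) :=
      ((ENNReal.continuous_ofReal.comp continuous_abs).tendsto (L x)).comp hx
    refine le_of_tendsto h1 ?_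
    filter_upwards [eventually_pos] with M hM
    exact habs M hM x
  have hL2 : MemLp L 2 μ := by
    refine memLp_of_lintegral hLm.aestronglyMeasurable (ne_top_of_le_ne_top hNS ?_)
    refine lintegral_mono_ae ?_
    filter_upwards [hLle] with x hx
    exact pow_le_pow_left' hx 2
  -- the tails
  set h : ℕ → X → ℝ≥0∞ := fun N x => ⨆ M : κ → ℕ, ⨆ _ : ∀ l, N + 1 ≤ M l,
    ENNReal.ofReal |(avg M fun m => φ (U m x)) - L x| with hh
  have hhm : ∀ N, Measurable (h N) := fun N =>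
    Measurable.iSup fun M => Measurable.iSup_Prop _
      (continuous_abs.measurable.comp ((ham M).sub hLm)).ennreal_ofReal
  have hhle : ∀ N, ∀ᵐ x ∂μ, h N x ≤ 2 * NS U g x := by
    intro N
    filter_upwards [hLle] with x hx
    refine iSup_le fun M => iSup_le fun hM => ?_
    calc ENNReal.ofReal |(avg M fun m => φ (U m x)) - L x|
        ≤ ENNReal.ofReal (|avg M fun m => φ (U m x)| + |L x|) :=
          ENNReal.ofReal_le_ofReal (abs_sub _ _)
      _ = ENNReal.ofReal |avg M fun m => φ (U m x)| + ENNReal.ofReal |L x| :=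
          ENNReal.ofReal_add (abs_nonneg _) (abs_nonneg _)
      _ ≤ NS U g x + NS U g x :=
          add_le_add (habs M (fun l => lt_of_lt_of_le (Nat.succ_pos N) (hM l)) x) hx
      _ = 2 * NS U g x := (two_mul _).symm
  have hht : ∀ᵐ x ∂μ, Tendsto (fun N => h N x) atTop (𝓝 0) := by
    filter_upwards [hL] with x hx
    rw [ENNReal.tendsto_atTop_zero]
    intro ε hε
    by_cases hεt : ε = ⊤
    · exact ⟨0, fun N _ => by rw [hεt]; exact le_top⟩
    have hε' : 0 < ε.toReal := ENNReal.toReal_pos hε.ne' hεt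
    have h1 := Metric.tendsto_atTop.1 hx ε.toReal hε'
    obtain ⟨M₀, hM₀⟩ := h1
    refine ⟨∑ l, M₀ l, fun N hN => iSup_le fun M => iSup_le fun hM => ?_⟩
    have h2 := hM₀ M (fun l => by
      have h3 : M₀ l ≤ ∑ l, M₀ l := Finset.single_le_sum (f := M₀) (fun _ _ => Nat.zero_le _)
        (Finset.mem_univ l)
      have h4 := hM l
      show M₀ l ≤ M l
      omega)
    rw [Real.dist_eq] at h2
    rw [← ENNReal.ofReal_toReal hεt]
    exact ENNReal.ofReal_le_ofReal h2.le
  have hint : Tendsto (fun N => ∫⁻ x, (h N x) ^ 2 ∂μ) atTop (𝓝 0) := by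
    have h1 := tendsto_lintegral_of_dominated_convergence (μ := μ)
      (F := fun N x => (h N x) ^ 2) (f := fun _ => 0) (fun x => (2 * NS U g x) ^ 2)
      (fun N => (hhm N).pow_const 2) (fun N => by
        filter_upwards [hhle N] with x hx
        exact pow_le_pow_left' hx 2) ?_ ?_
    · simpa using h1
    · have e : ∀ x, (2 * NS U g x) ^ 2 = 4 * (NS U g x) ^ 2 := fun x => by
        rw [mul_pow]; norm_num
      simp only [e]
      rw [lintegral_const_mul _ ((measurable_NS hUme hgm).pow_const 2)]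
      exact ENNReal.mul_ne_top (by norm_num) hNS
    · filter_upwards [hht] with x hx
      have := (ENNReal.continuous_pow 2).tendsto 0 |>.comp hx
      simpa [Function.comp_def] using this
  -- the maximal function of the tails
  obtain ⟨B, hB, hVB⟩ := mV
  have hlim : ∫⁻ x, liminf (fun N => (NS V (h N) x) ^ 2) atTop ∂μ = 0 := by
    have h1 : ∫⁻ x, liminf (fun N => (NS V (h N) x) ^ 2) atTop ∂μ
        ≤ liminf (fun N => ∫⁻ x, (NS V (h N) x) ^ 2 ∂μ) atTop :=
      lintegral_liminf_le fun N => (measurable_NS hVme (hhm N)).pow_const 2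
    have h2 : Tendsto (fun N => ∫⁻ x, (NS V (h N) x) ^ 2 ∂μ) atTop (𝓝 0) := by
      have h3 : Tendsto (fun N => B * ∫⁻ x, (h N x) ^ 2 ∂μ) atTop (𝓝 (B * 0)) :=
        ENNReal.Tendsto.const_mul hint (Or.inr hB)
      rw [mul_zero] at h3
      exact tendsto_of_tendsto_of_tendsto_of_le_of_le tendsto_const_nhds h3
        (fun _ => zero_le) (fun N => hVB _ (hhm N))
    rw [h2.liminf_eq] at h1
    exact le_antisymm h1 zero_le
  have hae : ∀ᵐ x ∂μ, liminf (fun N => (NS V (h N) x) ^ 2) atTop = 0 := by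
    rw [lintegral_eq_zero_iff (Measurable.liminf fun N =>
      (measurable_NS hVme (hhm N)).pow_const 2)] at hlim
    exact hlim
  filter_upwards [hae, hV L hL2] with x hx hLx
  refine exists_tendsto_of_approx _ fun ε hε => ?_
  have h1 : liminf (fun N => (NS V (h N) x) ^ 2) atTop < (ENNReal.ofReal ε) ^ 2 := by
    rw [hx]
    have : 0 < ENNReal.ofReal ε := ENNReal.ofReal_pos.2 hε
    positivity
  obtain ⟨N, hN⟩ := (frequently_lt_of_liminf_lt (by isBoundedDefault) h1).exists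
  have hN' : NS V (h N) x < ENNReal.ofReal ε := by
    by_contra hcon
    exact absurd hN (not_lt.2 (pow_le_pow_left' (not_lt.1 hcon) 2))
  refine ⟨fun M => avg M fun m => L (V m x), hLx, ?_⟩
  filter_upwards [eventually_ge (N + 1)] with M hM
  have hMpos : ∀ l, 0 < M l := fun l => lt_of_lt_of_le (Nat.succ_pos N) (hM l)
  have hsp : avg M (fun m => φ (U m (V m x))) =
      avg M fun m => avg M fun m₁ => φ (U m₁ (V m x)) := by
    have h2 := sum_split vis M (fun m₁ m => φ (U m₁ (V m x)))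
      (fun m₁ m m₁' m' h h' => by rw [hUv m₁ m₁' h, hVv m m' h'])
    unfold avg
    rw [← Finset.mul_sum, h2, card_box]
    have hpos : (0 : ℝ) < ∏ l, (M l : ℝ) :=
      Finset.prod_pos fun l _ => by exact_mod_cast hMpos l
    push_cast
    rw [← mul_assoc (∏ l, (M l : ℝ))⁻¹ (∏ l, (M l : ℝ)), inv_mul_cancel₀ hpos.ne', one_mul]
  rw [hsp, ← avg_sub]
  have h3 : ENNReal.ofReal |avg M fun m => (avg M fun m₁ => φ (U m₁ (V m x))) - L (V m x)| <
      ENNReal.ofReal ε := by
    refine lt_of_le_of_lt ?_ hN'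
    refine (ENNReal.ofReal_le_ofReal (abs_avg_le M _)).trans ?_
    refine ofReal_avg_le_NS' hMpos _ (fun m => abs_nonneg _) (h N) x fun m => ?_
    exact le_iSup_of_le M (le_iSup_of_le hM le_rfl)
  exact ((ENNReal.ofReal_lt_ofReal_iff hε).1 h3).le

end prod

section seps

variable {X : Type} {mX : MeasurableSpace X} {μ : Measure X} [IsProbabilityMeasure μ] {d : ℕ}
  (T : Fin d → Equiv.Perm X)

/-- separated tuples -/
theorem pS_sep (hT : ∀ i, Measurable (T i) ∧ Measurable (T i).symm ∧ MeasurePreserving (T i) μ μ)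
    {k : ℕ} (P : Fin d → MvPolynomial (Fin k) ℤ) (hP : Sep T P) :
    MaxBd μ (pS T P) ∧ CvL2 μ (pS T P) := by
  refine block_induction T (fun U => MaxBd μ U ∧ CvL2 μ U) ⟨maxBd_id, cvL2_id⟩
    (fun P hc => ⟨pS_comm_max T hT P hc, fun φ hφ => ?_⟩) (fun P P' vis h h' hv hv' =>
      ⟨maxBd_mul h.1 h'.1 (fun m => (pS_mp T hT _ m).measurable) vis hv hv',
        cvL2_mul h.2 h'.2 h.1 h'.1 (pS_mp T hT _) (pS_mp T hT _) vis hv hv'⟩) P hP
  obtain ⟨act, hadd, hmp, e⟩ := pS_comm_act T hT P hc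
  rw [e]
  exact poly_L2_mp (act := act) hadd hmp (fun i => shQ (P i)) hφ

/-- the multi-parameter polynomial ergodic theorem for separated tuples -/
theorem conv_sep (hT : ∀ i, Measurable (T i) ∧ Measurable (T i).symm ∧
      MeasurePreserving (T i) μ μ) {k : ℕ} (P : Fin d → MvPolynomial (Fin k) ℤ) (hP : Sep T P)
    {f : X → ℂ} (hf : MemLp f 2 μ) :
    ∀ᵐ x ∂μ, ∃ L : ℂ, Tendsto (fun M : Fin k → ℕ => (∏ l, (M l : ℂ))⁻¹ *
      ∑ m ∈ Fintype.piFinset (fun l => Finset.Icc 1 (M l)),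
        f (pw T (fun i => MvPolynomial.eval (fun l => (m l : ℤ)) (P i)) x)) atTop (𝓝 L) := by
  have h := (pS_sep T hT P hP).2
  filter_upwards [h _ hf.re, h _ hf.im] with x h1 h2
  obtain ⟨a, ha⟩ := h1
  obtain ⟨b, hb⟩ := h2
  refine ⟨(a : ℂ) + (b : ℂ) * Complex.I, ?_⟩
  have ha' := (Complex.continuous_ofReal.tendsto a).comp ha
  have hb' := ((Complex.continuous_ofReal.tendsto b).comp hb).mul_const Complex.I
  refine (ha'.add hb').congr fun M => ?_
  rw [sum_Icc_eq]
  simp only [Function.comp, avg, Pool.Agent.Lib.Pf720ae.box, pS]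
  push_cast
  rw [mul_assoc, ← mul_add, Finset.sum_mul, ← Finset.sum_add_distrib]
  congr 1
  refine Finset.sum_congr rfl fun m _ => ?_
  exact Complex.re_add_im _

end seps

end Pool.Agent.Lib.Pf720nn
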