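import Pool.Agent.Lib.Pf720nn.EDefs

/-!
# Chains of subgroups and the filtration of the delayed pasts
-/

set_option autoImplicit false
set_option linter.unusedSectionVars false

open MeasureTheory Filter Topology
open scoped ENNReal

namespace Pool.Agent.Lib.Pf720nn

variable {G X : Type} [Group G]

/-- a chain of subgroups, the zero sets of successive real homomorphisms -/
structure IsChain (H : ℕ → Subgroup G) (φ : ℕ → G → ℝ) (s : ℕ) : Prop where
  top : H 0 = ⊤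
  add : ∀ a < s, ∀ g ∈ H a, ∀ h ∈ H a, φ a (g * h) = φ a g + φ a h
  ker : ∀ a < s, ∀ g, g ∈ H (a + 1) ↔ g ∈ H a ∧ φ a g = 0

/-- the elements before the identity with delay `p`, from the level `a` on -/
def NegA (H : ℕ → Subgroup G) (φ : ℕ → G → ℝ) (s a : ℕ) (p : ℝ) (g : G) : Prop :=
  ∃ b, a ≤ b ∧ b < s ∧ g ∈ H b ∧ φ b g < -p

lemma IsChain.anti {H : ℕ → Subgroup G} {φ : ℕ → G → ℝ} {s : ℕ} (hc : IsChain H φ s) {a b : ℕ}
    (hab : a ≤ b) (hb : b ≤ s) : H b ≤ H a := by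
  induction b, hab using Nat.le_induction with
  | base => exact le_rfl
  | succ b hab ih =>
    intro g hg
    exact ih (by omega) ((hc.ker b (by omega) g).1 hg).1

section neg

variable {H : ℕ → Subgroup G} {φ : ℕ → G → ℝ} {s : ℕ}

lemma IsChain.phi_zero (hc : IsChain H φ s) {a b : ℕ} (hab : a < b) (hb : b ≤ s) {g : G}
    (hg : g ∈ H b) : g ∈ H a ∧ φ a g = 0 := by
  have h1 : g ∈ H (a + 1) := hc.anti (by omega) hb hg
  exact (hc.ker a (by omega) g).1 h1

lemma IsChain.phi_one (hc : IsChain H φ s) {a : ℕ} (ha : a < s) : φ a 1 = 0 := by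
  have := hc.add a ha 1 (H a).one_mem 1 (H a).one_mem
  rw [mul_one] at this
  linarith

lemma IsChain.phi_inv (hc : IsChain H φ s) {a : ℕ} (ha : a < s) {g : G} (hg : g ∈ H a) :
    φ a g⁻¹ = -φ a g := by
  have := hc.add a ha g hg g⁻¹ ((H a).inv_mem hg)
  rw [mul_inv_cancel, hc.phi_one ha] at this
  linarith

/-- the first level at which an element is visible -/
lemma IsChain.level (hc : IsChain H φ s) (g : G) :
    g ∈ H s ∨ ∃ b, b < s ∧ g ∈ H b ∧ φ b g ≠ 0 := by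
  by_contra h
  push Not at h
  obtain ⟨h1, h2⟩ := h
  have h3 : ∀ b ≤ s, g ∈ H b := by
    intro b
    induction b with
    | zero => intro _; rw [hc.top]; exact Subgroup.mem_top g
    | succ b ih =>
      intro hb
      have hb' := ih (by omega)
      exact (hc.ker b (by omega) g).2 ⟨hb', h2 b (by omega) hb'⟩
  exact h1 (h3 s le_rfl)

lemma NegA.mono {a : ℕ} {p q : ℝ} (hpq : p ≤ q) {g : G} (h : NegA H φ s a q g) :
    NegA H φ s a p g := by
  obtain ⟨b, h1, h2, h3, h4⟩ := h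
  exact ⟨b, h1, h2, h3, by linarith⟩

lemma not_negA_one (hc : IsChain H φ s) {a : ℕ} {p : ℝ} (hp : 0 ≤ p) : ¬ NegA H φ s a p 1 := by
  rintro ⟨b, -, h2, -, h4⟩
  rw [hc.phi_one h2] at h4
  linarith

lemma NegA.mul (hc : IsChain H φ s) {p : ℝ} (hp : 0 ≤ p) {g h : G} (hg : NegA H φ s 0 p g)
    (hh : NegA H φ s 0 p h) : NegA H φ s 0 p (g * h) := by
  obtain ⟨a, -, ha, hga, hφg⟩ := hg
  obtain ⟨b, -, hb, hhb, hφh⟩ := hh
  rcases lt_trichotomy a b with hab | hab | hab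
  · have h1 := hc.phi_zero hab hb.le hhb
    refine ⟨a, Nat.zero_le _, ha, (H a).mul_mem hga h1.1, ?_⟩
    rw [hc.add a ha g hga h h1.1, h1.2, add_zero]
    exact hφg
  · subst hab
    refine ⟨a, Nat.zero_le _, ha, (H a).mul_mem hga hhb, ?_⟩
    rw [hc.add a ha g hga h hhb]
    linarith
  · have h1 := hc.phi_zero hab ha.le hga
    refine ⟨b, Nat.zero_le _, hb, (H b).mul_mem h1.1 hhb, ?_⟩
    rw [hc.add b hb g h1.1 h hhb, h1.2, zero_add]
    exact hφh

end neg

/-- the delayed past of the group element `h`, together with `Y` -/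
@[reducible] def PS (W : G → X → X) (H : ℕ → Subgroup G) (φ : ℕ → G → ℝ) (s : ℕ)
    (mP Y : MeasurableSpace X) (p : ℝ) (h : G) : MeasurableSpace X :=
  Y ⊔ gen W {u | NegA H φ s 0 p (u * h⁻¹)} mP

section PS

variable {W : G → X → X} {H : ℕ → Subgroup G} {φ : ℕ → G → ℝ} {s : ℕ} {mP Y : MeasurableSpace X}
  {p : ℝ}

lemma le_PS (h : G) : Y ≤ PS W H φ s mP Y p h := le_sup_left

lemma PS_comap (hWmul : ∀ a b x, W (a * b) x = W a (W b x)) (hY : Inv W ⊤ Y) (h g : G) :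
    (PS W H φ s mP Y p h).comap (W g) = PS W H φ s mP Y p (h * g) := by
  unfold PS
  rw [MeasurableSpace.comap_sup, hY g (Subgroup.mem_top g), comap_gen W hWmul]
  congr 2
  ext u
  show NegA H φ s 0 p (u * g⁻¹ * h⁻¹) ↔ NegA H φ s 0 p (u * (h * g)⁻¹)
  rw [mul_inv_rev, mul_assoc]

lemma PS_le (hc : IsChain H φ s) (hp : 0 ≤ p) {g h : G} (hgh : NegA H φ s 0 p (g * h⁻¹)) :
    mP.comap (W g) ⊔ PS W H φ s mP Y p g ≤ PS W H φ s mP Y p h := by
  refine sup_le ?_ (sup_le le_sup_left (le_sup_of_le_right (gen_mono W ?_ mP)))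
  · exact le_sup_of_le_right (le_gen W mP hgh)
  · intro u hu
    have h1 := NegA.mul hc hp hu hgh
    show NegA H φ s 0 p (u * h⁻¹)
    rwa [mul_assoc, inv_mul_cancel_left] at h1

lemma PS_anti {p q : ℝ} (hpq : p ≤ q) (h : G) : PS W H φ s mP Y q h ≤ PS W H φ s mP Y p h :=
  sup_le_sup_left (gen_mono W (fun _ hu => NegA.mono hpq hu) mP) Y

lemma PS_one : PS W H φ s mP Y p 1 = Y ⊔ gen W {u | NegA H φ s 0 p u} mP := by
  unfold PS
  simp only [inv_one, mul_one]

end PS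

/-- a delayed martingale difference: half the difference of an `mP`-measurable function and its
conditional expectation given the delayed past of the identity -/
def IsMD {mX : MeasurableSpace X} (μ : Measure X) (W : G → X → X) (H : ℕ → Subgroup G)
    (φ : ℕ → G → ℝ) (s : ℕ) (mP Y : MeasurableSpace X) (p : ℝ) (F : X → ℝ) : Prop :=
  ∃ f g : X → ℝ, Measurable[mP] f ∧ (∀ x, |f x| ≤ 1) ∧
    Measurable[PS W H φ s mP Y p 1] g ∧ (∀ x, |g x| ≤ 1) ∧
    μ[f | PS W H φ s mP Y p 1] =ᵐ[μ] g ∧ F = fun x => (f x - g x) / 2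

lemma IsMD.abs_le {mX : MeasurableSpace X} {μ : Measure X} {W : G → X → X} {H : ℕ → Subgroup G}
    {φ : ℕ → G → ℝ} {s : ℕ} {mP Y : MeasurableSpace X} {p : ℝ} {F : X → ℝ}
    (h : IsMD μ W H φ s mP Y p F) (x : X) : |F x| ≤ 1 := by
  obtain ⟨f, g, -, hf1, -, hg1, -, rfl⟩ := h
  rw [abs_div, abs_of_pos (by norm_num : (0 : ℝ) < 2), div_le_one (by norm_num)]
  have h1 := abs_sub (f x) (g x)
  have h2 := hf1 x
  have h3 := hg1 x
  linarith

end Pool.Agent.Lib.Pf720nn
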