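import Mathlib

/-!
# Chains of subgroups with homomorphisms to `ℤ^r`
-/

set_option autoImplicit false

namespace Pool.Agent.Lib.Pf720nn

variable {G : Type} [Group G]

/-- a chain of subgroups, each the kernel of a homomorphism of the previous one to some `ℤ^r` -/
structure ZChain (H : ℕ → Subgroup G) (r : ℕ → ℕ) (π : (a : ℕ) → G → Fin (r a) → ℤ) (s : ℕ) :
    Prop where
  top : H 0 = ⊤
  add : ∀ a < s, ∀ g ∈ H a, ∀ h ∈ H a, π a (g * h) = π a g + π a h
  ker : ∀ a < s, ∀ g, g ∈ H (a + 1) ↔ g ∈ H a ∧ π a g = 0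

end Pool.Agent.Lib.Pf720nn
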