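import Pool.Agent.Lib.Pf720nn.PEval
import Pool.Agent.Lib.Pf720nn.GDefs
import Pool.Agent.Lib.Pf720nn.FDefs

/-!
# Good real functions: densities of small values
-/

set_option autoImplicit false
set_option linter.unusedSectionVars false

open Finset Filter Topology

namespace Pool.Agent.Lib.Pf720nn

open Pool.Agent.Lib.Pf720pm (IsPol Dio FDep LB LB_of_fdep close_of_ne exists_fdep fdep_congr)
open Pool.Agent.Lib.Pf720ae (avg box avg_congr)

/-- positive multiples of `Φ` of polynomial maps to `ℤ^d` -/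
def GoodFn {κ : Type} (f : (κ → ℕ) → ℝ) : Prop :=
  ∃ (d : ℕ) (Φ : (Fin d → ℤ) →+ ℝ) (e : (κ → ℕ) → Fin d → ℤ) (c : ℝ), Dio Φ ∧ IsPol e ∧ 0 < c ∧
    ∀ m, f m = c * Φ (e m)

variable {κ : Type} [Fintype κ] [DecidableEq κ]

lemma LB.smul {ψ : (κ → ℕ) → ℝ} {l : κ} {p c : ℝ} (hc : 0 < c) (h : LB ψ l (p / c)) :
    LB (fun m => c * ψ m) l p := by
  obtain ⟨E, cnt, C, δ, hC, hδ, hE, hE0, hcnt0, hcnt, havg⟩ := h
  refine ⟨E, cnt, C, δ, hC, hδ, hE, hE0, hcnt0, fun m hm r N => ?_, havg⟩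
  refine le_trans (le_of_eq ?_) (hcnt m hm (r / c) N)
  congr 2
  ext t
  simp only [Finset.mem_filter]
  have e : r + c * ψ (Function.update m l t) = c * (r / c + ψ (Function.update m l t)) := by
    field_simp
  rw [e, abs_mul, abs_of_pos hc, le_div_iff₀ hc, mul_comm]

lemma GoodFn.LB {f : (κ → ℕ) → ℝ} (hf : GoodFn f) {l : κ} (hl : FDep f l) {p : ℝ} (hp : 0 ≤ p) :
    LB f l p := by
  obtain ⟨d, Φ, e, c, hΦ, he, hc, hfe⟩ := hf
  have hle : FDep e l := by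
    obtain ⟨m, t, hmt⟩ := hl
    refine ⟨m, t, fun h => hmt ?_⟩
    rw [hfe, hfe, h]
  have h1 := LB_of_fdep hΦ he hle (div_nonneg hp hc.le)
  have h2 := LB.smul hc h1
  have e1 : f = fun m => c * Φ (e m) := funext hfe
  rw [e1]
  exact h2

lemma GoodFn.close {f : (κ → ℕ) → ℝ} (hf : GoodFn f) {m₀ : κ → ℕ} (h0 : f 0 = 0)
    (hm : f m₀ ≠ 0) {p : ℝ} (hp : 0 ≤ p) :
    Tendsto (fun M : κ → ℕ => avg M fun m => if |f m| ≤ p then (1 : ℝ) else 0)
      atTop (𝓝 0) := by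
  obtain ⟨d, Φ, e, c, hΦ, he, hc, hfe⟩ := hf
  have hz : IsPol (fun _ : κ → ℕ => (0 : Fin d → ℤ)) := ⟨fun _ => 0, fun m i => by simp⟩
  have he0 : e 0 = 0 := by
    have h1 := hfe 0
    rw [h0] at h1
    have h2 : Φ (e 0) = 0 := by
      rcases mul_eq_zero.1 h1.symm with h | h
      · exact absurd h hc.ne'
      · exact h
    exact hΦ.injective (by rw [h2, map_zero])
  have h1 := close_of_ne hΦ he hz he0 (fun h => hm (by
    rw [hfe, h]
    simp)) (div_nonneg hp hc.le)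
  refine h1.congr fun M => avg_congr fun m _ => ?_
  rw [map_zero, sub_zero, hfe, abs_mul, abs_of_pos hc]
  have : |Φ (e m)| ≤ p / c ↔ c * |Φ (e m)| ≤ p := by rw [le_div_iff₀ hc, mul_comm]
  simp only [this]

section level

variable {G : Type} [Group G]

/-- the real homomorphisms of a chain -/
def phi {r : ℕ → ℕ} (π : (a : ℕ) → G → Fin (r a) → ℤ) (Φ : (a : ℕ) → (Fin (r a) → ℤ) →+ ℝ)
    (a : ℕ) (g : G) : ℝ := Φ a (π a g)

lemma ZChain.isChain {H : ℕ → Subgroup G} {r : ℕ → ℕ} {π : (a : ℕ) → G → Fin (r a) → ℤ} {s : ℕ}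
    (hc : ZChain H r π s) (Φ : (a : ℕ) → (Fin (r a) → ℤ) →+ ℝ) (hΦ : ∀ a, Dio (Φ a)) :
    IsChain H (phi π Φ) s := by
  refine ⟨hc.top, fun a ha g hg h hh => ?_, fun a ha g => ?_⟩
  · unfold phi
    rw [hc.add a ha g hg h hh, map_add]
  · rw [hc.ker a ha g]
    refine and_congr_right fun _ => ?_
    unfold phi
    exact ⟨fun h => by rw [h, map_zero], fun h => (hΦ a).injective (by rw [h, map_zero])⟩

/-- the first level at which a polynomial map is visible -/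
lemma exists_level [Group.IsNilpotent G] {H : ℕ → Subgroup G} {r : ℕ → ℕ}
    {π : (a : ℕ) → G → Fin (r a) → ℤ} {s : ℕ} (hc : ZChain H r π s)
    (Φ : (a : ℕ) → (Fin (r a) → ℤ) →+ ℝ) (hΦ : ∀ a, Dio (Φ a)) {w : (κ → ℕ) → G} (hw : PolG w)
    (hs : ∃ m, w m ∉ H s) : ∃ b < s, (∀ m, w m ∈ H b) ∧ GoodFn (fun m => phi π Φ b (w m)) ∧
      ∃ m, phi π Φ b (w m) ≠ 0 := by
  classical
  have hch := hc.isChain Φ hΦ
  have hex : ∃ b, ∃ m, w m ∉ H b := ⟨s, hs⟩
  set b := Nat.find hex with hb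
  have hbs : b ≤ s := Nat.find_min' hex hs
  have hb0 : b ≠ 0 := by
    intro h
    obtain ⟨m, hm⟩ := Nat.find_spec hex
    rw [← hb, h, hc.top] at hm
    exact hm (Subgroup.mem_top _)
  obtain ⟨a, ha⟩ := Nat.exists_eq_succ_of_ne_zero hb0
  have hlt : a < s := by omega
  have hmem : ∀ m, w m ∈ H a := by
    intro m
    by_contra hm
    exact Nat.find_min hex (show a < Nat.find hex by omega) ⟨m, hm⟩
  refine ⟨a, hlt, hmem, ?_, ?_⟩
  · obtain ⟨c, hc0, hpol⟩ := exists_isPol hw (H a) hmem (π a) (hc.add a hlt)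
    refine ⟨r a, Φ a, fun m i => c * π a (w m) i, (c : ℝ)⁻¹, hΦ a, hpol,
      inv_pos.2 (by exact_mod_cast hc0), fun m => ?_⟩
    have e : (fun i => c * π a (w m) i) = c • π a (w m) := by
      funext i
      rfl
    beta_reduce
    rw [e, map_zsmul, zsmul_eq_mul, phi, inv_mul_cancel_left₀]
    exact_mod_cast hc0.ne'
  · obtain ⟨m, hm⟩ := Nat.find_spec hex
    rw [← hb, ha, Nat.succ_eq_add_one, hch.ker a hlt] at hm
    exact ⟨m, fun h => hm ⟨hmem m, h⟩⟩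

lemma negA_of_large {H : ℕ → Subgroup G} {φ : ℕ → G → ℝ} {s : ℕ} (hc : IsChain H φ s) {b : ℕ}
    (hb : b < s) {g : G} (hg : g ∈ H b) {p : ℝ} (h : p < |φ b g|) :
    NegA H φ s 0 p g ∨ NegA H φ s 0 p g⁻¹ := by
  rcases lt_or_ge (φ b g) 0 with h0 | h0
  · left
    rw [abs_of_neg h0] at h
    exact ⟨b, Nat.zero_le _, hb, hg, by linarith⟩
  · right
    rw [abs_of_nonneg h0] at h
    exact ⟨b, Nat.zero_le _, hb, (H b).inv_mem hg, by rw [hc.phi_inv hb hg]; linarith⟩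

end level

end Pool.Agent.Lib.Pf720nn
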