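import Pool.Agent.Lib.Pf720pm.Core

/-!
# Almost sure convergence for products of orthogonal families indexed by comparable times

Generalisation of `core_lb` (Lib/Pf720pm/Core.lean, follow its proof and its auxiliary lemmas in
Lib/Pf720pp/Core.lean): the real times `ψ j m` are replaced by elements `θ j m` of a set `Θ` with a strict
partial order `Lt` (`Lt a b`: `a` is before `b`, with the delay); `A a` is the σ-algebra at which the factors at
time `a` are measurable, `B a` the one to which they are orthogonal.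

* Call `m` good if `Cmp Lt (θ i m) (θ j m)` for all `i ≠ j`. Let `E` be the union of the exceptional sets of all
  the `PB`s used, and `u m x = if m ∉ E ∧ m good then (∏ j, Y j m x) * V m x else 0`; the difference of the
  averages of the product and of `u` is at most the density of `E` plus the densities in `hne`.
* Fix `l`, `S = {j | dep j l}` (nonempty by `hvis`). As in `mean_sq_le` (Pf720pp/Core.lean) `(avg M u)²` is at
  most the average over the other coordinates of the squares of the line averages in the direction `l`,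
  where the factors `j ∉ S` are constant (`hYinv`) and pulled out.
* Correlation of two points `m`, `m' = update m l t'` of a line, both good and outside `E`: if all the
  `θ i m`, `θ j m'` (`i, j ∈ S`) are comparable then the finite set `{θ j m, θ j m' | j ∈ S}` of pairwise
  comparable times (within `m` and within `m'` by goodness, across by assumption) has a greatest element,
  say `θ j m`; all other factors are `A`-measurable before it, so `B (θ j m)`-measurable by `hAB`, the weights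
  `V m`, `V m'` too, and the correlation is zero by `hY0`. Otherwise it is at most one, so the correlation
  is at most `∑_{i, j ∈ S} [¬ Cmp Lt (θ i m) (θ j m')]`.
* Hence `∫ (avg M u)² ≤ ∑_{i, j ∈ S}` of the averages in `PB Lt θ i j l` or (after exchanging the roles of
  the two points of the line) `PB Lt θ j i l`, so `≤ C (M l) ^ (-δ)`, and one concludes as in `core_lb`.
-/

set_option autoImplicit false
set_option linter.unusedSectionVars false

open Finset MeasureTheory Filter Topology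
open scoped ENNReal

namespace Pool.Agent.Lib.Pf720nn

open Pool.Agent.Lib.Pf720ae

/-- two times are comparable -/
def Cmp {Θ : Type} (Lt : Θ → Θ → Prop) (a b : Θ) : Prop := Lt a b ∨ Lt b a

open Classical in
/-- few incomparable pairs of points on the lines in the direction `l` -/
def PB {κ J Θ : Type} [Fintype κ] [DecidableEq κ] (Lt : Θ → Θ → Prop) (θ : J → (κ → ℕ) → Θ)
    (i j : J) (l : κ) : Prop :=
  ∃ (E : Set (κ → ℕ)) (C δ : ℝ), 0 ≤ C ∧ 0 < δ ∧
    Tendsto (fun M : κ → ℕ => avg M fun m => if m ∈ E then (1 : ℝ) else 0) atTop (𝓝 0) ∧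
    ∀ M : κ → ℕ, (∀ l, 0 < M l) → avg M (fun m => if m ∈ E then 0 else
      (((range (M l)).filter fun t =>
        ¬ Cmp Lt (θ i m) (θ j (Function.update m l t))).card : ℝ) / M l) ≤ C * (M l : ℝ) ^ (-δ)

open Pool.Agent.Lib.Pf720pp.CoreAux
open Pool.Agent.Lib.Pf720pm.CoreLB

section nc

variable {κ J X Θ : Type} [Fintype κ] [DecidableEq κ] [Fintype J] [DecidableEq J]
  {mX : MeasurableSpace X} {μ : Measure X}

private lemma nc_symm {Lt : Θ → Θ → Prop} {a b : Θ} (h : Cmp Lt a b) : Cmp Lt b a := h.symm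

/-- a finite nonempty family of pairwise comparable times has a greatest element -/
private lemma nc_max {I : Type} [DecidableEq I] {Lt : Θ → Θ → Prop}
    (htr : ∀ a b c, Lt a b → Lt b c → Lt a c) (τ : I → Θ) (T : Finset I) (hT : T.Nonempty)
    (h : ∀ a ∈ T, ∀ b ∈ T, a ≠ b → Cmp Lt (τ a) (τ b)) :
    ∃ a ∈ T, ∀ b ∈ T, b ≠ a → Lt (τ b) (τ a) := by
  induction hT using Finset.Nonempty.cons_induction with
  | singleton a =>
    refine ⟨a, Finset.mem_singleton_self a, fun b hb hne => ?_⟩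
    exact absurd (Finset.mem_singleton.1 hb) hne
  | cons c s hc hs ih =>
    obtain ⟨a, ha, hmax⟩ := ih fun x hx y hy hxy =>
      h x (Finset.mem_cons_of_mem hx) y (Finset.mem_cons_of_mem hy) hxy
    have hac : a ≠ c := fun h0 => hc (h0 ▸ ha)
    rcases h a (Finset.mem_cons_of_mem ha) c (Finset.mem_cons_self c s) hac with h1 | h1
    · refine ⟨c, Finset.mem_cons_self c s, fun b hb hne => ?_⟩
      rcases Finset.mem_cons.1 hb with h2 | h2
      · exact absurd h2 hne
      · by_cases hba : b = a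
        · rw [hba]; exact h1
        · exact htr _ _ _ (hmax b h2 hba) h1
    · refine ⟨a, Finset.mem_cons_of_mem ha, fun b hb hne => ?_⟩
      rcases Finset.mem_cons.1 hb with h2 | h2
      · rw [h2]; exact h1
      · exact hmax b h2 hne

private lemma nc_orth_one {Lt : Θ → Θ → Prop} (A B : Θ → MeasurableSpace X)
    (hAB : ∀ a b, Lt a b → A a ≤ B b) (θ : J → (κ → ℕ) → Θ)
    (Y : J → (κ → ℕ) → X → ℝ) (hY1 : ∀ j m x, |Y j m x| ≤ 1)
    (hYm : ∀ j m, Measurable[A (θ j m)] (Y j m))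
    (hY0 : ∀ j m (h : X → ℝ), Measurable[B (θ j m)] h → (∀ x, |h x| ≤ 1) →
      ∫ x, Y j m x * h x ∂μ = 0)
    (V : (κ → ℕ) → X → ℝ) (hV1 : ∀ m x, |V m x| ≤ 1) (hVm : ∀ m a, Measurable[B a] (V m))
    (S : Finset J) {j₀ : J} (hj₀ : j₀ ∈ S) (m m' : κ → ℕ)
    (h1 : ∀ j ∈ S, j ≠ j₀ → Lt (θ j m) (θ j₀ m))
    (h2 : ∀ j ∈ S, Lt (θ j m') (θ j₀ m)) :
    ∫ x, ((∏ j ∈ S, Y j m x) * V m x) * ((∏ j ∈ S, Y j m' x) * V m' x) ∂μ = 0 := by
  have h3 : ∀ x, ((∏ j ∈ S, Y j m x) * V m x) * ((∏ j ∈ S, Y j m' x) * V m' x) =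
      Y j₀ m x * (((∏ j ∈ S.erase j₀, Y j m x) * V m x) *
        ((∏ j ∈ S, Y j m' x) * V m' x)) := by
    intro x
    rw [← Finset.mul_prod_erase S (fun j => Y j m x) hj₀]
    ring
  simp_rw [h3]
  refine hY0 j₀ m _ ?_ fun x => ?_
  · refine Measurable.mul (Measurable.mul ?_ (hVm _ _)) (Measurable.mul ?_ (hVm _ _))
    · exact Finset.measurable_fun_prod _ fun j hj =>
        (hYm j m).mono (hAB _ _ (h1 j (Finset.mem_of_mem_erase hj)
          (Finset.ne_of_mem_erase hj))) le_rfl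
    · exact Finset.measurable_fun_prod _ fun j hj =>
        (hYm j m').mono (hAB _ _ (h2 j hj)) le_rfl
  · rw [abs_mul, abs_mul, abs_mul]
    have a1 := abs_prod_le_one (S.erase j₀) (f := fun j => Y j m x) fun j _ => hY1 j m x
    have a2 := abs_prod_le_one S (f := fun j => Y j m' x) fun j _ => hY1 j m' x
    have a3 := hV1 m x
    have a4 := hV1 m' x
    have b1 : |∏ j ∈ S.erase j₀, Y j m x| * |V m x| ≤ 1 :=
      mul_le_one₀ a1 (abs_nonneg _) a3
    have b2 : |∏ j ∈ S, Y j m' x| * |V m' x| ≤ 1 :=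
      mul_le_one₀ a2 (abs_nonneg _) a4
    exact mul_le_one₀ b1 (by positivity) b2

private lemma nc_orth_two {Lt : Θ → Θ → Prop} (htr : ∀ a b c, Lt a b → Lt b c → Lt a c)
    (A B : Θ → MeasurableSpace X)
    (hAB : ∀ a b, Lt a b → A a ≤ B b) (θ : J → (κ → ℕ) → Θ)
    (Y : J → (κ → ℕ) → X → ℝ) (hY1 : ∀ j m x, |Y j m x| ≤ 1)
    (hYm : ∀ j m, Measurable[A (θ j m)] (Y j m))
    (hY0 : ∀ j m (h : X → ℝ), Measurable[B (θ j m)] h → (∀ x, |h x| ≤ 1) →
      ∫ x, Y j m x * h x ∂μ = 0)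
    (V : (κ → ℕ) → X → ℝ) (hV1 : ∀ m x, |V m x| ≤ 1) (hVm : ∀ m a, Measurable[B a] (V m))
    (S : Finset J) (hS : S.Nonempty) (m m' : κ → ℕ)
    (hg : ∀ i j, i ≠ j → Cmp Lt (θ i m) (θ j m))
    (hg' : ∀ i j, i ≠ j → Cmp Lt (θ i m') (θ j m'))
    (hsep : ∀ i ∈ S, ∀ j ∈ S, Cmp Lt (θ i m) (θ j m')) :
    ∫ x, ((∏ j ∈ S, Y j m x) * V m x) * ((∏ j ∈ S, Y j m' x) * V m' x) ∂μ = 0 := by
  obtain ⟨i₀, hi₀, hmax⟩ := nc_max htr (fun j => θ j m) S hS fun a _ b _ hab => hg a b hab
  obtain ⟨j₀, hj₀, hmax'⟩ := nc_max htr (fun j => θ j m') S hS fun a _ b _ hab => hg' a b hab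
  rcases hsep i₀ hi₀ j₀ hj₀ with h | h
  · have := nc_orth_one (μ := μ) A B hAB θ Y hY1 hYm hY0 V hV1 hVm S hj₀ m' m
      (fun j hj hne => hmax' j hj hne) (fun j hj => by
        by_cases hji : j = i₀
        · rw [hji]; exact h
        · exact htr _ _ _ (hmax j hj hji) h)
    rw [← this]
    congr 1
    funext x
    ring
  · exact nc_orth_one (μ := μ) A B hAB θ Y hY1 hYm hY0 V hV1 hVm S hi₀ m m'
      (fun j hj hne => hmax j hj hne) (fun j hj => by
        by_cases hji : j = j₀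
        · rw [hji]; exact h
        · exact htr _ _ _ (hmax' j hj hji) h)

open Classical in
/-- indicator of an incomparable pair of good points -/
private noncomputable def nc_c (Lt : Θ → Θ → Prop) (θ : J → (κ → ℕ) → Θ)
    (G : (κ → ℕ) → Prop) (i j : J) (m m' : κ → ℕ) : ℝ :=
  if G m ∧ G m' ∧ ¬ Cmp Lt (θ i m) (θ j m') then 1 else 0

private lemma nc_c_nonneg (Lt : Θ → Θ → Prop) (θ : J → (κ → ℕ) → Θ)
    (G : (κ → ℕ) → Prop) (i j : J) (m m' : κ → ℕ) : 0 ≤ nc_c Lt θ G i j m m' := by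
  unfold nc_c
  split_ifs <;> norm_num

private lemma nc_c_symm (Lt : Θ → Θ → Prop) (θ : J → (κ → ℕ) → Θ)
    (G : (κ → ℕ) → Prop) (i j : J) (m m' : κ → ℕ) :
    nc_c Lt θ G i j m m' = nc_c Lt θ G j i m' m := by
  unfold nc_c
  have h : (G m ∧ G m' ∧ ¬ Cmp Lt (θ i m) (θ j m')) ↔
      (G m' ∧ G m ∧ ¬ Cmp Lt (θ j m') (θ i m)) := by
    constructor
    · rintro ⟨h1, h2, h3⟩
      exact ⟨h2, h1, fun h => h3 (nc_symm h)⟩
    · rintro ⟨h1, h2, h3⟩
      exact ⟨h2, h1, fun h => h3 (nc_symm h)⟩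
  by_cases h1 : G m ∧ G m' ∧ ¬ Cmp Lt (θ i m) (θ j m')
  · rw [if_pos h1, if_pos (h.1 h1)]
  · rw [if_neg h1, if_neg (fun h2 => h1 (h.2 h2))]

/-- the correlation of two points of the good part -/
private lemma nc_corr [IsProbabilityMeasure μ] {Lt : Θ → Θ → Prop}
    (htr : ∀ a b c, Lt a b → Lt b c → Lt a c)
    (A B : Θ → MeasurableSpace X)
    (hAB : ∀ a b, Lt a b → A a ≤ B b) (θ : J → (κ → ℕ) → Θ)
    (Y : J → (κ → ℕ) → X → ℝ) (hY1 : ∀ j m x, |Y j m x| ≤ 1)
    (hYm : ∀ j m, Measurable[A (θ j m)] (Y j m))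
    (hY0 : ∀ j m (h : X → ℝ), Measurable[B (θ j m)] h → (∀ x, |h x| ≤ 1) →
      ∫ x, Y j m x * h x ∂μ = 0)
    (V : (κ → ℕ) → X → ℝ) (hV1 : ∀ m x, |V m x| ≤ 1) (hVm : ∀ m a, Measurable[B a] (V m))
    {G : (κ → ℕ) → Prop} (hG : ∀ m, G m → ∀ i j, i ≠ j → Cmp Lt (θ i m) (θ j m))
    (S : Finset J) (hS : S.Nonempty) (m m' : κ → ℕ) :
    ∫ x, vG G Y V S m x * vG G Y V S m' x ∂μ ≤
      ∑ i ∈ S, ∑ j ∈ S, nc_c Lt θ G i j m m' := by
  have hnn : (0 : ℝ) ≤ ∑ i ∈ S, ∑ j ∈ S, nc_c Lt θ G i j m m' :=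
    Finset.sum_nonneg fun i _ => Finset.sum_nonneg fun j _ => nc_c_nonneg Lt θ G i j m m'
  by_cases hg : G m
  · by_cases hg' : G m'
    · by_cases hsep : ∀ i ∈ S, ∀ j ∈ S, Cmp Lt (θ i m) (θ j m')
      · have := nc_orth_two (μ := μ) htr A B hAB θ Y hY1 hYm hY0 V hV1 hVm S hS m m' (hG m hg)
          (hG m' hg') hsep
        have h0 : ∫ x, vG G Y V S m x * vG G Y V S m' x ∂μ = 0 := by
          simpa only [vG, if_pos hg, if_pos hg'] using this
        rw [h0]
        exact hnn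
      · push Not at hsep
        obtain ⟨i, hi, j, hj, hij⟩ := hsep
        have h1 : ∫ x, vG G Y V S m x * vG G Y V S m' x ∂μ ≤ 1 := by
          have h2 : |∫ x, vG G Y V S m x * vG G Y V S m' x ∂μ| ≤ 1 := by
            have := norm_integral_le_of_norm_le_const (μ := μ) (C := 1)
              (f := fun x => vG G Y V S m x * vG G Y V S m' x)
              (Eventually.of_forall fun x => by
                rw [Real.norm_eq_abs, abs_mul]
                exact mul_le_one₀ (abs_vG_le G hY1 hV1 S m x) (abs_nonneg _)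
                  (abs_vG_le G hY1 hV1 S m' x))
            simpa using this
          exact (le_abs_self _).trans h2
        refine h1.trans ?_
        calc (1 : ℝ) = nc_c Lt θ G i j m m' := by
              unfold nc_c
              rw [if_pos ⟨hg, hg', hij⟩]
          _ ≤ ∑ j ∈ S, nc_c Lt θ G i j m m' :=
            Finset.single_le_sum (f := fun j => nc_c Lt θ G i j m m')
              (fun j _ => nc_c_nonneg Lt θ G i j m m') hj
          _ ≤ _ := Finset.single_le_sum (f := fun i => ∑ j ∈ S, nc_c Lt θ G i j m m')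
              (fun i _ => Finset.sum_nonneg fun j _ => nc_c_nonneg Lt θ G i j m m') hi
    · have h0 : ∀ x, vG G Y V S m x * vG G Y V S m' x = 0 := fun x => by
        unfold vG
        rw [if_neg hg', mul_zero]
      simp only [h0, integral_zero]
      exact hnn
  · have h0 : ∀ x, vG G Y V S m x * vG G Y V S m' x = 0 := fun x => by
      unfold vG
      rw [if_neg hg, zero_mul]
    simp only [h0, integral_zero]
    exact hnn

/-- the mean square of the averages along a line -/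
private lemma nc_line [IsProbabilityMeasure μ] {Lt : Θ → Θ → Prop}
    (htr : ∀ a b c, Lt a b → Lt b c → Lt a c)
    (A B : Θ → MeasurableSpace X)
    (hAB : ∀ a b, Lt a b → A a ≤ B b) (θ : J → (κ → ℕ) → Θ)
    (Y : J → (κ → ℕ) → X → ℝ) (hY1 : ∀ j m x, |Y j m x| ≤ 1)
    (hYM : ∀ j m, Measurable (Y j m))
    (hYm : ∀ j m, Measurable[A (θ j m)] (Y j m))
    (hY0 : ∀ j m (h : X → ℝ), Measurable[B (θ j m)] h → (∀ x, |h x| ≤ 1) →
      ∫ x, Y j m x * h x ∂μ = 0)
    (V : (κ → ℕ) → X → ℝ) (hV1 : ∀ m x, |V m x| ≤ 1) (hVM : ∀ m, Measurable (V m))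
    (hVm : ∀ m a, Measurable[B a] (V m))
    {G : (κ → ℕ) → Prop} (hG : ∀ m, G m → ∀ i j, i ≠ j → Cmp Lt (θ i m) (θ j m))
    (S : Finset J) (hS : S.Nonempty) (l : κ) (m : κ → ℕ) (N : ℕ) :
    ∫ x, ((N : ℝ)⁻¹ * ∑ t ∈ range N, vG G Y V S (Function.update m l t) x) ^ 2 ∂μ ≤
      ∑ i ∈ S, ∑ j ∈ S, (N : ℝ)⁻¹ * ∑ t ∈ range N, ((N : ℝ)⁻¹ * ∑ t' ∈ range N,
        nc_c Lt θ G i j (Function.update m l t) (Function.update m l t')) := by
  set v : ℕ → X → ℝ := fun t => vG G Y V S (Function.update m l t) with hv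
  have hvm : ∀ t, Measurable (v t) := fun t => measurable_vG G hYM hVM S _
  have hv1 : ∀ t x, |v t x| ≤ 1 := fun t x => abs_vG_le G hY1 hV1 S _ x
  have h1 : ∀ x, ((N : ℝ)⁻¹ * ∑ t ∈ range N, vG G Y V S (Function.update m l t) x) ^ 2 =
      (N : ℝ)⁻¹ ^ 2 * ∑ t ∈ range N, ∑ t' ∈ range N, v t x * v t' x := by
    intro x
    rw [mul_pow, sq (∑ t ∈ range N, _), Finset.sum_mul_sum]
  simp_rw [h1]
  have hI : ∀ t t', Integrable (fun x => v t x * v t' x) μ := fun t t' =>
    integrable_bdd ((hvm t).mul (hvm t')) (C := 1) fun x => by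
      rw [abs_mul]
      exact mul_le_one₀ (hv1 t x) (abs_nonneg _) (hv1 t' x)
  rw [integral_const_mul, integral_finsetSum _ fun t _ => integrable_finsetSum _ fun t' _ =>
    hI t t']
  have h2 : ∀ t ∈ range N, ∫ x, ∑ t' ∈ range N, v t x * v t' x ∂μ ≤
      ∑ t' ∈ range N, ∑ i ∈ S, ∑ j ∈ S,
        nc_c Lt θ G i j (Function.update m l t) (Function.update m l t') := by
    intro t _
    rw [integral_finsetSum _ fun t' _ => hI t t']
    exact Finset.sum_le_sum fun t' _ => nc_corr (μ := μ) htr A B hAB θ Y hY1 hYm hY0 V hV1 hVm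
      hG S hS (Function.update m l t) (Function.update m l t')
  calc (N : ℝ)⁻¹ ^ 2 * ∑ t ∈ range N, ∫ x, ∑ t' ∈ range N, v t x * v t' x ∂μ
      ≤ (N : ℝ)⁻¹ ^ 2 * ∑ t ∈ range N, ∑ t' ∈ range N, ∑ i ∈ S, ∑ j ∈ S,
        nc_c Lt θ G i j (Function.update m l t) (Function.update m l t') := by
        refine mul_le_mul_of_nonneg_left (Finset.sum_le_sum h2) (by positivity)
    _ = _ := by
        have e1 : ∀ t ∈ range N, ∑ t' ∈ range N, ∑ i ∈ S, ∑ j ∈ S,
            nc_c Lt θ G i j (Function.update m l t) (Function.update m l t') =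
            ∑ i ∈ S, ∑ j ∈ S, ∑ t' ∈ range N,
            nc_c Lt θ G i j (Function.update m l t) (Function.update m l t') := by
          intro t _
          rw [Finset.sum_comm]
          exact Finset.sum_congr rfl fun i _ => Finset.sum_comm
        rw [Finset.sum_congr rfl e1, Finset.sum_comm, Finset.mul_sum]
        refine Finset.sum_congr rfl fun i _ => ?_
        rw [Finset.sum_comm, Finset.mul_sum]
        refine Finset.sum_congr rfl fun j _ => ?_
        rw [← Finset.mul_sum, sq, mul_assoc]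

/-- the average of the counts over all lines -/
private lemma nc_avg {Lt : Θ → Θ → Prop} (θ : J → (κ → ℕ) → Θ) {G : (κ → ℕ) → Prop}
    (i j : J) (l : κ) (M : κ → ℕ) (hM : ∀ l, 0 < M l) (E : Set (κ → ℕ)) (hE : ∀ m, G m → m ∉ E)
    (R : ℝ) (hR : (open Classical in avg M (fun m => if m ∈ E then 0 else
      (((range (M l)).filter fun t =>
        ¬ Cmp Lt (θ i m) (θ j (Function.update m l t))).card : ℝ) / M l)) ≤ R) :
    avg M (fun m => (M l : ℝ)⁻¹ * ∑ t ∈ range (M l), ((M l : ℝ)⁻¹ * ∑ t' ∈ range (M l),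
        nc_c Lt θ G i j (Function.update m l t) (Function.update m l t'))) ≤ R := by
  classical
  set f : (κ → ℕ) → ℝ := fun m => (M l : ℝ)⁻¹ * ∑ t' ∈ range (M l),
    nc_c Lt θ G i j m (Function.update m l t') with hf
  have h1 : avg M (fun m => (M l : ℝ)⁻¹ * ∑ t ∈ range (M l), ((M l : ℝ)⁻¹ * ∑ t' ∈ range (M l),
        nc_c Lt θ G i j (Function.update m l t) (Function.update m l t'))) = avg M f := by
    rw [Alg.avg_update M hM l f]
    refine avg_congr fun m _ => ?_
    simp only [hf, Function.update_idem]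
  rw [h1]
  refine le_trans (avg_mono M fun m => ?_) hR
  have hMl : (0 : ℝ) < M l := by exact_mod_cast hM l
  simp only [hf]
  by_cases hm : m ∈ E
  · rw [if_pos hm]
    have h2 : ∀ t' ∈ range (M l), nc_c Lt θ G i j m (Function.update m l t') = 0 := by
      intro t' _
      unfold nc_c
      exact if_neg fun h => hE m h.1 hm
    rw [Finset.sum_congr rfl h2, Finset.sum_const_zero, mul_zero]
  · rw [if_neg hm, div_eq_inv_mul]
    refine mul_le_mul_of_nonneg_left ?_ (inv_nonneg.2 hMl.le)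
    rw [Finset.card_filter]
    push_cast
    refine Finset.sum_le_sum fun t' _ => ?_
    unfold nc_c
    by_cases h3 : ¬ Cmp Lt (θ i m) (θ j (Function.update m l t'))
    · rw [if_pos h3]
      split_ifs <;> norm_num
    · rw [if_neg h3, if_neg fun h => h3 h.2.2]

end nc

open Classical in
theorem core_sep {κ J X Θ : Type} [Fintype κ] [DecidableEq κ] [Nonempty κ] [Fintype J]
    [DecidableEq J] {mX : MeasurableSpace X} {μ : Measure X} [IsProbabilityMeasure μ]
    (Lt : Θ → Θ → Prop) (htr : ∀ a b c, Lt a b → Lt b c → Lt a c) (hirr : ∀ a, ¬ Lt a a)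
    (A B : Θ → MeasurableSpace X) (hBA : ∀ a, B a ≤ A a) (hA : ∀ a, A a ≤ mX)
    (hAB : ∀ a b, Lt a b → A a ≤ B b) (θ : J → (κ → ℕ) → Θ) (dep : J → κ → Prop)
    (hvis : ∀ l, ∃ j, dep j l)
    (hne : ∀ i j, i ≠ j → Tendsto (fun M : κ → ℕ =>
      avg M fun m => if Cmp Lt (θ i m) (θ j m) then (0 : ℝ) else 1) atTop (𝓝 0))
    (hdep : ∀ i j l, dep i l → dep j l → PB Lt θ i j l ∨ PB Lt θ j i l)
    (Y : J → (κ → ℕ) → X → ℝ) (hY1 : ∀ j m x, |Y j m x| ≤ 1)
    (hYm : ∀ j m, Measurable[A (θ j m)] (Y j m))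
    (hY0 : ∀ j m (h : X → ℝ), Measurable[B (θ j m)] h → (∀ x, |h x| ≤ 1) →
      ∫ x, Y j m x * h x ∂μ = 0)
    (hYinv : ∀ j l, ¬ dep j l → ∀ m t x,
      Y j (Function.update m l t) x = Y j (Function.update m l 0) x)
    (V : (κ → ℕ) → X → ℝ) (hV1 : ∀ m x, |V m x| ≤ 1) (hVm : ∀ m a, Measurable[B a] (V m)) :
    ∀ᵐ x ∂μ, Tendsto (fun M : κ → ℕ => avg M fun m => (∏ j, Y j m x) * V m x) atTop (𝓝 0) := by
  have hκ : ∃ l : κ, True := ⟨Classical.arbitrary κ, trivial⟩
  obtain ⟨l₀, _⟩ := hκ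
  obtain ⟨j₀, _⟩ := hvis l₀
  have hYM : ∀ j m, Measurable (Y j m) := fun j m => (hYm j m).mono (hA _) le_rfl
  have hVM : ∀ m, Measurable (V m) := fun m =>
    (hVm m (θ j₀ m)).mono ((hBA _).trans (hA _)) le_rfl
  -- the data
  have hdata : ∀ (i j : J) (l : κ), ∃ (E : Set (κ → ℕ)) (C δ : ℝ),
      0 ≤ C ∧ 0 < δ ∧
      Tendsto (fun M : κ → ℕ => avg M fun m => if m ∈ E then (1 : ℝ) else 0) atTop (𝓝 0) ∧
      (dep i l → dep j l →
        (∀ M : κ → ℕ, (∀ l, 0 < M l) → avg M (fun m => if m ∈ E then 0 else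
          (((range (M l)).filter fun t =>
            ¬ Cmp Lt (θ i m) (θ j (Function.update m l t))).card : ℝ) / M l) ≤
              C * (M l : ℝ) ^ (-δ)) ∨
        (∀ M : κ → ℕ, (∀ l, 0 < M l) → avg M (fun m => if m ∈ E then 0 else
          (((range (M l)).filter fun t =>
            ¬ Cmp Lt (θ j m) (θ i (Function.update m l t))).card : ℝ) / M l) ≤
              C * (M l : ℝ) ^ (-δ))) := by
    intro i j l
    by_cases hd : dep i l ∧ dep j l
    · rcases hdep i j l hd.1 hd.2 with h | h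
      · obtain ⟨E, C, δ, h1, h2, h3, h4⟩ := h
        exact ⟨E, C, δ, h1, h2, h3, fun _ _ => Or.inl h4⟩
      · obtain ⟨E, C, δ, h1, h2, h3, h4⟩ := h
        exact ⟨E, C, δ, h1, h2, h3, fun _ _ => Or.inr h4⟩
    · refine ⟨∅, 0, 1, le_rfl, one_pos, ?_, fun h1 h2 => absurd ⟨h1, h2⟩ hd⟩
      simp [avg]
  choose E C δ hC hδ hEd hbd using hdata
  obtain ⟨D, hD⟩ := exists_exp (fun q : J × J × κ => δ q.1 q.2.1 q.2.2) fun q => hδ q.1 q.2.1 q.2.2
  -- the good part
  set G : (κ → ℕ) → Prop := fun m => (∀ i j l, m ∉ E i j l) ∧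
    ∀ i j, i ≠ j → Cmp Lt (θ i m) (θ j m) with hG
  have hGG : ∀ m, G m → ∀ i j, i ≠ j → Cmp Lt (θ i m) (θ j m) := fun m h => h.2
  set u : (κ → ℕ) → X → ℝ := vG G Y V Finset.univ with hu
  have hu1 : ∀ m x, |u m x| ≤ 1 := fun m x => abs_vG_le G hY1 hV1 _ m x
  have hum : ∀ m, Measurable (u m) := fun m => measurable_vG G hYM hVM _ m
  set A' : ℝ := ∑ i : J, ∑ j : J, ∑ l : κ, C i j l with hA'
  have hA0 : 0 ≤ A' := Finset.sum_nonneg fun _ _ => Finset.sum_nonneg fun _ _ =>
    Finset.sum_nonneg fun _ _ => hC _ _ _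
  have hmain : ∀ M : κ → ℕ, (∀ l, 0 < M l) → ∀ l,
      ∫ x, (avg M fun m => u m x) ^ 2 ∂μ ≤ A' * (M l : ℝ) ^ (-(1 / 2 : ℝ) ^ D) := by
    intro M hM l
    have hMl : (1 : ℝ) ≤ M l := by exact_mod_cast hM l
    have hMl0 : (0 : ℝ) < M l := by linarith
    set S : Finset J := Finset.univ.filter fun j => dep j l with hS
    have hSne : S.Nonempty := by
      obtain ⟨j, hj⟩ := hvis l
      exact ⟨j, by simp [hS, hj]⟩
    have hSd : ∀ j ∈ S, dep j l := fun j hj => (Finset.mem_filter.1 hj).2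
    have h1 := mean_vG (μ := μ) hYM hY1 l S
      (fun j hj m t x => hYinv j l (fun h => hj (by simp [hS, h])) m t x) hVM hV1 G M hM _
      (fun m => nc_line (μ := μ) htr A B hAB θ Y hY1 hYM hYm hY0 V hV1 hVM hVm hGG S hSne l m
        (M l))
    refine h1.trans ?_
    have h2 : avg M (fun m => ∑ i ∈ S, ∑ j ∈ S, (M l : ℝ)⁻¹ * ∑ t ∈ range (M l),
        ((M l : ℝ)⁻¹ * ∑ t' ∈ range (M l),
        nc_c Lt θ G i j (Function.update m l t) (Function.update m l t'))) =
        ∑ i ∈ S, ∑ j ∈ S, avg M fun m => (M l : ℝ)⁻¹ * ∑ t ∈ range (M l),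
        ((M l : ℝ)⁻¹ * ∑ t' ∈ range (M l),
        nc_c Lt θ G i j (Function.update m l t) (Function.update m l t')) := by
      unfold avg
      rw [Finset.sum_comm, Finset.mul_sum]
      refine Finset.sum_congr rfl fun i _ => ?_
      rw [Finset.sum_comm, Finset.mul_sum]
    rw [h2, hA', Finset.sum_mul]
    have hp0 : 0 ≤ (M l : ℝ) ^ (-(1 / 2 : ℝ) ^ D) := Real.rpow_nonneg hMl0.le _
    have hterm : ∀ i ∈ S, ∀ j ∈ S, (avg M fun m => (M l : ℝ)⁻¹ * ∑ t ∈ range (M l),
        ((M l : ℝ)⁻¹ * ∑ t' ∈ range (M l),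
        nc_c Lt θ G i j (Function.update m l t) (Function.update m l t'))) ≤
        (∑ l : κ, C i j l) * (M l : ℝ) ^ (-(1 / 2 : ℝ) ^ D) := by
      intro i hi j hj
      have h3 : C i j l * (M l : ℝ) ^ (-δ i j l) ≤
          (∑ l : κ, C i j l) * (M l : ℝ) ^ (-(1 / 2 : ℝ) ^ D) := by
        refine mul_le_mul ?_ ?_ (Real.rpow_nonneg hMl0.le _)
          (Finset.sum_nonneg fun l _ => hC i j l)
        · exact Finset.single_le_sum (f := fun l => C i j l) (fun l _ => hC i j l)
            (Finset.mem_univ l)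
        · exact Real.rpow_le_rpow_of_exponent_le hMl (neg_le_neg (hD (i, j, l)))
      refine le_trans ?_ h3
      rcases hbd i j l (hSd i hi) (hSd j hj) with hb | hb
      · exact nc_avg θ i j l M hM (E i j l) (fun m hm => hm.1 i j l) _ (hb M hM)
      · have h4 := nc_avg (G := G) θ j i l M hM (E i j l) (fun m hm => hm.1 i j l) _ (hb M hM)
        refine le_trans (le_of_eq (avg_congr fun m _ => ?_)) h4
        have h5 : ∀ F : ℕ → ℕ → ℝ, (M l : ℝ)⁻¹ * ∑ t ∈ range (M l),
            ((M l : ℝ)⁻¹ * ∑ t' ∈ range (M l), F t t') =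
            (M l : ℝ)⁻¹ * ∑ t' ∈ range (M l), ((M l : ℝ)⁻¹ * ∑ t ∈ range (M l), F t t') := by
          intro F
          rw [← Finset.mul_sum, Finset.sum_comm, Finset.mul_sum]
        rw [h5]
        congr 1
        refine Finset.sum_congr rfl fun t' _ => ?_
        congr 1
        exact Finset.sum_congr rfl fun t _ => nc_c_symm Lt θ G i j _ _
    calc ∑ i ∈ S, ∑ j ∈ S, (avg M fun m => (M l : ℝ)⁻¹ * ∑ t ∈ range (M l),
          ((M l : ℝ)⁻¹ * ∑ t' ∈ range (M l),
          nc_c Lt θ G i j (Function.update m l t) (Function.update m l t')))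
        ≤ ∑ i ∈ S, ∑ j ∈ S, (∑ l : κ, C i j l) * (M l : ℝ) ^ (-(1 / 2 : ℝ) ^ D) :=
          Finset.sum_le_sum fun i hi => Finset.sum_le_sum fun j hj => hterm i hi j hj
      _ ≤ ∑ i : J, ∑ j ∈ S, (∑ l : κ, C i j l) * (M l : ℝ) ^ (-(1 / 2 : ℝ) ^ D) :=
          Finset.sum_le_sum_of_subset_of_nonneg (Finset.subset_univ S) fun i _ _ =>
            Finset.sum_nonneg fun j _ => mul_nonneg (Finset.sum_nonneg fun l _ => hC i j l) hp0
      _ ≤ ∑ i : J, ∑ j : J, (∑ l : κ, C i j l) * (M l : ℝ) ^ (-(1 / 2 : ℝ) ^ D) :=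
          Finset.sum_le_sum fun i _ =>
            Finset.sum_le_sum_of_subset_of_nonneg (Finset.subset_univ S) fun j _ _ =>
              mul_nonneg (Finset.sum_nonneg fun l _ => hC i j l) hp0
      _ = _ := Finset.sum_congr rfl fun i _ => by rw [Finset.sum_mul]
  have hae := ae_of_bound' (μ := μ) hum hu1 hA0 D hmain
  -- the bad part
  have hbad : Tendsto (fun M : κ → ℕ => (∑ q : J × J, if q.1 ≠ q.2 then
      avg M (fun m => if Cmp Lt (θ q.1 m) (θ q.2 m) then (0 : ℝ) else 1) else 0) +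
      ∑ q : J × J × κ, avg M fun m => if m ∈ E q.1 q.2.1 q.2.2 then (1 : ℝ) else 0)
      atTop (𝓝 0) := by
    have h1 : ∀ q : J × J, Tendsto (fun M : κ → ℕ => if q.1 ≠ q.2 then
        avg M (fun m => if Cmp Lt (θ q.1 m) (θ q.2 m) then (0 : ℝ) else 1) else 0)
        atTop (𝓝 0) := by
      intro q
      by_cases hq : q.1 ≠ q.2
      · simp only [if_pos hq]
        exact hne _ _ hq
      · simp only [if_neg hq]
        exact tendsto_const_nhds
    have h2 := (tendsto_finsetSum (Finset.univ : Finset (J × J)) fun q _ => h1 q).add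
      (tendsto_finsetSum (Finset.univ : Finset (J × J × κ)) fun q _ => hEd q.1 q.2.1 q.2.2)
    simpa using h2
  filter_upwards [hae] with x h1
  have h2 : Tendsto (fun M : κ → ℕ => (avg M fun m => (∏ j, Y j m x) * V m x) -
      avg M fun m => u m x) atTop (𝓝 0) := by
    refine squeeze_zero_norm (fun M => ?_) hbad
    rw [Real.norm_eq_abs, ← avg_sub]
    refine (abs_avg_le M _).trans ?_
    have hq0 : ∀ (m : κ → ℕ) (q : J × J), (0 : ℝ) ≤ if q.1 ≠ q.2 then
        (if Cmp Lt (θ q.1 m) (θ q.2 m) then (0 : ℝ) else 1) else 0 := by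
      intro m q
      split_ifs <;> norm_num
    have h3 : ∀ m, |(∏ j, Y j m x) * V m x - u m x| ≤ (∑ q : J × J, if q.1 ≠ q.2 then
        (if Cmp Lt (θ q.1 m) (θ q.2 m) then (0 : ℝ) else 1) else 0) +
        ∑ q : J × J × κ, if m ∈ E q.1 q.2.1 q.2.2 then (1 : ℝ) else 0 := by
      intro m
      have hn1 : (0 : ℝ) ≤ ∑ q : J × J, if q.1 ≠ q.2 then
          (if Cmp Lt (θ q.1 m) (θ q.2 m) then (0 : ℝ) else 1) else 0 :=
        Finset.sum_nonneg fun q _ => hq0 m q
      have hn2' : ∀ q : J × J × κ, (0 : ℝ) ≤ if m ∈ E q.1 q.2.1 q.2.2 then (1 : ℝ) else 0 :=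
        fun q => by split_ifs <;> norm_num
      have hn2 : (0 : ℝ) ≤ ∑ q : J × J × κ, if m ∈ E q.1 q.2.1 q.2.2 then (1 : ℝ) else 0 :=
        Finset.sum_nonneg fun q _ => hn2' q
      by_cases hg : G m
      · have h0 : (∏ j, Y j m x) * V m x - u m x = 0 := by
          rw [hu]
          unfold vG
          rw [if_pos hg, sub_self]
        rw [h0, abs_zero]
        exact add_nonneg hn1 hn2
      · have h4 : |(∏ j, Y j m x) * V m x - u m x| ≤ 1 := by
          have h0 : u m x = 0 := by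
            rw [hu]
            unfold vG
            rw [if_neg hg]
          rw [h0, sub_zero, abs_mul]
          exact mul_le_one₀ (abs_prod_le_one _ fun j _ => hY1 j m x) (abs_nonneg _) (hV1 m x)
        refine h4.trans ?_
        by_cases hE : ∀ i j l, m ∉ E i j l
        · have hg' : ¬ ∀ i j, i ≠ j → Cmp Lt (θ i m) (θ j m) := fun h => hg ⟨hE, h⟩
          push Not at hg'
          obtain ⟨i, j, hij, hcmp⟩ := hg'
          have h5 := Finset.single_le_sum (f := fun q : J × J => if q.1 ≠ q.2 then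
            (if Cmp Lt (θ q.1 m) (θ q.2 m) then (0 : ℝ) else 1) else 0)
            (fun q _ => hq0 m q) (Finset.mem_univ (i, j))
          have h6 : (if (i, j).1 ≠ (i, j).2 then
            (if Cmp Lt (θ (i, j).1 m) (θ (i, j).2 m) then (0 : ℝ) else 1) else 0) = 1 := by
            rw [if_pos hij, if_neg hcmp]
          rw [h6] at h5
          linarith
        · push Not at hE
          obtain ⟨i, j, l, hjl⟩ := hE
          have h5 := Finset.single_le_sum (f := fun q : J × J × κ =>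
            if m ∈ E q.1 q.2.1 q.2.2 then (1 : ℝ) else 0) (fun q _ => hn2' q)
            (Finset.mem_univ (i, j, l))
          have h6 : (if m ∈ E (i, j, l).1 (i, j, l).2.1 (i, j, l).2.2 then (1 : ℝ) else 0) = 1 :=
            if_pos hjl
          rw [h6] at h5
          linarith
    refine (avg_mono M h3).trans (le_of_eq ?_)
    rw [avg_add]
    congr 1
    · unfold avg
      rw [Finset.sum_comm, Finset.mul_sum]
      refine Finset.sum_congr rfl fun q _ => ?_
      by_cases hq : q.1 ≠ q.2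
      · simp only [if_pos hq]
      · simp only [if_neg hq]
        simp
    · unfold avg
      rw [Finset.sum_comm, Finset.mul_sum]
  have h3 := h2.add h1
  simp only [sub_add_cancel, add_zero] at h3
  exact h3

end Pool.Agent.Lib.Pf720nn
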