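import Pool.Agent.Lib.Pf720nn.CGood
import Pool.Agent.Lib.Pf720nn.NCore
import Pool.Agent.Lib.Pf720nn.PPow

/-!
# Few incomparable pairs for polynomial maps into a nilpotent group

Write `φ = phi π Φ`, `hch = hc.isChain Φ hΦ`. If `g ∈ H b`, `b < s` and `¬ (NegA .. p g ∨ NegA .. p g⁻¹)` then
`|φ b g| ≤ p` (`negA_of_large`); `(a b⁻¹)⁻¹ = b a⁻¹`.

`close_of`: `w m = g i m * (g j m)⁻¹` is `PolG` (`PolF.mul`, `PolF.inv` with `lc_anti`, `lc_comm`, after
enlarging the two degrees to a common one with `lc_le`, `PolF.mono`) and `w 0 = 1`; `exists_level` and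
`GoodFn.close`.

`pair_bound`: let `κ' = κ ⊕ Unit` and `w : (κ' → ℕ) → G`,
`w n = g i (fun l' => n (inl l')) * (g j (fun l' => if l' = l then n (inr ()) else n (inl l')))⁻¹`, a `PolG`
map (`PolG.comp0`) with `w 0 = 1`, which at `n = (m, t)` is `g i m * (g j (update m l t))⁻¹`. By hypothesis it is
not `H s`-valued; take `b` from `exists_level` and `f n = φ b (w n)`, `GoodFn f`, `f 0 = 0`, `f ≢ 0`.
* If `FDep f (inr ())`: take `E', cnt, C, δ` from `GoodFn.LB` (with `l := inr ()`) and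
  `E = {m | (m, 0) ∈ E'}`. `E'` is invariant in the direction `inr ()`, so `E` has density `→ 0` (compose
  with `M ↦ (M, M l) → ∞`; `avg_sumElim` of Lib/Pf720pi/Doubling.lean splits the average), and for `m ∉ E` the
  number of `t < M l` with `¬ Cmp` is at most `cnt (m, t') (M l)` for every `t'` (`r = 0` in `LB`); average over
  `t' < M l` and `m`. This gives `PB Lt g i j l`.
* If `¬ FDep f (inr ())` and `FDep f (inl l)`: the same argument for the exchanged pair: for
  `w' n = g j (n ∘ inl) * (g i (..))⁻¹` one has `w' (m, t) = (w (update m l t, m l))⁻¹`, so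
  `φ b (w' (m, t)) = - f (update m l t, m l) = - f (update m l t, 0)`, which depends on `t` (and `w'` is
  `H b`-valued; `φ b (w' ·)` is a `GoodFn`: prove a variant of `exists_level` for the given `b`, or use
  that `exists_level` for `w'` gives the same first level, or apply `IsPol.rename` to `f`). So `PB Lt g j i l`.
* If neither: `f (m, t) = f (m, 0)` depends neither on `t` nor on `m l`; take
  `E = {m | |f (m, 0)| ≤ p}`, of density `→ 0` by `GoodFn.close` (`m ↦ f (m, 0)` is a `GoodFn` by a substitution in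
  `IsPol`, e.g. `IsPol.glue`; it is not identically zero), and for `m ∉ E` all `t` are comparable, so
  `PB Lt g i j l` with `C = 0`.
-/

set_option autoImplicit false
set_option linter.unusedSectionVars false

open Finset Filter Topology

namespace Pool.Agent.Lib.Pf720nn

open Pool.Agent.Lib.Pf720pm (IsPol Dio FDep LB)
open Pool.Agent.Lib.Pf720ae (avg box)

variable {κ : Type} [Fintype κ] [DecidableEq κ] {G : Type} [Group G] [Group.IsNilpotent G]

private lemma polG_mul_inv {κ : Type} {G : Type} [Group G] {w v : (κ → ℕ) → G} (hw : PolG w)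
    (hv : PolG v) : PolG fun m => w m * (v m)⁻¹ := by
  obtain ⟨e, he, hw⟩ := hw
  obtain ⟨e', he', hv⟩ := hv
  have h1 : PolF (lc G (max e e')) 0 w := hw.mono fun i => lc_le i he (le_max_left _ _)
  have h2 : PolF (lc G (max e e')) 0 v := hv.mono fun i => lc_le i he' (le_max_right _ _)
  have h3 : 0 < max e e' := lt_of_lt_of_le he (le_max_left _ _)
  exact ⟨max e e', h3, PolF.mul (lc_anti _) (fun i j => lc_comm h3 i j) h1
    (PolF.inv (lc_anti _) (fun i j => lc_comm h3 i j) h2)⟩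

private lemma abs_le_of_not_cmp {G : Type} [Group G] {H : ℕ → Subgroup G} {φ : ℕ → G → ℝ} {s : ℕ}
    (hc : IsChain H φ s) {b : ℕ} (hb : b < s) {x y : G} (hg : x * y⁻¹ ∈ H b) {p : ℝ}
    (h : ¬ Cmp (fun a b : G => NegA H φ s 0 p (a * b⁻¹)) x y) : |φ b (x * y⁻¹)| ≤ p := by
  by_contra h1
  push Not at h1
  rcases negA_of_large hc hb hg h1 with h2 | h2
  · exact h (Or.inl h2)
  · refine h (Or.inr ?_)
    have h3 : y * x⁻¹ = (x * y⁻¹)⁻¹ := by group
    show NegA H φ s 0 p (y * x⁻¹)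
    rw [h3]
    exact h2

open Classical in
theorem close_of {H : ℕ → Subgroup G} {r : ℕ → ℕ} {π : (a : ℕ) → G → Fin (r a) → ℤ} {s : ℕ}
    (hc : ZChain H r π s) (Φ : (a : ℕ) → (Fin (r a) → ℤ) →+ ℝ) (hΦ : ∀ a, Dio (Φ a))
    {J : Type} (g : J → (κ → ℕ) → G) (hg : ∀ j, PolG (g j)) (hg0 : ∀ j, g j 0 = 1) {p : ℝ}
    (hp : 0 ≤ p) (i j : J) (hij : ∃ m, g i m * (g j m)⁻¹ ∉ H s) :
    Tendsto (fun M : κ → ℕ => avg M fun m =>
      if Cmp (fun a b : G => NegA H (phi π Φ) s 0 p (a * b⁻¹)) (g i m) (g j m) then (0 : ℝ) else 1)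
      atTop (𝓝 0) := by
  have hch := hc.isChain Φ hΦ
  obtain ⟨b, hb, hmem, hgood, m₀, hm₀⟩ := exists_level hc Φ hΦ
    (polG_mul_inv (hg i) (hg j)) hij
  have h0 : phi π Φ b (g i 0 * (g j 0)⁻¹) = 0 := by
    rw [hg0, hg0, inv_one, mul_one]
    exact hch.phi_one hb
  have h1 := hgood.close (m₀ := m₀) h0 hm₀ hp
  refine squeeze_zero (fun M => Pool.Agent.Lib.Pf720ae.avg_nonneg M fun m => ?_)
    (fun M => Pool.Agent.Lib.Pf720ae.avg_mono M fun m => ?_) h1
  · split_ifs <;> norm_num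
  · by_cases hcmp : Cmp (fun a b : G => NegA H (phi π Φ) s 0 p (a * b⁻¹)) (g i m) (g j m)
    · rw [if_pos hcmp]
      split_ifs <;> norm_num
    · rw [if_neg hcmp, if_pos (abs_le_of_not_cmp hch hb (hmem m) hcmp)]

private lemma tendsto_ext {κ : Type} (l : κ) : Tendsto (fun M : κ → ℕ => Sum.elim M fun _ : Unit => M l)
    atTop atTop := by
  rw [tendsto_atTop_atTop]
  intro K
  refine ⟨fun l' => max (K (Sum.inl l')) (K (Sum.inr ())), fun M hM => ?_⟩
  rintro (l' | u)
  · exact (le_max_left _ _).trans (hM l')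
  · exact (le_max_right _ _).trans (hM l)

private lemma avg_ext (M : κ → ℕ) (l : κ) (Ψ : (κ ⊕ Unit → ℕ) → ℝ) :
    avg (Sum.elim M fun _ : Unit => M l) Ψ =
      avg M fun m => avg (fun _ : Unit => M l) fun t => Ψ (Sum.elim m t) :=
  Pool.Agent.Lib.Pf720pi.avg_sumElim _ _

open Classical in
private lemma pb_of {Θ J : Type} {Lt : Θ → Θ → Prop} {θ : J → (κ → ℕ) → Θ} {i j : J} {l : κ} {p : ℝ}
    (hp : 0 ≤ p) {f : (κ ⊕ Unit → ℕ) → ℝ} (hf : GoodFn f) (hd : FDep f (Sum.inr ()))
    (h : ∀ m t, ¬ Cmp Lt (θ i m) (θ j (Function.update m l t)) →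
      |f (Sum.elim m fun _ => t)| ≤ p) : PB Lt θ i j l := by
  obtain ⟨E', cnt, C, δ, hC, hδ, hE, hE0, hcnt0, hcnt, havg⟩ := hf.LB hd hp
  have hmem : ∀ (m : κ → ℕ) (t t' : Unit → ℕ), Sum.elim m t ∈ E' ↔ Sum.elim m t' ∈ E' := by
    intro m t t'
    have h2 := hE (Sum.elim m t') (t ())
    have h3 : Function.update (Sum.elim m t') (Sum.inr ()) (t ()) = Sum.elim m t := by
      funext x
      rcases x with x | x
      · rw [Function.update_of_ne (by simp)]
        rfl
      · cases x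
        rw [Function.update_self]
        rfl
    rw [h3] at h2
    exact h2
  refine ⟨{m | (Sum.elim m fun _ => 0 : κ ⊕ Unit → ℕ) ∈ E'}, C, δ, hC, hδ, ?_, fun M hM => ?_⟩
  · have h1 := hE0.comp (tendsto_ext l)
    refine h1.congr' ?_
    filter_upwards [eventually_ge_atTop (fun _ : κ => 1)] with M hM
    rw [Function.comp_apply, avg_ext]
    refine Pool.Agent.Lib.Pf720ae.avg_congr fun m _ => ?_
    have h2 : (fun t : Unit → ℕ => if Sum.elim m t ∈ E' then (1 : ℝ) else 0) = fun _ =>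
        if (Sum.elim m fun _ => 0 : κ ⊕ Unit → ℕ) ∈ E' then (1 : ℝ) else 0 := by
      funext t
      simp only [hmem m t fun _ => 0]
    rw [h2, Pool.Agent.Lib.Pf720ae.avg_const fun _ => hM l]
  · have h1 := havg (Sum.elim M fun _ => M l) (by
      rintro (x | x)
      · exact hM x
      · exact hM l)
    rw [avg_ext] at h1
    refine le_trans (Pool.Agent.Lib.Pf720ae.avg_mono M fun m => ?_) h1
    rw [← Pool.Agent.Lib.Pf720ae.avg_const (M := fun _ : Unit => M l) (fun _ => hM l)
      (if m ∈ {m | (Sum.elim m fun _ => 0 : κ ⊕ Unit → ℕ) ∈ E'} then (0 : ℝ) else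
      (((range (M l)).filter fun t =>
        ¬ Cmp Lt (θ i m) (θ j (Function.update m l t))).card : ℝ) / M l)]
    refine Pool.Agent.Lib.Pf720ae.avg_mono _ fun t' => ?_
    by_cases hm : (Sum.elim m fun _ => 0 : κ ⊕ Unit → ℕ) ∈ E'
    · rw [if_pos (show m ∈ {m | (Sum.elim m fun _ => 0 : κ ⊕ Unit → ℕ) ∈ E'} from hm),
        if_pos ((hmem m t' fun _ => 0).2 hm)]
    · have hm' : Sum.elim m t' ∉ E' := fun h2 => hm ((hmem m t' fun _ => 0).1 h2)
      rw [if_neg (show ¬ m ∈ {m | (Sum.elim m fun _ => 0 : κ ⊕ Unit → ℕ) ∈ E'} from hm), if_neg hm']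
      refine div_le_div_of_nonneg_right ?_ (Nat.cast_nonneg _)
      refine le_trans ?_ (hcnt (Sum.elim m t') hm' 0 (M l))
      have hsub : ((range (M l)).filter fun t => ¬ Cmp Lt (θ i m) (θ j (Function.update m l t))) ⊆
          (range (M l)).filter fun t : ℕ => |0 + f (Function.update (Sum.elim m t') (Sum.inr ()) t)| ≤ p := by
        intro t ht
        rw [Finset.mem_filter] at ht ⊢
        refine ⟨ht.1, ?_⟩
        have h3 : Function.update (Sum.elim m t') (Sum.inr ()) t = Sum.elim m fun _ => t := by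
          funext x
          rcases x with x | x
          · rw [Function.update_of_ne (by simp)]
            rfl
          · cases x
            rw [Function.update_self]
            rfl
        rw [h3, zero_add]
        exact h m t ht.2
      exact_mod_cast Finset.card_le_card hsub

theorem pair_bound {H : ℕ → Subgroup G} {r : ℕ → ℕ} {π : (a : ℕ) → G → Fin (r a) → ℤ} {s : ℕ}
    (hc : ZChain H r π s) (Φ : (a : ℕ) → (Fin (r a) → ℤ) →+ ℝ) (hΦ : ∀ a, Dio (Φ a))
    {J : Type} (g : J → (κ → ℕ) → G) (hg : ∀ j, PolG (g j)) (hg0 : ∀ j, g j 0 = 1) {p : ℝ}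
    (hp : 0 ≤ p) (i j : J) (l : κ)
    (hij : ∃ m t, g i m * (g j (Function.update m l t))⁻¹ ∉ H s) :
    PB (fun a b : G => NegA H (phi π Φ) s 0 p (a * b⁻¹)) g i j l ∨
      PB (fun a b : G => NegA H (phi π Φ) s 0 p (a * b⁻¹)) g j i l := by
  classical
  left
  have hch := hc.isChain Φ hΦ
  set ρ₁ : (κ ⊕ Unit → ℕ) → κ → ℕ := fun n l' => n (Sum.inl l') with hρ₁
  set ρ₂ : (κ ⊕ Unit → ℕ) → κ → ℕ := fun n l' => if l' = l then n (Sum.inr ()) else n (Sum.inl l')
    with hρ₂
  have h1 : PolG fun n => g i (ρ₁ n) := (hg i).comp0 ρ₁ fun m n => rfl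
  have h2 : PolG fun n => g j (ρ₂ n) := (hg j).comp0 ρ₂ fun m n => by
    funext l'
    simp only [hρ₂, Pi.add_apply]
    split_ifs <;> rfl
  have hw := polG_mul_inv h1 h2
  have hρ2e : ∀ (m : κ → ℕ) (t : Unit → ℕ), ρ₂ (Sum.elim m t) = Function.update m l (t ()) := by
    intro m t
    funext l'
    simp only [hρ₂, Sum.elim_inl, Sum.elim_inr]
    by_cases hl : l' = l
    · subst hl
      rw [if_pos rfl, Function.update_self]
    · rw [if_neg hl, Function.update_of_ne hl]
  have hρ1e : ∀ (m : κ → ℕ) (t : Unit → ℕ), ρ₁ (Sum.elim m t) = m := fun m t => rfl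
  obtain ⟨b, hb, hmem, hgood, n₀, hn₀⟩ := exists_level hc Φ hΦ hw (by
    obtain ⟨m, t, hmt⟩ := hij
    refine ⟨Sum.elim m fun _ => t, ?_⟩
    rw [hρ2e, hρ1e]
    exact hmt)
  set f : (κ ⊕ Unit → ℕ) → ℝ := fun n => phi π Φ b (g i (ρ₁ n) * (g j (ρ₂ n))⁻¹) with hf
  have hf0 : f 0 = 0 := by
    have e1 : ρ₁ 0 = 0 := rfl
    have e2 : ρ₂ 0 = 0 := by
      funext l'
      simp [hρ₂]
    simp only [hf]
    rw [e1, e2, hg0, hg0, inv_one, mul_one]
    exact hch.phi_one hb
  have hlarge : ∀ m t, ¬ Cmp (fun a b : G => NegA H (phi π Φ) s 0 p (a * b⁻¹)) (g i m)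
      (g j (Function.update m l t)) → |f (Sum.elim m fun _ => t)| ≤ p := by
    intro m t hmt
    have h3 := hmem (Sum.elim m fun _ => t)
    simp only [hf]
    rw [hρ2e, hρ1e] at h3 ⊢
    exact abs_le_of_not_cmp hch hb h3 hmt
  by_cases hd : FDep f (Sum.inr ())
  · exact pb_of hp hgood hd hlarge
  · -- `f` does not depend on the last coordinate
    have hcongr : ∀ n n' : κ ⊕ Unit → ℕ, (∀ l', n (Sum.inl l') = n' (Sum.inl l')) → f n = f n' := by
      intro n n' h3
      refine Pool.Agent.Lib.Pf720pm.fdep_congr f fun x hx => ?_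
      rcases x with x | x
      · exact h3 x
      · cases x
        exact absurd hx hd
    set f3 : (κ → ℕ) → ℝ := fun m => f fun x => m (Sum.elim id (fun _ => l) x) with hf3
    have hgood3 : GoodFn f3 := by
      obtain ⟨d, Ψ, e, c, hΨ, he, hc0, hfe⟩ := hgood
      exact ⟨d, Ψ, fun m => e fun x => m (Sum.elim id (fun _ => l) x), c, hΨ,
        he.rename (Sum.elim id fun _ => l), hc0,
        fun m => hfe fun x => m (Sum.elim id (fun _ => l) x)⟩
    have h3 : f3 (fun l' => n₀ (Sum.inl l')) ≠ 0 := by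
      intro h4
      apply hn₀
      rw [← h4]
      exact hcongr n₀ (fun x => n₀ (Sum.inl (Sum.elim id (fun _ => l) x))) fun l' => rfl
    have h4 := hgood3.close (m₀ := fun l' => n₀ (Sum.inl l')) (by
      simp only [hf3]
      exact hf0) h3 hp
    refine ⟨{m | |f3 m| ≤ p}, 0, 1, le_rfl, one_pos, ?_, fun M hM => ?_⟩
    · refine h4.congr fun M => Pool.Agent.Lib.Pf720ae.avg_congr fun m _ => ?_
      simp only [Set.mem_ofPred_eq]
    · rw [zero_mul]
      refine Pool.Agent.Lib.Pf720ae.avg_le_of_le le_rfl fun m => ?_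
      by_cases hm : m ∈ {m | |f3 m| ≤ p}
      · rw [if_pos hm]
      · rw [if_neg hm]
        have h5 : ((range (M l)).filter fun t =>
            ¬ Cmp (fun a b : G => NegA H (phi π Φ) s 0 p (a * b⁻¹)) (g i m)
              (g j (Function.update m l t))) = ∅ := by
          rw [Finset.filter_eq_empty_iff]
          intro t _ h6
          refine hm ?_
          show |f3 m| ≤ p
          have h7 := hlarge m t h6
          have h8 : f3 m = f (Sum.elim m fun _ => t) :=
            hcongr (fun x => m (Sum.elim id (fun _ => l) x)) _ fun l' => rfl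
          rw [h8]
          exact h7
        rw [h5, Finset.card_empty, Nat.cast_zero, zero_div]

end Pool.Agent.Lib.Pf720nn
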