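import Pool.Agent.Lib.Pf720ae.Poly.MaxBd

/-!
# Closure of the convergence under simultaneous approximation of all the functions

Let `C' = (max 1 C) ^ card J`. Telescoping, `|∏ j, F j (U j m x) - ∏ j, F' i j (U j m x)| ≤
C' * ∑ j, |F j (U j m x) - F' i j (U j m x)|`, so for all `M` the averages of the two products differ by at
most `C' * ∑ j, NS (U j) (fun y => ofReal |F j y - F' i j y|) x =: e i x`. By `MaxBd` the `L²` norm of `e i`
tends to zero, so the liminf of its square is zero a.e.; at such `x` the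
averages of `∏ j, F j (U j m x)` are Cauchy along `atTop`.
-/

set_option autoImplicit false
set_option linter.unusedSectionVars false

open Finset MeasureTheory Filter Topology
open scoped ENNReal

namespace Pool.Agent.Lib.Pf720nn

open Pool.Agent.Lib.Pf720ae

/-- telescoping of a product of bounded factors -/
lemma abs_prod_sub_prod_le {J : Type} [DecidableEq J] (s : Finset J) (a b : J → ℝ) {D : ℝ}
    (hD : 1 ≤ D) (ha : ∀ j, |a j| ≤ D) (hb : ∀ j, |b j| ≤ D) :
    |∏ j ∈ s, a j - ∏ j ∈ s, b j| ≤ D ^ s.card * ∑ j ∈ s, |a j - b j| := by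
  have hD0 : 0 ≤ D := zero_le_one.trans hD
  induction s using Finset.induction_on with
  | empty => simp
  | insert i s hi ih =>
    rw [Finset.prod_insert hi, Finset.prod_insert hi, Finset.sum_insert hi,
      Finset.card_insert_of_notMem hi, pow_succ]
    have e : a i * ∏ j ∈ s, a j - b i * ∏ j ∈ s, b j =
        (a i - b i) * ∏ j ∈ s, a j + b i * (∏ j ∈ s, a j - ∏ j ∈ s, b j) := by ring
    rw [e]
    have h1 : |∏ j ∈ s, a j| ≤ D ^ s.card := by
      rw [Finset.abs_prod]
      exact (Finset.prod_le_prod (fun j _ => abs_nonneg _) fun j _ => ha j).trans (by simp)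
    have h2 : |(a i - b i) * ∏ j ∈ s, a j| ≤ |a i - b i| * D ^ s.card := by
      rw [abs_mul]
      exact mul_le_mul_of_nonneg_left h1 (abs_nonneg _)
    have h3 : |b i * (∏ j ∈ s, a j - ∏ j ∈ s, b j)| ≤
        D * (D ^ s.card * ∑ j ∈ s, |a j - b j|) := by
      rw [abs_mul]
      exact mul_le_mul (hb i) ih (abs_nonneg _) hD0
    have h4 : |a i - b i| * D ^ s.card ≤ D ^ s.card * D * |a i - b i| := by
      have : (1 : ℝ) * (|a i - b i| * D ^ s.card) ≤ D * (|a i - b i| * D ^ s.card) :=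
        mul_le_mul_of_nonneg_right hD (by positivity)
      linarith
    calc |(a i - b i) * ∏ j ∈ s, a j + b i * (∏ j ∈ s, a j - ∏ j ∈ s, b j)|
        ≤ |(a i - b i) * ∏ j ∈ s, a j| + |b i * (∏ j ∈ s, a j - ∏ j ∈ s, b j)| := abs_add_le _ _
      _ ≤ |a i - b i| * D ^ s.card + D * (D ^ s.card * ∑ j ∈ s, |a j - b j|) := add_le_add h2 h3
      _ ≤ D ^ s.card * D * |a i - b i| + D * (D ^ s.card * ∑ j ∈ s, |a j - b j|) := by linarith
      _ = D ^ s.card * D * (|a i - b i| + ∑ j ∈ s, |a j - b j|) := by ring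

theorem cvg_of_approx {κ J X : Type} [Fintype κ] [DecidableEq κ] [Fintype J] [DecidableEq J]
    {mX : MeasurableSpace X} {μ : Measure X} [IsProbabilityMeasure μ] (U : J → (κ → ℕ) → X → X)
    (hMax : ∀ j, MaxBd μ (U j)) (hU : ∀ j m, MeasurePreserving (U j m) μ μ)
    (F : J → X → ℝ) (hF : ∀ j, Measurable (F j)) (hF1 : ∀ j x, |F j x| ≤ 1)
    (F' : ℕ → J → X → ℝ) (hF' : ∀ i j, Measurable (F' i j)) (C : ℝ)
    (hF'1 : ∀ i j x, |F' i j x| ≤ C)
    (hC : ∀ i, ∀ᵐ x ∂μ, Cvg fun m : κ → ℕ => ∏ j, F' i j (U j m x))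
    (ht : ∀ j, Tendsto (fun i => ∫⁻ x, (ENNReal.ofReal |F j x - F' i j x|) ^ 2 ∂μ)
      atTop (𝓝 0)) :
    ∀ᵐ x ∂μ, Cvg fun m : κ → ℕ => ∏ j, F j (U j m x) := by
  choose A hA hmax using hMax
  set g : ℕ → J → X → ℝ≥0∞ := fun n j x => ENNReal.ofReal |F j x - F' n j x| with hg
  have hgm : ∀ n j, Measurable (g n j) := fun n j =>
    (continuous_abs.measurable.comp ((hF j).sub (hF' n j))).ennreal_ofReal
  have hUm : ∀ j m, Measurable (U j m) := fun j m => (hU j m).measurable
  set S : ℕ → X → ℝ≥0∞ := fun n x => ∑ j, (NS (U j) (g n j) x) ^ 2 with hS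
  have hSm : ∀ n, Measurable (S n) := fun n =>
    Finset.measurable_fun_sum _ fun j _ => (measurable_NS (hUm j) (hgm n j)).pow_const 2
  have hlim : ∫⁻ x, liminf (fun n => S n x) atTop ∂μ = 0 := by
    have h1 : ∫⁻ x, liminf (fun n => S n x) atTop ∂μ
        ≤ liminf (fun n => ∫⁻ x, S n x ∂μ) atTop :=
      lintegral_liminf_le hSm
    have h2 : Tendsto (fun n => ∫⁻ x, S n x ∂μ) atTop (𝓝 0) := by
      have h3 : Tendsto (fun n => ∑ j, A j * ∫⁻ x, (g n j x) ^ 2 ∂μ) atTop
          (𝓝 (∑ j : J, A j * 0)) :=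
        tendsto_finsetSum _ fun j _ => ENNReal.Tendsto.const_mul (ht j) (Or.inr (hA j))
      simp only [mul_zero, Finset.sum_const_zero] at h3
      refine tendsto_of_tendsto_of_tendsto_of_le_of_le tendsto_const_nhds h3
        (fun _ => zero_le) (fun n => ?_)
      simp only [hS]
      rw [lintegral_finsetSum _ fun j _ => (measurable_NS (hUm j) (hgm n j)).pow_const 2]
      exact Finset.sum_le_sum fun j _ => hmax j _ (hgm n j)
    rw [h2.liminf_eq] at h1
    exact le_antisymm h1 zero_le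
  have hae : ∀ᵐ x ∂μ, liminf (fun n => S n x) atTop = 0 := by
    rw [lintegral_eq_zero_iff (Measurable.liminf hSm)] at hlim
    exact hlim
  have hCall : ∀ᵐ x ∂μ, ∀ n, Cvg fun m : κ → ℕ => ∏ j, F' n j (U j m x) := ae_all_iff.2 hC
  set D : ℝ := max 1 C with hD
  have hD1 : 1 ≤ D := le_max_left _ _
  have hD0 : 0 < D := lt_of_lt_of_le zero_lt_one hD1
  filter_upwards [hae, hCall] with x hx hCx
  refine exists_tendsto_of_approx _ fun ε hε => ?_
  set ε' : ℝ := ε / (D ^ (Fintype.card J) * (Fintype.card J + 1)) with hε'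
  have hε'0 : 0 < ε' := by positivity
  have h1 : liminf (fun n => S n x) atTop < (ENNReal.ofReal ε') ^ 2 := by
    rw [hx]
    have : 0 < ENNReal.ofReal ε' := ENNReal.ofReal_pos.2 hε'0
    positivity
  obtain ⟨n, hn⟩ := (frequently_lt_of_liminf_lt (by isBoundedDefault) h1).exists
  have hn' : ∀ j, NS (U j) (g n j) x < ENNReal.ofReal ε' := by
    intro j
    by_contra hcon
    have h2 : (NS (U j) (g n j) x) ^ 2 ≤ S n x :=
      Finset.single_le_sum (f := fun j => (NS (U j) (g n j) x) ^ 2) (fun _ _ => zero_le)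
        (Finset.mem_univ j)
    exact absurd (lt_of_le_of_lt h2 hn) (not_lt.2 (pow_le_pow_left' (not_lt.1 hcon) 2))
  refine ⟨fun M => avg M fun m => ∏ j, F' n j (U j m x), hCx n, ?_⟩
  filter_upwards [eventually_pos] with M hM
  rw [← avg_sub]
  have h2 : |avg M fun m => ∏ j, F j (U j m x) - ∏ j, F' n j (U j m x)|
      ≤ avg M fun m => D ^ (Fintype.card J) * ∑ j, |F j (U j m x) - F' n j (U j m x)| := by
    refine (abs_avg_le _ _).trans (avg_mono M fun m => ?_)
    refine abs_prod_sub_prod_le Finset.univ (fun j => F j (U j m x)) (fun j => F' n j (U j m x))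
      hD1 (fun j => (hF1 j _).trans hD1) (fun j => (hF'1 n j _).trans (le_max_right _ _))
  refine h2.trans ?_
  have h5 : (avg M fun m => D ^ (Fintype.card J) * ∑ j, |F j (U j m x) - F' n j (U j m x)|) =
      D ^ (Fintype.card J) * ∑ j, avg M fun m => |F j (U j m x) - F' n j (U j m x)| := by
    rw [avg_smul]
    congr 1
    unfold avg
    rw [Finset.sum_comm, Finset.mul_sum]
  rw [h5]
  have h6 : ∀ j, avg M (fun m => |F j (U j m x) - F' n j (U j m x)|) ≤ ε' := by
    intro j
    have h3 := ofReal_avg_le_NS (U := U j) hM (fun x => |F j x - F' n j x|)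
      (fun x => abs_nonneg _) x
    have h4 : ENNReal.ofReal (avg M fun m => |F j (U j m x) - F' n j (U j m x)|) <
        ENNReal.ofReal ε' := lt_of_le_of_lt h3 (hn' j)
    exact ((ENNReal.ofReal_lt_ofReal_iff hε'0).1 h4).le
  have h7 : ∑ j, avg M (fun m => |F j (U j m x) - F' n j (U j m x)|) ≤
      (Fintype.card J : ℝ) * ε' := by
    refine (Finset.sum_le_sum fun j _ => h6 j).trans (le_of_eq ?_)
    simp
  calc D ^ (Fintype.card J) * ∑ j, avg M (fun m => |F j (U j m x) - F' n j (U j m x)|)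
      ≤ D ^ (Fintype.card J) * ((Fintype.card J : ℝ) * ε') :=
        mul_le_mul_of_nonneg_left h7 (by positivity)
    _ ≤ D ^ (Fintype.card J) * (((Fintype.card J : ℝ) + 1) * ε') := by
        gcongr
        linarith
    _ = ε := by
        rw [hε']
        field_simp

end Pool.Agent.Lib.Pf720nn
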