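import Pool.Agent.Lib.Pf720ae.Principle

/-!
# Convergence of averages from the residue classes

For `M` large write `N l = M l / q`, so `q * N l ≤ M l < q * N l + q`. Exactly
`avg (fun l => q * N l) u = (q ^ card κ)⁻¹ * ∑_{r ∈ piFinset (range q)} avg N (fun m => u (fun l => q * m l + r l))`
(the map `(m, r) ↦ q m + r` is a bijection of boxes), which converges as `N → ∞`, and
`|avg M u - avg (q N) u| ≤ ∑ l, 2 * q / M l → 0` (compare numbers of points: the box of `q N` is contained in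
the box of `M` and the ratio of the cardinals is `∏ (q * N l / M l) ≥ 1 - ∑ q / M l`). `Cvg u` means that
`avg M u` converges along `atTop` (Lib/Pf720ae).
-/

set_option autoImplicit false
set_option linter.unusedSectionVars false

open Finset MeasureTheory Filter Topology
open scoped ENNReal

namespace Pool.Agent.Lib.Pf720nn

open Pool.Agent.Lib.Pf720ae

namespace CvgBAux

variable {κ : Type} [Fintype κ] [DecidableEq κ]

/-- splitting a box into residue classes -/
theorem sum_box_residues {q : ℕ} (hq : 0 < q) (N : κ → ℕ) (u : (κ → ℕ) → ℝ) :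
    ∑ m ∈ box (fun l => q * N l), u m =
      ∑ r ∈ box (fun _ : κ => q), ∑ m ∈ box N, u fun l => q * m l + r l := by
  rw [← Finset.sum_product']
  refine Finset.sum_nbij' (fun m => (fun l => m l % q, fun l => m l / q))
    (fun p l => q * p.2 l + p.1 l) ?_ ?_ ?_ ?_ ?_
  · intro m hm
    rw [mem_box] at hm
    rw [Finset.mem_product, mem_box, mem_box]
    exact ⟨fun l => Nat.mod_lt _ hq, fun l => Nat.div_lt_of_lt_mul (hm l)⟩
  · intro p hp
    rw [Finset.mem_product, mem_box, mem_box] at hp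
    rw [mem_box]
    intro l
    have h1 := hp.1 l
    have h2 := hp.2 l
    calc q * p.2 l + p.1 l < q * p.2 l + q := by omega
      _ = q * (p.2 l + 1) := by ring
      _ ≤ q * N l := Nat.mul_le_mul_left q h2
  · intro m _
    funext l
    exact Nat.div_add_mod (m l) q
  · intro p hp
    rw [Finset.mem_product, mem_box, mem_box] at hp
    refine Prod.ext ?_ ?_
    · funext l
      show (q * p.2 l + p.1 l) % q = p.1 l
      rw [Nat.mul_add_mod, Nat.mod_eq_of_lt (hp.1 l)]
    · funext l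
      show (q * p.2 l + p.1 l) / q = p.2 l
      rw [Nat.mul_add_div hq, Nat.div_eq_of_lt (hp.1 l), add_zero]
  · intro m _
    congr 1
    funext l
    exact (Nat.div_add_mod (m l) q).symm

theorem avg_residues {q : ℕ} (hq : 0 < q) (N : κ → ℕ) (u : (κ → ℕ) → ℝ) :
    avg (fun l => q * N l) u = (∏ _l : κ, (q : ℝ))⁻¹ *
      ∑ r ∈ box (fun _ : κ => q), avg N fun m => u fun l => q * m l + r l := by
  unfold avg
  rw [sum_box_residues hq, ← Finset.mul_sum, ← mul_assoc]
  congr 1
  push_cast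
  rw [Finset.prod_mul_distrib, mul_inv]

theorem abs_avg_sub_le {M K : κ → ℕ} (hK : ∀ l, 0 < K l) (hKM : ∀ l, K l ≤ M l)
    {u : (κ → ℕ) → ℝ} (hu : ∀ m, |u m| ≤ 1) :
    |avg M u - avg K u| ≤ 2 * (1 - ∏ l, ((K l : ℝ) / M l)) := by
  have hM : ∀ l, 0 < M l := fun l => lt_of_lt_of_le (hK l) (hKM l)
  have hPM := prod_cast_pos hM
  have hPK := prod_cast_pos hK
  have hsub : box K ⊆ box M := by
    intro m hm
    rw [mem_box] at hm ⊢
    exact fun l => lt_of_lt_of_le (hm l) (hKM l)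
  set ρ : ℝ := ∏ l, ((K l : ℝ) / M l) with hρ
  have hρ1 : ρ = (∏ l, (K l : ℝ)) / ∏ l, (M l : ℝ) := by
    rw [hρ, Finset.prod_div_distrib]
  have hρle : ρ ≤ 1 := by
    rw [hρ]
    refine Finset.prod_le_one (fun l _ => by positivity) fun l _ => ?_
    rw [div_le_one (by exact_mod_cast hM l)]
    exact_mod_cast hKM l
  have hsplit : ∑ m ∈ box M, u m = ∑ m ∈ box K, u m + ∑ m ∈ box M \ box K, u m := by
    rw [add_comm, Finset.sum_sdiff hsub]
  have e1 : avg M u = ρ * avg K u + (∏ l, (M l : ℝ))⁻¹ * ∑ m ∈ box M \ box K, u m := by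
    unfold avg
    rw [hsplit, hρ1]
    field_simp
  have e2 : |∑ m ∈ box M \ box K, u m| ≤ (∏ l, (M l : ℝ)) - ∏ l, (K l : ℝ) := by
    calc |∑ m ∈ box M \ box K, u m| ≤ ∑ m ∈ box M \ box K, |u m| := Finset.abs_sum_le_sum_abs _ _
      _ ≤ ∑ _m ∈ box M \ box K, (1 : ℝ) := Finset.sum_le_sum fun m _ => hu m
      _ = ((box M \ box K).card : ℝ) := by simp
      _ = _ := by
        rw [Finset.card_sdiff_of_subset hsub, Nat.cast_sub (Finset.card_le_card hsub), card_box,
          card_box]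
        push_cast
        rfl
  have e3 : |(∏ l, (M l : ℝ))⁻¹ * ∑ m ∈ box M \ box K, u m| ≤ 1 - ρ := by
    rw [abs_mul, abs_of_pos (inv_pos.2 hPM)]
    calc (∏ l, (M l : ℝ))⁻¹ * |∑ m ∈ box M \ box K, u m|
        ≤ (∏ l, (M l : ℝ))⁻¹ * ((∏ l, (M l : ℝ)) - ∏ l, (K l : ℝ)) :=
          mul_le_mul_of_nonneg_left e2 (inv_pos.2 hPM).le
      _ = 1 - ρ := by
          rw [hρ1]
          field_simp
  have e4 : |avg K u| ≤ 1 := by
    have h1 := abs_avg_le K u
    exact h1.trans (avg_le_of_le zero_le_one hu)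
  have e5 : avg M u - avg K u = (∏ l, (M l : ℝ))⁻¹ * ∑ m ∈ box M \ box K, u m -
      (1 - ρ) * avg K u := by
    rw [e1]
    ring
  rw [e5]
  calc |(∏ l, (M l : ℝ))⁻¹ * ∑ m ∈ box M \ box K, u m - (1 - ρ) * avg K u|
      ≤ |(∏ l, (M l : ℝ))⁻¹ * ∑ m ∈ box M \ box K, u m| + |(1 - ρ) * avg K u| := abs_sub _ _
    _ ≤ (1 - ρ) + (1 - ρ) * 1 := by
        refine add_le_add e3 ?_
        rw [abs_mul, abs_of_nonneg (by linarith)]
        exact mul_le_mul_of_nonneg_left e4 (by linarith)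
    _ = _ := by ring

theorem tendsto_div_atTop {q : ℕ} (hq : 0 < q) :
    Tendsto (fun M : κ → ℕ => fun l => M l / q) atTop atTop := by
  refine tendsto_atTop.2 fun b => ?_
  filter_upwards [eventually_ge_atTop (fun l => b l * q)] with M hM l
  exact (Nat.le_div_iff_mul_le hq).2 (hM l)

theorem tendsto_ratio {q : ℕ} (hq : 0 < q) :
    Tendsto (fun M : κ → ℕ => ∏ l, (((q * (M l / q) : ℕ) : ℝ) / M l)) atTop (𝓝 1) := by
  have h1 : Tendsto (fun n : ℕ => ((q * (n / q) : ℕ) : ℝ) / n) atTop (𝓝 1) := by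
    have h2 : Tendsto (fun n : ℕ => 1 - (q : ℝ) / n) atTop (𝓝 1) := by
      have := (tendsto_const_div_atTop_nhds_zero_nat (q : ℝ)).const_sub 1
      simpa using this
    refine tendsto_of_tendsto_of_tendsto_of_le_of_le' h2 tendsto_const_nhds ?_ ?_
    · filter_upwards [eventually_gt_atTop 0] with n hn
      have hn0 : (0 : ℝ) < n := by exact_mod_cast hn
      rw [sub_le_iff_le_add, ← add_div, le_div_iff₀ hn0, one_mul]
      have h3 := Nat.div_add_mod n q
      have h4 := Nat.mod_lt n hq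
      have h5 : n ≤ q * (n / q) + q := by omega
      exact_mod_cast h5
    · filter_upwards [eventually_gt_atTop 0] with n hn
      have hn0 : (0 : ℝ) < n := by exact_mod_cast hn
      rw [div_le_one hn0]
      exact_mod_cast Nat.mul_div_le n q
  have h6 : Tendsto (fun M : κ → ℕ => ∏ l, (((q * (M l / q) : ℕ) : ℝ) / M l)) atTop
      (𝓝 (∏ _l : κ, (1 : ℝ))) := by
    refine tendsto_finsetProd _ fun l _ => ?_
    refine h1.comp (tendsto_atTop.2 fun b => ?_)
    exact (eventually_ge b).mono fun M hM => hM l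
  simpa using h6

end CvgBAux

open CvgBAux

theorem cvg_of_residues {κ : Type} [Fintype κ] [DecidableEq κ] {q : ℕ} (hq : 0 < q)
    {u : (κ → ℕ) → ℝ} (hu : ∀ m, |u m| ≤ 1)
    (h : ∀ r : κ → ℕ, (∀ l, r l < q) → Cvg fun m : κ → ℕ => u fun l => q * m l + r l) :
    Cvg u := by
  have h' : ∀ r : κ → ℕ, ∃ L : ℝ, (∀ l, r l < q) →
      Tendsto (fun M : κ → ℕ => avg M fun m => u fun l => q * m l + r l) atTop (𝓝 L) := by
    intro r
    by_cases hr : ∀ l, r l < q
    · obtain ⟨L, hL⟩ := h r hr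
      exact ⟨L, fun _ => hL⟩
    · exact ⟨0, fun h => absurd h hr⟩
  choose L hL using h'
  refine ⟨(∏ _l : κ, (q : ℝ))⁻¹ * ∑ r ∈ box (fun _ : κ => q), L r, ?_⟩
  -- the averages along the multiples of `q`
  have h1 : Tendsto (fun M : κ → ℕ => avg (fun l => q * (M l / q)) u) atTop
      (𝓝 ((∏ _l : κ, (q : ℝ))⁻¹ * ∑ r ∈ box (fun _ : κ => q), L r)) := by
    simp_rw [avg_residues hq (fun l => _ / q) u]
    refine Tendsto.const_mul _ (tendsto_finsetSum _ fun r hr => ?_)
    exact (hL r (mem_box.1 hr)).comp (tendsto_div_atTop hq)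
  have h2 : Tendsto (fun M : κ → ℕ => avg M u - avg (fun l => q * (M l / q)) u) atTop
      (𝓝 0) := by
    refine squeeze_zero_norm' (a := fun M : κ → ℕ =>
      2 * (1 - ∏ l, (((q * (M l / q) : ℕ) : ℝ) / M l))) ?_ ?_
    · filter_upwards [eventually_ge (κ := κ) q] with M hM
      rw [Real.norm_eq_abs]
      refine abs_avg_sub_le (fun l => ?_) (fun l => Nat.mul_div_le _ _) hu
      exact Nat.mul_pos hq (Nat.div_pos (hM l) hq)
    · have := ((tendsto_ratio (κ := κ) hq).const_sub 1).const_mul 2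
      simpa using this
  have h3 := h2.add h1
  simpa using h3

end Pool.Agent.Lib.Pf720nn
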