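import Pool.Agent.Lib.Pf720nn.EFol

/-!
# The entropy of a pair, one of which is a function of the process of the other

Let `h = he μ W K Y P`, `mP = comap P ⊤`, `mQ = comap Q ⊤`, `ε > 0`. Since `mQ ≤ Y ⊔ gen W K mP`, there is
a finite `E ⊆ K` with `cH μ (Y ⊔ sg (obs W P) E) Q ≤ ε` (`tendsto_cH`, `cH_eq_zero`). Take `S, δ` from
`fol_bound` for `P`, decrease `δ` so that `card ι' * δ ≤ ε`, and let `B, D` be Følner for `S ∪ E`. Then, for
`b ∈ B \ D`, `cH μ (Y ⊔ sg (obs W P) B) (obs W Q b) ≤ cH μ (Y ⊔ sg (obs W P) E) Q ≤ ε` (translation: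
`cH_comap`, `comap_sg`, `Inv`, `cH_anti`), and it is `≤ card ι'` for `b ∈ D` (`cH_le_card`), so
`cH μ (Y ⊔ sg (obs W P) B) (JS (obs W Q) B) ≤ 2 ε * B.card` (`cH_JS_le`). With `cH_pair` in both orders,
`cH μ Y (JS (obs W Q) B) + cH μ (Y ⊔ sg (obs W Q) B) (JS (obs W P) B) =
cH μ Y (JS (obs W P) B) + cH μ (Y ⊔ sg (obs W P) B) (JS (obs W Q) B) ≤ (h + ε + 2 ε) * B.card`, and the
left-hand side is `≥ (he μ W K Y Q + he μ W K (Y ⊔ gen W K mQ) P) * B.card` (`he_le`, `cH_anti`). See the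
final estimate in `tailZero_of_folner` (Lib/Pf720np/Ent.lean).
-/

set_option autoImplicit false
set_option linter.unusedSectionVars false

open MeasureTheory Filter Topology
open scoped ENNReal

namespace Pool.Agent.Lib.Pf720nn

open Pool.Agent.Lib.Pf720pi (cH cH_nonneg cH_le_card cH_bot cH_anti cH_pair
  cH_comp_injective cH_eq_zero cH_comap tendsto_cH comap_top_le measurableSet_preimage_of_comap)
open Pool.Agent.Lib.Pf720np (JS sg obs sg_le sg_mono le_sg JS_meas obs_meas comap_obs comap_sg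
  cH_JS_nonneg cH_JS_chain cH_JS_le)

variable {G X : Type} [Group G] [DecidableEq G] [Countable G]

namespace EAddAux

/-- a finite window which almost determines `Q` -/
lemma exists_window {Y : MeasurableSpace X} {mX : MeasurableSpace X} (μ : Measure X)
    [IsProbabilityMeasure μ] {W : G → X → X} (hW : ∀ a, Measurable (W a)) {K : Subgroup G}
    (hY : Y ≤ mX) {ι ι' : Type} [Fintype ι] [Fintype ι'] {P : X → ι} {Q : X → ι'}
    (hP : MeasurableSpace.comap P ⊤ ≤ mX) (hQ : MeasurableSpace.comap Q ⊤ ≤ mX)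
    (h : MeasurableSpace.comap Q ⊤ ≤ Y ⊔ gen W K (MeasurableSpace.comap P ⊤)) {ε : ℝ}
    (hε : 0 < ε) : ∃ E : Finset G, (∀ g ∈ E, g ∈ K) ∧
      cH μ (Y ⊔ sg (obs W P) E) Q ≤ ε := by
  obtain ⟨t, ht⟩ := Countable.exists_injective_nat G
  have hfin : ∀ n : ℕ, {g : G | g ∈ K ∧ t g ≤ n}.Finite := by
    intro n
    refine Set.Finite.subset ((Set.finite_Iic n).preimage ht.injOn) ?_
    intro g hg
    exact hg.2
  set E : ℕ → Finset G := fun n => (hfin n).toFinset with hE
  have hmem : ∀ n g, g ∈ E n ↔ g ∈ K ∧ t g ≤ n := by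
    intro n g
    rw [hE, Set.Finite.mem_toFinset]
    exact Iff.rfl
  have hmono : Monotone fun n => Y ⊔ sg (obs W P) (E n) := by
    intro a b hab
    refine sup_le_sup_left (sg_mono _ fun g hg => ?_) Y
    rw [hmem] at hg ⊢
    exact ⟨hg.1, hg.2.trans hab⟩
  have hmX : ∀ n, Y ⊔ sg (obs W P) (E n) ≤ mX := fun n =>
    sup_le hY (sg_le _ fun b _ => obs_meas hW hP b)
  have hlim := tendsto_cH μ hmono hmX Q (fun i => measurableSet_preimage_of_comap _ hQ _)
  have h0 : cH μ (⨆ n, Y ⊔ sg (obs W P) (E n)) Q = 0 := by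
    refine cH_eq_zero μ (iSup_le hmX) Q fun i => ?_
    refine measurableSet_preimage_of_comap _ (h.trans (sup_le ?_ ?_)) _
    · exact (le_sup_left : Y ≤ Y ⊔ sg (obs W P) (E 0)).trans
        (le_iSup (fun n => Y ⊔ sg (obs W P) (E n)) 0)
    · refine iSup_le fun u => ?_
      have h1 : MeasurableSpace.comap (obs W P u.1) ⊤ ≤ sg (obs W P) (E (t u.1)) :=
        le_sg _ ((hmem _ _).2 ⟨u.2, le_rfl⟩)
      rw [comap_obs] at h1
      exact (h1.trans le_sup_right).trans
        (le_iSup (fun n => Y ⊔ sg (obs W P) (E n)) (t u.1))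
  rw [h0] at hlim
  obtain ⟨n, hn⟩ := (hlim.eventually_lt_const hε).exists
  exact ⟨E n, fun g hg => ((hmem _ _).1 hg).1, hn.le⟩

end EAddAux

open EAddAux

theorem he_add_le {Y : MeasurableSpace X} {mX : MeasurableSpace X} (μ : Measure X)
    [IsProbabilityMeasure μ] {W : G → X → X} (hWmul : ∀ a b x, W (a * b) x = W a (W b x))
    (hWmp : ∀ a, MeasurePreserving (W a) μ μ) {K : Subgroup G} (hK : FolS K) (hY : Y ≤ mX)
    (hYK : Inv W K Y) {ι ι' : Type} [Fintype ι] [Fintype ι'] {P : X → ι} {Q : X → ι'}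
    (hP : MeasurableSpace.comap P ⊤ ≤ mX) (hQ : MeasurableSpace.comap Q ⊤ ≤ mX)
    (h : MeasurableSpace.comap Q ⊤ ≤ Y ⊔ gen W K (MeasurableSpace.comap P ⊤)) :
    he μ W K Y Q + he μ W K (Y ⊔ gen W K (MeasurableSpace.comap Q ⊤)) P ≤ he μ W K Y P := by
  have hW : ∀ a, Measurable (W a) := fun a => (hWmp a).measurable
  obtain ⟨t, ht⟩ := Countable.exists_injective_nat G
  refine le_of_forall_pos_le_add fun ε₀ hε₀ => ?_
  obtain ⟨ε, hε, hε3⟩ : ∃ ε : ℝ, 0 < ε ∧ 3 * ε = ε₀ := ⟨ε₀ / 3, by positivity, by ring⟩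
  obtain ⟨E, hEK, hE⟩ := exists_window μ hW hY hP hQ h hε
  obtain ⟨S, δ, hδ, hSK, hS⟩ := fol_bound μ hWmul hWmp hY hYK hP hε
  have hc : (0 : ℝ) ≤ Fintype.card ι' := Nat.cast_nonneg _
  have hδ' : 0 < min δ (ε / (Fintype.card ι' + 1)) := lt_min hδ (by positivity)
  obtain ⟨B, hB, hBK, D, hDB, hinv, hD⟩ := hK (S ∪ E) _ (by
    intro g hg
    rcases Finset.mem_union.1 hg with h1 | h1
    · exact hSK g h1
    · exact hEK g h1) hδ'
  have hBc : (0 : ℝ) < B.card := by exact_mod_cast hB.card_pos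
  have hfol := hS B D hB hBK hDB (fun b hb hbD k hk =>
    hinv b hb hbD k (Finset.mem_union_left _ hk))
    (hD.trans (mul_le_mul_of_nonneg_right (min_le_left _ _) hBc.le))
  have hsgP : ∀ F : Finset G, Y ⊔ sg (obs W P) F ≤ mX := fun F =>
    sup_le hY (sg_le _ fun b _ => obs_meas hW hP b)
  have hsgQ : ∀ F : Finset G, Y ⊔ sg (obs W Q) F ≤ mX := fun F =>
    sup_le hY (sg_le _ fun b _ => obs_meas hW hQ b)
  -- the members outside of `D`
  have h1 : ∀ b ∈ B, b ∉ D → cH μ (Y ⊔ sg (obs W P) B) (obs W Q b) ≤ ε := by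
    intro b hb hbD
    have h2 : Y ⊔ sg (obs W P) (E.image (· * b)) =
        (Y ⊔ sg (obs W P) E).comap (W b) := by
      rw [MeasurableSpace.comap_sup, hYK b (hBK b hb), comap_sg hWmul]
    have h3 : Y ⊔ sg (obs W P) (E.image (· * b)) ≤ Y ⊔ sg (obs W P) B := by
      refine sup_le_sup_left (sg_mono _ fun g hg => ?_) Y
      obtain ⟨e, he, rfl⟩ := Finset.mem_image.1 hg
      exact hinv b hb hbD e (Finset.mem_union_right _ he)
    refine (cH_anti μ h3 (hsgP B) _ fun i =>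
      measurableSet_preimage_of_comap _ (obs_meas hW hQ b) _).trans ?_
    rw [h2]
    have h4 := cH_comap μ (hsgP E) Q (fun i => measurableSet_preimage_of_comap _ hQ _) (hWmp b)
    have h5 : (fun x => Q (W b x)) = obs W Q b := rfl
    rw [h5] at h4
    rw [h4]
    exact hE
  have h2 : ∀ b, cH μ (Y ⊔ sg (obs W P) B) (obs W Q b) ≤ Fintype.card ι' := fun b =>
    cH_le_card μ (hsgP B) _ fun i => measurableSet_preimage_of_comap _ (obs_meas hW hQ b) _
  have h3 : cH μ (Y ⊔ sg (obs W P) B) (JS (obs W Q) B) ≤ 2 * ε * B.card := by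
    refine (cH_JS_le μ (hsgP B) _ (obs_meas hW hQ) t ht B).trans ?_
    have h4 : ∑ b ∈ B, cH μ (Y ⊔ sg (obs W P) B) (obs W Q b) ≤
        ∑ b ∈ B, (ε + if b ∈ D then (Fintype.card ι' : ℝ) else 0) := by
      refine Finset.sum_le_sum fun b hb => ?_
      by_cases hbD : b ∈ D
      · rw [if_pos hbD]
        linarith [h2 b]
      · rw [if_neg hbD, add_zero]
        exact h1 b hb hbD
    refine h4.trans ?_
    rw [Finset.sum_add_distrib, Finset.sum_const, nsmul_eq_mul, ← Finset.sum_filter,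
      Finset.sum_const, nsmul_eq_mul, Finset.filter_mem_eq_inter, Finset.inter_eq_right.2 hDB]
    have h5 : (D.card : ℝ) * Fintype.card ι' ≤ ε * B.card := by
      calc (D.card : ℝ) * Fintype.card ι'
          ≤ (ε / (Fintype.card ι' + 1) * B.card) * Fintype.card ι' := by
            refine mul_le_mul_of_nonneg_right ?_ hc
            exact hD.trans (mul_le_mul_of_nonneg_right (min_le_right _ _) hBc.le)
        _ = (Fintype.card ι' / (Fintype.card ι' + 1)) * (ε * B.card) := by ring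
        _ ≤ 1 * (ε * B.card) := by
            refine mul_le_mul_of_nonneg_right ?_ (by positivity)
            rw [div_le_one (by positivity)]
            linarith
        _ = ε * B.card := one_mul _
    linarith
  -- the pair
  have hZP : ∀ i, MeasurableSet (JS (obs W P) B ⁻¹' {i}) := JS_meas _ (obs_meas hW hP) B
  have hZQ : ∀ i, MeasurableSet (JS (obs W Q) B ⁻¹' {i}) := JS_meas _ (obs_meas hW hQ) B
  have h4 := cH_pair μ hY (JS (obs W P) B) (JS (obs W Q) B) hZP hZQ
  have h5 := cH_pair μ hY (JS (obs W Q) B) (JS (obs W P) B) hZQ hZP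
  have h6 : cH μ Y (fun x => (JS (obs W P) B x, JS (obs W Q) B x)) =
      cH μ Y (fun x => (JS (obs W Q) B x, JS (obs W P) B x)) :=
    cH_comp_injective (m := Y) μ (fun x => (JS (obs W Q) B x, JS (obs W P) B x))
      (e := Prod.swap) Prod.swap_injective
  have h7 := he_le μ hW hY hQ B hBK
  have hgen : gen W K (MeasurableSpace.comap Q ⊤) ≤ mX := gen_le W hW _ hQ
  have h8 := he_le μ hW (sup_le hY hgen) hP B hBK
  have h9 : cH μ (Y ⊔ gen W K (MeasurableSpace.comap Q ⊤)) (JS (obs W P) B) ≤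
      cH μ (Y ⊔ sg (obs W Q) B) (JS (obs W P) B) := by
    refine cH_anti μ (sup_le_sup_left (sg_le _ fun b hb => ?_) Y) (sup_le hY hgen) _ hZP
    rw [comap_obs]
    exact le_gen W _ (hBK b hb)
  have h10 : (he μ W K Y Q + he μ W K (Y ⊔ gen W K (MeasurableSpace.comap Q ⊤)) P) * B.card ≤
      (he μ W K Y P + ε₀) * B.card := by
    have h11 : (he μ W K Y P + ε₀) * B.card =
        (he μ W K Y P + ε) * B.card + 2 * ε * B.card := by rw [← hε3]; ring
    rw [h11, add_mul]
    linarith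
  exact le_of_mul_le_mul_right h10 hBc

end Pool.Agent.Lib.Pf720nn
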