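import Pool.Agent.Lib.Pf720np.Ent

/-!
# Relative entropy of an action along a subgroup: definitions and basic facts
-/

set_option autoImplicit false
set_option linter.unusedSectionVars false

open MeasureTheory Filter Topology
open scoped ENNReal

namespace Pool.Agent.Lib.Pf720nn

open Pool.Agent.Lib.Pf720pi (cH cH_nonneg cH_le_card cH_bot cH_anti cH_pair
  cH_comp_injective cH_eq_zero cH_comap tendsto_cH comap_top_le measurableSet_preimage_of_comap)
open Pool.Agent.Lib.Pf720np (JS sg obs sg_le sg_mono le_sg JS_meas obs_meas comap_obs comap_sg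
  cH_JS_nonneg)

variable {G X : Type} [Group G]

/-- `W_g⁻¹ Y = Y` for `g ∈ K` -/
def Inv (W : G → X → X) (K : Subgroup G) (Y : MeasurableSpace X) : Prop :=
  ∀ g ∈ K, MeasurableSpace.comap (W g) Y = Y

/-- the σ-algebra generated by the translates by the elements of the set `S` -/
@[reducible] def gen (W : G → X → X) (S : Set G) (mP : MeasurableSpace X) : MeasurableSpace X :=
  ⨆ u : S, MeasurableSpace.comap (W u) mP

/-- every finite subset of `K` has almost invariant finite sets in `K` -/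
def FolS (K : Subgroup G) : Prop :=
  ∀ (S : Finset G) (δ : ℝ), (∀ g ∈ S, g ∈ K) → 0 < δ → ∃ B : Finset G, B.Nonempty ∧
    (∀ b ∈ B, b ∈ K) ∧ ∃ D : Finset G, D ⊆ B ∧ (∀ b ∈ B, b ∉ D → ∀ k ∈ S, k * b ∈ B) ∧
      (D.card : ℝ) ≤ δ * B.card

/-- entropy of the finite-valued map `P` per element of the group `K`, relative to `Y` -/
noncomputable def he [DecidableEq G] {mX : MeasurableSpace X} (μ : Measure X) (W : G → X → X)
    (K : Subgroup G) (Y : MeasurableSpace X) {ι : Type} [Fintype ι] (P : X → ι) : ℝ :=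
  ⨅ F : {F : Finset G // F.Nonempty ∧ ∀ g ∈ F, g ∈ K},
    cH μ Y (JS (obs W P) F.1) / (F.1.card : ℝ)

open Classical in
/-- the indicator of a set as a map to `Bool` -/
noncomputable def ind (A : Set X) : X → Bool := fun x => decide (x ∈ A)

lemma gen_mono (W : G → X → X) {S S' : Set G} (h : S ⊆ S') (mP : MeasurableSpace X) :
    gen W S mP ≤ gen W S' mP :=
  iSup_le fun u => le_iSup (fun u : S' => MeasurableSpace.comap (W u) mP) ⟨u.1, h u.2⟩

lemma le_gen (W : G → X → X) {S : Set G} (mP : MeasurableSpace X) {u : G} (hu : u ∈ S) :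
    MeasurableSpace.comap (W u) mP ≤ gen W S mP :=
  le_iSup (fun u : S => MeasurableSpace.comap (W u) mP) ⟨u, hu⟩

lemma gen_le {mP : MeasurableSpace X} {mX : MeasurableSpace X} (W : G → X → X)
    (hW : ∀ a, Measurable (W a)) (S : Set G) (hP : mP ≤ mX) : gen W S mP ≤ mX :=
  iSup_le fun u => (MeasurableSpace.comap_mono hP).trans (hW u).comap_le

/-- translating `gen` -/
lemma comap_gen (W : G → X → X) (hWmul : ∀ a b x, W (a * b) x = W a (W b x)) (S : Set G)
    (mP : MeasurableSpace X) (c : G) :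
    MeasurableSpace.comap (W c) (gen W S mP) = gen W {u | u * c⁻¹ ∈ S} mP := by
  have hcomp : ∀ u : G, MeasurableSpace.comap (W c) (MeasurableSpace.comap (W u) mP) =
      MeasurableSpace.comap (W (u * c)) mP := by
    intro u
    rw [MeasurableSpace.comap_comp]
    congr 1
    funext x
    exact (hWmul u c x).symm
  unfold gen
  rw [MeasurableSpace.comap_iSup]
  simp only [hcomp]
  refine le_antisymm (iSup_le fun u => ?_) (iSup_le fun u => ?_)
  · refine le_iSup_of_le ⟨u.1 * c, ?_⟩ le_rfl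
    show u.1 * c * c⁻¹ ∈ S
    rw [mul_inv_cancel_right]
    exact u.2
  · refine le_iSup_of_le ⟨u.1 * c⁻¹, u.2⟩ ?_
    simp

lemma Inv.mono {W : G → X → X} {K L : Subgroup G} {Y : MeasurableSpace X} (h : Inv W K Y)
    (hL : L ≤ K) : Inv W L Y := fun g hg => h g (hL hg)

lemma Inv.sup {W : G → X → X} {K : Subgroup G} {Y Y' : MeasurableSpace X} (h : Inv W K Y)
    (h' : Inv W K Y') : Inv W K (Y ⊔ Y') := by
  intro g hg
  rw [MeasurableSpace.comap_sup, h g hg, h' g hg]

lemma inv_gen {W : G → X → X} (hWmul : ∀ a b x, W (a * b) x = W a (W b x)) {K : Subgroup G}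
    {S : Set G} (hS : ∀ g ∈ K, ∀ u, u * g⁻¹ ∈ S ↔ u ∈ S) (mP : MeasurableSpace X) :
    Inv W K (gen W S mP) := by
  intro g hg
  rw [comap_gen W hWmul]
  congr 1
  ext u
  exact hS g hg u

section basic

variable [DecidableEq G] {Y Y' : MeasurableSpace X} {mX : MeasurableSpace X} (μ : Measure X)
  [IsProbabilityMeasure μ] {W : G → X → X} {K : Subgroup G} {ι : Type} [Fintype ι] {P : X → ι}

lemma bddBelow_he (hW : ∀ a, Measurable (W a)) (hY : Y ≤ mX)
    (hP : MeasurableSpace.comap P ⊤ ≤ mX) :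
    BddBelow (Set.range fun F : {F : Finset G // F.Nonempty ∧ ∀ g ∈ F, g ∈ K} =>
      cH μ Y (JS (obs W P) F.1) / (F.1.card : ℝ)) := by
  refine ⟨0, ?_⟩
  rintro _ ⟨F, rfl⟩
  exact div_nonneg (cH_JS_nonneg μ hY _ (obs_meas hW hP) _) (Nat.cast_nonneg _)

instance : Nonempty {F : Finset G // F.Nonempty ∧ ∀ g ∈ F, g ∈ K} :=
  ⟨⟨{1}, Finset.singleton_nonempty _, fun g hg => by
    rw [Finset.mem_singleton] at hg
    rw [hg]
    exact K.one_mem⟩⟩

lemma he_nonneg (hW : ∀ a, Measurable (W a)) (hY : Y ≤ mX)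
    (hP : MeasurableSpace.comap P ⊤ ≤ mX) : 0 ≤ he μ W K Y P := by
  refine le_ciInf fun F => ?_
  exact div_nonneg (cH_JS_nonneg μ hY _ (obs_meas hW hP) _) (Nat.cast_nonneg _)

lemma he_le (hW : ∀ a, Measurable (W a)) (hY : Y ≤ mX)
    (hP : MeasurableSpace.comap P ⊤ ≤ mX) (F : Finset G) (hFK : ∀ g ∈ F, g ∈ K) :
    he μ W K Y P * F.card ≤ cH μ Y (JS (obs W P) F) := by
  rcases F.eq_empty_or_nonempty with rfl | hF
  · simp only [Finset.card_empty, Nat.cast_zero, mul_zero]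
    exact cH_JS_nonneg μ hY _ (obs_meas hW hP) _
  · have h1 : he μ W K Y P ≤ cH μ Y (JS (obs W P) F) / (F.card : ℝ) :=
      ciInf_le (bddBelow_he μ hW hY hP) (⟨F, hF, hFK⟩ :
        {F : Finset G // F.Nonempty ∧ ∀ g ∈ F, g ∈ K})
    have h2 : (0 : ℝ) < F.card := by exact_mod_cast hF.card_pos
    rwa [le_div_iff₀ h2] at h1

lemma le_he {c : ℝ} (h : ∀ F : Finset G, F.Nonempty → (∀ g ∈ F, g ∈ K) →
    c * F.card ≤ cH μ Y (JS (obs W P) F)) : c ≤ he μ W K Y P := by
  refine le_ciInf fun F => ?_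
  have h2 : (0 : ℝ) < F.1.card := by exact_mod_cast F.2.1.card_pos
  rw [le_div_iff₀ h2]
  exact h F.1 F.2.1 F.2.2

lemma exists_he {ε : ℝ} (hε : 0 < ε) : ∃ F : Finset G, F.Nonempty ∧ (∀ g ∈ F, g ∈ K) ∧
    cH μ Y (JS (obs W P) F) ≤ (he μ W K Y P + ε) * F.card := by
  obtain ⟨F, hF⟩ := exists_lt_of_ciInf_lt (show (he μ W K Y P) < he μ W K Y P + ε by linarith)
  have h2 : (0 : ℝ) < F.1.card := by exact_mod_cast F.2.1.card_pos
  refine ⟨F.1, F.2.1, F.2.2, ?_⟩
  rw [div_lt_iff₀ h2] at hF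
  exact hF.le

lemma he_anti (hW : ∀ a, Measurable (W a)) (hYY : Y ≤ Y')
    (hY' : Y' ≤ mX) (hP : MeasurableSpace.comap P ⊤ ≤ mX) :
    he μ W K Y' P ≤ he μ W K Y P := by
  refine le_he μ fun F _ hFK => ?_
  refine (he_le μ hW hY' hP F hFK).trans ?_
  exact cH_anti μ hYY hY' _ (JS_meas _ (obs_meas hW hP) F)

lemma he_subgroup (hW : ∀ a, Measurable (W a)) (hY : Y ≤ mX) {L : Subgroup G} (hL : L ≤ K)
    (hP : MeasurableSpace.comap P ⊤ ≤ mX) : he μ W K Y P ≤ he μ W L Y P :=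
  le_he μ fun F _ hFL => he_le μ hW hY hP F fun g hg => hL (hFL g hg)

end basic

lemma ind_comap_le {m : MeasurableSpace X} {A : Set X} (hA : MeasurableSet[m] A) :
    MeasurableSpace.comap (ind A) ⊤ ≤ m := by
  refine comap_top_le (ind A) fun i => ?_
  cases i with
  | true =>
    have : ind A ⁻¹' {true} = A := by ext x; simp [ind]
    rw [this]; exact hA
  | false =>
    have : ind A ⁻¹' {false} = Aᶜ := by ext x; simp [ind]
    rw [this]; exact hA.compl

variable [DecidableEq G]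

/-- conjugation -/
lemma he_conj_le {Y : MeasurableSpace X} {mX : MeasurableSpace X} (μ : Measure X)
    [IsProbabilityMeasure μ] {W : G → X → X} (hWmul : ∀ a b x, W (a * b) x = W a (W b x))
    (hWmp : ∀ a, MeasurePreserving (W a) μ μ) {L : Subgroup G} (hY : Y ≤ mX)
    {ι : Type} [Fintype ι] {Q : X → ι} (hQ : MeasurableSpace.comap Q ⊤ ≤ mX) (g : G)
    (hg : ∀ u ∈ L, g⁻¹ * u * g ∈ L) :
    he μ W L (Y.comap (W g)) (obs W Q g) ≤ he μ W L Y Q := by
  have hW : ∀ a, Measurable (W a) := fun a => (hWmp a).measurable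
  refine le_he μ fun F _ hFL => ?_
  set F' : Finset G := F.image fun u => g⁻¹ * u * g with hF'
  have hinj : Function.Injective fun u : G => g⁻¹ * u * g := by
    intro u v huv
    simpa using huv
  have hcard : F'.card = F.card := Finset.card_image_of_injective _ hinj
  have hYg : Y.comap (W g) ≤ mX := (MeasurableSpace.comap_mono hY).trans (hW g).comap_le
  have h1 := he_le μ hW hYg (obs_meas hW hQ g) (K := L) F' (fun u hu => by
    obtain ⟨v, hv, rfl⟩ := Finset.mem_image.1 hu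
    exact hg v (hFL v hv))
  rw [hcard] at h1
  refine h1.trans (le_of_eq ?_)
  have h2 := cH_comap μ (m := Y) hY (JS (obs W Q) F) (JS_meas _ (obs_meas hW hQ) F) (hWmp g)
  rw [← h2]
  have h3 := cH_comp_injective (m := Y.comap (W g)) μ (JS (obs W (obs W Q g)) F')
    (e := fun f : ({x : G // x ∈ F'} → ι) => fun u : F =>
      f ⟨g⁻¹ * u.1 * g, Finset.mem_image_of_mem _ u.2⟩) (by
      intro f f' hff
      funext b
      obtain ⟨u, hu, hub⟩ := Finset.mem_image.1 b.2
      have h3 := congrFun hff ⟨u, hu⟩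
      have h4 : b = ⟨g⁻¹ * u * g, Finset.mem_image_of_mem _ hu⟩ := Subtype.ext hub.symm
      rw [h4]
      exact h3)
  rw [← h3]
  congr 1
  funext x u
  show Q (W g (W (g⁻¹ * u.1 * g) x)) = Q (W u.1 (W g x))
  rw [← hWmul, ← hWmul]
  congr 2
  group

/-- relative entropy with a side process given by an increasing union -/
lemma he_le_iSup {Y : MeasurableSpace X} {m : ℕ → MeasurableSpace X} {mX : MeasurableSpace X}
    (μ : Measure X)
    [IsProbabilityMeasure μ] {W : G → X → X} (hW : ∀ a, Measurable (W a)) {L : Subgroup G}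
    {ι : Type} [Fintype ι] {P : X → ι} (hP : MeasurableSpace.comap P ⊤ ≤ mX)
    (hm : Monotone m) (hmX : ∀ n, m n ≤ mX) {c : ℝ}
    (h : ∀ n, c ≤ he μ W L (Y ⊔ m n) P) (hY : Y ≤ mX) : c ≤ he μ W L (Y ⊔ ⨆ n, m n) P := by
  refine le_he μ fun F _ hFL => ?_
  have h2 := tendsto_cH μ (m := fun k => Y ⊔ m k) (fun a b hab => sup_le_sup_left (hm hab) Y)
    (fun k => sup_le hY (hmX k)) (JS (obs W P) F) (JS_meas _ (obs_meas hW hP) F)
  have e : (⨆ k, (Y ⊔ m k)) = Y ⊔ ⨆ n, m n := by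
    rw [sup_iSup]
  rw [e] at h2
  refine ge_of_tendsto' h2 fun k => ?_
  exact (mul_le_mul_of_nonneg_right (h k) (Nat.cast_nonneg _)).trans
    (he_le μ hW (sup_le hY (hmX k)) hP F hFL)

end Pool.Agent.Lib.Pf720nn
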