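import Pool.Agent.Lib.Pf720nn.EDefs

/-!
# The relative entropy along the kernel of a homomorphism is at most the entropy along the group

No Følner sets are needed. `le_he`: let `F ⊆ K` be finite, `h = he μ W L (Y ⊔ gen W {φ < 0} mP) P`.
Show `h * F.card ≤ cH μ Y (JS (obs W P) F)` by induction on the number of values of `φ` on `F` (or
strong induction on `F.card`): let `c` be the largest value, `F₁ = {u ∈ F | φ u = c}`, `F₀ = F \ F₁`.
Then `cH μ Y (JS F) = cH μ Y (JS F₀) + cH μ (Y ⊔ sg F₀) (JS F₁)` (`cH_pair` and `cH_comp_injective`; or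
`cH_JS_chain` with labels), and, with `g ∈ F₁` and `F' = F₁ g⁻¹ ⊆ L`,
`cH μ (Y ⊔ sg F₀) (JS F₁) ≥ cH μ (Y ⊔ gen W {u ∈ K | φ u < c} mP) (JS (F' g))`
(`cH_anti`) `= cH μ (comap (W g) (Y ⊔ gen W {u ∈ K | φ u < 0} mP)) (JS (F' g))` (`comap_gen`, `Inv`)
`= cH μ (Y ⊔ gen W {u ∈ K | φ u < 0} mP) (JS F')` (`cH_comap`, `cH_comp_injective`, see `cH_translate` in
Lib/Pf720np/Ent.lean) `≥ h * F'.card` (`he_le`).
-/

set_option autoImplicit false
set_option linter.unusedSectionVars false

open MeasureTheory Filter Topology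
open scoped ENNReal

namespace Pool.Agent.Lib.Pf720nn

open Pool.Agent.Lib.Pf720pi (cH cH_nonneg cH_le_card cH_bot cH_anti cH_pair
  cH_comp_injective cH_eq_zero cH_comap tendsto_cH comap_top_le measurableSet_preimage_of_comap)
open Pool.Agent.Lib.Pf720np (JS sg obs sg_le sg_mono le_sg JS_meas obs_meas comap_obs comap_sg
  cH_JS_nonneg cH_JS_chain cH_JS_le)

variable {G X : Type} [Group G] [DecidableEq G] [Countable G]

lemma cH_JS_union' {ι : Type} [Fintype ι] {m : MeasurableSpace X} {mX : MeasurableSpace X}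
    (μ : Measure X) [IsProbabilityMeasure μ] (hm : m ≤ mX) (Z : G → X → ι)
    (hZ : ∀ b, MeasurableSpace.comap (Z b) ⊤ ≤ mX) (F0 F1 : Finset G) :
    cH μ m (JS Z (F0 ∪ F1)) = cH μ m (JS Z F0) + cH μ (m ⊔ sg Z F0) (JS Z F1) := by
  have h1 := cH_comp_injective (m := m) μ (JS Z (F0 ∪ F1))
    (e := fun f : ({x : G // x ∈ F0 ∪ F1} → ι) =>
      ((fun b : F1 => f ⟨b.1, Finset.mem_union_right _ b.2⟩),
      (fun b : F0 => f ⟨b.1, Finset.mem_union_left _ b.2⟩))) (by
      intro f g hfg
      simp only [Prod.mk.injEq] at hfg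
      funext b
      rcases Finset.mem_union.1 b.2 with hb | hb
      · exact congrFun hfg.2 ⟨b.1, hb⟩
      · exact congrFun hfg.1 ⟨b.1, hb⟩)
  rw [← h1]
  exact cH_pair μ hm (JS Z F1) (JS Z F0) (fun i => JS_meas Z hZ F1 i) (fun i => JS_meas Z hZ F0 i)

lemma cH_JS_shift {ι : Type} [Fintype ι] {m : MeasurableSpace X} {mX : MeasurableSpace X}
    (μ : Measure X) [IsProbabilityMeasure μ] (hm : m ≤ mX) {W : G → X → X}
    (hWmul : ∀ a b x, W (a * b) x = W a (W b x))
    (hWmp : ∀ a, MeasurePreserving (W a) μ μ) {P : X → ι}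
    (hP : MeasurableSpace.comap P ⊤ ≤ mX) (F : Finset G) (c : G) :
    cH μ (m.comap (W c)) (JS (obs W P) (F.image (· * c))) = cH μ m (JS (obs W P) F) := by
  have hWm : ∀ a, Measurable (W a) := fun a => (hWmp a).measurable
  have h1 := cH_comap μ (m := m) hm
    (JS (obs W P) F) (JS_meas _ (fun b => obs_meas hWm hP b) F) (hWmp c)
  rw [← h1]
  have h2 := cH_comp_injective (m := m.comap (W c)) μ
    (JS (obs W P) (F.image (· * c)))
    (e := fun f : ({x : G // x ∈ F.image (· * c)} → ι) => fun g : F =>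
      f ⟨g.1 * c, Finset.mem_image_of_mem _ g.2⟩) (by
      intro f f' hff
      funext b
      obtain ⟨g, hg, hgb⟩ := Finset.mem_image.1 b.2
      have h3 := congrFun hff ⟨g, hg⟩
      have h4 : b = ⟨g * c, Finset.mem_image_of_mem _ hg⟩ := Subtype.ext hgb.symm
      rw [h4]
      exact h3)
  rw [← h2]
  congr 1
  funext x g
  show P (W (g.1 * c) x) = P (W g.1 (W c x))
  rw [hWmul]

theorem he_level_ge {Y : MeasurableSpace X} {mX : MeasurableSpace X} (μ : Measure X)
    [IsProbabilityMeasure μ] {W : G → X → X} (hWmul : ∀ a b x, W (a * b) x = W a (W b x))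
    (hWmp : ∀ a, MeasurePreserving (W a) μ μ) {K L : Subgroup G} (hY : Y ≤ mX)
    (hYK : Inv W K Y) {ι : Type} [Fintype ι] {P : X → ι} (hP : MeasurableSpace.comap P ⊤ ≤ mX)
    (φ : G → ℝ) (hφ : ∀ a ∈ K, ∀ b ∈ K, φ (a * b) = φ a + φ b)
    (hL : ∀ g, g ∈ L ↔ g ∈ K ∧ φ g = 0) :
    he μ W L (Y ⊔ gen W {u | u ∈ K ∧ φ u < 0} (MeasurableSpace.comap P ⊤)) P ≤
      he μ W K Y P := by
  have hW : ∀ a, Measurable (W a) := fun a => (hWmp a).measurable
  have hZ : ∀ g, MeasurableSpace.comap (obs W P g) ⊤ ≤ mX := obs_meas hW hP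
  have hφ1 : φ 1 = 0 := by
    have := hφ 1 K.one_mem 1 K.one_mem
    rw [mul_one] at this
    linarith
  have hφi : ∀ g ∈ K, φ g⁻¹ = -φ g := by
    intro g hg
    have := hφ g hg g⁻¹ (K.inv_mem hg)
    rw [mul_inv_cancel, hφ1] at this
    linarith
  have hgen : ∀ S : Set G, gen W S (MeasurableSpace.comap P ⊤) ≤ mX := fun S => gen_le W hW S hP
  set Y0 : MeasurableSpace X := Y ⊔ gen W {u | u ∈ K ∧ φ u < 0} (MeasurableSpace.comap P ⊤) with hY0
  have hY0X : Y0 ≤ mX := sup_le hY (hgen _)
  set h := he μ W L Y0 P with hh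
  refine le_he μ fun F hne0 hFK => ?_
  clear hne0
  revert hFK
  induction F using Finset.strongInduction with
  | H F ih =>
    intro hFK
    rcases F.eq_empty_or_nonempty with rfl | hne
    · simp only [Finset.card_empty, Nat.cast_zero, mul_zero]
      exact cH_JS_nonneg μ hY _ hZ _
    · obtain ⟨g, hgF, hgmax⟩ := F.exists_max_image φ hne
      have hgK := hFK g hgF
      set F1 := F.filter fun u => φ u = φ g with hF1
      set F0 := F.filter fun u => ¬ φ u = φ g with hF0
      have hun : F0 ∪ F1 = F := by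
        rw [Finset.union_comm]
        exact Finset.filter_union_filter_not_eq _ F
      have hcard : F0.card + F1.card = F.card := by
        rw [add_comm]
        exact Finset.card_filter_add_card_filter_not _
      have hg1 : g ∈ F1 := Finset.mem_filter.2 ⟨hgF, rfl⟩
      have hss : F0 ⊂ F := by
        refine Finset.filter_ssubset.2 ⟨g, hgF, by simp⟩
      have h0 := ih F0 hss fun u hu => hFK u (Finset.mem_filter.1 hu).1
      have h1 : h * F1.card ≤ cH μ (Y ⊔ sg (obs W P) F0) (JS (obs W P) F1) := by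
        have hsub : Y ⊔ sg (obs W P) F0 ≤
            Y ⊔ gen W {u | u ∈ K ∧ φ u < φ g} (MeasurableSpace.comap P ⊤) := by
          refine sup_le_sup_left (sg_le _ fun b hb => ?_) Y
          rw [comap_obs]
          have hb' := Finset.mem_filter.1 hb
          exact le_gen W _ ⟨hFK b hb'.1, lt_of_le_of_ne (hgmax b hb'.1) hb'.2⟩
        refine le_trans ?_ (cH_anti μ hsub (sup_le hY (hgen _)) _ (JS_meas _ hZ F1))
        have hcom : MeasurableSpace.comap (W g) Y0 =
            Y ⊔ gen W {u | u ∈ K ∧ φ u < φ g} (MeasurableSpace.comap P ⊤) := by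
          rw [hY0, MeasurableSpace.comap_sup, hYK g hgK, comap_gen W hWmul]
          congr 2
          ext u
          simp only [Set.mem_ofPred_eq]
          constructor
          · rintro ⟨h2, h3⟩
            have h4 : u ∈ K := by
              have := K.mul_mem h2 hgK
              rwa [inv_mul_cancel_right] at this
            refine ⟨h4, ?_⟩
            rw [hφ u h4 _ (K.inv_mem hgK), hφi g hgK] at h3
            linarith
          · rintro ⟨h2, h3⟩
            refine ⟨K.mul_mem h2 (K.inv_mem hgK), ?_⟩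
            rw [hφ u h2 _ (K.inv_mem hgK), hφi g hgK]
            linarith
        rw [← hcom]
        set F' := F1.image (· * g⁻¹) with hF'
        have hF1' : F1 = F'.image (· * g) := by
          rw [hF', Finset.image_image]
          have : ((fun x => x * g) ∘ fun x => x * g⁻¹) = id := by
            funext x
            simp
          rw [this, Finset.image_id]
        have hc : F'.card = F1.card :=
          Finset.card_image_of_injective _ (mul_left_injective g⁻¹)
        rw [hF1', cH_JS_shift μ hY0X hWmul hWmp hP F' g, ← hF1', ← hc]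
        refine he_le μ hW hY0X hP F' fun u hu => ?_
        obtain ⟨v, hv, rfl⟩ := Finset.mem_image.1 hu
        have hv' := Finset.mem_filter.1 hv
        rw [hL]
        refine ⟨K.mul_mem (hFK v hv'.1) (K.inv_mem hgK), ?_⟩
        rw [hφ v (hFK v hv'.1) _ (K.inv_mem hgK), hφi g hgK, hv'.2]
        ring
      have h2 := cH_JS_union' μ hY (obs W P) hZ F0 F1
      rw [hun] at h2
      rw [h2]
      have h3 : (F.card : ℝ) = F0.card + F1.card := by
        rw [← hcard]
        push_cast
        ring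
      rw [h3, mul_add]
      exact add_le_add h0 h1

end Pool.Agent.Lib.Pf720nn
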