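import Pool.Agent.Lib.Pf720nn.EKey

/-!
# The entropy along a group is at most the relative entropy along the kernel of a homomorphism

`he_le_past`: for `δ > 0` take a Følner set `B` for the elements `g * f⁻¹`, `g ∈ E ∪ F`, `f ∈ F`;
`key_rel` (`E' = ∅`, `Q` trivial, labels `t g = (φ g, enc g)` in `ℝ ×ₗ ℕ`; outside `K` the value of `φ`
is irrelevant; note that `e * c`, `f * c` lie in `K`) and `he μ W K Y P * B.card ≤ cH μ Y (JS (obs W P) B)`
give `F.card * (h - card ι * δ) ≤ cH μ (Y ⊔ sg E) (JS F)`; let `δ → 0`. This is `hlow1` in the proof of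
`tailZero_of_folner` (Lib/Pf720np/Ent.lean). (Here `e ∈ E`, `f ∈ F` all lie in `K`, so
`φ (e * c) = φ e + φ c < φ f + φ c = φ (f * c)` for `c ∈ K`.)

`he_level_le`: for finite `F ⊆ L` apply `he_le_past` with `E = {u ∈ E_n | u ∈ K, φ u < 0}`, `E_n` an
exhaustion of `G` by finite sets, and let `n → ∞` (`tendsto_cH`), then `le_he`.
-/

set_option autoImplicit false
set_option linter.unusedSectionVars false

open MeasureTheory Filter Topology
open scoped ENNReal

namespace Pool.Agent.Lib.Pf720nn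

open Pool.Agent.Lib.Pf720pi (cH cH_nonneg cH_le_card cH_bot cH_anti cH_pair
  cH_comp_injective cH_eq_zero cH_comap tendsto_cH comap_top_le measurableSet_preimage_of_comap)
open Pool.Agent.Lib.Pf720np (JS sg obs sg_le sg_mono le_sg JS_meas obs_meas comap_obs comap_sg
  cH_JS_nonneg cH_JS_chain cH_JS_le)

variable {G X : Type} [Group G] [DecidableEq G] [Countable G]

theorem he_le_past {Y : MeasurableSpace X} {mX : MeasurableSpace X} (μ : Measure X)
    [IsProbabilityMeasure μ] {W : G → X → X} (hWmul : ∀ a b x, W (a * b) x = W a (W b x))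
    (hWmp : ∀ a, MeasurePreserving (W a) μ μ) {K : Subgroup G} (hK : FolS K) (hY : Y ≤ mX)
    (hYK : Inv W K Y) {ι : Type} [Fintype ι] {P : X → ι} (hP : MeasurableSpace.comap P ⊤ ≤ mX)
    (φ : G → ℝ) (hφ : ∀ a ∈ K, ∀ b ∈ K, φ (a * b) = φ a + φ b) (E F : Finset G)
    (hEK : ∀ g ∈ E, g ∈ K) (hFK : ∀ g ∈ F, g ∈ K) (hEF : ∀ e ∈ E, ∀ f ∈ F, φ e < φ f) :
    he μ W K Y P * F.card ≤ cH μ (Y ⊔ sg (obs W P) E) (JS (obs W P) F) := by
  classical
  have hWm : ∀ a, Measurable (W a) := fun a => (hWmp a).measurable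
  have hZ : ∀ g, MeasurableSpace.comap (obs W P g) ⊤ ≤ mX := obs_meas hWm hP
  have hYE : Y ⊔ sg (obs W P) E ≤ mX := sup_le hY (sg_le _ fun b _ => hZ b)
  rcases F.eq_empty_or_nonempty with rfl | hF
  · simp only [Finset.card_empty, Nat.cast_zero, mul_zero]
    exact cH_JS_nonneg μ hYE _ hZ _
  obtain ⟨enc, henc⟩ := exists_injective_nat G
  set t : G → ℝ ×ₗ ℕ := fun g => toLex (φ g, enc g) with ht
  have htinj : Function.Injective t := by
    intro a b hab
    have h1 := congrArg (fun q => (ofLex q).2) hab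
    exact henc h1
  have htlt : ∀ a b, φ a < φ b → t a < t b := fun a b h => Prod.Lex.toLex_lt_toLex.2 (Or.inl h)
  set h : ℝ := he μ W K Y P with hh
  have hι0 : (0 : ℝ) ≤ Fintype.card ι := Nat.cast_nonneg _
  have hFpos : (0 : ℝ) < F.card := by exact_mod_cast hF.card_pos
  let Q : X → Unit := fun _ => ()
  have hQ0 : ∀ g : G, MeasurableSpace.comap (obs W Q g) ⊤ ≤ (⊥ : MeasurableSpace X) := by
    intro g
    rintro s ⟨u, -, rfl⟩
    refine MeasurableSpace.measurableSet_bot_iff.2 ?_
    by_cases hu : () ∈ u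
    · right
      ext x
      simpa using hu
    · left
      ext x
      simpa using hu
  have hQsg : ∀ S : Finset G, sg (obs W Q) S = ⊥ := fun S =>
    le_bot_iff.1 (sg_le _ fun b _ => hQ0 b)
  have hQ : MeasurableSpace.comap Q ⊤ ≤ mX := by
    rintro s ⟨u, -, rfl⟩
    by_cases hu : () ∈ u
    · have : Q ⁻¹' u = Set.univ := by
        ext x
        simpa using hu
      rw [this]
      exact MeasurableSet.univ
    · have : Q ⁻¹' u = ∅ := by
        ext x
        simpa using hu
      rw [this]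
      exact MeasurableSet.empty
  have h1 : ∀ δ : ℝ, 0 < δ → F.card * (h - Fintype.card ι * δ) ≤
      cH μ (Y ⊔ sg (obs W P) E) (JS (obs W P) F) := by
    intro δ hδ
    obtain ⟨B, hBne, hBK, D, hDB, hB, hD⟩ := hK (((E ∪ F) ×ˢ F).image fun q => q.1 * q.2⁻¹) δ (by
      intro g hg
      obtain ⟨⟨a, b⟩, hab, rfl⟩ := Finset.mem_image.1 hg
      obtain ⟨ha, hb⟩ := Finset.mem_product.1 hab
      refine K.mul_mem ?_ (K.inv_mem (hFK _ hb))
      rcases Finset.mem_union.1 ha with h | h
      · exact hEK _ h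
      · exact hFK _ h) hδ
    have hBpos : (0 : ℝ) < B.card := by exact_mod_cast hBne.card_pos
    have h2 := key_rel μ hWmul hWmp (K := K) hY hYK (P := P) (Q := Q) hP hQ t htinj E ∅ F B D
      hFK hBK hF (by
      intro c hc e he f hf
      refine htlt _ _ ?_
      rw [hφ e (hEK e he) c hc, hφ f (hFK f hf) c hc]
      linarith [hEF e he f hf]) hDB (by
      intro b hb hbD g hg f hf
      rw [← mul_assoc]
      refine hB b hb hbD _ (Finset.mem_image.2 ⟨(g, f), Finset.mem_product.2 ⟨?_, hf⟩, rfl⟩)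
      simpa using hg)
    rw [hQsg, hQsg, sup_bot_eq] at h2
    have h3 : (B.card : ℝ) * (F.card * (h - Fintype.card ι * δ)) ≤
        B.card * cH μ (Y ⊔ sg (obs W P) E) (JS (obs W P) F) := by
      refine le_trans ?_ h2
      have h4 : h * B.card ≤ cH μ Y (JS (obs W P) B) := he_le μ hWm hY hP B hBK
      have h5 : (Fintype.card ι : ℝ) * D.card ≤ Fintype.card ι * (δ * B.card) :=
        mul_le_mul_of_nonneg_left hD hι0
      have h6 : (B.card : ℝ) * (h - Fintype.card ι * δ) ≤
          cH μ Y (JS (obs W P) B) - Fintype.card ι * D.card := by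
        have : (B.card : ℝ) * (h - Fintype.card ι * δ) =
          h * B.card - Fintype.card ι * (δ * B.card) := by ring
        rw [this]
        linarith
      calc (B.card : ℝ) * (F.card * (h - Fintype.card ι * δ)) =
          F.card * (B.card * (h - Fintype.card ι * δ)) := by ring
        _ ≤ F.card * (cH μ Y (JS (obs W P) B) - Fintype.card ι * D.card) :=
          mul_le_mul_of_nonneg_left h6 hFpos.le
    exact le_of_mul_le_mul_left h3 hBpos
  refine le_of_forall_pos_le_add fun x hx => ?_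
  have h7 : (0 : ℝ) < x / (F.card * (Fintype.card ι + 1)) := by positivity
  have h8 := h1 _ h7
  have h9 : (F.card : ℝ) * (Fintype.card ι * (x / (F.card * (Fintype.card ι + 1)))) ≤ x := by
    have : (F.card : ℝ) * (Fintype.card ι * (x / (F.card * (Fintype.card ι + 1)))) =
        x * (Fintype.card ι / (Fintype.card ι + 1)) := by
      field_simp
    rw [this]
    have h10 : (Fintype.card ι : ℝ) / (Fintype.card ι + 1) ≤ 1 := by
      rw [div_le_one (by positivity)]
      linarith
    calc x * (Fintype.card ι / (Fintype.card ι + 1)) ≤ x * 1 :=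
        mul_le_mul_of_nonneg_left h10 hx.le
      _ = x := mul_one x
  have h11 : (F.card : ℝ) * (h - Fintype.card ι * (x / (F.card * (Fintype.card ι + 1)))) =
      h * F.card - F.card * (Fintype.card ι * (x / (F.card * (Fintype.card ι + 1)))) := by
    ring
  rw [h11] at h8
  linarith

theorem he_level_le {Y : MeasurableSpace X} {mX : MeasurableSpace X} (μ : Measure X)
    [IsProbabilityMeasure μ] {W : G → X → X} (hWmul : ∀ a b x, W (a * b) x = W a (W b x))
    (hWmp : ∀ a, MeasurePreserving (W a) μ μ) {K L : Subgroup G} (hK : FolS K) (hY : Y ≤ mX)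
    (hYK : Inv W K Y) {ι : Type} [Fintype ι] {P : X → ι} (hP : MeasurableSpace.comap P ⊤ ≤ mX)
    (φ : G → ℝ) (hφ : ∀ a ∈ K, ∀ b ∈ K, φ (a * b) = φ a + φ b)
    (hL : ∀ g, g ∈ L ↔ g ∈ K ∧ φ g = 0) :
    he μ W K Y P ≤ he μ W L (Y ⊔ gen W {u | u ∈ K ∧ φ u < 0} (MeasurableSpace.comap P ⊤)) P := by
  classical
  have hWm : ∀ a, Measurable (W a) := fun a => (hWmp a).measurable
  have hZ : ∀ g, MeasurableSpace.comap (obs W P g) ⊤ ≤ mX := obs_meas hWm hP
  obtain ⟨en, hen⟩ := exists_surjective_nat G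
  set E : ℕ → Finset G := fun n => (Finset.range n).image en with hE
  have hEmono : Monotone E := fun a b hab =>
    Finset.image_subset_image (Finset.range_mono hab)
  have hEex : ∀ g, ∃ n, g ∈ E n := by
    intro g
    obtain ⟨n, rfl⟩ := hen g
    exact ⟨n + 1, Finset.mem_image_of_mem _ (Finset.mem_range.2 (Nat.lt_succ_self n))⟩
  set m : ℕ → MeasurableSpace X := fun n =>
    sg (obs W P) ((E n).filter fun u => u ∈ K ∧ φ u < 0) with hm
  have hgen : gen W {u | u ∈ K ∧ φ u < 0} (MeasurableSpace.comap P ⊤) = ⨆ n, m n := by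
    refine le_antisymm (iSup_le fun u => ?_) (iSup_le fun n => sg_le _ fun b hb => ?_)
    · obtain ⟨n, hn⟩ := hEex u.1
      refine le_iSup_of_le n ?_
      have := le_sg (obs W P) (S := (E n).filter fun u => u ∈ K ∧ φ u < 0) (b := u.1)
        (Finset.mem_filter.2 ⟨hn, u.2⟩)
      rwa [comap_obs] at this
    · rw [comap_obs]
      exact le_gen W _ (Finset.mem_filter.1 hb).2
  rw [hgen]
  refine he_le_iSup μ hWm hP (fun a b hab => sg_mono _ (Finset.filter_subset_filter _ (hEmono hab)))
    (fun n => sg_le _ fun b _ => hZ b) (fun n => ?_) hY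
  refine le_he μ fun F hF hFL => ?_
  refine he_le_past μ hWmul hWmp hK hY hYK hP φ hφ _ F ?_ (fun g hg => ((hL g).1 (hFL g hg)).1) ?_
  · intro g hg
    exact (Finset.mem_filter.1 hg).2.1
  · intro e he f hf
    rw [((hL f).1 (hFL f hf)).2]
    exact (Finset.mem_filter.1 he).2.2

end Pool.Agent.Lib.Pf720nn
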