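import Pool.Agent.Lib.Pf720nn.ESide
import Pool.Agent.Lib.Pf720nn.EAdd
import Pool.Agent.Lib.Pf720nn.EPast
import Pool.Agent.Lib.Pf720nn.ELevel
import Pool.Agent.Lib.Pf720nn.FDefs

/-!
# Remote pasts along a chain of subgroups have zero relative entropy
-/

set_option autoImplicit false
set_option linter.unusedSectionVars false

open MeasureTheory Filter Topology
open scoped ENNReal

namespace Pool.Agent.Lib.Pf720nn

open Pool.Agent.Lib.Pf720pi (cH cH_nonneg cH_le_card cH_bot cH_anti cH_pair
  cH_comp_injective cH_eq_zero cH_comap tendsto_cH comap_top_le measurableSet_preimage_of_comap)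
open Pool.Agent.Lib.Pf720np (JS sg obs sg_le sg_mono le_sg JS_meas obs_meas comap_obs comap_sg
  cH_JS_nonneg cH_JS_chain cH_JS_le)

variable {G X : Type} [Group G]

variable [DecidableEq G] [Countable G]

theorem tail_he {mX : MeasurableSpace X} (μ : Measure X)
    [IsProbabilityMeasure μ] {W : G → X → X} (hW1 : ∀ x, W 1 x = x)
    (hWmul : ∀ a b x, W (a * b) x = W a (W b x))
    (hWmp : ∀ a, MeasurePreserving (W a) μ μ) {H : ℕ → Subgroup G} {φ : ℕ → G → ℝ} {s : ℕ}
    (hc : IsChain H φ s) (hF : ∀ a, FolS (H a)) :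
    ∀ (k a : ℕ), a + k = s → ∀ (Y : MeasurableSpace X), Y ≤ mX → Inv W (H a) Y →
      ∀ (ι : Type) [Fintype ι] (P : X → ι), MeasurableSpace.comap P ⊤ ≤ mX → ∀ A : Set X,
      MeasurableSet[⨅ n : ℕ, Y ⊔ gen W {u | NegA H φ s a n u} (MeasurableSpace.comap P ⊤)] A →
      he μ W (H a) Y (ind A) = 0 := by
  have hW : ∀ a, Measurable (W a) := fun a => (hWmp a).measurable
  intro k
  induction k with
  | zero =>
    intro a ha Y hY hYi ι _ P hP A hA
    have ha' : a = s := by omega
    have hAY : MeasurableSet[Y] A := by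
      have h1 : (⨅ n : ℕ, Y ⊔ gen W {u | NegA H φ s a n u} (MeasurableSpace.comap P ⊤)) ≤ Y := by
        refine (iInf_le _ 0).trans (sup_le le_rfl (iSup_le fun u => ?_))
        obtain ⟨b, h1, h2, -⟩ := u.2
        omega
      exact h1 A hA
    refine le_antisymm ?_ (he_nonneg μ hW hY ((ind_comap_le hAY).trans hY))
    have h1 := he_le μ hW hY ((ind_comap_le hAY).trans hY) (K := H a) {1} (fun g hg => by
      rw [Finset.mem_singleton] at hg
      rw [hg]
      exact (H a).one_mem)
    rw [Finset.card_singleton, Nat.cast_one, mul_one] at h1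
    refine h1.trans (le_of_eq ?_)
    refine cH_eq_zero μ hY _ fun i => ?_
    have h2 : MeasurableSpace.comap (JS (obs W (ind A)) {1}) ⊤ ≤ Y := by
      refine sg_le _ fun b hb => ?_
      rw [Finset.mem_singleton] at hb
      subst hb
      have e : obs W (ind A) 1 = ind A := by
        funext x
        show ind A (W 1 x) = ind A x
        rw [hW1]
      rw [e]
      exact ind_comap_le hAY
    exact measurableSet_preimage_of_comap _ h2 _
  | succ k ih =>
    intro a ha Y hY hYi ι _ P hP A hA
    have has : a < s := by omega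
    set mP := MeasurableSpace.comap P ⊤ with hmP
    have hadd := hc.add a has
    have hker := hc.ker a has
    have hLK : H (a + 1) ≤ H a := fun g hg => ((hker g).1 hg).1
    have hφ1 : φ a 1 = 0 := by
      have := hadd 1 (H a).one_mem 1 (H a).one_mem
      rw [mul_one] at this
      linarith
    have hφinv : ∀ g ∈ H a, φ a g⁻¹ = -φ a g := by
      intro g hg
      have := hadd g hg g⁻¹ ((H a).inv_mem hg)
      rw [mul_inv_cancel, hφ1] at this
      linarith
    -- the pasts
    have hpastX : ∀ c : ℝ, gen W {u | u ∈ H a ∧ φ a u < c} mP ≤ mX := fun c => gen_le W hW _ hP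
    have hpi : ∀ c : ℝ, Inv W (H (a + 1)) (gen W {u | u ∈ H a ∧ φ a u < c} mP) := by
      intro c
      refine inv_gen hWmul (fun g hg u => ?_) mP
      have hg' := (hker g).1 hg
      constructor
      · rintro ⟨h1, h2⟩
        have hu : u ∈ H a := by
          have := (H a).mul_mem h1 hg'.1
          rwa [inv_mul_cancel_right] at this
        refine ⟨hu, ?_⟩
        rwa [hadd u hu g⁻¹ ((H a).inv_mem hg'.1), hφinv g hg'.1, hg'.2, neg_zero, add_zero] at h2
      · rintro ⟨h1, h2⟩
        refine ⟨(H a).mul_mem h1 ((H a).inv_mem hg'.1), ?_⟩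
        rwa [hadd u h1 g⁻¹ ((H a).inv_mem hg'.1), hφinv g hg'.1, hg'.2, neg_zero, add_zero]
    have hshift : ∀ g ∈ H a, ∀ c : ℝ, (gen W {u | u ∈ H a ∧ φ a u < c} mP).comap (W g) =
        gen W {u | u ∈ H a ∧ φ a u < c + φ a g} mP := by
      intro g hg c
      rw [comap_gen W hWmul]
      congr 1
      ext u
      constructor
      · rintro ⟨h1, h2⟩
        have hu : u ∈ H a := by
          have := (H a).mul_mem h1 hg
          rwa [inv_mul_cancel_right] at this
        refine ⟨hu, ?_⟩
        rw [hadd u hu g⁻¹ ((H a).inv_mem hg), hφinv g hg] at h2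
        linarith
      · rintro ⟨h1, h2⟩
        refine ⟨(H a).mul_mem h1 ((H a).inv_mem hg), ?_⟩
        rw [hadd u h1 g⁻¹ ((H a).inv_mem hg), hφinv g hg]
        linarith
    -- the set `A`
    have hAX : MeasurableSet[mX] A := by
      have h0 : (⨅ n : ℕ, Y ⊔ gen W {u | NegA H φ s a n u} mP) ≤ mX :=
        (iInf_le _ 0).trans (sup_le hY (gen_le W hW _ hP))
      exact h0 A hA
    have hQX : MeasurableSpace.comap (ind A) ⊤ ≤ mX := ind_comap_le hAX
    have hA0 : ∀ c : ℝ, he μ W (H (a + 1)) (Y ⊔ gen W {u | u ∈ H a ∧ φ a u < c} mP) (ind A) = 0 := by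
      intro c
      refine ih (a + 1) (by omega) _ (sup_le hY (hpastX c)) ((hYi.mono hLK).sup (hpi c)) ι P hP A ?_
      have hle : (⨅ n : ℕ, Y ⊔ gen W {u | NegA H φ s a n u} mP) ≤
          ⨅ n : ℕ, (Y ⊔ gen W {u | u ∈ H a ∧ φ a u < c} mP) ⊔
            gen W {u | NegA H φ s (a + 1) n u} mP := by
        refine le_iInf fun n => ?_
        obtain ⟨n', hn1, hn2⟩ : ∃ n' : ℕ, n ≤ n' ∧ -c ≤ n' :=
          ⟨max n ⌈-c⌉₊, le_max_left _ _, (Nat.le_ceil _).trans (by
            exact_mod_cast le_max_right _ _)⟩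
        refine (iInf_le _ n').trans (sup_le (le_sup_left.trans le_sup_left) (iSup_le fun u => ?_))
        obtain ⟨b, hb1, hb2, hb3, hb4⟩ := u.2
        rcases eq_or_lt_of_le hb1 with hb | hb
        · subst hb
          refine le_trans ?_ (le_trans le_sup_right le_sup_left)
          exact le_gen W mP ⟨hb3, by linarith⟩
        · refine le_trans ?_ le_sup_right
          refine le_gen W mP ⟨b, hb, hb2, hb3, hb4.trans_le ?_⟩
          have : (n : ℝ) ≤ n' := by exact_mod_cast hn1
          linarith
      exact hle A hA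
    set Y₀ := Y ⊔ gen W {u | u ∈ H a ∧ φ a u < 0} mP with hY₀
    have hY₀X : Y₀ ≤ mX := sup_le hY (hpastX 0)
    have hY₀i : Inv W (H (a + 1)) Y₀ := (hYi.mono hLK).sup (hpi 0)
    have hstep : ∀ g ∈ H a, he μ W (H (a + 1)) Y₀ (obs W (ind A) g) = 0 := by
      intro g hg
      refine le_antisymm ?_ (he_nonneg μ hW hY₀X (obs_meas hW hQX g))
      have h1 := he_conj_le μ hWmul hWmp (L := H (a + 1))
        (sup_le hY (hpastX (-φ a g))) hQX g (by
          intro u hu
          have hu' := (hker u).1 hu
          rw [hker]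
          refine ⟨(H a).mul_mem ((H a).mul_mem ((H a).inv_mem hg) hu'.1) hg, ?_⟩
          rw [hadd _ ((H a).mul_mem ((H a).inv_mem hg) hu'.1) _ hg, hadd _ ((H a).inv_mem hg) _
            hu'.1, hφinv g hg, hu'.2]
          ring)
      rw [hA0, MeasurableSpace.comap_sup, hYi g hg, hshift g hg, neg_add_cancel] at h1
      exact h1
    -- adding the process of `A` to the side
    set mQ := MeasurableSpace.comap (ind A) ⊤ with hmQ
    obtain ⟨en, hen⟩ := exists_surjective_nat G
    have hside : he μ W (H (a + 1)) Y₀ P ≤ he μ W (H (a + 1)) (Y₀ ⊔ gen W (H a) mQ) P := by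
      classical
      set S : ℕ → Finset G := fun n => ((Finset.range n).image en).filter fun g => g ∈ H a with hS
      have hSmono : Monotone S := fun a b hab => Finset.filter_subset_filter _
        (Finset.image_subset_image (Finset.range_mono hab))
      have hgen : gen W (H a) mQ = ⨆ n, sg (obs W (ind A)) (S n) := by
        refine le_antisymm (iSup_le fun u => ?_) (iSup_le fun n => sg_le _ fun b hb => ?_)
        · obtain ⟨n, hn⟩ := hen u.1
          refine le_iSup_of_le (n + 1) ?_
          have hu : u.1 ∈ S (n + 1) := Finset.mem_filter.2 ⟨Finset.mem_image.2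
            ⟨n, Finset.mem_range.2 (Nat.lt_succ_self n), hn⟩, u.2⟩
          have := le_sg (obs W (ind A)) hu
          rwa [comap_obs] at this
        · rw [comap_obs]
          exact le_gen W mQ (Finset.mem_filter.1 hb).2
      rw [hgen]
      refine he_le_iSup μ hW hP (fun i j hij => sg_mono _ (hSmono hij))
        (fun n => sg_le _ fun b _ => obs_meas hW hQX b) (fun n => ?_) hY₀X
      have hQn : MeasurableSpace.comap (fun x (i : S n) => obs W (ind A) i.1 x) ⊤ ≤ mX :=
        sg_le (S := S n) (obs W (ind A)) fun b _ => obs_meas hW hQX b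
      have h1 := he_side μ hWmul hWmp (hF (a + 1)) hY₀X hY₀i hP hQn
        (he_joint_zero μ hWmul hWmp (hF (a + 1)) hY₀X hY₀i
          (Z := fun (i : S n) => obs W (ind A) i.1) (fun i => obs_meas hW hQX _)
          fun i => hstep i.1 (Finset.mem_filter.1 i.2).2)
      refine h1.trans ?_
      refine he_anti μ hW (sup_le_sup_left ?_ Y₀) (sup_le hY₀X (gen_le W hW _ hQn)) hP
      have h2 := le_gen W (MeasurableSpace.comap (fun x (i : S n) => obs W (ind A) i.1 x) ⊤)
        (u := 1) (H (a + 1)).one_mem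
      have e : W 1 = id := funext hW1
      rw [e, MeasurableSpace.comap_id] at h2
      exact h2
    have hQK : Inv W (H a) (gen W (H a) mQ) := inv_gen hWmul (fun g hg u => by
      constructor
      · intro h
        have := (H a).mul_mem h hg
        rwa [inv_mul_cancel_right] at this
      · intro h
        exact (H a).mul_mem h ((H a).inv_mem hg)) mQ
    have hQKX : gen W (H a) mQ ≤ mX := gen_le W hW _ hQX
    have h1 := he_level_le μ hWmul hWmp (hF a) hY hYi hP (φ a) hadd hker
    have h2 := he_level_ge μ hWmul hWmp (sup_le hY hQKX) (hYi.sup hQK) hP (φ a) hadd hker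
    have h3 := he_add_le μ hWmul hWmp (hF a) hY hYi hP hQX (by
      have h4 : (⨅ n : ℕ, Y ⊔ gen W {u | NegA H φ s a n u} mP) ≤ Y ⊔ gen W (H a) mP := by
        refine (iInf_le _ 0).trans (sup_le_sup_left (gen_mono W ?_ mP) Y)
        rintro u ⟨b, hb1, hb2, hb3, -⟩
        exact hc.anti hb1 hb2.le hb3
      exact (ind_comap_le hA).trans h4)
    have e : Y ⊔ gen W (H a) mQ ⊔ gen W {u | u ∈ H a ∧ φ a u < 0} mP =
        Y₀ ⊔ gen W (H a) mQ := by
      rw [hY₀, sup_assoc, sup_assoc, sup_comm (gen W (H a) mQ)]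
    rw [e] at h2
    refine le_antisymm ?_ (he_nonneg μ hW hY hQX)
    linarith

end Pool.Agent.Lib.Pf720nn
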