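import Pool.Agent.Lib.Pf720nn.EMax
import Pool.Agent.Lib.Pf720nn.ETail

/-!
# The remote past relative to a zero entropy factor is contained in it
-/

set_option autoImplicit false
set_option linter.unusedSectionVars false

open MeasureTheory Filter Topology
open scoped ENNReal

namespace Pool.Agent.Lib.Pf720nn

open Pool.Agent.Lib.Pf720np (JS sg obs sg_le sg_mono le_sg JS_meas obs_meas comap_obs comap_sg
  cH_JS_nonneg cH_JS_chain cH_JS_le ZeroEnt joinEntropy_eq)

variable {G X : Type} [Group G] [DecidableEq G] [Countable G]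

lemma zeroEnt_of_he {mX : MeasurableSpace X} (μ : Measure X) [IsProbabilityMeasure μ]
    {W : G → X → X} (hW : ∀ a, Measurable (W a)) {A : Set X} (hA : MeasurableSet A)
    (h : he μ W ⊤ ⊥ (ind A) = 0) : ZeroEnt μ W A := by
  intro ε hε
  obtain ⟨F, hF, -, hle⟩ := exists_he μ (W := W) (K := ⊤) (Y := ⊥) (P := ind A) hε
  refine ⟨F, hF, ?_⟩
  rw [joinEntropy_eq μ F (ind A) (fun x => by simp [ind]) (obs_meas hW (ind_comap_le hA))]
  rw [h, zero_add] at hle
  exact hle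

theorem tail_factor {mX : MeasurableSpace X} (μ : Measure X)
    [IsProbabilityMeasure μ] {W : G → X → X} (hW1 : ∀ x, W 1 x = x)
    (hWmul : ∀ a b x, W (a * b) x = W a (W b x))
    (hWmp : ∀ a, MeasurePreserving (W a) μ μ) {H : ℕ → Subgroup G} {φ : ℕ → G → ℝ} {s : ℕ}
    (hc : IsChain H φ s) (hF : ∀ a, FolS (H a))
    {ι : Type} [Fintype ι] {P : X → ι} (hP : MeasurableSpace.comap P ⊤ ≤ mX) :
    ∃ Y : MeasurableSpace X, Y ≤ mX ∧ Inv W ⊤ Y ∧
      Y ≤ MeasurableSpace.generateFrom {A | MeasurableSet[mX] A ∧ ZeroEnt μ W A} ∧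
      ∀ A, MeasurableSet[⨅ n : ℕ, PS W H φ s (MeasurableSpace.comap P ⊤) Y n 1] A →
        ∃ B, MeasurableSet[Y] B ∧ A =ᵐ[μ] B := by
  have hW : ∀ a, Measurable (W a) := fun a => (hWmp a).measurable
  have hG : FolS (⊤ : Subgroup G) := by rw [← hc.top]; exact hF 0
  obtain ⟨Y, hYP, hYi, hYz, hY⟩ := exists_factor μ hW1 hWmul hWmp hG hP
  have hgen : gen W Set.univ (MeasurableSpace.comap P ⊤) ≤ mX := gen_le W hW _ hP
  refine ⟨Y, hYP.trans hgen, hYi, hYz.trans ?_, fun A hA => ?_⟩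
  · exact MeasurableSpace.generateFrom_mono fun A hA => ⟨hA.1, zeroEnt_of_he μ hW hA.1 hA.2⟩
  · have hle : (⨅ n : ℕ, PS W H φ s (MeasurableSpace.comap P ⊤) Y n 1) ≤
        gen W Set.univ (MeasurableSpace.comap P ⊤) :=
      (iInf_le _ 0).trans (sup_le hYP (gen_mono W (Set.subset_univ _) _))
    refine hY A (hle A hA) ?_
    have e : (⨅ n : ℕ, PS W H φ s (MeasurableSpace.comap P ⊤) Y n 1) =
        ⨅ n : ℕ, Y ⊔ gen W {u | NegA H φ s 0 n u} (MeasurableSpace.comap P ⊤) :=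
      iInf_congr fun n => PS_one
    rw [e] at hA
    have h1 := tail_he μ hW1 hWmul hWmp hc hF s 0 (zero_add s) Y (hYP.trans hgen)
      (by rw [hc.top]; exact hYi) ι P hP A hA
    rw [hc.top] at h1
    exact h1

end Pool.Agent.Lib.Pf720nn
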