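import Pool.Agent.Lib.Pf720nn.EKey

/-!
# Upper bounds along Følner sets, relative version

`fol_bound`: let `h = he μ W K Y P`; choose `F0` (`exists_he`, with `ε / 2`), `δ` with
`card ι * δ ≤ ε / 2` and `S = image of F0 × F0 under (f, f') ↦ f * f'⁻¹`; `key_rel` with `E = E' = ∅`
and `Q` trivial (e.g. `Q : X → Unit`). See the proof of `hHB` in `tailZero_of_folner`
(Lib/Pf720np/Ent.lean), which is the case `Y = ⊥`, `K = ⊤`.

`he_joint_zero`: by `fol_bound` for each `i` (finitely many: take the union of the `S` and the minimum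
of the `δ`) and the Følner property there is `B` with `cH μ Y (JS (obs W (Z i)) B) ≤ ε' * B.card` for
all `i`, and the joint variable of the family along `B` has entropy at most the sum
(`cH_pair`, `cH_anti`, induction on a finset of indices, `cH_comp_injective`).
-/

set_option autoImplicit false
set_option linter.unusedSectionVars false

open MeasureTheory Filter Topology
open scoped ENNReal

namespace Pool.Agent.Lib.Pf720nn

open Pool.Agent.Lib.Pf720pi (cH cH_nonneg cH_le_card cH_bot cH_anti cH_pair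
  cH_comp_injective cH_eq_zero cH_comap tendsto_cH comap_top_le measurableSet_preimage_of_comap)
open Pool.Agent.Lib.Pf720np (JS sg obs sg_le sg_mono le_sg JS_meas obs_meas comap_obs comap_sg
  cH_JS_nonneg cH_JS_chain cH_JS_le)

variable {G X : Type} [Group G] [DecidableEq G] [Countable G]

lemma const_comap_le (m : MeasurableSpace X) {Z : X → Unit} :
    MeasurableSpace.comap Z ⊤ ≤ m := by
  rintro s ⟨t, -, rfl⟩
  by_cases h : () ∈ t
  · have : Z ⁻¹' t = Set.univ := by
      ext x
      simp only [Set.mem_preimage, Set.mem_univ, iff_true]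
      exact h
    rw [this]
    exact MeasurableSet.univ
  · have : Z ⁻¹' t = ∅ := by
      ext x
      simp only [Set.mem_preimage, Set.mem_empty_iff_false, iff_false]
      exact h
    rw [this]
    exact MeasurableSet.empty

theorem fol_bound {Y : MeasurableSpace X} {mX : MeasurableSpace X} (μ : Measure X)
    [IsProbabilityMeasure μ] {W : G → X → X} (hWmul : ∀ a b x, W (a * b) x = W a (W b x))
    (hWmp : ∀ a, MeasurePreserving (W a) μ μ) {K : Subgroup G} (hY : Y ≤ mX) (hYK : Inv W K Y)
    {ι : Type} [Fintype ι] {P : X → ι} (hP : MeasurableSpace.comap P ⊤ ≤ mX) {ε : ℝ}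
    (hε : 0 < ε) : ∃ (S : Finset G) (δ : ℝ), 0 < δ ∧ (∀ g ∈ S, g ∈ K) ∧ ∀ B D : Finset G,
      B.Nonempty → (∀ b ∈ B, b ∈ K) → D ⊆ B → (∀ b ∈ B, b ∉ D → ∀ k ∈ S, k * b ∈ B) →
      (D.card : ℝ) ≤ δ * B.card → cH μ Y (JS (obs W P) B) ≤ (he μ W K Y P + ε) * B.card := by
  obtain ⟨t, ht⟩ := Countable.exists_injective_nat G
  obtain ⟨F0, hF0, hF0K, hF0h⟩ := exists_he μ (W := W) (K := K) (Y := Y) (P := P)
    (half_pos hε)
  have hc : (0 : ℝ) ≤ Fintype.card ι := Nat.cast_nonneg _
  refine ⟨(F0 ×ˢ F0).image fun z => z.1 * z.2⁻¹, ε / 2 / (Fintype.card ι + 1), by positivity,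
    ?_, ?_⟩
  · intro g hg
    obtain ⟨z, hz, rfl⟩ := Finset.mem_image.1 hg
    rw [Finset.mem_product] at hz
    exact K.mul_mem (hF0K _ hz.1) (K.inv_mem (hF0K _ hz.2))
  · intro B D hB hBK hDB hinv hD
    have h1 := key_rel μ hWmul hWmp hY hYK hP (Q := fun _ => ()) (const_comap_le mX) t ht
      ∅ ∅ F0 B D hF0K hBK hF0 (by simp) hDB (by
        intro b hb hbD g hg f hf
        rw [Finset.empty_union, Finset.empty_union] at hg
        rw [← mul_assoc]
        exact hinv b hb hbD _ (Finset.mem_image.2 ⟨(g, f), Finset.mem_product.2 ⟨hg, hf⟩, rfl⟩))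
    have e1 : Y ⊔ sg (obs W (fun _ : X => ())) B = Y :=
      sup_eq_left.2 (sg_le _ fun b _ => const_comap_le Y)
    have e2 : Y ⊔ sg (obs W (fun _ : X => ())) ∅ ⊔ sg (obs W P) ∅ = Y := by
      rw [sup_assoc]
      exact sup_eq_left.2 (sup_le (sg_le _ (by simp)) (sg_le _ (by simp)))
    rw [e1, e2] at h1
    have hF0c : (0 : ℝ) < F0.card := by exact_mod_cast hF0.card_pos
    have hBc : (0 : ℝ) ≤ B.card := Nat.cast_nonneg _
    have h2 : (F0.card : ℝ) * (cH μ Y (JS (obs W P) B) - Fintype.card ι * D.card) ≤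
        F0.card * ((he μ W K Y P + ε / 2) * B.card) := by
      refine h1.trans ((mul_le_mul_of_nonneg_left hF0h hBc).trans (le_of_eq ?_))
      ring
    have h3 := le_of_mul_le_mul_left h2 hF0c
    have h4 : (Fintype.card ι : ℝ) * D.card ≤ ε / 2 * B.card := by
      calc (Fintype.card ι : ℝ) * D.card
          ≤ Fintype.card ι * (ε / 2 / (Fintype.card ι + 1) * B.card) :=
            mul_le_mul_of_nonneg_left hD hc
        _ = (Fintype.card ι / (Fintype.card ι + 1)) * (ε / 2 * B.card) := by ring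
        _ ≤ 1 * (ε / 2 * B.card) := by
            refine mul_le_mul_of_nonneg_right ?_ (by positivity)
            rw [div_le_one (by positivity)]
            linarith
        _ = ε / 2 * B.card := one_mul _
    have h5 : (he μ W K Y P + ε) * B.card =
        (he μ W K Y P + ε / 2) * B.card + ε / 2 * B.card := by ring
    rw [h5]
    linarith

theorem he_joint_zero {Y : MeasurableSpace X} {mX : MeasurableSpace X} (μ : Measure X)
    [IsProbabilityMeasure μ] {W : G → X → X} (hWmul : ∀ a b x, W (a * b) x = W a (W b x))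
    (hWmp : ∀ a, MeasurePreserving (W a) μ μ) {K : Subgroup G} (hK : FolS K) (hY : Y ≤ mX)
    (hYK : Inv W K Y) {α : Type} [Fintype α] [DecidableEq α]
    {ι : Type} [Fintype ι] {Z : α → X → ι} (hZ : ∀ i, MeasurableSpace.comap (Z i) ⊤ ≤ mX)
    (h : ∀ i, he μ W K Y (Z i) = 0) : he μ W K Y (fun x i => Z i x) = 0 := by
  have hW : ∀ a, Measurable (W a) := fun a => (hWmp a).measurable
  have hZall : MeasurableSpace.comap (fun x i => Z i x : X → α → ι) ⊤ ≤ mX := by
    refine comap_top_le _ fun f => ?_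
    have e : (fun x i => Z i x : X → α → ι) ⁻¹' {f} = ⋂ i, Z i ⁻¹' {f i} := by
      ext x
      simp only [Set.mem_preimage, Set.mem_singleton_iff, Set.mem_iInter]
      exact funext_iff
    rw [e]
    exact MeasurableSet.iInter fun i => measurableSet_preimage_of_comap _ (hZ i) _
  refine le_antisymm ?_ (he_nonneg μ hW hY hZall)
  refine le_of_forall_pos_le_add fun ε hε => ?_
  rw [zero_add]
  have hε' : 0 < ε / (Fintype.card α + 1) := by positivity
  choose S δ hδ0 hSK hS using fun i => fol_bound μ hWmul hWmp hY hYK (hZ i) hε'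
  have hδpos : 0 < 1 + ∑ i, (δ i)⁻¹ := by
    have : 0 ≤ ∑ i, (δ i)⁻¹ := Finset.sum_nonneg fun i _ => (inv_pos.2 (hδ0 i)).le
    linarith
  obtain ⟨B, hB, hBK, D, hDB, hinv, hD⟩ := hK (Finset.univ.biUnion S) ((1 + ∑ i, (δ i)⁻¹)⁻¹)
    (by
      intro g hg
      obtain ⟨i, _, hi⟩ := Finset.mem_biUnion.1 hg
      exact hSK i g hi) (inv_pos.2 hδpos)
  have hBc : (0 : ℝ) < B.card := by exact_mod_cast hB.card_pos
  have h1 : ∀ i, cH μ Y (JS (obs W (Z i)) B) ≤ ε / (Fintype.card α + 1) * B.card := by
    intro i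
    have h2 := hS i B D hB hBK hDB (fun b hb hbD k hk =>
      hinv b hb hbD k (Finset.mem_biUnion.2 ⟨i, Finset.mem_univ _, hk⟩)) (by
        refine hD.trans (mul_le_mul_of_nonneg_right ?_ hBc.le)
        rw [inv_le_comm₀ hδpos (hδ0 i)]
        have : (δ i)⁻¹ ≤ ∑ i, (δ i)⁻¹ :=
          Finset.single_le_sum (f := fun i => (δ i)⁻¹)
            (fun i _ => (inv_pos.2 (hδ0 i)).le) (Finset.mem_univ i)
        linarith)
    rw [h i, zero_add] at h2
    exact h2
  obtain ⟨t, ht⟩ := Countable.exists_injective_nat α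
  have h3 : cH μ Y (JS (obs W (fun x i => Z i x)) B) ≤ ∑ i, cH μ Y (JS (obs W (Z i)) B) := by
    have h4 := cH_JS_le (G := α) (m := Y) μ hY (fun i => JS (obs W (Z i)) B)
      (fun i => sg_le _ fun b _ => obs_meas hW (hZ i) b) t ht Finset.univ
    refine le_trans (le_of_eq ?_) h4
    have h5 := cH_comp_injective (m := Y) μ
      (JS (fun i => JS (obs W (Z i)) B) (Finset.univ : Finset α))
      (e := fun (f : {x : α // x ∈ (Finset.univ : Finset α)} → (B → ι)) =>
        (fun (b : B) (i : α) => f ⟨i, Finset.mem_univ i⟩ b : B → α → ι)) (by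
        intro f f' hff
        funext i b
        exact congrFun (congrFun hff b) i.1)
    rw [← h5]
    rfl
  have h6 : ∑ i, cH μ Y (JS (obs W (Z i)) B) ≤ ε * B.card := by
    refine (Finset.sum_le_sum fun i _ => h1 i).trans ?_
    rw [Finset.sum_const, nsmul_eq_mul, Finset.card_univ]
    calc (Fintype.card α : ℝ) * (ε / (Fintype.card α + 1) * B.card)
        = (Fintype.card α / (Fintype.card α + 1)) * (ε * B.card) := by ring
      _ ≤ 1 * (ε * B.card) := by
          refine mul_le_mul_of_nonneg_right ?_ (by positivity)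
          rw [div_le_one (by positivity)]
          linarith
      _ = ε * B.card := one_mul _
  have h7 := (he_le μ hW hY hZall (K := K) B hBK).trans (h3.trans h6)
  exact le_of_mul_le_mul_right h7 hBc

end Pool.Agent.Lib.Pf720nn
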