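import Pool.Agent.Lib.Pf720nn.EDefs
import Pool.Agent.Lib.Pf720np.Folner

/-!
# Nilpotent subgroups have Følner sets

`folner_of_nilpotent K` gives `Folner K`; translate finite subsets of `K` to finite subsets of `G`
contained in `K` (`Finset.map (Function.Embedding.subtype _)`, `Finset.subtype`).
-/

set_option autoImplicit false
set_option linter.unusedSectionVars false

namespace Pool.Agent.Lib.Pf720nn

theorem folS_of_nilpotent {G : Type} [Group G] [Group.IsNilpotent G] (K : Subgroup G) :
    FolS K := by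
  classical
  intro S δ hS hδ
  obtain ⟨B, hB, D, hDB, hinv, hD⟩ :=
    Pool.Agent.Lib.Pf720np.folner_of_nilpotent K (S.subtype fun g => g ∈ K) δ hδ
  refine ⟨B.map (Function.Embedding.subtype _), hB.map, ?_,
    D.map (Function.Embedding.subtype _), Finset.map_subset_map.2 hDB, ?_, ?_⟩
  · intro b hb
    obtain ⟨c, -, rfl⟩ := Finset.mem_map.1 hb
    exact c.2
  · intro b hb hbD k hk
    obtain ⟨c, hc, rfl⟩ := Finset.mem_map.1 hb
    have hcD : c ∉ D := fun h => hbD (Finset.mem_map_of_mem _ h)
    have h1 := hinv c hc hcD ⟨k, hS k hk⟩ (Finset.mem_subtype.2 hk)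
    exact Finset.mem_map.2 ⟨_, h1, rfl⟩
  · rw [Finset.card_map, Finset.card_map]
    exact hD

end Pool.Agent.Lib.Pf720nn
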