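import Pool.Agent.Lib.Pf720nn.EDefs

/-!
# The main counting inequality, relative version

Adapt `kap`, `sum_kap`, `sum_kap_le`, `cH_translate` and `key_ineq` of Lib/Pf720np/Ent.lean (the
lemma `count` there can be used as it is). Put `κ b = cH μ (Y ⊔ sg (obs W Q) B ⊔ sg (obs W P) {c ∈ B | t c < t b})
(obs W P b)`, so that `∑_{b ∈ B} κ b = cH μ (Y ⊔ sg (obs W Q) B) (JS (obs W P) B)` (`cH_JS_chain`),
`0 ≤ κ b ≤ card ι`, and for `c` with `E c, E' c, F c ⊆ B`, `c ∈ K`: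
`∑_{a ∈ F c} κ a ≤ cH μ (Y ⊔ sg (obs W Q) (E' c) ⊔ sg (obs W P) (E c)) (JS (obs W P) (F c))`
(`cH_JS_chain`, `cH_anti`), which equals `cH μ (Y ⊔ sg (obs W Q) E' ⊔ sg (obs W P) E) (JS (obs W P) F)`
by translation (`cH_comap` with `W c`, `comap (W c) Y = Y`, `comap_sg`, `cH_comp_injective`). Here
`c = f0⁻¹ * b ∈ K`.
-/

set_option autoImplicit false
set_option linter.unusedSectionVars false

open MeasureTheory Filter Topology
open scoped ENNReal

namespace Pool.Agent.Lib.Pf720nn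

open Pool.Agent.Lib.Pf720pi (cH cH_nonneg cH_le_card cH_bot cH_anti cH_pair
  cH_comp_injective cH_eq_zero cH_comap tendsto_cH comap_top_le measurableSet_preimage_of_comap)
open Pool.Agent.Lib.Pf720np (JS sg obs sg_le sg_mono le_sg JS_meas obs_meas comap_obs comap_sg
  cH_JS_nonneg cH_JS_chain cH_JS_le count)

variable {G X : Type} [Group G] [DecidableEq G]

/-- translating relative entropies -/
lemma cH_translate_rel {Y : MeasurableSpace X} {mX : MeasurableSpace X} (μ : Measure X)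
    [IsProbabilityMeasure μ] {W : G → X → X} (hWmul : ∀ a b x, W (a * b) x = W a (W b x))
    (hWmp : ∀ a, MeasurePreserving (W a) μ μ) (hY : Y ≤ mX)
    {ι ι' : Type} [Fintype ι] [Fintype ι'] {P : X → ι} {Q : X → ι'}
    (hP : MeasurableSpace.comap P ⊤ ≤ mX) (hQ : MeasurableSpace.comap Q ⊤ ≤ mX)
    (E E' F : Finset G) (c : G) (hc : MeasurableSpace.comap (W c) Y = Y) :
    cH μ (Y ⊔ sg (obs W Q) (E'.image (· * c)) ⊔ sg (obs W P) (E.image (· * c)))
      (JS (obs W P) (F.image (· * c))) =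
      cH μ (Y ⊔ sg (obs W Q) E' ⊔ sg (obs W P) E) (JS (obs W P) F) := by
  have hWm : ∀ a, Measurable (W a) := fun a => (hWmp a).measurable
  have h1 := cH_comap μ (m := Y ⊔ sg (obs W Q) E' ⊔ sg (obs W P) E)
    (sup_le (sup_le hY (sg_le _ fun b _ => obs_meas hWm hQ b))
      (sg_le _ fun b _ => obs_meas hWm hP b))
    (JS (obs W P) F) (JS_meas _ (fun b => obs_meas hWm hP b) F) (hWmp c)
  rw [MeasurableSpace.comap_sup, MeasurableSpace.comap_sup, comap_sg hWmul P E c,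
    comap_sg hWmul Q E' c, hc] at h1
  rw [← h1]
  have h2 := cH_comp_injective
    (m := Y ⊔ sg (obs W Q) (E'.image (· * c)) ⊔ sg (obs W P) (E.image (· * c))) μ
    (JS (obs W P) (F.image (· * c)))
    (e := fun f : ({x : G // x ∈ F.image (· * c)} → ι) => fun g : F =>
      f ⟨g.1 * c, Finset.mem_image_of_mem _ g.2⟩) (by
      intro f f' hff
      funext b
      obtain ⟨g, hg, hgb⟩ := Finset.mem_image.1 b.2
      have h3 := congrFun hff ⟨g, hg⟩
      have h4 : b = ⟨g * c, Finset.mem_image_of_mem _ hg⟩ := Subtype.ext hgb.symm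
      rw [h4]
      exact h3)
  rw [← h2]
  congr 1
  funext x g
  show P (W (g.1 * c) x) = P (W g.1 (W c x))
  rw [hWmul]

theorem key_rel {Y : MeasurableSpace X} {mX : MeasurableSpace X} (μ : Measure X)
    [IsProbabilityMeasure μ] {W : G → X → X} (hWmul : ∀ a b x, W (a * b) x = W a (W b x))
    (hWmp : ∀ a, MeasurePreserving (W a) μ μ) {K : Subgroup G} (hY : Y ≤ mX) (hYK : Inv W K Y)
    {ι ι' : Type} [Fintype ι] [Fintype ι'] {P : X → ι} {Q : X → ι'}
    (hP : MeasurableSpace.comap P ⊤ ≤ mX) (hQ : MeasurableSpace.comap Q ⊤ ≤ mX)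
    {L : Type} [LinearOrder L] (t : G → L) (ht : Function.Injective t) (E E' F B D : Finset G)
    (hFK : ∀ g ∈ F, g ∈ K) (hBK : ∀ g ∈ B, g ∈ K) (hF : F.Nonempty)
    (hEF : ∀ c ∈ K, ∀ e ∈ E, ∀ f ∈ F, t (e * c) < t (f * c)) (hDB : D ⊆ B)
    (hB : ∀ b ∈ B, b ∉ D → ∀ g ∈ E ∪ E' ∪ F, ∀ f ∈ F, g * (f⁻¹ * b) ∈ B) :
    (F.card : ℝ) * (cH μ (Y ⊔ sg (obs W Q) B) (JS (obs W P) B) - Fintype.card ι * D.card) ≤
      B.card * cH μ (Y ⊔ sg (obs W Q) E' ⊔ sg (obs W P) E) (JS (obs W P) F) := by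
  classical
  have hWm : ∀ a, Measurable (W a) := fun a => (hWmp a).measurable
  have hZ : ∀ g, MeasurableSpace.comap (obs W P g) ⊤ ≤ mX := obs_meas hWm hP
  have hZQ : ∀ g, MeasurableSpace.comap (obs W Q g) ⊤ ≤ mX := obs_meas hWm hQ
  obtain ⟨f0, hf0⟩ := hF
  set m0 : MeasurableSpace X := Y ⊔ sg (obs W Q) B with hm0
  have hm0X : m0 ≤ mX := sup_le hY (sg_le _ fun b _ => hZQ b)
  have hmX : ∀ S : Finset G, m0 ⊔ sg (obs W P) S ≤ mX := fun S =>
    sup_le hm0X (sg_le _ fun b _ => hZ b)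
  set κ : G → ℝ := fun b => cH μ (m0 ⊔ sg (obs W P) (B.filter fun c => t c < t b)) (obs W P b)
    with hκ
  have hκ0 : ∀ b, 0 ≤ κ b := fun b =>
    cH_nonneg μ (hmX _) _ (fun i => measurableSet_preimage_of_comap _ (hZ b) _)
  have hκ1 : ∀ b, κ b ≤ Fintype.card ι := fun b =>
    cH_le_card μ (hmX _) _ (fun i => measurableSet_preimage_of_comap _ (hZ b) _)
  have hsum : ∑ b ∈ B \ D, κ b + ∑ b ∈ D, κ b = cH μ m0 (JS (obs W P) B) := by
    rw [Finset.sum_sdiff hDB, cH_JS_chain μ hm0X _ hZ t ht B]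
  have hD : ∑ b ∈ D, κ b ≤ Fintype.card ι * D.card := by
    refine (Finset.sum_le_sum fun b _ => hκ1 b).trans (le_of_eq ?_)
    rw [Finset.sum_const, nsmul_eq_mul, mul_comm]
  set C : Finset G := (B.image fun b => f0⁻¹ * b).filter fun c =>
    (∀ e ∈ E ∪ E', e * c ∈ B) ∧ ∀ f ∈ F, f * c ∈ B with hC
  have h1 := count F B D C κ hκ0 (by
    intro f hf b hb hbD
    rw [hC, Finset.mem_filter]
    refine ⟨Finset.mem_image.2 ⟨f0 * (f⁻¹ * b),
      hB b hb hbD f0 (Finset.mem_union_right _ hf0) f hf, by rw [inv_mul_cancel_left]⟩, ?_, ?_⟩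
    · intro e he
      exact hB b hb hbD e (Finset.mem_union_left _ he) f hf
    · intro g hg
      exact hB b hb hbD g (Finset.mem_union_right _ hg) f hf)
  have h2 : ∀ c ∈ C, ∑ a ∈ F.image (· * c), κ a ≤
      cH μ (Y ⊔ sg (obs W Q) E' ⊔ sg (obs W P) E) (JS (obs W P) F) := by
    intro c hc
    rw [hC, Finset.mem_filter] at hc
    obtain ⟨hc1, hc2, hc3⟩ := hc
    obtain ⟨b, hb, rfl⟩ := Finset.mem_image.1 hc1
    have hcK : f0⁻¹ * b ∈ K := K.mul_mem (K.inv_mem (hFK f0 hf0)) (hBK b hb)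
    rw [← cH_translate_rel μ hWmul hWmp hY hP hQ E E' F (f0⁻¹ * b) (hYK _ hcK)]
    have hmE : Y ⊔ sg (obs W Q) (E'.image (· * (f0⁻¹ * b))) ⊔
        sg (obs W P) (E.image (· * (f0⁻¹ * b))) ≤ mX :=
      sup_le (sup_le hY (sg_le _ fun b _ => hZQ b)) (sg_le _ fun b _ => hZ b)
    rw [cH_JS_chain μ hmE _ hZ t ht]
    refine Finset.sum_le_sum fun a ha => ?_
    obtain ⟨f, hf, hfa⟩ := Finset.mem_image.1 ha
    refine cH_anti μ (sup_le (sup_le (sup_le ?_ ?_) ?_) ?_) (hmX _) _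
      (fun i => measurableSet_preimage_of_comap _ (hZ a) _)
    · exact le_sup_left.trans le_sup_left
    · refine le_trans ?_ (le_trans (le_sup_right (a := Y)) le_sup_left)
      refine sg_mono _ fun e he => ?_
      obtain ⟨e', he', rfl⟩ := Finset.mem_image.1 he
      exact hc2 e' (Finset.mem_union_right _ he')
    · refine le_trans ?_ le_sup_right
      refine sg_mono _ fun e he => ?_
      obtain ⟨e', he', rfl⟩ := Finset.mem_image.1 he
      refine Finset.mem_filter.2 ⟨hc2 e' (Finset.mem_union_left _ he'), ?_⟩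
      rw [← hfa]
      exact hEF _ hcK e' he' f hf
    · refine le_trans ?_ le_sup_right
      refine sg_mono _ fun e he => ?_
      have h := Finset.mem_filter.1 he
      obtain ⟨e', he', hee⟩ := Finset.mem_image.1 h.1
      refine Finset.mem_filter.2 ⟨?_, h.2⟩
      rw [← hee]
      exact hc3 e' he'
  have h3 := h1.trans (Finset.sum_le_sum h2)
  rw [Finset.sum_const, nsmul_eq_mul] at h3
  have h4 : (C.card : ℝ) ≤ B.card := by
    have : C.card ≤ B.card := (Finset.card_filter_le _ _).trans Finset.card_image_le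
    exact_mod_cast this
  have h5 : 0 ≤ cH μ (Y ⊔ sg (obs W Q) E' ⊔ sg (obs W P) E) (JS (obs W P) F) :=
    cH_JS_nonneg μ (sup_le (sup_le hY (sg_le _ fun b _ => hZQ b)) (sg_le _ fun b _ => hZ b)) _ hZ F
  have h6 : (F.card : ℝ) * (cH μ m0 (JS (obs W P) B) - Fintype.card ι * D.card) ≤
      F.card * ∑ b ∈ B \ D, κ b :=
    mul_le_mul_of_nonneg_left (by linarith) (Nat.cast_nonneg _)
  exact h6.trans (h3.trans (mul_le_mul_of_nonneg_right h4 h5))

end Pool.Agent.Lib.Pf720nn
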