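import Pool.Agent.Lib.Pf720nn.EFol

/-!
# A process of zero relative entropy does not reduce the entropy of another one

`le_he`: let `F ⊆ K` be finite and nonempty, `h = he μ W K Y P`; show
`h * F.card ≤ cH μ (Y ⊔ gen W K mQ) (JS (obs W P) F)`. By `tendsto_cH` (exhaust `K` by finite sets, as
in the proof of `tailZero_of_folner`) it is enough to show
`h * F.card ≤ cH μ (Y ⊔ sg (obs W Q) E') (JS (obs W P) F)` for finite `E' ⊆ K`. Let `ε > 0`. Take `S, δ`
from `fol_bound` for `Q` (`he = 0`), decrease `δ` so that `card ι * δ ≤ ε`, and let `B, D` be Følner for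
`S` and all `g * f⁻¹`, `g ∈ E' ∪ F`, `f ∈ F`. Then `cH μ Y (JS (obs W Q) B) ≤ ε * B.card` and
`cH μ (Y ⊔ sg (obs W Q) B) (JS (obs W P) B) ≥ cH μ Y (JS (obs W P) B) - cH μ Y (JS (obs W Q) B)
≥ (h - ε) * B.card` (`cH_pair` in both orders, `cH_comp_injective` with `Prod.swap`, `cH_nonneg`), and
`key_rel` with `E = ∅` (labels: an injection `G → ℕ`) gives
`F.card * ((h - ε) * B.card - card ι * D.card) ≤ B.card * cH μ (Y ⊔ sg (obs W Q) E') (JS (obs W P) F)`.
Let `ε → 0`.
-/

set_option autoImplicit false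
set_option linter.unusedSectionVars false

open MeasureTheory Filter Topology
open scoped ENNReal

namespace Pool.Agent.Lib.Pf720nn

open Pool.Agent.Lib.Pf720pi (cH cH_nonneg cH_le_card cH_bot cH_anti cH_pair
  cH_comp_injective cH_eq_zero cH_comap tendsto_cH comap_top_le measurableSet_preimage_of_comap)
open Pool.Agent.Lib.Pf720np (JS sg obs sg_le sg_mono le_sg JS_meas obs_meas comap_obs comap_sg
  cH_JS_nonneg cH_JS_chain cH_JS_le)

variable {G X : Type} [Group G] [DecidableEq G] [Countable G]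

theorem he_side {Y : MeasurableSpace X} {mX : MeasurableSpace X} (μ : Measure X)
    [IsProbabilityMeasure μ] {W : G → X → X} (hWmul : ∀ a b x, W (a * b) x = W a (W b x))
    (hWmp : ∀ a, MeasurePreserving (W a) μ μ) {K : Subgroup G} (hK : FolS K) (hY : Y ≤ mX)
    (hYK : Inv W K Y) {ι ι' : Type} [Fintype ι] [Fintype ι'] {P : X → ι} {Q : X → ι'}
    (hP : MeasurableSpace.comap P ⊤ ≤ mX) (hQ : MeasurableSpace.comap Q ⊤ ≤ mX)
    (h : he μ W K Y Q = 0) :
    he μ W K Y P ≤ he μ W K (Y ⊔ gen W K (MeasurableSpace.comap Q ⊤)) P := by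
  classical
  have hW : ∀ a, Measurable (W a) := fun a => (hWmp a).measurable
  have hZ : ∀ g, MeasurableSpace.comap (obs W P g) ⊤ ≤ mX := obs_meas hW hP
  have hZQ : ∀ g, MeasurableSpace.comap (obs W Q g) ⊤ ≤ mX := obs_meas hW hQ
  obtain ⟨enc, henc⟩ := exists_injective_nat G
  obtain ⟨en, hen⟩ := exists_surjective_nat G
  set H := he μ W K Y P with hH
  -- finitely many translates of the side process
  have hA : ∀ E' F : Finset G, F.Nonempty → (∀ g ∈ F, g ∈ K) → (∀ g ∈ E', g ∈ K) →
      H * F.card ≤ cH μ (Y ⊔ sg (obs W Q) E') (JS (obs W P) F) := by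
    intro E' F hF hFK hEK
    have hFpos : (0 : ℝ) < F.card := by exact_mod_cast hF.card_pos
    have h1 : ∀ ε : ℝ, 0 < ε → F.card * (H - 2 * ε) ≤
        cH μ (Y ⊔ sg (obs W Q) E') (JS (obs W P) F) := by
      intro ε hε
      obtain ⟨S, δ, hδ, hSK, hS⟩ := fol_bound μ hWmul hWmp hY hYK hQ hε
      have hδ' : 0 < min δ (ε / (Fintype.card ι + 1)) := lt_min hδ (by positivity)
      obtain ⟨B, hBne, hBK, D, hDB, hB, hD⟩ := hK
        (S ∪ ((E' ∪ F) ×ˢ F).image fun q => q.1 * q.2⁻¹) (min δ (ε / (Fintype.card ι + 1)))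
        (by
          intro g hg
          rcases Finset.mem_union.1 hg with hg | hg
          · exact hSK g hg
          · obtain ⟨q, hq, rfl⟩ := Finset.mem_image.1 hg
            have hq' := Finset.mem_product.1 hq
            refine K.mul_mem ?_ (K.inv_mem (hFK _ hq'.2))
            rcases Finset.mem_union.1 hq'.1 with h' | h'
            · exact hEK _ h'
            · exact hFK _ h') hδ'
      have hBpos : (0 : ℝ) < B.card := by exact_mod_cast hBne.card_pos
      have h2 : cH μ Y (JS (obs W Q) B) ≤ ε * B.card := by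
        have := hS B D hBne hBK hDB
          (fun b hb hbD k hk => hB b hb hbD k (Finset.mem_union_left _ hk))
          (hD.trans (mul_le_mul_of_nonneg_right (min_le_left _ _) hBpos.le))
        rwa [h, zero_add] at this
      have h3 : cH μ Y (JS (obs W P) B) - cH μ Y (JS (obs W Q) B) ≤
          cH μ (Y ⊔ sg (obs W Q) B) (JS (obs W P) B) := by
        have e1 := cH_pair μ hY (JS (obs W P) B) (JS (obs W Q) B) (JS_meas _ hZ B) (JS_meas _ hZQ B)
        have e2 := cH_pair μ hY (JS (obs W Q) B) (JS (obs W P) B) (JS_meas _ hZQ B) (JS_meas _ hZ B)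
        have e3 := cH_comp_injective (m := Y) μ (fun x => (JS (obs W Q) B x, JS (obs W P) B x))
          (e := Prod.swap) Prod.swap_injective
        have e4 : (fun x => Prod.swap ((fun x => (JS (obs W Q) B x, JS (obs W P) B x)) x)) =
            fun x => (JS (obs W P) B x, JS (obs W Q) B x) := rfl
        rw [e4, e1, e2] at e3
        have e5 : 0 ≤ cH μ (Y ⊔ MeasurableSpace.comap (JS (obs W P) B) ⊤) (JS (obs W Q) B) :=
          cH_JS_nonneg μ (sup_le hY (sg_le _ fun b _ => hZ b)) _ hZQ B
        have e6 : cH μ (Y ⊔ MeasurableSpace.comap (JS (obs W Q) B) ⊤) (JS (obs W P) B) =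
          cH μ (Y ⊔ sg (obs W Q) B) (JS (obs W P) B) := rfl
        rw [e6] at e3
        linarith
      have h4 : H * B.card ≤ cH μ Y (JS (obs W P) B) := he_le μ hW hY hP B hBK
      have h5 := key_rel μ hWmul hWmp hY hYK hP hQ enc henc ∅ E' F B D hFK hBK hF
        (by simp) hDB (by
          intro b hb hbD g hg f hf
          rw [← mul_assoc]
          refine hB b hb hbD _ (Finset.mem_union_right _ (Finset.mem_image.2
            ⟨(g, f), Finset.mem_product.2 ⟨?_, hf⟩, rfl⟩))
          rwa [Finset.empty_union] at hg)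
      have h6 : cH μ (Y ⊔ sg (obs W Q) E' ⊔ sg (obs W P) ∅) (JS (obs W P) F) ≤
          cH μ (Y ⊔ sg (obs W Q) E') (JS (obs W P) F) :=
        cH_anti μ le_sup_left (sup_le (sup_le hY (sg_le _ fun b _ => hZQ b))
          (sg_le _ fun b _ => hZ b)) _ (JS_meas _ hZ F)
      have h7 : (Fintype.card ι : ℝ) * D.card ≤ ε * B.card := by
        have e1 : (D.card : ℝ) ≤ ε / (Fintype.card ι + 1) * B.card :=
          hD.trans (mul_le_mul_of_nonneg_right (min_le_right _ _) hBpos.le)
        have e2 : (Fintype.card ι : ℝ) * (ε / (Fintype.card ι + 1)) ≤ ε := by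
          rw [mul_div_assoc', div_le_iff₀ (by positivity)]
          nlinarith
        calc (Fintype.card ι : ℝ) * D.card ≤
            Fintype.card ι * (ε / (Fintype.card ι + 1) * B.card) :=
              mul_le_mul_of_nonneg_left e1 (Nat.cast_nonneg _)
          _ = Fintype.card ι * (ε / (Fintype.card ι + 1)) * B.card := by ring
          _ ≤ ε * B.card := mul_le_mul_of_nonneg_right e2 hBpos.le
      have h8 : (B.card : ℝ) * (F.card * (H - 2 * ε)) ≤
          B.card * cH μ (Y ⊔ sg (obs W Q) E') (JS (obs W P) F) := by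
        have e1 : (B.card : ℝ) * (H - 2 * ε) ≤
            cH μ (Y ⊔ sg (obs W Q) B) (JS (obs W P) B) - Fintype.card ι * D.card := by
          have : (B.card : ℝ) * (H - 2 * ε) = H * B.card - ε * B.card - ε * B.card := by ring
          rw [this]
          linarith
        calc (B.card : ℝ) * (F.card * (H - 2 * ε)) = F.card * (B.card * (H - 2 * ε)) := by ring
          _ ≤ F.card * (cH μ (Y ⊔ sg (obs W Q) B) (JS (obs W P) B) - Fintype.card ι * D.card) :=
            mul_le_mul_of_nonneg_left e1 hFpos.le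
          _ ≤ B.card * cH μ (Y ⊔ sg (obs W Q) E' ⊔ sg (obs W P) ∅) (JS (obs W P) F) := h5
          _ ≤ _ := mul_le_mul_of_nonneg_left h6 hBpos.le
      exact le_of_mul_le_mul_left h8 hBpos
    refine le_of_forall_pos_le_add fun x hx => ?_
    have h7 : (0 : ℝ) < x / (2 * F.card) := by positivity
    have h8 := h1 _ h7
    have h9 : (F.card : ℝ) * (H - 2 * (x / (2 * F.card))) = H * F.card - x := by
      field_simp
    rw [h9] at h8
    linarith
  -- exhaustion
  set E : ℕ → Finset G := fun n => ((Finset.range n).image en).filter (· ∈ K) with hE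
  have hEmono : Monotone E := fun a b hab =>
    Finset.filter_subset_filter _ (Finset.image_subset_image (Finset.range_mono hab))
  have hsup : ⨆ n, (Y ⊔ sg (obs W Q) (E n)) = Y ⊔ gen W K (MeasurableSpace.comap Q ⊤) := by
    rw [← sup_iSup]
    congr 1
    refine le_antisymm (iSup_le fun n => sg_le _ fun b hb => ?_) (iSup_le fun u => ?_)
    · rw [comap_obs]
      exact le_gen W _ (Finset.mem_filter.1 hb).2
    · obtain ⟨n, hn⟩ := hen u.1
      refine le_iSup_of_le (n + 1) ?_
      have := le_sg (obs W Q) (S := E (n + 1)) (b := u.1) (Finset.mem_filter.2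
        ⟨Finset.mem_image.2 ⟨n, Finset.mem_range.2 (Nat.lt_succ_self n), hn⟩, u.2⟩)
      rwa [comap_obs] at this
  refine le_he μ fun F hF hFK => ?_
  have h2 := tendsto_cH μ (m := fun k => Y ⊔ sg (obs W Q) (E k))
    (fun a b hab => sup_le_sup_left (sg_mono _ (hEmono hab)) Y)
    (fun k => sup_le hY (sg_le _ fun b _ => hZQ b)) (JS (obs W P) F) (JS_meas _ hZ F)
  rw [hsup] at h2
  exact ge_of_tendsto' h2 fun k => hA (E k) F hF hFK fun g hg => (Finset.mem_filter.1 hg).2

end Pool.Agent.Lib.Pf720nn
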