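import Pool.Agent.Lib.Pf720nn.EMaxA
import Pool.Agent.Lib.Pf720nn.ESide

/-!
# A countably generated invariant σ-algebra of zero entropy which is maximal in a factor

Write `mP = comap P ⊤`, `Z = gen W Set.univ mP` (countably generated, `Inv W ⊤ Z`, `Z ≤ mX`), and
`p A := he μ W ⊤ ⊥ (ind A) = 0` (`p ∅`: the indicator is constant). Take `𝒜` from `exists_dense` and
`Y = ⨆ i, gen W Set.univ (comap (ind (𝒜 i)) ⊤)`.
* `Y ≤ Z`, `Inv W ⊤ Y` are clear (`inv_gen`, `comap_gen`, `MeasurableSpace.comap_iSup`).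
* `Y ≤ generateFrom ..`: the sets of `comap (W g) (comap (ind (𝒜 i)) ⊤)` are `∅, univ, W g ⁻¹' 𝒜 i` and
  its complement, and `he μ W ⊤ ⊥ (ind (W g ⁻¹' 𝒜 i)) = he μ W ⊤ ⊥ (obs W (ind (𝒜 i)) g) ≤
  he μ W ⊤ ⊥ (ind (𝒜 i)) = 0` by `he_conj_le` with `Y = ⊥` (`comap (W g) ⊥ = ⊥`); for `∅` and `univ` the
  indicator is constant, and complements are in any σ-algebra.
* Let `A` be in `Z` with `he μ W ⊤ Y (ind A) = 0`. Show `he μ W ⊤ ⊥ (ind A) = 0`: for `ε > 0` there is `F`
  with `cH μ Y (JS (obs W (ind A)) F) ≤ ε * F.card` (`exists_he`). With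
  `Y n = ⨆ i < n, gen W Set.univ (comap (ind (𝒜 i)) ⊤)`, increasing to `Y`, `tendsto_cH` gives `n` with
  `cH μ (Y n) (JS (obs W (ind A)) F) ≤ 2 * ε * F.card`, so `he μ W ⊤ (Y n) (ind A) ≤ 2 * ε` (`he_le`).
  Now `Y n = gen W Set.univ (comap R ⊤)` with `R x = fun i : Fin n => ind (𝒜 i) x`
  (`MeasurableSpace.comap` of a map into a finite product of finite discrete spaces is the supremum of
  the comaps; `gen` commutes with suprema), `he μ W ⊤ ⊥ R = 0` by `he_joint_zero`, and `he_side` (with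
  `Y = ⊥`, `Q = R`, `P = ind A`) gives `he μ W ⊤ ⊥ (ind A) ≤ he μ W ⊤ (⊥ ⊔ Y n) (ind A) ≤ 2 * ε`.
  Then `exists_dense` gives sets of `Y` arbitrarily close to `A` and `exists_of_dense` concludes.
-/

set_option autoImplicit false
set_option linter.unusedSectionVars false

open MeasureTheory Filter Topology
open scoped ENNReal

namespace Pool.Agent.Lib.Pf720nn

open Pool.Agent.Lib.Pf720pi (cH cH_nonneg cH_le_card cH_bot cH_anti cH_pair
  cH_comp_injective cH_eq_zero cH_comap tendsto_cH comap_top_le measurableSet_preimage_of_comap)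
open Pool.Agent.Lib.Pf720np (JS sg obs sg_le sg_mono le_sg JS_meas obs_meas comap_obs comap_sg
  cH_JS_nonneg cH_JS_chain cH_JS_le)

variable {G X : Type} [Group G] [DecidableEq G] [Countable G]

namespace EMaxAux

theorem gen_univ_cg (W : G → X → X) {ι : Type} [Fintype ι] (P : X → ι) :
    @MeasurableSpace.CountablyGenerated X (gen W Set.univ (MeasurableSpace.comap P ⊤)) := by
  refine @MeasurableSpace.CountablyGenerated.mk X
    (gen W Set.univ (MeasurableSpace.comap P ⊤)) ?_
  refine ⟨Set.range (fun q : G × ι => W q.1 ⁻¹' (P ⁻¹' {q.2})), Set.countable_range _, ?_⟩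
  refine le_antisymm (iSup_le fun u => ?_) (MeasurableSpace.generateFrom_le ?_)
  · rw [← comap_obs]
    refine comap_top_le _ fun i => ?_
    exact MeasurableSpace.measurableSet_generateFrom ⟨(u.1, i), rfl⟩
  · rintro _ ⟨q, rfl⟩
    refine le_gen W (MeasurableSpace.comap P ⊤) (S := Set.univ) (u := q.1) (Set.mem_univ _) _ ?_
    exact ⟨P ⁻¹' {q.2}, ⟨{q.2}, trivial, rfl⟩, rfl⟩

theorem inv_gen_univ {W : G → X → X} (hWmul : ∀ a b x, W (a * b) x = W a (W b x))
    (m : MeasurableSpace X) : Inv W ⊤ (gen W Set.univ m) :=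
  inv_gen hWmul (fun _ _ _ => by simp) m

theorem gen_univ_le {W : G → X → X} {Z m : MeasurableSpace X} (hZ : Inv W ⊤ Z) (h : m ≤ Z) :
    gen W Set.univ m ≤ Z :=
  iSup_le fun u => (MeasurableSpace.comap_mono h).trans (hZ u.1 (Subgroup.mem_top _)).le

theorem inv_bot (W : G → X → X) (K : Subgroup G) : Inv W K ⊥ := fun _ _ =>
  MeasurableSpace.comap_bot

theorem he_empty {mX : MeasurableSpace X} (μ : Measure X) [IsProbabilityMeasure μ]
    {W : G → X → X} (hWmp : ∀ a, MeasurePreserving (W a) μ μ) :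
    he μ W ⊤ ⊥ (ind (∅ : Set X)) = 0 := by
  classical
  have hW : ∀ a, Measurable (W a) := fun a => (hWmp a).measurable
  have hP : MeasurableSpace.comap (ind (∅ : Set X)) ⊤ ≤ mX :=
    ind_comap_le MeasurableSet.empty
  refine le_antisymm ?_ (he_nonneg μ hW bot_le hP)
  have h1 := he_le μ hW (Y := ⊥) bot_le hP (K := ⊤) {1} (fun g _ => Subgroup.mem_top g)
  have h2 : cH μ ⊥ (JS (obs W (ind (∅ : Set X))) {1}) = 0 := by
    refine cH_eq_zero μ bot_le _ fun i => ?_
    by_cases h : i = fun _ => false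
    · have : JS (obs W (ind (∅ : Set X))) {1} ⁻¹' {i} = Set.univ := by
        ext x
        simp only [Set.mem_preimage, Set.mem_singleton_iff, Set.mem_univ, iff_true, h]
        funext b
        simp [JS, obs, ind]
      rw [this]
      exact MeasurableSet.univ
    · have : JS (obs W (ind (∅ : Set X))) {1} ⁻¹' {i} = ∅ := by
        ext x
        simp only [Set.mem_preimage, Set.mem_singleton_iff, Set.mem_empty_iff_false, iff_false]
        intro h'
        apply h
        rw [← h']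
        funext b
        simp [JS, obs, ind]
      rw [this]
      exact @MeasurableSet.empty X ⊥
  rw [h2, Finset.card_singleton, Nat.cast_one, mul_one] at h1
  exact h1

theorem he_preimage {mX : MeasurableSpace X} (μ : Measure X) [IsProbabilityMeasure μ]
    {W : G → X → X} (hWmul : ∀ a b x, W (a * b) x = W a (W b x))
    (hWmp : ∀ a, MeasurePreserving (W a) μ μ) {A : Set X} (hA : MeasurableSet[mX] A)
    (h : he μ W ⊤ ⊥ (ind A) = 0) (g : G) : he μ W ⊤ ⊥ (ind (W g ⁻¹' A)) = 0 := by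
  have hW : ∀ a, Measurable (W a) := fun a => (hWmp a).measurable
  refine le_antisymm ?_ (he_nonneg μ hW bot_le (ind_comap_le (hW g hA)))
  have h1 := he_conj_le μ hWmul hWmp (L := ⊤) (Y := ⊥) bot_le (Q := ind A) (ind_comap_le hA) g
    (fun _ _ => Subgroup.mem_top _)
  rw [h, MeasurableSpace.comap_bot] at h1
  exact h1

end EMaxAux

open EMaxAux

theorem exists_factor {mX : MeasurableSpace X} (μ : Measure X)
    [IsProbabilityMeasure μ] {W : G → X → X} (hW1 : ∀ x, W 1 x = x)
    (hWmul : ∀ a b x, W (a * b) x = W a (W b x))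
    (hWmp : ∀ a, MeasurePreserving (W a) μ μ) (hG : FolS (⊤ : Subgroup G))
    {ι : Type} [Fintype ι] {P : X → ι} (hP : MeasurableSpace.comap P ⊤ ≤ mX) :
    ∃ Y : MeasurableSpace X, Y ≤ gen W Set.univ (MeasurableSpace.comap P ⊤) ∧ Inv W ⊤ Y ∧
      Y ≤ MeasurableSpace.generateFrom {A | MeasurableSet[mX] A ∧ he μ W ⊤ ⊥ (ind A) = 0} ∧
      ∀ A, MeasurableSet[gen W Set.univ (MeasurableSpace.comap P ⊤)] A →
        he μ W ⊤ Y (ind A) = 0 → ∃ B, MeasurableSet[Y] B ∧ A =ᵐ[μ] B := by
  classical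
  have hW : ∀ a, Measurable (W a) := fun a => (hWmp a).measurable
  have hZX : gen W Set.univ (MeasurableSpace.comap P ⊤) ≤ mX := gen_le W hW _ hP
  have hZi : Inv W ⊤ (gen W Set.univ (MeasurableSpace.comap P ⊤)) := inv_gen_univ hWmul _
  obtain ⟨𝒜, h𝒜, hden⟩ := exists_dense hZX μ (gen_univ_cg W P)
    (fun A => he μ W ⊤ ⊥ (ind A) = 0) (he_empty μ hWmp)
  have hAZ : ∀ i, MeasurableSpace.comap (ind (𝒜 i)) ⊤ ≤
      gen W Set.univ (MeasurableSpace.comap P ⊤) := fun i => ind_comap_le (h𝒜 i).1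
  have hAX : ∀ i, MeasurableSet[mX] (𝒜 i) := fun i => hZX _ (h𝒜 i).1
  have hAX' : ∀ i, MeasurableSpace.comap (ind (𝒜 i)) ⊤ ≤ mX := fun i => ind_comap_le (hAX i)
  set Yi : ℕ → MeasurableSpace X :=
    fun i => gen W Set.univ (MeasurableSpace.comap (ind (𝒜 i)) ⊤) with hYi
  have hYiZ : ∀ i, Yi i ≤ gen W Set.univ (MeasurableSpace.comap P ⊤) := fun i =>
    gen_univ_le hZi (hAZ i)
  have hYX : (⨆ i, Yi i) ≤ mX := iSup_le fun i => (hYiZ i).trans hZX
  have h𝒜Y : ∀ i, MeasurableSet[⨆ i, Yi i] (𝒜 i) := by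
    intro i
    refine le_iSup Yi i _ ?_
    refine le_gen W (MeasurableSpace.comap (ind (𝒜 i)) ⊤) (S := Set.univ) (u := 1)
      (Set.mem_univ _) _ ?_
    refine ⟨𝒜 i, ⟨{true}, trivial, ?_⟩, ?_⟩
    · ext x
      simp [ind]
    · ext x
      simp [hW1]
  refine ⟨⨆ i, Yi i, iSup_le hYiZ, ?_, ?_, ?_⟩
  · intro g hg
    rw [MeasurableSpace.comap_iSup]
    exact iSup_congr fun i => inv_gen_univ hWmul _ g hg
  · refine iSup_le fun i => iSup_le fun u => ?_
    rw [← comap_obs]
    have hmem : MeasurableSet[MeasurableSpace.generateFrom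
        {A | MeasurableSet[mX] A ∧ he μ W ⊤ ⊥ (ind A) = 0}] (W u.1 ⁻¹' (𝒜 i)) :=
      MeasurableSpace.measurableSet_generateFrom
        ⟨hW u.1 (hAX i), he_preimage μ hWmul hWmp (hAX i) (h𝒜 i).2 u.1⟩
    refine comap_top_le _ fun b => ?_
    cases b with
    | true =>
      have : obs W (ind (𝒜 i)) u.1 ⁻¹' {true} = W u.1 ⁻¹' (𝒜 i) := by
        ext x
        simp [obs, ind]
      rw [this]
      exact hmem
    | false =>
      have : obs W (ind (𝒜 i)) u.1 ⁻¹' {false} = (W u.1 ⁻¹' (𝒜 i))ᶜ := by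
        ext x
        simp [obs, ind]
      rw [this]
      exact hmem.compl
  · intro A hA hhe
    have hAm : MeasurableSet[mX] A := hZX _ hA
    have hAc : MeasurableSpace.comap (ind A) ⊤ ≤ mX := ind_comap_le hAm
    -- the finite stages
    set Yn : ℕ → MeasurableSpace X := fun n => ⨆ i : Fin n, Yi i with hYn
    have hYnX : ∀ n, Yn n ≤ mX := fun n => iSup_le fun i => (hYiZ i).trans hZX
    have hmono : Monotone Yn := by
      intro a b hab
      exact iSup_le fun i => le_iSup (fun j : Fin b => Yi j) (Fin.castLE hab i)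
    have hsup : (⨆ n, Yn n) = ⨆ i, Yi i := by
      refine le_antisymm (iSup_le fun n => iSup_le fun i => le_iSup Yi i) (iSup_le fun i => ?_)
      refine le_trans ?_ (le_iSup Yn (i + 1))
      exact le_iSup (fun j : Fin (i + 1) => Yi j) (Fin.last i)
    have hstage : ∀ n, he μ W ⊤ ⊥ (ind A) ≤ he μ W ⊤ (Yn n) (ind A) := by
      intro n
      have hR : MeasurableSpace.comap (fun x (i : Fin n) => ind (𝒜 i) x) ⊤ ≤ mX := by
        refine comap_top_le _ fun f => ?_
        have : (fun x (i : Fin n) => ind (𝒜 i) x) ⁻¹' {f} =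
            ⋂ i : Fin n, ind (𝒜 i) ⁻¹' {f i} := by
          ext x
          simp only [Set.mem_preimage, Set.mem_singleton_iff, Set.mem_iInter]
          exact funext_iff
        rw [this]
        exact MeasurableSet.iInter fun i =>
          measurableSet_preimage_of_comap _ (hAX' i) _
      have h0 := he_joint_zero μ hWmul hWmp hG (Y := ⊥) bot_le (inv_bot W ⊤)
        (Z := fun (i : Fin n) => ind (𝒜 i)) (fun i => hAX' i) (fun i => (h𝒜 i).2)
      have h1 := he_side μ hWmul hWmp hG (Y := ⊥) bot_le (inv_bot W ⊤) hAc hR h0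
      refine h1.trans ?_
      refine he_anti μ hW ?_ ?_ hAc
      · refine le_trans ?_ le_sup_right
        refine iSup_le fun i => ?_
        refine iSup_le fun u => ?_
        refine le_trans ?_ (le_gen W (MeasurableSpace.comap (fun x (i : Fin n) => ind (𝒜 i) x) ⊤)
          (S := ((⊤ : Subgroup G) : Set G)) (u := u.1) (Subgroup.mem_top _))
        refine MeasurableSpace.comap_mono ?_
        rintro s ⟨t, -, rfl⟩
        exact ⟨{f | f i ∈ t}, trivial, rfl⟩
      · refine sup_le bot_le (gen_le W hW _ hR)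
    have hzero : he μ W ⊤ ⊥ (ind A) = 0 := by
      refine le_antisymm (le_of_forall_pos_le_add fun ε hε => ?_) (he_nonneg μ hW bot_le hAc)
      rw [zero_add]
      obtain ⟨F, hFne, hFK, hF⟩ := exists_he μ (W := W) (K := ⊤) (Y := ⨆ i, Yi i) (P := ind A)
        (show (0:ℝ) < ε / 2 by positivity)
      rw [hhe, zero_add] at hF
      have hFpos : (0 : ℝ) < F.card := by exact_mod_cast hFne.card_pos
      have h2 := tendsto_cH μ hmono hYnX (JS (obs W (ind A)) F)
        (JS_meas _ (obs_meas hW hAc) F)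
      rw [hsup] at h2
      have h3 : cH μ (⨆ i, Yi i) (JS (obs W (ind A)) F) < ε * F.card := by
        have : ε / 2 * F.card < ε * F.card := by
          apply mul_lt_mul_of_pos_right _ hFpos
          linarith
        linarith
      obtain ⟨n, hn⟩ := ((tendsto_order.1 h2).2 _ h3).exists
      have h4 := he_le μ hW (hYnX n) hAc F hFK
      have h5 : he μ W ⊤ (Yn n) (ind A) ≤ ε := by
        have h6 : he μ W ⊤ (Yn n) (ind A) * F.card ≤ ε * F.card := h4.trans hn.le
        exact le_of_mul_le_mul_right h6 hFpos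
      exact (hstage n).trans h5
    refine exists_of_dense hYX μ hAm fun ε hε => ?_
    obtain ⟨i, hi⟩ := hden A hA hzero ε hε
    exact ⟨𝒜 i, h𝒜Y i, hi⟩

end Pool.Agent.Lib.Pf720nn
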