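import Mathlib

/-!
# Countable dense families of sets with a property

`exists_dense`: `Z` is generated by a countable algebra `𝒞` of sets
(`MeasurableSpace.CountablyGenerated`, `generateSetAlgebra` of a countable family is countable;
the sets of `Z` are approximated in measure by sets of the algebra, see
`MeasureTheory.exists_measure_symmDiff_lt_of_generateFrom_isSetAlgebra` or similar in Mathlib, applied to
the measure `μ.trim hZ`, or use the monotone class argument of `Mathlib/MeasureTheory/Measure/SeparableMeasure.lean`).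
For `C ∈ 𝒞` and `k : ℕ` choose, if possible, `A` in `Z` with `p A` and `μ (symmDiff A C) < 1 / (k + 1)`,
otherwise `∅`; enumerate this countable family.

`exists_of_dense`: choose `B k` with `μ (symmDiff A (B k)) < 2⁻¹ ^ k`; then `B = limsup B k` (Borel-Cantelli).
-/

set_option autoImplicit false

open MeasureTheory Filter Topology
open scoped ENNReal

namespace Pool.Agent.Lib.Pf720nn

theorem exists_dense {X : Type} {Z : MeasurableSpace X} {mX : MeasurableSpace X} (hZ : Z ≤ mX)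
    (μ : Measure X) [IsProbabilityMeasure μ] (hc : @MeasurableSpace.CountablyGenerated X Z)
    (p : Set X → Prop) (hp : p ∅) : ∃ 𝒜 : ℕ → Set X, (∀ i, MeasurableSet[Z] (𝒜 i) ∧ p (𝒜 i)) ∧
      ∀ A, MeasurableSet[Z] A → p A → ∀ ε : ℝ≥0∞, ε ≠ 0 → ∃ i, μ (symmDiff A (𝒜 i)) < ε := by
  classical
  have hfin : @IsFiniteMeasure X Z (μ.trim hZ) := isFiniteMeasure_trim hZ
  have hsig : @SigmaFinite X Z (μ.trim hZ) := @IsFiniteMeasure.toSigmaFinite X Z (μ.trim hZ) hfin
  have hsep : @IsSeparable X Z (μ.trim hZ) :=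
    @isSeparable_of_sigmaFinite X Z (μ.trim hZ) hc hsig
  obtain ⟨𝒞, hcount, hdense⟩ := @exists_countable_measureDense X Z (μ.trim hZ) hsep
  let q : Set X → ℕ → Prop := fun C k =>
    ∃ A, MeasurableSet[Z] A ∧ p A ∧ μ (symmDiff A C) < ((k : ℝ≥0∞) + 1)⁻¹
  let F : Set X × ℕ → Set X := fun c => if h : q c.1 c.2 then h.choose else ∅
  have hF : ∀ c, MeasurableSet[Z] (F c) ∧ p (F c) := by
    intro c
    by_cases h : q c.1 c.2
    · have h1 : F c = h.choose := dif_pos h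
      rw [h1]
      exact ⟨h.choose_spec.1, h.choose_spec.2.1⟩
    · have h1 : F c = ∅ := dif_neg h
      rw [h1]
      exact ⟨@MeasurableSet.empty X Z, hp⟩
  have hF2 : ∀ C k, q C k → μ (symmDiff (F (C, k)) C) < ((k : ℝ≥0∞) + 1)⁻¹ := by
    intro C k h
    have h1 : F (C, k) = h.choose := dif_pos h
    rw [h1]
    exact h.choose_spec.2.2
  have hne : (𝒞 ×ˢ (Set.univ : Set ℕ)).Nonempty := by
    obtain ⟨C, hC⟩ := @Measure.MeasureDense.nonempty X Z (μ.trim hZ) 𝒞 hdense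
    exact ⟨(C, 0), hC, Set.mem_univ _⟩
  obtain ⟨e, he⟩ := (hcount.prod (Set.countable_univ (α := ℕ))).exists_eq_range hne
  refine ⟨fun i => F (e i), fun i => hF (e i), ?_⟩
  intro A hA hpA ε hε
  have hε2 : ε / 2 ≠ 0 := (ENNReal.half_pos hε).ne'
  obtain ⟨k, hk⟩ := ENNReal.exists_inv_nat_lt hε2
  have hk1 : ((k : ℝ≥0∞) + 1)⁻¹ ≤ ε / 2 :=
    le_trans (ENNReal.inv_le_inv.mpr (le_add_right le_rfl)) hk.le
  have hpos : (0 : ℝ) < ((k : ℝ) + 1)⁻¹ := by positivity
  have hof : ENNReal.ofReal (((k : ℝ) + 1)⁻¹) = ((k : ℝ≥0∞) + 1)⁻¹ := by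
    rw [ENNReal.ofReal_inv_of_pos (by positivity), ENNReal.ofReal_add (by positivity) zero_le_one,
      ENNReal.ofReal_natCast, ENNReal.ofReal_one]
  obtain ⟨C, hC, hAC⟩ := @Measure.MeasureDense.approx X Z (μ.trim hZ) 𝒞 hdense A hA
    (@measure_ne_top X Z (μ.trim hZ) hfin A) _ hpos
  have hCm : MeasurableSet[Z] C := @Measure.MeasureDense.measurable X Z (μ.trim hZ) 𝒞 hdense C hC
  rw [hof, trim_measurableSet_eq hZ (@MeasurableSet.symmDiff X Z A C hA hCm)] at hAC
  have hq : q C k := ⟨A, hA, hpA, hAC⟩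
  have h3 := hF2 C k hq
  have hmem : (C, k) ∈ Set.range e := by
    rw [← he]
    exact ⟨hC, Set.mem_univ _⟩
  obtain ⟨i, hi⟩ := hmem
  refine ⟨i, ?_⟩
  show μ (symmDiff A (F (e i))) < ε
  rw [hi]
  calc μ (symmDiff A (F (C, k))) ≤ μ (symmDiff A C) + μ (symmDiff C (F (C, k))) :=
        measure_symmDiff_le _ _ _
    _ = μ (symmDiff A C) + μ (symmDiff (F (C, k)) C) := by rw [symmDiff_comm C]
    _ < ((k : ℝ≥0∞) + 1)⁻¹ + ((k : ℝ≥0∞) + 1)⁻¹ := ENNReal.add_lt_add hAC h3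
    _ ≤ ε / 2 + ε / 2 := add_le_add hk1 hk1
    _ = ε := ENNReal.add_halves ε

theorem exists_of_dense {X : Type} {Y : MeasurableSpace X} {mX : MeasurableSpace X} (hY : Y ≤ mX)
    (μ : Measure X) [IsProbabilityMeasure μ] {A : Set X} (hA : MeasurableSet A)
    (h : ∀ ε : ℝ≥0∞, ε ≠ 0 → ∃ B, MeasurableSet[Y] B ∧ μ (symmDiff A B) < ε) :
    ∃ B, MeasurableSet[Y] B ∧ A =ᵐ[μ] B := by
  have hpos : ∀ k : ℕ, ((2 : ℝ≥0∞)⁻¹ ^ k) ≠ 0 := by
    intro k
    exact pow_ne_zero _ (ENNReal.inv_ne_zero.mpr (by norm_num))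
  choose B hB1 hB2 using fun k : ℕ => h _ (hpos k)
  refine ⟨limsup B atTop, @MeasurableSet.measurableSet_limsup X Y B hB1, ?_⟩
  have h0 : μ (limsup (fun k => symmDiff A (B k)) atTop) = 0 := by
    refine measure_limsup_atTop_eq_zero ?_
    refine ne_top_of_le_ne_top ?_ (ENNReal.tsum_le_tsum fun k => (hB2 k).le)
    rw [ENNReal.tsum_geometric]
    simp
  rw [← measure_symmDiff_eq_zero_iff]
  refine measure_mono_null ?_ h0
  intro x hx
  rw [mem_limsup_iff_frequently_mem]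
  rcases hx with ⟨hxA, hxB⟩ | ⟨hxB, hxA⟩
  · rw [mem_limsup_iff_frequently_mem] at hxB
    rw [not_frequently] at hxB
    refine (hxB.mono fun k hk => ?_).frequently
    exact Or.inl ⟨hxA, hk⟩
  · rw [mem_limsup_iff_frequently_mem] at hxB
    exact hxB.mono fun k hk => Or.inr ⟨hk, hxA⟩

end Pool.Agent.Lib.Pf720nn
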