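import Pool.Agent.Lib.Pf720nn.FDefs
import Pool.Agent.Lib.Pf720np.MDiff

/-!
# Measurability and orthogonality of delayed martingale differences

Adapt `mdiff_meas`, `mdiff_orth` and `measurable_comp_of_comap` of Lib/Pf720np/MDiff.lean, with the
pasts replaced by `PS` (`PS_comap` translates them: `(PS .. p h).comap (W g) = PS .. p (h * g)`, so
`W_{h⁻¹}` carries `PS .. p h` to `PS .. p 1`).
-/

set_option autoImplicit false
set_option linter.unusedSectionVars false

open MeasureTheory Filter Topology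
open scoped ENNReal

namespace Pool.Agent.Lib.Pf720nn

open Pool.Agent.Lib.Pf720np (measurable_comp_of_comap)

variable {G X : Type} [Group G]

theorem md_meas {mP Y : MeasurableSpace X} {mX : MeasurableSpace X} {μ : Measure X}
    {W : G → X → X} (hWmul : ∀ a b x, W (a * b) x = W a (W b x))
    {H : ℕ → Subgroup G} {φ : ℕ → G → ℝ} {s : ℕ} {p : ℝ} (hYi : Inv W ⊤ Y) {F : X → ℝ}
    (hF : IsMD μ W H φ s mP Y p F) (h : G) :
    Measurable[mP.comap (W h) ⊔ PS W H φ s mP Y p h] fun x => F (W h x) := by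
  obtain ⟨f, g, hf, -, hg, -, -, rfl⟩ := hF
  have h1 : Measurable[mP.comap (W h) ⊔ PS W H φ s mP Y p h] fun x => f (W h x) :=
    (measurable_comp_of_comap hf (W h)).mono le_sup_left le_rfl
  have h2 : Measurable[mP.comap (W h) ⊔ PS W H φ s mP Y p h] fun x => g (W h x) := by
    have h3 := measurable_comp_of_comap hg (W h)
    rw [PS_comap hWmul hYi, one_mul] at h3
    exact h3.mono le_sup_right le_rfl
  exact (h1.sub h2).div_const 2

theorem md_orth {mP Y : MeasurableSpace X} {mX : MeasurableSpace X} {μ : Measure X}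
    [IsProbabilityMeasure μ] (hP : mP ≤ mX) (hY : Y ≤ mX) {W : G → X → X}
    (hW1 : ∀ x, W 1 x = x) (hWmul : ∀ a b x, W (a * b) x = W a (W b x))
    (hWmp : ∀ a, MeasurePreserving (W a) μ μ) {H : ℕ → Subgroup G} {φ : ℕ → G → ℝ} {s : ℕ} {p : ℝ}
    (hYi : Inv W ⊤ Y) {F : X → ℝ} (hF : IsMD μ W H φ s mP Y p F) (h : G) (k : X → ℝ)
    (hk : Measurable[PS W H φ s mP Y p h] k) (hk1 : ∀ x, |k x| ≤ 1) :
    ∫ x, F (W h x) * k x ∂μ = 0 := by
  obtain ⟨f, g, hf, hf1, hg, hg1, hfg, rfl⟩ := hF
  have hWm : ∀ a, Measurable (W a) := fun a => (hWmp a).measurable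
  have hle : PS W H φ s mP Y p 1 ≤ mX := sup_le hY (gen_le W hWm _ hP)
  -- translate `k` back
  have hback : Measurable[PS W H φ s mP Y p 1] fun x => k (W h⁻¹ x) := by
    have h1 := measurable_comp_of_comap hk (W h⁻¹)
    rwa [PS_comap hWmul hYi, mul_inv_cancel] at h1
  have hfm : Measurable f := hf.mono hP le_rfl
  have hgm : Measurable g := hg.mono hle le_rfl
  have hbm : Measurable fun x => k (W h⁻¹ x) := hback.mono hle le_rfl
  have hint : Integrable f μ := Integrable.of_bound hfm.aestronglyMeasurable 1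
    (Eventually.of_forall fun x => by simpa using hf1 x)
  have e1 : ∫ x, (f (W h x) - g (W h x)) / 2 * k x ∂μ =
      ∫ x, (f x - g x) / 2 * k (W h⁻¹ x) ∂μ := by
    have h2 : ∀ x, (f (W h x) - g (W h x)) / 2 * k x =
        (fun y => (f y - g y) / 2 * k (W h⁻¹ y)) (W h x) := by
      intro x
      simp only
      rw [← hWmul, inv_mul_cancel, hW1]
    have hmm : Measurable fun y => (f y - g y) / 2 * k (W h⁻¹ y) :=
      ((hfm.sub hgm).div_const 2).mul hbm
    rw [integral_congr_ae (Eventually.of_forall h2)]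
    conv_rhs => rw [← (hWmp h).map_eq]
    rw [integral_map (hWm h).aemeasurable hmm.aestronglyMeasurable]
  show ∫ x, (f (W h x) - g (W h x)) / 2 * k x ∂μ = 0
  rw [e1]
  have e2 : ∫ x, f x * k (W h⁻¹ x) ∂μ = ∫ x, g x * k (W h⁻¹ x) ∂μ := by
    have hfh : Integrable (fun x => f x * k (W h⁻¹ x)) μ := Integrable.of_bound
      (hfm.mul hbm).aestronglyMeasurable 1 (Eventually.of_forall fun x => by
        rw [Real.norm_eq_abs, abs_mul]
        exact mul_le_one₀ (hf1 x) (abs_nonneg _) (hk1 _))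
    have h3 : μ[fun x => f x * k (W h⁻¹ x) | PS W H φ s mP Y p 1] =ᵐ[μ]
        fun x => (μ[f | PS W H φ s mP Y p 1]) x * k (W h⁻¹ x) :=
      condExp_mul_of_stronglyMeasurable_right (hback.stronglyMeasurable) hfh hint
    rw [← integral_condExp hle (f := fun x => f x * k (W h⁻¹ x))]
    refine integral_congr_ae ?_
    filter_upwards [h3, hfg] with x hx1 hx2
    rw [hx1, hx2]
  have e3 : ∀ x, (f x - g x) / 2 * k (W h⁻¹ x) =
      (1 / 2 : ℝ) * (f x * k (W h⁻¹ x) - g x * k (W h⁻¹ x)) := fun x => by ring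
  simp_rw [e3]
  rw [integral_const_mul, integral_sub, e2, sub_self, mul_zero]
  · exact Integrable.of_bound (hfm.mul hbm).aestronglyMeasurable 1 (Eventually.of_forall fun x => by
        rw [Real.norm_eq_abs, abs_mul]
        exact mul_le_one₀ (hf1 x) (abs_nonneg _) (hk1 _))
  · exact Integrable.of_bound (hgm.mul hbm).aestronglyMeasurable 1 (Eventually.of_forall fun x => by
        rw [Real.norm_eq_abs, abs_mul]
        exact mul_le_one₀ (hg1 x) (abs_nonneg _) (hk1 _))

theorem inv_meas {Y : MeasurableSpace X} {W : G → X → X} (hYi : Inv W ⊤ Y) {F : X → ℝ}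
    (hF : Measurable[Y] F) (h : G) : Measurable[Y] fun x => F (W h x) := by
  have h1 := measurable_comp_of_comap hF (W h)
  rwa [hYi h (Subgroup.mem_top h)] at h1

end Pool.Agent.Lib.Pf720nn
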