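import Pool.Agent.Lib.Pf720nn.GDefs
import Pool.Agent.Lib.Pf720nn.GNoeth

/-!
# Existence of chains in finitely generated nilpotent groups

Induction on `n`, for all finitely generated nilpotent `G` with `Group.nilpotencyClass G ≤ n`. `n = 0`: `G`
is trivial, `s = 0`. Step: `Z = center G`; `G ⧸ Z` is finitely generated of smaller class
(`nilpotencyClass_quotient_center`), so it has a chain `H', r', π', s'` with `H' s'` finite. Put
`H a = (H' a).comap (mk' Z)`, `π a = π' a ∘ mk` for `a < s'`, and `K = (H' s').comap (mk' Z)`, so `Z ≤ K` and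
`K / Z` is finite; hence the centre of `K` has finite index in `K` (it contains `Z`). The transfer
`MonoidHom.transferCenterPow K : K →* center K`, `k ↦ k ^ (center K).index`, followed by
`center K → (center K) / torsion ≅ ℤ^r` (`center K` is a finitely generated abelian group by
`subgroup_fg`; `Additive`, `Submodule.torsion ℤ _`, the quotient is finite and free, choose a basis)
gives `π s' : G → Fin r → ℤ` (extended by `0` outside `K`) and `H (s' + 1) = {k ∈ K | π s' k = 0}` (a
subgroup: the image in `G` of the kernel). `H (s' + 1)` is finite: `k ∈ H (s' + 1)` iff a power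
`k ^ index` is a torsion element of `center K`; its intersection with (the image of) `center K` is the
torsion subgroup of a finitely generated abelian group, which is finite, and it has finite index in
`H (s' + 1)`. Take `s = s' + 1` (and `H a = H s`, `r a = 0` for `a > s`).
-/

set_option autoImplicit false

namespace Pool.Agent.Lib.Pf720nn

private lemma gc_rho (C : Type) [Group C] (hcomm : ∀ a b : C, a * b = b * a)
    (hC : Group.FG C) :
    ∃ (n : ℕ) (ρ : C → Fin n → ℤ), (∀ a b, ρ (a * b) = ρ a + ρ b) ∧ {c | ρ c = 0}.Finite := by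
  let _ : CommGroup C := { (inferInstance : Group C) with mul_comm := hcomm }
  obtain ⟨ι, j, hι, hj, p, hp, e, ⟨E⟩⟩ := CommGroup.equiv_free_prod_prod_multiplicative_zmod C
  refine ⟨Fintype.card j, fun c i => Multiplicative.toAdd ((E c).1 ((Fintype.equivFin j).symm i)),
    ?_, ?_⟩
  · intro a b
    funext i
    simp only [map_mul, Prod.fst_mul, Pi.mul_apply, toAdd_mul, Pi.add_apply]
  · have hfin : Finite ((i : ι) → Multiplicative (ZMod (p i ^ e i))) := by
      have : ∀ i, Finite (Multiplicative (ZMod (p i ^ e i))) := by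
        intro i
        have : NeZero (p i ^ e i) := ⟨pow_ne_zero _ (hp i).ne_zero⟩
        have h : Finite (ZMod (p i ^ e i)) := inferInstance
        exact h
      exact Pi.finite
    have hinj : Set.InjOn (fun c => (E c).2) {c | (fun i : Fin (Fintype.card j) =>
        Multiplicative.toAdd ((E c).1 ((Fintype.equivFin j).symm i))) = (0 : Fin _ → ℤ)} := by
      intro a ha b hb hab
      apply E.injective
      apply Prod.ext
      · funext i
        have h1 := congrFun ha (Fintype.equivFin j i)
        have h2 := congrFun hb (Fintype.equivFin j i)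
        simp only [Equiv.symm_apply_apply, Pi.zero_apply] at h1 h2
        apply Multiplicative.toAdd.injective
        rw [h1, h2]
      · exact hab
    exact Set.Finite.of_finite_image (Set.toFinite _) hinj

private lemma gc_finite {K : Type} [Group K] (C W : Subgroup K) [C.FiniteIndex]
    (h : ((C : Set K) ∩ W).Finite) : Finite W := by
  have h1 : Finite (C.subgroupOf W) := by
    have : Finite ↥((C : Set K) ∩ W) := h
    refine Finite.of_injective (β := ↥((C : Set K) ∩ W))
      (fun w => ⟨((w : W) : K), ⟨w.2, (w : W).2⟩⟩) ?_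
    intro a b hab
    have h2 := congrArg (fun x : ↥((C : Set K) ∩ W) => (x : K)) hab
    exact Subtype.ext (Subtype.ext h2)
  have h2 := Subgroup.card_mul_index (C.subgroupOf W)
  have h3 : (C.subgroupOf W).index ≠ 0 := Subgroup.FiniteIndex.index_ne_zero
  have h4 : Nat.card (C.subgroupOf W) ≠ 0 := Nat.card_pos.ne'
  apply Nat.finite_of_card_ne_zero
  rw [← h2]
  exact Nat.mul_ne_zero h4 h3

private lemma gc_last (G : Type) [Group G] [Group.IsNilpotent G] (hG : Group.FG G)
    (F : Subgroup (G ⧸ Subgroup.center G)) (hF : Finite F) :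
    ∃ (n : ℕ) (π : G → Fin n → ℤ) (W : Subgroup G), Finite W ∧
      (∀ g ∈ F.comap (QuotientGroup.mk' (Subgroup.center G)),
        ∀ h ∈ F.comap (QuotientGroup.mk' (Subgroup.center G)), π (g * h) = π g + π h) ∧
      ∀ g, g ∈ W ↔ g ∈ F.comap (QuotientGroup.mk' (Subgroup.center G)) ∧ π g = 0 := by
  classical
  set K : Subgroup G := F.comap (QuotientGroup.mk' (Subgroup.center G)) with hK
  have hKfg : Group.FG K := (Group.fg_iff_subgroup_fg K).2 (subgroup_fg G hG K)
  have hCfg : Group.FG (Subgroup.center K) :=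
    (Group.fg_iff_subgroup_fg _).2 (subgroup_fg K hKfg _)
  obtain ⟨n, ρ, hρ, hρf⟩ := gc_rho (Subgroup.center K) (fun a b => by
    apply Subtype.ext
    exact (Subgroup.mem_center_iff.1 a.2 b).symm) hCfg
  -- finite index of the centre
  set φ : K →* (G ⧸ Subgroup.center G) := (QuotientGroup.mk' (Subgroup.center G)).comp K.subtype
    with hφ
  have hrange : Finite φ.range := by
    have h1 : (φ.range : Set (G ⧸ Subgroup.center G)) ⊆ (F : Set _) := by
      rintro _ ⟨k, rfl⟩
      exact k.2
    exact Set.Finite.subset (Set.toFinite (F : Set (G ⧸ Subgroup.center G))) h1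
  have hker : φ.ker ≤ Subgroup.center K := by
    intro k hk
    rw [MonoidHom.mem_ker] at hk
    have h1 : (k : G) ∈ Subgroup.center G := by
      have : ((k : G) : G ⧸ Subgroup.center G) = 1 := hk
      exact (QuotientGroup.eq_one_iff _).1 this
    rw [Subgroup.mem_center_iff] at h1 ⊢
    intro g
    exact Subtype.ext (h1 g)
  have hCfi : (Subgroup.center K).FiniteIndex := Subgroup.finiteIndex_of_le hker
  set τ : K →* Subgroup.center K := MonoidHom.transferCenterPow K with hτ
  -- homomorphism
  have hρ1 : ρ 1 = 0 := by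
    have := hρ 1 1
    rw [mul_one] at this
    exact left_eq_add.1 this
  have hρpow : ∀ (c : Subgroup.center K) (m : ℕ), ρ (c ^ m) = m • ρ c := by
    intro c m
    induction m with
    | zero => rw [pow_zero, hρ1, zero_smul]
    | succ m ih => rw [pow_succ, hρ, ih, succ_nsmul]
  set ψ : K →* Multiplicative (Fin n → ℤ) :=
    { toFun := fun k => Multiplicative.ofAdd (ρ (τ k))
      map_one' := by rw [map_one, hρ1]; rfl
      map_mul' := fun a b => by rw [map_mul, hρ]; rfl } with hψ
  have hWfin : Finite ψ.ker := by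
    apply gc_finite (Subgroup.center K) ψ.ker
    have hsub : ((Subgroup.center K : Set K) ∩ ψ.ker) ⊆
        (fun c : Subgroup.center K => (c : K)) '' {c | ρ c = 0} := by
      rintro k ⟨hk1, hk2⟩
      refine ⟨⟨k, hk1⟩, ?_, rfl⟩
      have h1 : ρ (τ k) = 0 := by
        have h2 : Multiplicative.ofAdd (ρ (τ k)) = 1 := hk2
        exact Multiplicative.ofAdd.injective h2
      have h3 : τ k = (⟨k, hk1⟩ : Subgroup.center K) ^ (Subgroup.center K).index := by
        apply Subtype.ext
        rw [hτ, MonoidHom.transferCenterPow_apply]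
        rfl
      rw [h3, hρpow] at h1
      have h4 : (Subgroup.center K).index ≠ 0 := Subgroup.FiniteIndex.index_ne_zero
      exact (smul_eq_zero.1 h1).resolve_left h4
    exact (hρf.image _).subset hsub
  refine ⟨n, fun g => if h : g ∈ K then ρ (τ ⟨g, h⟩) else 0, ψ.ker.map K.subtype, ?_, ?_, ?_⟩
  · have h1 : ((ψ.ker.map K.subtype : Subgroup G) : Set G).Finite := by
      rw [Subgroup.coe_map]
      exact (Set.toFinite (ψ.ker : Set K)).image _
    exact h1
  · intro g hg h hh
    have hgh : g * h ∈ K := K.mul_mem hg hh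
    simp only
    rw [dif_pos hg, dif_pos hh, dif_pos hgh]
    have h1 : (⟨g * h, hgh⟩ : K) = ⟨g, hg⟩ * ⟨h, hh⟩ := rfl
    rw [h1, map_mul, hρ]
  · intro g
    rw [Subgroup.mem_map]
    constructor
    · rintro ⟨k, hk, rfl⟩
      refine ⟨k.2, ?_⟩
      have hk' : (k : G) ∈ K := k.2
      show (if h : (k : G) ∈ K then ρ (τ ⟨k, h⟩) else 0) = 0
      rw [dif_pos hk']
      have h2 : Multiplicative.ofAdd (ρ (τ k)) = 1 := hk
      exact Multiplicative.ofAdd.injective h2
    · rintro ⟨hg, h1⟩
      simp only at h1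
      rw [dif_pos hg] at h1
      refine ⟨⟨g, hg⟩, ?_, rfl⟩
      show Multiplicative.ofAdd (ρ (τ ⟨g, hg⟩)) = 1
      rw [h1]
      rfl

private lemma gc_step (G : Type) [Group G] [Group.IsNilpotent G] (hG : Group.FG G)
    (ih : ∃ (H : ℕ → Subgroup (G ⧸ Subgroup.center G)) (r : ℕ → ℕ)
      (π : (a : ℕ) → (G ⧸ Subgroup.center G) → Fin (r a) → ℤ) (s : ℕ),
      ZChain H r π s ∧ Finite (H s)) :
    ∃ (H : ℕ → Subgroup G) (r : ℕ → ℕ) (π : (a : ℕ) → G → Fin (r a) → ℤ) (s : ℕ),
      ZChain H r π s ∧ Finite (H s) := by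
  classical
  obtain ⟨H', r', π', s', hch, hfin⟩ := ih
  obtain ⟨n, πn, W, hW, hadd, hker⟩ := gc_last G hG (H' s') hfin
  set q := QuotientGroup.mk' (Subgroup.center G) with hq
  set D : ℕ → Σ m : ℕ, (G → Fin m → ℤ) := fun a => if a < s' then ⟨r' a, fun g => π' a (q g)⟩
    else ⟨n, πn⟩ with hD
  set H : ℕ → Subgroup G := fun a => if a ≤ s' then (H' a).comap q else W with hH
  have hD1 : ∀ a, a < s' → D a = ⟨r' a, fun g => π' a (q g)⟩ := fun a ha => if_pos ha
  have hD2 : D s' = ⟨n, πn⟩ := if_neg (lt_irrefl _)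
  have hH1 : ∀ a, a ≤ s' → H a = (H' a).comap q := fun a ha => if_pos ha
  have hH2 : H (s' + 1) = W := if_neg (by omega)
  refine ⟨H, fun a => (D a).1, fun a => (D a).2, s' + 1, ⟨?_, ?_, ?_⟩, ?_⟩
  · rw [hH1 0 (Nat.zero_le _), hch.top, Subgroup.comap_top]
  · intro a ha
    rcases Nat.lt_or_ge a s' with h | h
    · have key : ∀ d : (Σ m : ℕ, (G → Fin m → ℤ)), d = ⟨r' a, fun g => π' a (q g)⟩ →
          ∀ g ∈ H a, ∀ h ∈ H a, d.2 (g * h) = d.2 g + d.2 h := by
        rintro d rfl g hg h' hh'
        rw [hH1 a h.le] at hg hh'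
        show π' a (q (g * h')) = π' a (q g) + π' a (q h')
        rw [map_mul]
        exact hch.add a h (q g) hg (q h') hh'
      exact key _ (hD1 a h)
    · have ha' : a = s' := by omega
      subst ha'
      have key : ∀ d : (Σ m : ℕ, (G → Fin m → ℤ)), d = ⟨n, πn⟩ →
          ∀ g ∈ H a, ∀ h ∈ H a, d.2 (g * h) = d.2 g + d.2 h := by
        rintro d rfl g hg h' hh'
        rw [hH1 a le_rfl] at hg hh'
        exact hadd g hg h' hh'
      exact key _ hD2
  · intro a ha
    rcases Nat.lt_or_ge a s' with h | h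
    · have key : ∀ d : (Σ m : ℕ, (G → Fin m → ℤ)), d = ⟨r' a, fun g => π' a (q g)⟩ →
          ∀ g, g ∈ H (a + 1) ↔ g ∈ H a ∧ d.2 g = 0 := by
        rintro d rfl g
        rw [hH1 a h.le, hH1 (a + 1) h]
        exact hch.ker a h (q g)
      exact key _ (hD1 a h)
    · have ha' : a = s' := by omega
      subst ha'
      have key : ∀ d : (Σ m : ℕ, (G → Fin m → ℤ)), d = ⟨n, πn⟩ →
          ∀ g, g ∈ H (a + 1) ↔ g ∈ H a ∧ d.2 g = 0 := by
        rintro d rfl g
        rw [hH1 a le_rfl, hH2]
        exact hker g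
      exact key _ hD2
  · rw [hH2]
    exact hW

theorem exists_zchain (G : Type) [Group G] [Group.IsNilpotent G] (hG : Group.FG G) :
    ∃ (H : ℕ → Subgroup G) (r : ℕ → ℕ) (π : (a : ℕ) → G → Fin (r a) → ℤ) (s : ℕ),
      ZChain H r π s ∧ Finite (H s) := by
  revert hG
  refine Group.nilpotent_center_quotient_ind (P := fun G _ _ => Group.FG G →
    ∃ (H : ℕ → Subgroup G) (r : ℕ → ℕ) (π : (a : ℕ) → G → Fin (r a) → ℤ) (s : ℕ),
      ZChain H r π s ∧ Finite (H s)) G ?_ ?_
  · intro G _ _ _
    refine ⟨fun _ => ⊤, fun _ => 0, fun _ _ => 0, 0, ⟨rfl, ?_, ?_⟩, ?_⟩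
    · intro a ha
      exact absurd ha (Nat.not_lt_zero a)
    · intro a ha
      exact absurd ha (Nat.not_lt_zero a)
    · infer_instance
  · intro G _ _ ih hG
    have : Group.FG G := hG
    exact gc_step G hG (ih inferInstance)

end Pool.Agent.Lib.Pf720nn
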