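import Pool.Agent.Lib.Pf720nn.CPair
import Pool.Agent.Lib.Pf720nn.FMd
import Pool.Agent.Lib.Pf720pi.Doubling

/-!
# Products of invariant functions and delayed martingale differences along polynomial maps
-/

set_option autoImplicit false
set_option linter.unusedSectionVars false

open Finset MeasureTheory Filter Topology
open scoped ENNReal

namespace Pool.Agent.Lib.Pf720nn

open Pool.Agent.Lib.Pf720ae
open Pool.Agent.Lib.Pf720pi (glue doubling)
open Pool.Agent.Lib.Pf720pm (Dio FDep fdep_congr exists_fdep inj₁ inj₂ inj₁_injective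
  inj₂_injective comp_inj₁ comp_inj₂ glue_update)

/-- classes of maps closed under injective renaming of the variables -/
def RenClosedG {G : Type} (Q : (κ : Type) → Set ((κ → ℕ) → G)) : Prop :=
  ∀ (κ κ' : Type) (σ : κ → κ'), Function.Injective σ → ∀ g ∈ Q κ,
    (fun m : κ' → ℕ => g fun l => m (σ l)) ∈ Q κ'

/-- convergence of all multiple averages with exponents in `Q` and a number
of variables in `K`, of bounded `m`-measurable real functions -/
def PolRG {X G : Type} {mX : MeasurableSpace X} (μ : Measure X) (K : Set ℕ)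
    (Q : (κ : Type) → Set ((κ → ℕ) → G)) (W : G → X → X) (m : MeasurableSpace X) : Prop :=
  ∀ (κ : Type) [Fintype κ] [DecidableEq κ] (J : Type) [Fintype J] [DecidableEq J]
    (g : J → (κ → ℕ) → G) (F : J → X → ℝ), Fintype.card κ ∈ K → (∀ j, g j ∈ Q κ) →
    (∀ j, Measurable[m] (F j)) →
    (∀ j x, |F j x| ≤ 1) → ∀ᵐ x ∂μ, Cvg fun m : κ → ℕ => ∏ j, F j (W (g j m) x)

variable {κ : Type} [Fintype κ] [DecidableEq κ]

theorem base_case {G X : Type} [Group G] [Group.IsNilpotent G] {mP Y : MeasurableSpace X}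
    {mX : MeasurableSpace X} {μ : Measure X}
    [IsProbabilityMeasure μ] (hP : mP ≤ mX) (hY : Y ≤ mX) (W : G → X → X)
    (hW1 : ∀ x, W 1 x = x) (hWmul : ∀ a b x, W (a * b) x = W a (W b x))
    (hWmp : ∀ a, MeasurePreserving (W a) μ μ) (hYi : Inv W ⊤ Y)
    {H : ℕ → Subgroup G} {r : ℕ → ℕ} {π : (a : ℕ) → G → Fin (r a) → ℤ} {s : ℕ}
    (hc : ZChain H r π s) (Φ : (a : ℕ) → (Fin (r a) → ℤ) →+ ℝ) (hΦ : ∀ a, Dio (Φ a))
    {p : ℝ} (hp : 0 ≤ p)
    (K : Set ℕ) (hK : ∀ v w, 1 ≤ v → v + w ∈ K → v + 2 * w ∈ K)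
    (Q : (κ : Type) → Set ((κ → ℕ) → G)) (hQr : RenClosedG Q)
    (hH : PolRG μ K Q W Y) (hκ : Fintype.card κ ∈ K)
    {J : Type} [Fintype J] [DecidableEq J]
    (g : J → (κ → ℕ) → G) (hgQ : ∀ j, g j ∈ Q κ) (hpol : ∀ j, PolG (g j))
    (hg0 : ∀ j, g j 0 = 1) (hg1 : ∀ j, ∃ m, g j m ≠ 1)
    (hne : ∀ i j, i ≠ j → ∃ m, g i m * (g j m)⁻¹ ∉ H s)
    (hdep : ∀ i j l, FDep (g i) l → FDep (g j) l →
      ∃ m t, g i m * (g j (Function.update m l t))⁻¹ ∉ H s)
    (F : J → X → ℝ)
    (hF : ∀ j, (Measurable[Y] (F j) ∧ ∀ x, |F j x| ≤ 1) ∨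
      IsMD μ W H (phi π Φ) s mP Y p (F j)) :
    ∀ᵐ x ∂μ, Cvg fun m : κ → ℕ => ∏ j, F j (W (g j m) x) := by
  classical
  set tt : J → Prop := fun j => Measurable[Y] (F j) ∧ ∀ x, |F j x| ≤ 1 with htt
  by_cases hall : ∀ j, tt j
  · exact hH κ J g F hκ hgQ (fun j => (hall j).1) (fun j => (hall j).2)
  push Not at hall
  obtain ⟨j₀, hj₀⟩ := hall
  have hWm : ∀ a, Measurable (W a) := fun a => (hWmp a).measurable
  have hch := hc.isChain Φ hΦ
  -- the martingale differences
  have hmd : ∀ j : {j // ¬ tt j}, IsMD μ W H (phi π Φ) s mP Y p (F j.1) := fun j =>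
    (hF j.1).resolve_left j.2
  have hF1 : ∀ j x, |F j x| ≤ 1 := by
    intro j x
    rcases hF j with h | h
    · exact h.2 x
    · exact h.abs_le x
  -- visible coordinates
  set vis : κ → Prop := fun l => ∃ j : {j // ¬ tt j}, FDep (g j.1) l with hvis
  have hvisj : ∀ (j : {j // ¬ tt j}) {m m' : κ → ℕ}, (∀ l, vis l → m l = m' l) →
      g j.1 m = g j.1 m' := fun j m m' h => fdep_congr (g j.1) fun l hl => h l ⟨j, hl⟩
  have hnon : Nonempty {l // vis l} := by
    obtain ⟨m₀, hm₀⟩ := hg1 j₀
    obtain ⟨l, hl⟩ : ∃ l, FDep (g j₀) l := by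
      refine exists_fdep (m := m₀) (m' := 0) _ ?_
      rw [hg0]
      exact hm₀
    exact ⟨⟨l, ⟨j₀, hj₀⟩, hl⟩⟩
  -- the exponents of the martingale differences only see the visible coordinates
  have hglue : ∀ (j : {j // ¬ tt j}) (m : κ → ℕ),
      g j.1 (glue vis (fun l => m l.1) 0) = g j.1 m := by
    intro j m
    refine hvisj j fun l hl => ?_
    unfold glue
    rw [dif_pos hl]
  set g' : {j // ¬ tt j} → ({l // vis l} → ℕ) → G := fun j a => g j.1 (glue vis a 0) with hg'
  have hglueadd : ∀ a b : {l // vis l} → ℕ,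
      glue vis (a + b) 0 = glue vis a 0 + glue vis b 0 := by
    intro a b
    funext l
    simp only [Pi.add_apply]
    unfold glue
    split_ifs <;> simp
  have hglue0 : glue vis (0 : {l // vis l} → ℕ) 0 = 0 := by
    funext l
    unfold glue
    split_ifs <;> rfl
  have hpol' : ∀ j, PolG (g' j) := fun j => (hpol j.1).comp0 (fun a => glue vis a 0) hglueadd
  have hg0' : ∀ j, g' j 0 = 1 := by
    intro j
    simp only [hg', hglue0, hg0]
  have hcore : ∀ M₀ : {l // ¬ vis l} → ℕ, ∀ᵐ x ∂μ,
      Tendsto (fun M₁ : {l // vis l} → ℕ => avg M₁ fun m₁ =>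
        (∏ j : {j // ¬ tt j}, F j.1 (W (g' j m₁) x)) *
          avg M₀ fun m₀ => ∏ j : {j // tt j}, F j.1 (W (g j.1 (glue vis m₁ m₀)) x))
        atTop (𝓝 0) := by
    intro M₀
    refine core_sep (fun a b : G => NegA H (phi π Φ) s 0 p (a * b⁻¹)) ?_ ?_
      (fun a => mP.comap (W a) ⊔ PS W H (phi π Φ) s mP Y p a)
      (fun a => PS W H (phi π Φ) s mP Y p a) (fun a => le_sup_right) ?_ ?_ g'
      (fun j l => FDep (g' j) l) ?_ ?_ ?_
      (fun j m₁ x => F j.1 (W (g' j m₁) x)) ?_ ?_ ?_ ?_
      (fun m₁ x => avg M₀ fun m₀ =>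
        ∏ j : {j // tt j}, F j.1 (W (g j.1 (glue vis m₁ m₀)) x)) ?_ ?_
    · intro a b c hab hbc
      have := NegA.mul hch hp hab hbc
      rwa [mul_assoc, inv_mul_cancel_left] at this
    · intro a
      rw [mul_inv_cancel]
      exact not_negA_one hch hp
    · intro a
      exact sup_le ((MeasurableSpace.comap_mono hP).trans (hWm a).comap_le)
        (sup_le hY (gen_le W hWm _ hP))
    · intro a b hab
      exact PS_le hch hp hab
    · rintro ⟨l, j, m, t, hmt⟩
      refine ⟨j, fun l => m l.1, t, ?_⟩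
      have h1 : g j.1 (glue vis (fun l => m l.1) 0) = g j.1 m := hglue j m
      have h2 : g j.1 (glue vis (Function.update (fun l : {l // vis l} => m l.1)
          ⟨l, j, m, t, hmt⟩ t) 0) = g j.1 (Function.update m l t) := by
        rw [glue_update]
        refine hvisj j fun l' hl' => ?_
        by_cases h : l' = l
        · subst h
          simp
        · rw [Function.update_of_ne h, Function.update_of_ne h]
          unfold glue
          rw [dif_pos hl']
      simp only [hg']
      rw [h1, h2]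
      exact hmt
    · -- distinct
      intro i j hij
      refine close_of hc Φ hΦ g' hpol' hg0' hp i j ?_
      obtain ⟨m, hm⟩ := hne i.1 j.1 (fun h => hij (Subtype.ext h))
      refine ⟨fun l => m l.1, ?_⟩
      simp only [hg']
      rw [hglue, hglue]
      exact hm
    · intro i j l hi hj
      have hfd : ∀ (j : {j // ¬ tt j}), FDep (g' j) l → FDep (g j.1) l.1 := by
        rintro j ⟨m, t, hmt⟩
        refine ⟨glue vis m 0, t, ?_⟩
        rw [← glue_update]
        exact hmt
      refine pair_bound hc Φ hΦ g' hpol' hg0' hp i j l ?_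
      obtain ⟨m, t, hm⟩ := hdep i.1 j.1 l.1 (hfd i hi) (hfd j hj)
      refine ⟨fun l => m l.1, t, ?_⟩
      have h2 : g j.1 (glue vis (Function.update (fun l : {l // vis l} => m l.1) l t) 0) =
          g j.1 (Function.update m l.1 t) := by
        rw [glue_update]
        refine hvisj j fun l' hl' => ?_
        by_cases h : l' = l.1
        · subst h
          simp
        · rw [Function.update_of_ne h, Function.update_of_ne h]
          unfold glue
          rw [dif_pos hl']
      simp only [hg']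
      rw [hglue, h2]
      exact hm
    · intro j m x
      exact hF1 _ _
    · intro j m
      exact md_meas hWmul hYi (hmd j) (g' j m)
    · intro j m h hh hh1
      exact md_orth hP hY hW1 hWmul hWmp hYi (hmd j) (g' j m) h hh hh1
    · intro j l hl m t x
      have h0 : ∀ (m : {l // vis l} → ℕ) t, g' j (Function.update m l t) = g' j m := by
        intro m t
        by_contra h
        exact hl ⟨m, t, h⟩
      simp only [h0]
    · intro m x
      exact abs_avg_le_of_le zero_le_one fun m₀ => abs_prod_le_one _ _ fun j => hF1 _ _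
    · intro m a
      have h1 : Measurable[Y] fun x => avg M₀ fun m₀ =>
          ∏ j : {j // tt j}, F j.1 (W (g j.1 (glue vis m m₀)) x) := by
        unfold avg
        refine Measurable.const_mul (Finset.measurable_fun_sum _ fun m₀ _ => ?_) _
        refine Finset.measurable_fun_prod _ fun j _ => ?_
        exact inv_meas hYi j.2.1 _
      exact h1.mono (le_PS a) le_rfl
  -- the doubled family
  have hcard : Fintype.card ({l // vis l} ⊕ ({l // ¬ vis l} ⊕ {l // ¬ vis l})) ∈ K := by
    rw [Fintype.card_sum, Fintype.card_sum, ← two_mul]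
    refine hK _ _ (Fintype.card_pos) ?_
    have := Fintype.card_subtype_compl vis
    have h2 : Fintype.card {l // vis l} ≤ Fintype.card κ := Fintype.card_subtype_le _
    rw [this, Nat.add_sub_cancel' h2]
    exact hκ
  have hdbl := hH ({l // vis l} ⊕ ({l // ¬ vis l} ⊕ {l // ¬ vis l})) ({j // tt j} ⊕ {j // tt j})
    (Sum.elim
      (fun j m => g j.1 fun l => m (inj₁ vis l))
      (fun j m => g j.1 fun l => m (inj₂ vis l)))
    (Sum.elim (fun j => F j.1) (fun j => F j.1)) hcard
    (by
      rintro (j | j)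
      · exact hQr _ _ _ (inj₁_injective vis) _ (hgQ _)
      · exact hQr _ _ _ (inj₂_injective vis) _ (hgQ _))
    (by rintro (j | j) <;> exact j.2.1) (by rintro (j | j) <;> exact j.2.2)
  filter_upwards [ae_all_iff.2 hcore, hdbl] with x hx1 hx2
  have h0 := doubling vis (fun m => ∏ j : {j // ¬ tt j}, F j.1 (W (g j.1 m) x))
    (fun m => ∏ j : {j // tt j}, F j.1 (W (g j.1 m) x))
    (fun m => abs_prod_le_one _ _ fun j => hF1 _ _)
    (fun m => abs_prod_le_one _ _ fun j => hF1 _ _) ?_ (fun M₀ _ => hx1 M₀) ?_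
  · refine ⟨0, h0.congr fun M => ?_⟩
    refine avg_congr fun m _ => ?_
    rw [mul_comm]
    exact Fintype.prod_subtype_mul_prod_subtype tt fun j => F j (W (g j m) x)
  · intro m m' hmm
    refine Finset.prod_congr rfl fun j _ => ?_
    rw [hvisj j hmm]
  · refine hx2.congr fun m => ?_
    rw [Fintype.prod_sum_type]
    congr 1
    · refine Finset.prod_congr rfl fun j _ => ?_
      simp only [Sum.elim_inl]
      rw [comp_inj₁]
    · refine Finset.prod_congr rfl fun j _ => ?_
      simp only [Sum.elim_inr]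
      rw [comp_inj₂]

end Pool.Agent.Lib.Pf720nn
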