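import Pool.Agent.Lib.Pf720nn.NWrap
import Pool.Agent.Lib.Pf720nn.BlkA

/-!
# The Pinsker reduction: final forms
-/

set_option autoImplicit false
set_option linter.unusedSectionVars false

open Finset MeasureTheory Filter Topology
open scoped ENNReal

namespace Pool.Agent.Lib.Pf720nn

open Pool.Agent.Lib.Pf720ae
open Pool.Agent.Lib.Pf720np (pact pact_mp ZeroEnt)
open Pool.Agent.Lib.Pf720pm (PolC RenC polC_bot)

theorem maxBd_sep {X : Type} {mX : MeasurableSpace X} {μ : Measure X} [IsProbabilityMeasure μ]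
    {d : ℕ} (T : Fin d → Equiv.Perm X)
    (hT : ∀ i, Measurable (T i) ∧ Measurable (T i).symm ∧ MeasurePreserving (T i) μ μ)
    {k : ℕ} (P : Fin d → MvPolynomial (Fin k) ℤ) (hP : Sep T P) :
    MaxBd μ (fun (m : Fin k → ℕ) x => pact T (SP T P (m + 1)) x) := by
  have e : (fun (m : Fin k → ℕ) x => pact T (SP T P (m + 1)) x) = pS T P := by
    funext m x
    rw [pact_SP]
    rfl
  rw [e]
  exact pS_sep_max T hT P hP

/-- the Pinsker reduction with the linear averages -/
theorem nil_iff {X : Type} (𝒩 : MeasurableSpace X) {mX : MeasurableSpace X} {μ : Measure X}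
    [IsProbabilityMeasure μ] {d : ℕ} (T : Fin d → Equiv.Perm X)
    (hT : ∀ i, Measurable (T i) ∧ Measurable (T i).symm ∧ MeasurePreserving (T i) μ μ)
    (hG : Group.IsNilpotent (Subgroup.closure (Set.range T)))
    (h𝒩 : ∀ A : Set X, MeasurableSet A → ZeroEnt μ (pact T) A →
      ∃ B, MeasurableSet[𝒩] B ∧ A =ᵐ[μ] B)
    (K : Set ℕ) (hK : K = {1} ∨ K = Set.univ)
    (Q : (k : ℕ) → Set (Fin d → MvPolynomial (Fin k) ℤ)) (hQ1 : RenC Q)
    (hQ2 : (∀ g : Subgroup.closure (Set.range T), ∀ n : ℕ, 0 < n → g ^ n = 1 → g = 1) ∨ SubC Q) :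
    PolC μ T K Q mX ↔ (∀ k ∈ K, ∀ P ∈ Q k, Sep T P ∨ LinC μ T P) ∧ PolC μ T K Q 𝒩 := by
  constructor
  · intro h
    refine ⟨fun k hk P hP => Or.inr (linC_of_polC T K Q h hk hP), ?_⟩
    intro k hk n q f hqQ hf
    exact h k hk n q f hqQ fun j => ⟨(hf j).1, (hf j).1.1⟩
  · rintro ⟨h1, h2⟩
    refine (nil_reduction 𝒩 T hT hG h𝒩 K hK Q hQ1 hQ2 fun k hk P hP => ?_).2 h2
    rcases h1 k hk P hP with h | h
    · exact limBd_of_maxBd (fun m => (pact_mp T hT _).measurable) (maxBd_sep T hT P h)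
    · exact limBd_of_linC T hT P h

/-- the class of the separated tuples is closed under renaming -/
lemma renC_sep {X : Type} {d : ℕ} (T : Fin d → Equiv.Perm X) :
    RenC (fun _ => {P : Fin d → MvPolynomial (Fin _) ℤ | Sep T P}) := by
  classical
  rintro k k' σ hσ P ⟨β, hβ, hs⟩
  refine ⟨β, hβ, fun i i' hi hi' => ?_⟩
  have h0 : ∀ i, MvPolynomial.rename σ (P i) ≠ 0 → P i ≠ 0 := by
    intro i hi h
    rw [h, map_zero] at hi
    exact hi rfl
  obtain ⟨h1, h2⟩ := hs i i' (h0 i hi) (h0 i' hi')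
  refine ⟨h1, fun hne => ?_⟩
  refine Finset.disjoint_of_subset_left (MvPolynomial.vars_rename σ (P i))
    (Finset.disjoint_of_subset_right (MvPolynomial.vars_rename σ (P i')) ?_)
  exact (Finset.disjoint_image hσ).2 (h2 hne)

/-- the class of the separated tuples is closed under substitutions -/
lemma subC_sep {X : Type} {d : ℕ} (T : Fin d → Equiv.Perm X) :
    SubC (fun _ => {P : Fin d → MvPolynomial (Fin _) ℤ | Sep T P}) := by
  classical
  rintro k P ⟨β, hβ, hs⟩ q r hq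
  refine ⟨β, hβ, fun i i' hi hi' => ?_⟩
  have h0 : ∀ i, MvPolynomial.bind₁ (fun l => MvPolynomial.C (q : ℤ) * MvPolynomial.X l +
      MvPolynomial.C (r l : ℤ)) (P i) ≠ 0 → P i ≠ 0 := by
    intro i hi h
    rw [h, map_zero] at hi
    exact hi rfl
  obtain ⟨h1, h2⟩ := hs i i' (h0 i hi) (h0 i' hi')
  refine ⟨h1, fun hne => ?_⟩
  have hv : ∀ p : MvPolynomial (Fin k) ℤ, (MvPolynomial.bind₁ (fun l =>
      MvPolynomial.C (q : ℤ) * MvPolynomial.X l + MvPolynomial.C (r l : ℤ)) p).vars ⊆ p.vars := by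
    intro p l hl
    have h3 := MvPolynomial.vars_bind₁ (fun l => MvPolynomial.C (q : ℤ) * MvPolynomial.X l +
      MvPolynomial.C (r l : ℤ)) p hl
    obtain ⟨l', hl', hl''⟩ := Finset.mem_biUnion.1 h3
    have h4 : l ∈ ({l'} : Finset (Fin k)) := by
      have h5 := MvPolynomial.vars_add_subset _ _ hl''
      rcases Finset.mem_union.1 h5 with h6 | h6
      · have h7 := MvPolynomial.vars_mul _ _ h6
        rw [MvPolynomial.vars_C, Finset.empty_union, MvPolynomial.vars_X] at h7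
        exact h7
      · rw [MvPolynomial.vars_C] at h6
        exact absurd h6 (Finset.notMem_empty l)
    rw [Finset.mem_singleton] at h4
    rwa [h4]
  exact Finset.disjoint_of_subset_left (hv _) (Finset.disjoint_of_subset_right (hv _) (h2 hne))

/-- completely positive entropy -/
theorem nil_cpe {X : Type} {mX : MeasurableSpace X} {μ : Measure X}
    [IsProbabilityMeasure μ] {d : ℕ} (T : Fin d → Equiv.Perm X)
    (hT : ∀ i, Measurable (T i) ∧ Measurable (T i).symm ∧ MeasurePreserving (T i) μ μ)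
    (hG : Group.IsNilpotent (Subgroup.closure (Set.range T)))
    (h : ∀ A : Set X, MeasurableSet A → ZeroEnt μ (pact T) A → μ A = 0 ∨ μ A = 1) :
    PolC μ T Set.univ (fun _ => {P | Sep T P}) mX := by
  rw [nil_iff ⊥ T hT hG (fun A hA hA0 => ?_) Set.univ (Or.inr rfl) _ (renC_sep T)
    (Or.inr (subC_sep T))]
  · exact ⟨fun k _ P hP => Or.inl hP, polC_bot T hT _ _⟩
  · rcases h A hA hA0 with h0 | h1
    · exact ⟨∅, @MeasurableSet.empty X ⊥, ae_eq_empty.2 h0⟩
    · refine ⟨Set.univ, @MeasurableSet.univ X ⊥, ae_eq_univ.2 ?_⟩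
      rw [prob_compl_eq_zero_iff hA]
      exact h1

end Pool.Agent.Lib.Pf720nn
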