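import Pool.Agent.Lib.Pf720nn.CvgA
import Pool.Agent.Lib.Pf720ae.Rel

/-!
# Closure of the convergence: asymptotic form of the maximal inequality

`LimBd μ U`: the upper limits of the averages along `U` of small bounded functions are small. It follows
from the maximal inequality and also from the convergence of the averages of all bounded functions.
-/

set_option autoImplicit false
set_option linter.unusedSectionVars false

open Finset MeasureTheory Filter Topology
open scoped ENNReal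

namespace Pool.Agent.Lib.Pf720nn

open Pool.Agent.Lib.Pf720ae

/-- the upper limits of the averages of small bounded functions are small -/
def LimBd {κ X : Type} [Fintype κ] [DecidableEq κ] {mX : MeasurableSpace X} (μ : Measure X)
    (U : (κ → ℕ) → X → X) : Prop :=
  ∀ g : ℕ → X → ℝ, (∀ i, Measurable (g i)) → (∀ i x, 0 ≤ g i x) → (∀ i x, g i x ≤ 1) →
    ∑' i, ∫⁻ x, ENNReal.ofReal (g i x) ∂μ ≠ ⊤ → ∀ᵐ x ∂μ, ∀ η : ℝ, 0 < η →
      ∀ᶠ i in atTop, ∀ᶠ M in atTop, avg M (fun m => g i (U m x)) ≤ η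

variable {κ X : Type} [Fintype κ] [DecidableEq κ] {mX : MeasurableSpace X} {μ : Measure X}

lemma limBd_comp {U : (κ → ℕ) → X → X} (h : LimBd μ U) {V : X → X}
    (hV : MeasurePreserving V μ μ) : LimBd μ fun m x => V (U m x) := by
  intro g hg h0 h1 hs
  have h2 := h (fun i x => g i (V x)) (fun i => (hg i).comp hV.measurable) (fun i x => h0 i _)
    (fun i x => h1 i _) (by
      have e : ∀ i, ∫⁻ x, ENNReal.ofReal (g i (V x)) ∂μ = ∫⁻ x, ENNReal.ofReal (g i x) ∂μ :=
        fun i => hV.lintegral_comp (hg i).ennreal_ofReal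
      simp only [e]
      exact hs)
  exact h2

lemma limBd_of_maxBd {U : (κ → ℕ) → X → X} (hU : ∀ m, Measurable (U m)) (h : MaxBd μ U) :
    LimBd μ U := by
  obtain ⟨A, hA, h⟩ := h
  intro g hg h0 h1 hs
  set G : ℕ → X → ℝ≥0∞ := fun i x => ENNReal.ofReal (g i x) with hG
  have hGm : ∀ i, Measurable (G i) := fun i => (hg i).ennreal_ofReal
  have hfin : ∫⁻ x, ∑' i, (NS U (G i) x) ^ 2 ∂μ ≠ ⊤ := by
    rw [lintegral_tsum fun i => ((measurable_NS hU (hGm i)).pow_const 2).aemeasurable]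
    have h2 : ∑' i, ∫⁻ x, (NS U (G i) x) ^ 2 ∂μ ≤ ∑' i, A * ∫⁻ x, G i x ∂μ := by
      refine ENNReal.tsum_le_tsum fun i => (h (G i) (hGm i)).trans ?_
      gcongr with x
      have : G i x ≤ 1 := by
        simp only [hG]
        exact ENNReal.ofReal_le_one.2 (h1 i x)
      calc (G i x) ^ 2 = G i x * G i x := sq _
        _ ≤ G i x * 1 := by gcongr
        _ = G i x := mul_one _
    rw [ENNReal.tsum_mul_left] at h2
    exact ne_top_of_le_ne_top (ENNReal.mul_ne_top hA hs) h2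
  have hae : ∀ᵐ x ∂μ, ∑' i, (NS U (G i) x) ^ 2 < ⊤ :=
    ae_lt_top (Measurable.ennreal_tsum fun i => (measurable_NS hU (hGm i)).pow_const 2) hfin
  filter_upwards [hae] with x hx η hη
  have ht := ENNReal.tendsto_atTop_zero_of_tsum_ne_top hx.ne
  have hpos : (0 : ℝ≥0∞) < (ENNReal.ofReal η) ^ 2 := by
    have : 0 < ENNReal.ofReal η := ENNReal.ofReal_pos.2 hη
    positivity
  filter_upwards [ht.eventually_lt_const hpos] with i hi
  have hi' : NS U (G i) x < ENNReal.ofReal η := by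
    by_contra hcon
    exact absurd hi (not_lt.2 (pow_le_pow_left' (not_lt.1 hcon) 2))
  filter_upwards [eventually_pos] with M hM
  have h3 := ofReal_avg_le_NS (U := U) hM (g i) (h0 i) x
  exact ((ENNReal.ofReal_lt_ofReal_iff hη).1 (lt_of_le_of_lt h3 hi')).le

lemma limBd_of_cvg {U : (κ → ℕ) → X → X} (hU : ∀ m, MeasurePreserving (U m) μ μ)
    (h : ∀ g : X → ℝ, Measurable g → (∀ x, |g x| ≤ 1) → ∀ᵐ x ∂μ, Cvg fun m => g (U m x)) :
    LimBd μ U := by
  intro g hg h0 h1 hs
  set D : ℕ → κ → ℕ := fun N _ => N + 1 with hD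
  have hDt : Tendsto D atTop atTop := by
    rw [tendsto_atTop]
    intro b
    filter_upwards [eventually_ge_atTop (∑ l, b l)] with N hN l
    have : b l ≤ ∑ l, b l := Finset.single_le_sum (f := b) (fun _ _ => Nat.zero_le _)
      (Finset.mem_univ l)
    show b l ≤ N + 1
    omega
  set L : ℕ → X → ℝ≥0∞ := fun i x => liminf (fun N =>
    ENNReal.ofReal (avg (D N) fun m => g i (U m x))) atTop with hL
  have ham : ∀ i N, Measurable fun x => avg (D N) fun m => g i (U m x) := by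
    intro i N
    unfold avg
    exact (Finset.measurable_fun_sum _ fun m _ => (hg i).comp (hU m).measurable).const_mul _
  have hLm : ∀ i, Measurable (L i) := fun i => Measurable.liminf fun N => (ham i N).ennreal_ofReal
  have hint : ∀ i N, ∫⁻ x, ENNReal.ofReal (avg (D N) fun m => g i (U m x)) ∂μ =
      ∫⁻ x, ENNReal.ofReal (g i x) ∂μ := by
    intro i N
    have e : ∀ x, ENNReal.ofReal (avg (D N) fun m => g i (U m x)) =
        ENNReal.ofReal (∏ l, (D N l : ℝ))⁻¹ * ∑ m ∈ box (D N), ENNReal.ofReal (g i (U m x)) := by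
      intro x
      unfold avg
      rw [ENNReal.ofReal_mul (by positivity), ENNReal.ofReal_sum_of_nonneg fun m _ => h0 i _]
    have hgU : ∀ m, Measurable fun x => ENNReal.ofReal (g i (U m x)) := fun m =>
      ((hg i).comp (hU m).measurable).ennreal_ofReal
    simp only [e]
    rw [lintegral_const_mul _ (Finset.measurable_fun_sum _ fun m _ => hgU m),
      lintegral_finsetSum _ fun m _ => hgU m]
    have e2 : ∀ m, ∫⁻ x, ENNReal.ofReal (g i (U m x)) ∂μ = ∫⁻ x, ENNReal.ofReal (g i x) ∂μ :=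
      fun m => (hU m).lintegral_comp (hg i).ennreal_ofReal
    simp only [e2]
    rw [Finset.sum_const, card_box, nsmul_eq_mul, ← mul_assoc]
    have e3 : ENNReal.ofReal (∏ l, (D N l : ℝ))⁻¹ * ((∏ l, D N l : ℕ) : ℝ≥0∞) = 1 := by
      have hpos : (0 : ℝ) < ∏ l, (D N l : ℝ) :=
        Finset.prod_pos fun l _ => by simp only [hD]; positivity
      have e4 : ((∏ l, D N l : ℕ) : ℝ≥0∞) = ENNReal.ofReal (∏ l, (D N l : ℝ)) := by
        rw [← Nat.cast_prod, ENNReal.ofReal_natCast]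
      rw [e4, ← ENNReal.ofReal_mul (by positivity), inv_mul_cancel₀ hpos.ne', ENNReal.ofReal_one]
    rw [e3, one_mul]
  have hLle : ∀ i, ∫⁻ x, L i x ∂μ ≤ ∫⁻ x, ENNReal.ofReal (g i x) ∂μ := by
    intro i
    refine (lintegral_liminf_le fun N => (ham i N).ennreal_ofReal).trans ?_
    simp only [hint, liminf_const, le_refl]
  have hfin : ∫⁻ x, ∑' i, L i x ∂μ ≠ ⊤ := by
    rw [lintegral_tsum fun i => (hLm i).aemeasurable]
    exact ne_top_of_le_ne_top hs (ENNReal.tsum_le_tsum hLle)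
  have hae : ∀ᵐ x ∂μ, ∑' i, L i x < ⊤ := ae_lt_top (Measurable.ennreal_tsum hLm) hfin
  have hcv : ∀ᵐ x ∂μ, ∀ i, Cvg fun m => g i (U m x) := ae_all_iff.2 fun i =>
    h (g i) (hg i) fun x => by rw [abs_of_nonneg (h0 i x)]; exact h1 i x
  filter_upwards [hae, hcv] with x hx hc η hη
  have ht := ENNReal.tendsto_atTop_zero_of_tsum_ne_top hx.ne
  filter_upwards [ht.eventually_lt_const (ENNReal.ofReal_pos.2 hη)] with i hi
  obtain ⟨l, hl⟩ := hc i
  have h3 : Tendsto (fun N => ENNReal.ofReal (avg (D N) fun m => g i (U m x))) atTop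
      (𝓝 (ENNReal.ofReal l)) :=
    (ENNReal.continuous_ofReal.tendsto l).comp (hl.comp hDt)
  have h4 : L i x = ENNReal.ofReal l := h3.liminf_eq
  rw [h4] at hi
  have h5 : l < η := (ENNReal.ofReal_lt_ofReal_iff hη).1 hi
  filter_upwards [hl.eventually_lt_const h5] with M hM
  exact hM.le

theorem cvg_of_lim {J : Type} [Fintype J] [DecidableEq J] [IsProbabilityMeasure μ]
    (U : J → (κ → ℕ) → X → X)
    (hMax : ∀ j, LimBd μ (U j)) (hU : ∀ j m, MeasurePreserving (U j m) μ μ)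
    (F : J → X → ℝ) (hF : ∀ j, Measurable (F j)) (hF1 : ∀ j x, |F j x| ≤ 1)
    (F' : ℕ → J → X → ℝ) (hF' : ∀ i j, Measurable (F' i j)) (C : ℝ)
    (hF'1 : ∀ i j x, |F' i j x| ≤ C)
    (hC : ∀ i, ∀ᵐ x ∂μ, Cvg fun m : κ → ℕ => ∏ j, F' i j (U j m x))
    (ht : ∀ j, Tendsto (fun i => ∫⁻ x, (ENNReal.ofReal |F j x - F' i j x|) ^ 2 ∂μ)
      atTop (𝓝 0)) :
    ∀ᵐ x ∂μ, Cvg fun m : κ → ℕ => ∏ j, F j (U j m x) := by
  set D : ℝ := max 1 C with hD
  have hD1 : 1 ≤ D := le_max_left _ _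
  have hD0 : 0 < D := lt_of_lt_of_le zero_lt_one hD1
  -- the integrals tend to zero
  have ht1 : ∀ j, Tendsto (fun i => ∫⁻ x, ENNReal.ofReal |F j x - F' i j x| ∂μ) atTop (𝓝 0) := by
    intro j
    have h2 : ∀ i, ∫⁻ x, ENNReal.ofReal |F j x - F' i j x| ∂μ ≤
        (∫⁻ x, (ENNReal.ofReal |F j x - F' i j x|) ^ 2 ∂μ) ^ (1 / 2 : ℝ) := by
      intro i
      have h3 := sq_lintegral_le μ
        (continuous_abs.measurable.comp ((hF j).sub (hF' i j))).ennreal_ofReal
      have h5 := ENNReal.rpow_le_rpow h3 (by norm_num : (0 : ℝ) ≤ 1 / 2)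
      rw [← ENNReal.rpow_natCast, ← ENNReal.rpow_mul] at h5
      norm_num at h5
      exact h5
    have h6 : Tendsto (fun n => (∫⁻ x, (ENNReal.ofReal |F j x - F' n j x|) ^ 2 ∂μ) ^ (1 / 2 : ℝ))
        atTop (𝓝 (0 ^ (1 / 2 : ℝ))) := (ENNReal.continuous_rpow_const.tendsto _).comp (ht j)
    rw [ENNReal.zero_rpow_of_pos (by norm_num)] at h6
    exact tendsto_of_tendsto_of_tendsto_of_le_of_le tendsto_const_nhds h6 (fun _ => zero_le) h2
  have hev : ∀ k : ℕ, ∃ i, ∀ j, ∫⁻ x, ENNReal.ofReal |F j x - F' i j x| ∂μ ≤ (2⁻¹ : ℝ≥0∞) ^ k := by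
    intro k
    have h1 : ∀ j, ∀ᶠ i in atTop, ∫⁻ x, ENNReal.ofReal |F j x - F' i j x| ∂μ <
        (2⁻¹ : ℝ≥0∞) ^ k := fun j => (ht1 j).eventually_lt_const (ENNReal.pow_pos (by simp) k)
    obtain ⟨i, hi⟩ := (eventually_all.2 h1).exists
    exact ⟨i, fun j => (hi j).le⟩
  choose φ hφ using hev
  set g : J → ℕ → X → ℝ := fun j k x => |F j x - F' (φ k) j x| / (2 * D) with hg
  have hgm : ∀ j k, Measurable (g j k) := fun j k =>
    (continuous_abs.measurable.comp ((hF j).sub (hF' (φ k) j))).div_const _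
  have hg0 : ∀ j k x, 0 ≤ g j k x := fun j k x => by positivity
  have hg1 : ∀ j k x, g j k x ≤ 1 := by
    intro j k x
    simp only [hg]
    rw [div_le_one (by positivity)]
    have h1 := abs_sub (F j x) (F' (φ k) j x)
    have h2 := hF1 j x
    have h3 := (hF'1 (φ k) j x).trans (le_max_right 1 C)
    linarith
  have hlim : ∀ᵐ x ∂μ, ∀ j, ∀ η : ℝ, 0 < η →
      ∀ᶠ k in atTop, ∀ᶠ M in atTop, avg M (fun m => g j k (U j m x)) ≤ η := by
    rw [ae_all_iff]
    intro j
    refine hMax j (g j) (hgm j) (hg0 j) (hg1 j) ?_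
    refine ne_top_of_le_ne_top (b := ∑' k : ℕ, (2⁻¹ : ℝ≥0∞) ^ k) ?_
      (ENNReal.tsum_le_tsum fun k => ?_)
    · rw [ENNReal.tsum_geometric]
      simp
    · refine (lintegral_mono fun x => ?_).trans (hφ k j)
      refine ENNReal.ofReal_le_ofReal ?_
      simp only [hg]
      exact div_le_self (abs_nonneg _) (by linarith)
  have hCall : ∀ᵐ x ∂μ, ∀ n, Cvg fun m : κ → ℕ => ∏ j, F' n j (U j m x) := ae_all_iff.2 hC
  filter_upwards [hlim, hCall] with x hx hCx
  refine exists_tendsto_of_approx _ fun ε hε => ?_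
  set η : ℝ := ε / (D ^ (Fintype.card J) * (Fintype.card J + 1) * (2 * D)) with hη
  have hη0 : 0 < η := by positivity
  have hall : ∀ᶠ k in atTop, ∀ j, ∀ᶠ M in atTop, avg M (fun m => g j k (U j m x)) ≤ η :=
    eventually_all.2 fun j => hx j η hη0
  obtain ⟨k, hk⟩ := hall.exists
  refine ⟨fun M => avg M fun m => ∏ j, F' (φ k) j (U j m x), hCx (φ k), ?_⟩
  filter_upwards [eventually_all.2 hk] with M hM
  rw [← avg_sub]
  have h2 : |avg M fun m => ∏ j, F j (U j m x) - ∏ j, F' (φ k) j (U j m x)|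
      ≤ avg M fun m => D ^ (Fintype.card J) * ∑ j, |F j (U j m x) - F' (φ k) j (U j m x)| := by
    refine (abs_avg_le _ _).trans (avg_mono M fun m => ?_)
    refine abs_prod_sub_prod_le Finset.univ (fun j => F j (U j m x))
      (fun j => F' (φ k) j (U j m x))
      hD1 (fun j => (hF1 j _).trans hD1) (fun j => (hF'1 (φ k) j _).trans (le_max_right _ _))
  refine h2.trans ?_
  have h5 : (avg M fun m => D ^ (Fintype.card J) *
      ∑ j, |F j (U j m x) - F' (φ k) j (U j m x)|) =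
      D ^ (Fintype.card J) * ∑ j, avg M fun m => |F j (U j m x) - F' (φ k) j (U j m x)| := by
    rw [avg_smul]
    congr 1
    unfold avg
    rw [Finset.sum_comm, Finset.mul_sum]
  rw [h5]
  have h6 : ∀ j, avg M (fun m => |F j (U j m x) - F' (φ k) j (U j m x)|) ≤ 2 * D * η := by
    intro j
    have h3 := hM j
    have h4 : avg M (fun m => g j k (U j m x)) =
        (2 * D)⁻¹ * avg M (fun m => |F j (U j m x) - F' (φ k) j (U j m x)|) := by
      rw [← avg_smul]
      refine avg_congr fun m _ => ?_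
      simp only [hg]
      rw [div_eq_inv_mul]
    rw [h4, inv_mul_le_iff₀ (by positivity)] at h3
    exact h3
  have h7 : ∑ j, avg M (fun m => |F j (U j m x) - F' (φ k) j (U j m x)|) ≤
      (Fintype.card J : ℝ) * (2 * D * η) := by
    refine (Finset.sum_le_sum fun j _ => h6 j).trans (le_of_eq ?_)
    simp
  calc D ^ (Fintype.card J) * ∑ j, avg M (fun m => |F j (U j m x) - F' (φ k) j (U j m x)|)
      ≤ D ^ (Fintype.card J) * ((Fintype.card J : ℝ) * (2 * D * η)) :=
        mul_le_mul_of_nonneg_left h7 (by positivity)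
    _ ≤ D ^ (Fintype.card J) * (((Fintype.card J : ℝ) + 1) * (2 * D * η)) := by
        gcongr
        linarith
    _ = ε := by
        rw [hη]
        field_simp

end Pool.Agent.Lib.Pf720nn
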