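import Pool.Agent.Lib.Pf720nn.NBase
import Pool.Agent.Lib.Pf720nn.EFin
import Pool.Agent.Lib.Pf720nn.NLim
import Pool.Agent.Lib.Pf720pi.TailLimit
import Pool.Agent.Lib.Pf720gs.GFinal
import Pool.Agent.Lib.Pf720np.Closure

/-!
# From delayed martingale differences to all bounded functions
-/

set_option autoImplicit false
set_option linter.unusedSectionVars false

open Finset MeasureTheory Filter Topology
open scoped ENNReal

namespace Pool.Agent.Lib.Pf720nn

open Pool.Agent.Lib.Pf720ae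
open Pool.Agent.Lib.Pf720pi (exists_tail_limit)
open Pool.Agent.Lib.Pf720pm (Dio FDep)
open Pool.Agent.Lib.Pf720np (ZeroEnt exists_fin_approx tendsto_ofReal_sq)

/-- replacing a bounded function by one measurable for a σ-algebra containing the given one modulo
null sets -/
lemma exists_rep {X : Type} {m Y : MeasurableSpace X} {mX : MeasurableSpace X} {μ : Measure X}
    (h : ∀ s, MeasurableSet[m] s → ∃ t, MeasurableSet[Y] t ∧ s =ᵐ[μ] t) {f : X → ℝ}
    (hf : Measurable[m] f) (hf1 : ∀ x, |f x| ≤ 1) :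
    ∃ f' : X → ℝ, Measurable[Y] f' ∧ (∀ x, |f' x| ≤ 1) ∧ f =ᵐ[μ] f' := by
  have h1 : AEStronglyMeasurable[m] (fun x => (f x : ℂ)) μ :=
    StronglyMeasurable.aestronglyMeasurable
      ((Complex.continuous_ofReal.measurable.comp hf).stronglyMeasurable)
  obtain ⟨g, hg, hfg⟩ := Pool.Agent.Lib.Pf720gs.aesm_of_mod h h1
  refine ⟨fun x => max (-1) (min 1 (g x).re), ?_, ?_, ?_⟩
  · exact measurable_const.max (measurable_const.min
      (Complex.continuous_re.measurable.comp hg.measurable))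
  · intro x
    rw [abs_le]
    exact ⟨le_max_left _ _, max_le (by norm_num) (min_le_left _ _)⟩
  · filter_upwards [hfg] with x hx
    have h2 := abs_le.1 (hf1 x)
    show f x = max (-1) (min 1 (g x).re)
    rw [← hx, Complex.ofReal_re, min_eq_right h2.2, max_eq_right h2.1]

section family

variable {κ : Type} [Fintype κ] [DecidableEq κ]
variable {G X : Type} [Group G] [Group.IsNilpotent G] [DecidableEq G] [Countable G]

/-- functions observed through `mP`, for a factor `Y` containing the remote past relative to `Y` -/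
theorem clos_one {mP Y : MeasurableSpace X} {mX : MeasurableSpace X} {μ : Measure X}
    [IsProbabilityMeasure μ] (hP : mP ≤ mX) (hYX : Y ≤ mX) (W : G → X → X)
    (hW1 : ∀ x, W 1 x = x) (hWmul : ∀ a b x, W (a * b) x = W a (W b x))
    (hWmp : ∀ a, MeasurePreserving (W a) μ μ) (hYi : Inv W ⊤ Y)
    {H : ℕ → Subgroup G} {r : ℕ → ℕ} {π : (a : ℕ) → G → Fin (r a) → ℤ} {s : ℕ}
    (hc : ZChain H r π s) (Φ : (a : ℕ) → (Fin (r a) → ℤ) →+ ℝ) (hΦ : ∀ a, Dio (Φ a))
    (hY : ∀ A, MeasurableSet[⨅ n : ℕ, PS W H (phi π Φ) s mP Y n 1] A →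
      ∃ B, MeasurableSet[Y] B ∧ A =ᵐ[μ] B)
    (K : Set ℕ) (hK : ∀ v w, 1 ≤ v → v + w ∈ K → v + 2 * w ∈ K)
    (Q : (κ : Type) → Set ((κ → ℕ) → G)) (hQr : RenClosedG Q)
    (hHY : PolRG μ K Q W Y) (hκ : Fintype.card κ ∈ K)
    {J : Type} [Fintype J] [DecidableEq J]
    (g : J → (κ → ℕ) → G) (hgQ : ∀ j, g j ∈ Q κ) (hpol : ∀ j, PolG (g j))
    (hg0 : ∀ j, g j 0 = 1) (hg1 : ∀ j, ∃ m, g j m ≠ 1)
    (hne : ∀ i j, i ≠ j → ∃ m, g i m * (g j m)⁻¹ ∉ H s)
    (hdep : ∀ i j l, FDep (g i) l → FDep (g j) l →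
      ∃ m t, g i m * (g j (Function.update m l t))⁻¹ ∉ H s)
    (hMax : ∀ j, LimBd μ fun m x => W (g j m) x)
    (F : J → X → ℝ) (hFm : ∀ j, Measurable[mP] (F j)) (hF1 : ∀ j x, |F j x| ≤ 1) :
    ∀ᵐ x ∂μ, Cvg fun m : κ → ℕ => ∏ j, F j (W (g j m) x) := by
  classical
  have hWm : ∀ a, Measurable (W a) := fun a => (hWmp a).measurable
  have hanti : Antitone fun n : ℕ => PS W H (phi π Φ) s mP Y (n : ℝ) 1 := fun m n hmn =>
    PS_anti (by exact_mod_cast hmn) 1
  have hple : ∀ n : ℕ, PS W H (phi π Φ) s mP Y (n : ℝ) 1 ≤ mX :=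
    fun n => sup_le hYX (gen_le W hWm _ hP)
  have hFX : ∀ j, Measurable (F j) := fun j => (hFm j).mono hP le_rfl
  have hlim : ∀ j, ∃ (gg : ℕ → X → ℝ) (f' : X → ℝ),
      (∀ n : ℕ, Measurable[PS W H (phi π Φ) s mP Y (n : ℝ) 1] (gg n)) ∧
      (∀ n x, |gg n x| ≤ 1) ∧
      (∀ n : ℕ, μ[F j | PS W H (phi π Φ) s mP Y (n : ℝ) 1] =ᵐ[μ] gg n) ∧
      Measurable[Y] f' ∧ (∀ x, |f' x| ≤ 1) ∧
      Tendsto (fun n => ∫⁻ x, (ENNReal.ofReal |gg n x - f' x|) ^ 2 ∂μ) atTop (𝓝 0) := by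
    intro j
    obtain ⟨gg, f', hgm, hg1, hfg, hf'm, hf'1, hl⟩ := exists_tail_limit (μ := μ)
      (F := fun n : ℕ => PS W H (phi π Φ) s mP Y (n : ℝ) 1)
      hanti hple (F j) (hFX j) (hF1 j)
    obtain ⟨f'', hf''m, hf''1, hff⟩ := exists_rep hY hf'm hf'1
    refine ⟨gg, f'', hgm, hg1, hfg, hf''m, hf''1, hl.congr fun n => ?_⟩
    refine lintegral_congr_ae ?_
    filter_upwards [hff] with x hx
    rw [hx]
  choose gg f' hgm hg1' hfg hf'm hf'1 hl using hlim
  have hgX : ∀ j n, Measurable (gg j n) := fun j n => (hgm j n).mono (hple n) le_rfl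
  have hf'X : ∀ j, Measurable (f' j) := fun j => (hf'm j).mono hYX le_rfl
  refine cvg_of_lim (fun j m x => W (g j m) x) hMax (fun j m => hWmp _) F hFX hF1
    (fun n j x => 2 * ((F j x - gg j n x) / 2) + f' j x) (fun n j => ?_) 3 (fun n j x => ?_) ?_ ?_
  · exact ((((hFX j).sub (hgX j n)).div_const 2).const_mul 2).add (hf'X j)
  · have h1 := abs_le.1 (hF1 j x)
    have h2 := abs_le.1 (hg1' j n x)
    have h3 := abs_le.1 (hf'1 j x)
    rw [abs_le]
    constructor <;> linarith [h1.1, h1.2, h2.1, h2.2, h3.1, h3.2]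
  · intro n
    have hb : ∀ S : Finset J, ∀ᵐ x ∂μ, Cvg fun m : κ → ℕ =>
        ∏ j, (if j ∈ S then fun x => (F j x - gg j n x) / 2 else f' j) (W (g j m) x) := by
      intro S
      refine base_case hP hYX W hW1 hWmul hWmp hYi hc Φ hΦ (Nat.cast_nonneg n) K hK Q hQr hHY hκ g
        hgQ hpol hg0 hg1 hne hdep
        (fun j => if j ∈ S then fun x => (F j x - gg j n x) / 2 else f' j) fun j => ?_
      by_cases hj : j ∈ S
      · right
        simp only [if_pos hj]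
        exact ⟨F j, gg j n, hFm j, hF1 j, hgm j n, hg1' j n, hfg j n, rfl⟩
      · left
        simp only [if_neg hj]
        exact ⟨hf'm j, hf'1 j⟩
    filter_upwards [(ae_all_iff.2 hb : ∀ᵐ x ∂μ, ∀ S : Finset J, Cvg fun m : κ → ℕ =>
        ∏ j, (if j ∈ S then fun x => (F j x - gg j n x) / 2 else f' j) (W (g j m) x))] with x hx
    have h2 : Cvg fun m : κ → ℕ => ∑ S ∈ (Finset.univ : Finset J).powerset,
        2 ^ S.card * ∏ j, (if j ∈ S then fun x => (F j x - gg j n x) / 2 else f' j)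
          (W (g j m) x) :=
      Cvg.sum _ fun S _ => (hx S).smul _
    refine h2.congr fun m => ?_
    rw [Finset.prod_add]
    refine Finset.sum_congr rfl fun S hS => ?_
    rw [Finset.prod_mul_distrib, Finset.prod_const, mul_assoc]
    congr 1
    rw [← Finset.prod_sdiff (Finset.mem_powerset.1 hS), mul_comm]
    congr 1
    · exact Finset.prod_congr rfl fun j hj => by rw [if_pos hj]
    · exact Finset.prod_congr rfl fun j hj => by rw [if_neg (Finset.mem_sdiff.1 hj).2]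
  · intro j
    refine (hl j).congr fun n => lintegral_congr fun x => ?_
    congr 2
    have : F j x - (2 * ((F j x - gg j n x) / 2) + f' j x) = gg j n x - f' j x := by ring
    rw [this]

/-- functions observed through a finite partition -/
theorem clos_part {mX : MeasurableSpace X} {μ : Measure X}
    [IsProbabilityMeasure μ] (W : G → X → X)
    (hW1 : ∀ x, W 1 x = x) (hWmul : ∀ a b x, W (a * b) x = W a (W b x))
    (hWmp : ∀ a, MeasurePreserving (W a) μ μ)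
    {H : ℕ → Subgroup G} {r : ℕ → ℕ} {π : (a : ℕ) → G → Fin (r a) → ℤ} {s : ℕ}
    (hc : ZChain H r π s) (Φ : (a : ℕ) → (Fin (r a) → ℤ) →+ ℝ) (hΦ : ∀ a, Dio (Φ a))
    (hFol : ∀ a, FolS (H a))
    (K : Set ℕ) (hK : ∀ v w, 1 ≤ v → v + w ∈ K → v + 2 * w ∈ K)
    (Q : (κ : Type) → Set ((κ → ℕ) → G)) (hQr : RenClosedG Q)
    (hH : PolRG μ K Q W (MeasurableSpace.generateFrom {A | MeasurableSet[mX] A ∧ ZeroEnt μ W A}))
    (hκ : Fintype.card κ ∈ K)
    {J : Type} [Fintype J] [DecidableEq J]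
    (g : J → (κ → ℕ) → G) (hgQ : ∀ j, g j ∈ Q κ) (hpol : ∀ j, PolG (g j))
    (hg0 : ∀ j, g j 0 = 1) (hg1 : ∀ j, ∃ m, g j m ≠ 1)
    (hne : ∀ i j, i ≠ j → ∃ m, g i m * (g j m)⁻¹ ∉ H s)
    (hdep : ∀ i j l, FDep (g i) l → FDep (g j) l →
      ∃ m t, g i m * (g j (Function.update m l t))⁻¹ ∉ H s)
    (hMax : ∀ j, LimBd μ fun m x => W (g j m) x)
    {ι : Type} [Fintype ι] (P : X → ι) (hP : MeasurableSpace.comap P ⊤ ≤ mX)
    (F : J → X → ℝ) (hFm : ∀ j, Measurable[MeasurableSpace.comap P ⊤] (F j))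
    (hF1 : ∀ j x, |F j x| ≤ 1) :
    ∀ᵐ x ∂μ, Cvg fun m : κ → ℕ => ∏ j, F j (W (g j m) x) := by
  obtain ⟨Y, hYX, hYi, hYz, hY⟩ := tail_factor μ hW1 hWmul hWmp (hc.isChain Φ hΦ) hFol hP
  exact clos_one hP hYX W hW1 hWmul hWmp hYi hc Φ hΦ hY K hK Q hQr
    (fun κ' _ _ J' _ _ q' F' hκ' hq' hF'm hF'1 =>
      hH κ' J' q' F' hκ' hq' (fun j => (hF'm j).mono hYz le_rfl) hF'1)
    hκ g hgQ hpol hg0 hg1 hne hdep hMax F hFm hF1

/-- all bounded functions -/
theorem clos_all {mX : MeasurableSpace X} {μ : Measure X}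
    [IsProbabilityMeasure μ] (W : G → X → X)
    (hW1 : ∀ x, W 1 x = x) (hWmul : ∀ a b x, W (a * b) x = W a (W b x))
    (hWmp : ∀ a, MeasurePreserving (W a) μ μ)
    {H : ℕ → Subgroup G} {r : ℕ → ℕ} {π : (a : ℕ) → G → Fin (r a) → ℤ} {s : ℕ}
    (hc : ZChain H r π s) (Φ : (a : ℕ) → (Fin (r a) → ℤ) →+ ℝ) (hΦ : ∀ a, Dio (Φ a))
    (hFol : ∀ a, FolS (H a))
    (K : Set ℕ) (hK : ∀ v w, 1 ≤ v → v + w ∈ K → v + 2 * w ∈ K)
    (Q : (κ : Type) → Set ((κ → ℕ) → G)) (hQr : RenClosedG Q)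
    (hH : PolRG μ K Q W (MeasurableSpace.generateFrom {A | MeasurableSet[mX] A ∧ ZeroEnt μ W A}))
    (hκ : Fintype.card κ ∈ K)
    {J : Type} [Fintype J] [DecidableEq J]
    (g : J → (κ → ℕ) → G) (hgQ : ∀ j, g j ∈ Q κ) (hpol : ∀ j, PolG (g j))
    (hg0 : ∀ j, g j 0 = 1) (hg1 : ∀ j, ∃ m, g j m ≠ 1)
    (hne : ∀ i j, i ≠ j → ∃ m, g i m * (g j m)⁻¹ ∉ H s)
    (hdep : ∀ i j l, FDep (g i) l → FDep (g j) l →
      ∃ m t, g i m * (g j (Function.update m l t))⁻¹ ∉ H s)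
    (hMax : ∀ j, LimBd μ fun m x => W (g j m) x)
    (F : J → X → ℝ) (hFm : ∀ j, Measurable (F j))
    (hF1 : ∀ j x, |F j x| ≤ 1) :
    ∀ᵐ x ∂μ, Cvg fun m : κ → ℕ => ∏ j, F j (W (g j m) x) := by
  classical
  have happ := fun j => exists_fin_approx (hFm j) (hF1 j)
  choose θ hθm hθ1 hθfin hθd using happ
  refine cvg_of_lim (fun j m x => W (g j m) x) hMax (fun j m => hWmp _) F hFm hF1
    (fun i j => θ j i) (fun i j => hθm j i) 1 (fun i j x => hθ1 j i x) (fun i => ?_) fun j => ?_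
  · have hfin : ∀ j, Finite (Set.range (θ j i)) := fun j => (hθfin j i).to_subtype
    let _ : ∀ j, Fintype (Set.range (θ j i)) := fun j => Fintype.ofFinite _
    set P : X → ((j : J) → Set.range (θ j i)) := fun x j => ⟨θ j i x, x, rfl⟩ with hPdef
    have hPle : MeasurableSpace.comap P ⊤ ≤ mX := by
      rintro s ⟨t, -, rfl⟩
      have e : P ⁻¹' t = ⋃ i' ∈ t, ⋂ j, (θ j i) ⁻¹' {((i' j : Set.range (θ j i)) : ℝ)} := by
        ext x
        simp only [Set.mem_preimage, Set.mem_iUnion, Set.mem_iInter, Set.mem_singleton_iff]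
        constructor
        · intro hx
          exact ⟨P x, hx, fun j => rfl⟩
        · rintro ⟨i', hi', h⟩
          have : P x = i' := funext fun j => Subtype.ext (h j)
          rw [this]
          exact hi'
      rw [e]
      exact MeasurableSet.biUnion (Set.to_countable t) fun i' _ => MeasurableSet.iInter fun j =>
        hθm j i (measurableSet_singleton _)
    refine clos_part W hW1 hWmul hWmp hc Φ hΦ hFol K hK Q hQr hH hκ g hgQ hpol hg0 hg1 hne hdep
      hMax P hPle (fun j => θ j i) (fun j => ?_) fun j x => hθ1 j i x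
    intro t ht
    refine ⟨{i' | ((i' j : Set.range (θ j i)) : ℝ) ∈ t}, trivial, ?_⟩
    ext x
    simp [hPdef]
  · refine tendsto_ofReal_sq 1 fun i => ?_
    calc ∫⁻ x, (ENNReal.ofReal |F j x - θ j i x|) ^ 2 ∂μ
        ≤ ∫⁻ _, (ENNReal.ofReal (1 * (1 / ((i : ℝ) + 1)))) ^ 2 ∂μ := by
          refine lintegral_mono fun x => ?_
          rw [one_mul]
          exact pow_le_pow_left' (ENNReal.ofReal_le_ofReal (hθd j i x)) 2
      _ = _ := by simp

end family

end Pool.Agent.Lib.Pf720nn
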