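import Pool.Agent.Lib.Pf720nn.PDefs

/-!
# Polynomial maps with values in a finite subgroup are periodic

Let `N = Nat.card Fs`, and `L` with `lc G e L = ⊥` (nilpotency, see `nilpotent_iff_lowerCentralSeries`;
`lc_anti`). Claim: if `w` has values in `Fs` and `dgs hs w m = 1` for all `m` and all `hs` of length `k`, then
`w (m + N ^ k • h) = w m` for all `m, h`. Induction on `k` (`k = 0`: `w = 1`). Step: put `q = N ^ k`. For all
`h'` the map `dg h' w` has values in `Fs` and satisfies the hypothesis for `k`, so it is `q`-periodic in all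
directions. Let `v = dg (q • h) w`; then `v (m + q • h) = v m`, so by induction on `n`
`w (m + (n * q) • h) = v m ^ n * w m`; for `n = N`, `v m ^ N = 1` (`v m ∈ Fs`), and
`N ^ (k + 1) = N * q`. Finally take `q = N ^ L`, `m = 0`.
-/

set_option autoImplicit false
set_option linter.unusedSectionVars false

namespace Pool.Agent.Lib.Pf720nn

theorem period_of_dgs {κ G : Type} [Group G] (Fs : Subgroup G) [Finite Fs] (k : ℕ) :
    ∀ w : (κ → ℕ) → G, (∀ m, w m ∈ Fs) →
      (∀ hs : List (κ → ℕ), hs.length = k → ∀ m, dgs hs w m = 1) →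
      ∀ m h : κ → ℕ, w (m + Nat.card Fs ^ k • h) = w m := by
  induction k with
  | zero =>
    intro w _ h1 m h
    have h2 : ∀ m, w m = 1 := fun m => h1 [] rfl m
    rw [h2, h2]
  | succ k ih =>
    intro w hw h1 m h
    set q : ℕ := Nat.card Fs ^ k with hq
    have hdg : ∀ h' m' : κ → ℕ, dg h' w m' ∈ Fs := fun h' m' =>
      Fs.mul_mem (hw _) (Fs.inv_mem (hw _))
    have hper : ∀ h' m' h'' : κ → ℕ, dg h' w (m' + q • h'') = dg h' w m' := fun h' m' h'' =>
      ih (dg h' w) (hdg h') (fun hs hl m => h1 (h' :: hs) (by simp [hl]) m) m' h''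
    have hstep : ∀ n : ℕ, w (m + (n * q) • h) = dg (q • h) w m ^ n * w m := by
      intro n
      induction n with
      | zero => simp
      | succ n ihn =>
        have e1 : m + ((n + 1) * q) • h = (m + (n * q) • h) + q • h := by
          rw [add_mul, one_mul, add_smul, add_assoc]
        have e2 : w (m + (n * q) • h + q • h) =
            dg (q • h) w (m + (n * q) • h) * w (m + (n * q) • h) := by
          simp [dg]
        have e3 : (n * q) • h = q • (n • h) := by
          rw [mul_comm, mul_smul]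
        rw [e1, e2, ihn]
        rw [e3, hper, pow_succ', mul_assoc]
    have h3 := hstep (Nat.card Fs)
    have h4 : dg (q • h) w m ^ Nat.card Fs = 1 := by
      have := pow_card_eq_one' (x := (⟨dg (q • h) w m, hdg _ _⟩ : Fs))
      exact congrArg Subtype.val this
    rw [h4, one_mul] at h3
    rw [pow_succ, mul_comm]
    exact h3

theorem exists_period {G : Type} [Group G] [Group.IsNilpotent G] {e : ℕ} (he : 0 < e)
    (Fs : Subgroup G) [Finite Fs] : ∃ q : ℕ, 0 < q ∧ ∀ (κ : Type) (w : (κ → ℕ) → G),
      PolF (lc G e) 0 w → (∀ m, w m ∈ Fs) → ∀ m : κ → ℕ, w (fun l => q * m l) = w 0 := by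
  obtain ⟨n, hn⟩ := (Subgroup.nilpotent_iff_lowerCentralSeries (G := G)).1 inferInstance
  refine ⟨Nat.card Fs ^ (n * e + 1), pow_pos Nat.card_pos _, fun κ w hw hwF m => ?_⟩
  have h1 : ∀ hs : List (κ → ℕ), hs.length = n * e + 1 → ∀ m, dgs hs w m = 1 := by
    intro hs hl m
    have h2 := hw hs m
    rw [zero_add, hl] at h2
    have h3 : lc G e (n * e + 1) = ⊥ := by
      unfold lc
      rw [Nat.add_sub_cancel, Nat.mul_div_cancel _ he]
      exact hn
    rw [h3, Subgroup.mem_bot] at h2
    exact h2
  have h4 := period_of_dgs Fs (n * e + 1) w hwF h1 0 m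
  rw [zero_add] at h4
  exact h4

end Pool.Agent.Lib.Pf720nn
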