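import Pool.Agent.Lib.Pf720nn.PLevel
import Pool.Agent.Lib.Pf720nn.PPer
import Pool.Agent.Lib.Pf720nn.PPow
import Pool.Agent.Lib.Pf720pm.Cls

/-!
# Normalised polynomial maps along progressions
-/

set_option autoImplicit false
set_option linter.unusedSectionVars false

open Finset MeasureTheory Filter Topology
open scoped ENNReal

namespace Pool.Agent.Lib.Pf720nn

open Pool.Agent.Lib.Pf720ae
open Pool.Agent.Lib.Pf720pm (FDep)

section pol

variable {κ : Type} {G : Type} [Group G]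

lemma dgs_const_one (hs : List (κ → ℕ)) (m : κ → ℕ) :
    dgs hs (fun _ : κ → ℕ => (1 : G)) m = 1 := by
  induction hs with
  | nil => rfl
  | cons h hs ih =>
    rw [dgs_cons]
    have e : dg h (fun _ : κ → ℕ => (1 : G)) = fun _ => 1 := by
      funext m
      simp [dg]
    rw [e]
    exact ih

lemma polF_const {F : ℕ → Subgroup G} {c : G} (hc : c ∈ F 0) :
    PolF F 0 (fun _ : κ → ℕ => c) := by
  intro hs m
  cases hs with
  | nil => exact hc
  | cons h hs =>
    rw [dgs_cons]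
    have e : dg h (fun _ : κ → ℕ => c) = fun _ => 1 := by
      funext m
      simp [dg]
    rw [e, dgs_const_one]
    exact Subgroup.one_mem _

/-- the map `n ↦ S(r)⁻¹ S(n + r)` -/
def nrm (S : (κ → ℕ) → G) (r n : κ → ℕ) : G := (S r)⁻¹ * S (n + r)

lemma nrm_zero (S : (κ → ℕ) → G) (r : κ → ℕ) : nrm S r 0 = 1 := by
  unfold nrm
  rw [zero_add, inv_mul_cancel]

lemma mem_lc_zero (e : ℕ) (c : G) : c ∈ lc G e 0 := by
  unfold lc
  simp

lemma polF_nrm {e : ℕ} (he : 0 < e) {S : (κ → ℕ) → G} (hS : PolF (lc G e) 0 S) (r : κ → ℕ) :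
    PolF (lc G e) 0 (nrm S r) :=
  PolF.mul (lc_anti e) (lc_comm he) (polF_const (mem_lc_zero e _)) (hS.comp id (fun _ _ => rfl) r)

end pol

section sep

variable {G : Type} [Group G] [Group.IsNilpotent G] {H : ℕ → Subgroup G} {r : ℕ → ℕ}
  {π : (a : ℕ) → G → Fin (r a) → ℤ} {s : ℕ} {e q : ℕ}

lemma eq_one_of_mem (hc : ZChain H r π s) (he : 0 < e) (hq : 0 < q)
    (hper : ∀ (κ : Type) (w : (κ → ℕ) → G), PolF (lc G e) 0 w → (∀ m, w m ∈ H s) →
      ∀ m : κ → ℕ, w (fun l => q * m l) = w 0)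
    {κ : Type} [Fintype κ] [DecidableEq κ] {v : (κ → ℕ) → G} (hv : PolF (lc G e) 0 v)
    (h0 : v 0 = 1) (h : ∀ m : κ → ℕ, v (fun l => q * m l) ∈ H s) (m : κ → ℕ) :
    v (fun l => q * m l) = 1 := by
  have h1 := mem_of_mul hc ⟨e, he, hv⟩ hq h
  rw [hper κ v hv h1 m, h0]

lemma sep_ne (hc : ZChain H r π s) (he : 0 < e) (hq : 0 < q)
    (hper : ∀ (κ : Type) (w : (κ → ℕ) → G), PolF (lc G e) 0 w → (∀ m, w m ∈ H s) →
      ∀ m : κ → ℕ, w (fun l => q * m l) = w 0)
    {κ : Type} [Fintype κ] [DecidableEq κ] {S S' : (κ → ℕ) → G} (hS : PolF (lc G e) 0 S)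
    (hS' : PolF (lc G e) 0 S') (a : κ → ℕ)
    (h : ∀ m : κ → ℕ, nrm S a (fun l => q * m l) * (nrm S' a (fun l => q * m l))⁻¹ ∈ H s)
    (m : κ → ℕ) : nrm S a (fun l => q * m l) = nrm S' a (fun l => q * m l) := by
  have h1 := eq_one_of_mem hc he hq hper (v := fun n => nrm S a n * (nrm S' a n)⁻¹)
    (PolF.mul (lc_anti e) (lc_comm he) (polF_nrm he hS a)
      (PolF.inv (lc_anti e) (lc_comm he) (polF_nrm he hS' a)))
    (by simp only [nrm_zero]; simp) h m
  exact mul_inv_eq_one.1 h1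

lemma sep_dep (hc : ZChain H r π s) (he : 0 < e) (hq : 0 < q)
    (hper : ∀ (κ : Type) (w : (κ → ℕ) → G), PolF (lc G e) 0 w → (∀ m, w m ∈ H s) →
      ∀ m : κ → ℕ, w (fun l => q * m l) = w 0)
    {κ : Type} [Fintype κ] [DecidableEq κ] {S S' : (κ → ℕ) → G} (hS : PolF (lc G e) 0 S)
    (hS' : PolF (lc G e) 0 S') (a : κ → ℕ) (l : κ)
    (h : ∀ (m : κ → ℕ) (t : ℕ), nrm S a (fun l => q * m l) *
      (nrm S' a (fun l' => q * Function.update m l t l'))⁻¹ ∈ H s) :
    ¬ FDep (fun m : κ → ℕ => nrm S a fun l => q * m l) l := by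
  set ρ₁ : (κ ⊕ Unit → ℕ) → κ → ℕ := fun n l' => n (Sum.inl l') with hρ₁
  set ρ₂ : (κ ⊕ Unit → ℕ) → κ → ℕ := fun n l' => if l' = l then n (Sum.inr ()) else
    n (Sum.inl l') with hρ₂
  have ha₁ : ∀ m n, ρ₁ (m + n) = ρ₁ m + ρ₁ n := fun m n => rfl
  have ha₂ : ∀ m n, ρ₂ (m + n) = ρ₂ m + ρ₂ n := by
    intro m n
    funext l'
    simp only [hρ₂, Pi.add_apply]
    split_ifs <;> rfl
  have hup : ∀ n : κ ⊕ Unit → ℕ, ρ₂ n = Function.update (ρ₁ n) l (n (Sum.inr ())) := by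
    intro n
    funext l'
    by_cases hl : l' = l
    · subst hl
      simp [hρ₂]
    · rw [Function.update_of_ne hl]
      simp [hρ₂, hρ₁, hl]
  have hcomp : ∀ (S : (κ → ℕ) → G), PolF (lc G e) 0 S → ∀ ρ : (κ ⊕ Unit → ℕ) → κ → ℕ,
      (∀ m n, ρ (m + n) = ρ m + ρ n) → PolF (lc G e) 0 fun n => nrm S a (ρ n) := by
    intro S hS ρ hρ
    have := (polF_nrm he hS a).comp ρ hρ 0
    simpa using this
  have h1 := eq_one_of_mem hc he hq hper
    (v := fun n : κ ⊕ Unit → ℕ => nrm S a (ρ₁ n) * (nrm S' a (ρ₂ n))⁻¹)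
    (PolF.mul (lc_anti e) (lc_comm he) (hcomp S hS ρ₁ ha₁)
      (PolF.inv (lc_anti e) (lc_comm he) (hcomp S' hS' ρ₂ ha₂)))
    (by
      have e1 : ρ₁ 0 = 0 := rfl
      have e2 : ρ₂ 0 = 0 := by
        rw [hup]
        funext l'
        by_cases hl : l' = l
        · subst hl; simp
        · rw [Function.update_of_ne hl]; rfl
      simp only [e1, e2, nrm_zero]
      simp)
    (by
      intro n
      have h2 := h (ρ₁ n) (n (Sum.inr ()))
      have e1 : ρ₁ (fun l' => q * n l') = fun l' => q * ρ₁ n l' := rfl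
      have e2 : ρ₂ (fun l' => q * n l') = fun l' => q * Function.update (ρ₁ n) l
          (n (Sum.inr ())) l' := by
        rw [← hup]
        funext l'
        simp only [hρ₂]
        split_ifs <;> rfl
      simp only [e1, e2]
      exact h2)
  have h3 : ∀ (m : κ → ℕ) (t : ℕ), nrm S a (fun l => q * m l) =
      nrm S' a (fun l' => q * Function.update m l t l') := by
    intro m t
    have h4 := h1 (Sum.elim m fun _ => t)
    have e1 : ρ₁ (fun l' => q * (Sum.elim m fun _ => t : κ ⊕ Unit → ℕ) l') =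
        fun l' => q * m l' := rfl
    have e2 : ρ₂ (fun l' => q * (Sum.elim m fun _ => t : κ ⊕ Unit → ℕ) l') =
        fun l' => q * Function.update m l t l' := by
      funext l'
      by_cases hl : l' = l
      · subst hl
        simp [hρ₂]
      · rw [Function.update_of_ne hl]
        simp [hρ₂, hl]
    simp only [e1, e2] at h4
    exact mul_inv_eq_one.1 h4
  rintro ⟨m, t, hmt⟩
  apply hmt
  show nrm S a (fun l' => q * Function.update m l t l') = nrm S a fun l => q * m l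
  rw [h3 (Function.update m l t) 0, h3 m 0, Function.update_idem]

end sep

end Pool.Agent.Lib.Pf720nn
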