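import Pool.Agent.Lib.Pf720nn.NClos
import Pool.Agent.Lib.Pf720nn.NPer
import Pool.Agent.Lib.Pf720nn.CvgB
import Pool.Agent.Lib.Pf720nn.EFolN
import Pool.Agent.Lib.Pf720nn.GChain
import Pool.Agent.Lib.Pf720np.Wrap
import Pool.Agent.Lib.Pf720pm.Final

/-!
# The Pinsker reduction for nilpotent groups of permutations
-/

set_option autoImplicit false
set_option linter.unusedSectionVars false

open Finset MeasureTheory Filter Topology
open scoped ENNReal

namespace Pool.Agent.Lib.Pf720nn

open Pool.Agent.Lib.Pf720ae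
open Pool.Agent.Lib.Pf720pi (avg_reindex)
open Pool.Agent.Lib.Pf720pm (Dio FDep PolC RenC exists_dio)
open Pool.Agent.Lib.Pf720pp (cvg_shift)
open Pool.Agent.Lib.Pf720np (ZeroEnt joinEntropy gw gens pact pact_gw pact_mul pact_mp
  countable_closure)

section defs

variable {X : Type} {d : ℕ} (T : Fin d → Equiv.Perm X)

/-- the polynomial map of a tuple of polynomials in the generated group -/
noncomputable def SP {κ : Type} (P : Fin d → MvPolynomial κ ℤ) (m : κ → ℕ) : Subgroup.closure (Set.range T) :=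
  gw (gens T) fun i => MvPolynomial.eval (fun l => (m l : ℤ)) (P i)

lemma pact_SP {κ : Type} (P : Fin d → MvPolynomial κ ℤ) (m : κ → ℕ) (x : X) :
    pact T (SP T P m) x = pw T (fun i => MvPolynomial.eval (fun l => (m l : ℤ)) (P i)) x :=
  pact_gw T _ x

/-- the translates of the polynomial maps of a class, in any set of variables -/
def clsG (Q : (k : ℕ) → Set (Fin d → MvPolynomial (Fin k) ℤ)) (κ : Type) :
    Set ((κ → ℕ) → Subgroup.closure (Set.range T)) :=
  {w | ∃ (k : ℕ) (τ : Fin k → κ), Function.Injective τ ∧ ∃ P ∈ Q k,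
    ∃ g : Subgroup.closure (Set.range T), w = fun m => g * SP T P ((fun l => m (τ l)) + 1)}

/-- closed under the substitutions `m_l ↦ q m_l + r_l` -/
def SubC (Q : (k : ℕ) → Set (Fin d → MvPolynomial (Fin k) ℤ)) : Prop :=
  ∀ (k : ℕ) (P : Fin d → MvPolynomial (Fin k) ℤ), P ∈ Q k → ∀ (q : ℕ) (r : Fin k → ℕ), 0 < q →
    (fun i => MvPolynomial.bind₁ (fun l => MvPolynomial.C (q : ℤ) * MvPolynomial.X l +
      MvPolynomial.C (r l : ℤ)) (P i)) ∈ Q k

end defs

lemma renClosedG_cls {X : Type} {d : ℕ} (T : Fin d → Equiv.Perm X)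
    (Q : (k : ℕ) → Set (Fin d → MvPolynomial (Fin k) ℤ)) : RenClosedG (clsG T Q) := by
  rintro κ κ' σ hσ _ ⟨k, τ, hτ, P, hP, g, rfl⟩
  exact ⟨k, σ ∘ τ, hσ.comp hτ, P, hP, g, rfl⟩

/-- the σ-algebra of the sets of zero entropy is invariant -/
lemma comap_zero {G X : Type} [Group G] {mX : MeasurableSpace X} {μ : Measure X} {W : G → X → X}
    (hWmul : ∀ a b x, W (a * b) x = W a (W b x)) (hW : ∀ a, Measurable (W a)) (g : G) :
    MeasurableSpace.comap (W g)
      (MeasurableSpace.generateFrom {A | MeasurableSet[mX] A ∧ ZeroEnt μ W A}) ≤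
      MeasurableSpace.generateFrom {A | MeasurableSet[mX] A ∧ ZeroEnt μ W A} := by
  classical
  rw [MeasurableSpace.comap_generateFrom]
  refine MeasurableSpace.generateFrom_le ?_
  rintro _ ⟨A, ⟨hA, hAe⟩, rfl⟩
  refine MeasurableSpace.measurableSet_generateFrom ⟨hW g hA, fun ε hε => ?_⟩
  obtain ⟨F, hF, hle⟩ := hAe ε hε
  have hinj : Function.Injective fun u : G => g⁻¹ * u := mul_right_injective _
  refine ⟨F.map ⟨fun u => g⁻¹ * u, hinj⟩, hF.map, ?_⟩
  rw [Finset.card_map]
  refine le_trans (le_of_eq ?_) hle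
  unfold joinEntropy
  symm
  refine Finset.sum_nbij' (fun ω => ω.map ⟨fun u => g⁻¹ * u, hinj⟩)
    (fun ω => ω.map ⟨fun u => g * u, mul_right_injective _⟩) ?_ ?_ ?_ ?_ ?_
  · intro ω hω
    exact Finset.mem_powerset.2 (Finset.map_subset_map.2 (Finset.mem_powerset.1 hω))
  · intro ω hω
    refine Finset.mem_powerset.2 fun u hu => ?_
    obtain ⟨v, hv, rfl⟩ := Finset.mem_map.1 hu
    obtain ⟨v', hv', rfl⟩ := Finset.mem_map.1 (Finset.mem_powerset.1 hω hv)
    show g * (g⁻¹ * v') ∈ F
    rwa [mul_inv_cancel_left]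
  · intro ω hω
    rw [Finset.map_map]
    convert Finset.map_refl
    ext u
    simp
  · intro ω hω
    rw [Finset.map_map]
    convert Finset.map_refl
    ext u
    simp
  · intro ω hω
    congr 2
    ext x
    simp only [Set.mem_setOf_eq, Finset.mem_map, Function.Embedding.coeFn_mk, Set.mem_preimage]
    constructor
    · rintro h _ ⟨u, hu, rfl⟩
      rw [← hWmul, mul_inv_cancel_left, h u hu]
      constructor
      · intro h; exact ⟨u, h, rfl⟩
      · rintro ⟨v, hv, hvu⟩
        rwa [← mul_right_injective _ hvu]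
    · intro h u hu
      have := h (g⁻¹ * u) ⟨u, hu, rfl⟩
      rw [← hWmul, mul_inv_cancel_left] at this
      rw [this]
      constructor
      · rintro ⟨v, hv, hvu⟩
        rwa [← mul_right_injective _ hvu]
      · intro h; exact ⟨u, h, rfl⟩

lemma polRG_of_polC {X : Type} {m : MeasurableSpace X} {mX : MeasurableSpace X} {μ : Measure X}
    [IsProbabilityMeasure μ] (hm : m ≤ mX) {d : ℕ} (T : Fin d → Equiv.Perm X)
    (hinv : ∀ g : Subgroup.closure (Set.range T), MeasurableSpace.comap (pact T g) m ≤ m)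
    (K : Set ℕ) (Q : (k : ℕ) → Set (Fin d → MvPolynomial (Fin k) ℤ)) (hQ : RenC Q)
    (hC : PolC μ T K Q m) : PolRG μ K (clsG T Q) (pact T) m := by
  intro κ _ _ J _ _ w₀ F hκ hw₀ hFm hF1
  classical
  choose k τ hτ P hP g he using hw₀
  set eκ : κ ≃ Fin (Fintype.card κ) := Fintype.equivFin κ
  set eJ : J ≃ Fin (Fintype.card J) := Fintype.equivFin J
  have hFm' : ∀ j, Measurable[m] fun x => F j (pact T (g j) x) := by
    intro j
    have h1 : Measurable[m.comap (pact T (g j))] fun x => F j (pact T (g j) x) := by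
      intro s hs
      exact ⟨F j ⁻¹' s, hFm j hs, rfl⟩
    exact h1.mono (hinv _) le_rfl
  have h1 := hC _ hκ (Fintype.card J)
    (fun j i => MvPolynomial.rename (eκ ∘ τ (eJ.symm j)) (P (eJ.symm j) i))
    (fun j x => ((F (eJ.symm j) (pact T (g (eJ.symm j)) x) : ℝ) : ℂ))
    (fun j => hQ _ _ _ (eκ.injective.comp (hτ _)) _ (hP _)) (fun j => ⟨?_, ?_⟩)
  · filter_upwards [h1] with x hx
    obtain ⟨L, hL⟩ := hx
    have h2 := (Complex.continuous_re.tendsto L).comp hL
    have hre : Tendsto (fun M : κ → ℕ => fun l : Fin (Fintype.card κ) => M (eκ.symm l))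
        atTop atTop := by
      rw [tendsto_atTop]
      intro b
      filter_upwards [eventually_ge_atTop (fun l : κ => b (eκ l))] with M hM l
      have := hM (eκ.symm l)
      simpa using this
    refine ⟨L.re, (h2.comp hre).congr fun M => ?_⟩
    rw [avg_reindex eκ M]
    simp only [Function.comp]
    rw [sum_Icc_eq]
    unfold avg Pool.Agent.Lib.Pf720ae.box
    have e1 : ∀ m : Fin (Fintype.card κ) → ℕ, ∏ j : Fin (Fintype.card J),
        ((F (eJ.symm j) (pact T (g (eJ.symm j))
          (pw T (fun i => MvPolynomial.eval (fun l => (((m + 1) l : ℕ) : ℤ))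
            (MvPolynomial.rename (fun l => eκ (τ (eJ.symm j) l)) (P (eJ.symm j) i))) x)) : ℝ) : ℂ) =
        ((∏ j, F j (pact T (w₀ j (fun l => m (eκ l))) x) : ℝ) : ℂ) := by
      intro m
      rw [← Complex.ofReal_prod]
      congr 1
      refine Fintype.prod_equiv eJ.symm _ _ fun j => ?_
      rw [he (eJ.symm j), pact_mul, pact_SP]
      congr 3
      congr 1
      funext i
      rw [MvPolynomial.eval_rename]
      simp only [Function.comp_def, Pi.add_apply, Pi.one_apply]
    have e1' := e1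
    simp only [Function.comp_def] at e1' ⊢
    simp only [e1']
    rw [← Complex.ofReal_sum]
    have e3 : (∏ l : Fin (Fintype.card κ), ((M (eκ.symm l) : ℕ) : ℂ))⁻¹ =
        (((∏ l : Fin (Fintype.card κ), ((M (eκ.symm l) : ℕ) : ℝ))⁻¹ : ℝ) : ℂ) := by
      push_cast
      rfl
    rw [e3, ← Complex.ofReal_mul, Complex.ofReal_re]
  · refine MemLp.of_bound ?_ 1 (Eventually.of_forall fun x => ?_)
    · exact (Complex.measurable_ofReal.comp ((hFm' _).mono hm le_rfl)).aestronglyMeasurable
    · rw [Complex.norm_real]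
      exact hF1 _ _
  · exact (Complex.measurable_ofReal.comp (hFm' _)).aestronglyMeasurable

/-- from real functions to complex bounded functions -/
theorem polC_of_real {X : Type} {mX : MeasurableSpace X} {μ : Measure X}
    [IsProbabilityMeasure μ] {d : ℕ} (T : Fin d → Equiv.Perm X)
    (hT : ∀ i, Measurable (T i) ∧ Measurable (T i).symm ∧ MeasurePreserving (T i) μ μ)
    (K : Set ℕ) (Q : (k : ℕ) → Set (Fin d → MvPolynomial (Fin k) ℤ))
    (hR : ∀ k ∈ K, ∀ (n : ℕ) (P : Fin n → Fin d → MvPolynomial (Fin k) ℤ) (F : Fin n → X → ℝ),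
      (∀ j, P j ∈ Q k) → (∀ j, Measurable (F j)) → (∀ j x, |F j x| ≤ 1) →
      ∀ᵐ x ∂μ, Cvg fun m : Fin k → ℕ => ∏ j, F j (pact T (SP T (P j) m) x)) :
    PolC μ T K Q mX := by
  intro k hk n P f hPQ hf
  have h1 := lift_complex (μ := μ) (κ := Fin k)
    (fun j m => pw T (fun i => MvPolynomial.eval (fun l => (((m + 1) l : ℕ) : ℤ)) (P j i)))
    (fun j m => mp_pw T hT _) ?_ f
    (fun j => (hf j).1)
  · filter_upwards [h1] with x hx
    obtain ⟨L, hL⟩ := hx
    refine ⟨L, hL.congr fun M => ?_⟩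
    rw [sum_Icc_eq]
  · intro F hFm hF1
    filter_upwards [hR k hk n P F hPQ hFm hF1] with x hx
    have h3 := (cvg_shift (u := fun m : Fin k → ℕ => ∏ j, F j (pact T (SP T (P j) m) x))
      (fun m => abs_prod_le_one _ _ fun j => hF1 j _)).2 hx
    refine h3.congr fun m => Finset.prod_congr rfl fun j _ => ?_
    rw [pact_SP]

/-- substitution in the polynomial maps -/
lemma SP_subst {X : Type} {d : ℕ} (T : Fin d → Equiv.Perm X) {k : ℕ}
    (P : Fin d → MvPolynomial (Fin k) ℤ) (q : ℕ) (r m : Fin k → ℕ) :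
    SP T (fun i => MvPolynomial.bind₁ (fun l => MvPolynomial.C (q : ℤ) * MvPolynomial.X l +
      MvPolynomial.C (r l : ℤ)) (P i)) m = SP T P fun l => q * m l + r l := by
  unfold SP
  congr 1
  funext i
  have := MvPolynomial.eval₂Hom_bind₁ (RingHom.id ℤ) (fun l : Fin k => (m l : ℤ))
    (fun l => MvPolynomial.C (q : ℤ) * MvPolynomial.X l + MvPolynomial.C (r l : ℤ)) (P i)
  refine Eq.trans this ?_
  have e : (fun l : Fin k => (MvPolynomial.eval₂Hom (RingHom.id ℤ) fun l => (m l : ℤ))
      (MvPolynomial.C (q : ℤ) * MvPolynomial.X l + MvPolynomial.C (r l : ℤ))) =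
      fun l => ((q * m l + r l : ℕ) : ℤ) := by
    funext l
    simp
  rw [e]
  rfl

/-- real functions -/
theorem real_main {X : Type} {mX : MeasurableSpace X} {μ : Measure X}
    [IsProbabilityMeasure μ] {d : ℕ} (T : Fin d → Equiv.Perm X)
    (hT : ∀ i, Measurable (T i) ∧ Measurable (T i).symm ∧ MeasurePreserving (T i) μ μ)
    (hG : Group.IsNilpotent (Subgroup.closure (Set.range T)))
    (K : Set ℕ) (hK : ∀ v w, 1 ≤ v → v + w ∈ K → v + 2 * w ∈ K)
    (Q : (k : ℕ) → Set (Fin d → MvPolynomial (Fin k) ℤ))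
    (hQ : (∀ g : Subgroup.closure (Set.range T), ∀ n : ℕ, 0 < n → g ^ n = 1 → g = 1) ∨ SubC Q)
    (hmax : ∀ k ∈ K, ∀ P ∈ Q k, LimBd μ fun (m : Fin k → ℕ) x => pact T (SP T P (m + 1)) x)
    (hH : PolRG μ K (clsG T Q) (pact T)
      (MeasurableSpace.generateFrom {A | MeasurableSet[mX] A ∧ ZeroEnt μ (pact T) A}))
    (k : ℕ) (hk : k ∈ K) (n : ℕ) (P : Fin n → Fin d → MvPolynomial (Fin k) ℤ)
    (F : Fin n → X → ℝ) (hPQ : ∀ j, P j ∈ Q k) (hFm : ∀ j, Measurable (F j))
    (hF1 : ∀ j x, |F j x| ≤ 1) :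
    ∀ᵐ x ∂μ, Cvg fun m : Fin k → ℕ => ∏ j, F j (pact T (SP T (P j) m) x) := by
  classical
  have hcount : Countable (Subgroup.closure (Set.range T)) := countable_closure T
  have hWmp : ∀ a, MeasurePreserving (pact T a) μ μ := pact_mp T hT
  have hfg : Group.FG (Subgroup.closure (Set.range T)) := Group.closure_finite_fg _
  obtain ⟨H, r, π, s, hc, hfin⟩ := exists_zchain _ hfg
  choose Φ hΦ using fun a => exists_dio (r a)
  -- the degree and the period
  set e : ℕ := (∑ j, ∑ i, (P j i).totalDegree) + 1 with he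
  have he0 : 0 < e := Nat.succ_pos _
  have hpol : ∀ j, PolF (lc (Subgroup.closure (Set.range T)) e) 0 (SP T (P j)) := by
    intro j
    refine polF_word (gens T) (P j) he0 fun i => ?_
    have h1 : (P j i).totalDegree ≤ ∑ i, (P j i).totalDegree :=
      Finset.single_le_sum (f := fun i => (P j i).totalDegree) (fun _ _ => Nat.zero_le _)
        (Finset.mem_univ i)
    have h2 : ∑ i, (P j i).totalDegree ≤ ∑ j, ∑ i, (P j i).totalDegree :=
      Finset.single_le_sum (f := fun j => ∑ i, (P j i).totalDegree) (fun _ _ => Nat.zero_le _)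
        (Finset.mem_univ j)
    omega
  obtain ⟨q, hq, hq1, hper⟩ : ∃ q : ℕ, 0 < q ∧ (q = 1 ∨ SubC Q) ∧ ∀ (κ : Type)
      (w : (κ → ℕ) → Subgroup.closure (Set.range T)), PolF (lc _ e) 0 w → (∀ m, w m ∈ H s) →
        ∀ m : κ → ℕ, w (fun l => q * m l) = w 0 := by
    rcases hQ with hQ | hQ
    · refine ⟨1, one_pos, Or.inl rfl, fun κ w _ hw m => ?_⟩
      have h1 : ∀ m, w m = 1 := by
        intro m
        have h2 : (⟨w m, hw m⟩ : H s) ^ Nat.card (H s) = 1 := pow_card_eq_one'
        exact hQ (w m) (Nat.card (H s)) Nat.card_pos (congrArg Subtype.val h2)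
      rw [h1, h1]
    · obtain ⟨q, hq, hper⟩ := exists_period he0 (H s)
      exact ⟨q, hq, Or.inr hQ, hper⟩
  -- the residue classes
  have hres : ∀ ρ : Fin k → ℕ, (∀ l, ρ l < q) → ∀ᵐ x ∂μ, Cvg fun m : Fin k → ℕ =>
      ∏ j, F j (pact T (SP T (P j) (fun l => q * m l + ρ l)) x) := by
    intro ρ hρ
    obtain ⟨P', hP'Q, hP'⟩ : ∃ P' : Fin n → Fin d → MvPolynomial (Fin k) ℤ,
        (∀ j, P' j ∈ Q k) ∧ ∀ j m, SP T (P' j) m = SP T (P j) (fun l => q * m l + ρ l) := by
      rcases hq1 with h1 | hQ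
      · subst h1
        refine ⟨P, hPQ, fun j m => ?_⟩
        congr 1
        funext l
        have := hρ l
        omega
      · exact ⟨fun j i => MvPolynomial.bind₁ (fun l => MvPolynomial.C (q : ℤ) *
          MvPolynomial.X l + MvPolynomial.C (ρ l : ℤ)) (P j i),
          fun j => hQ k _ (hPQ j) q ρ hq, fun j m => SP_subst T (P j) q ρ m⟩
    set a : Fin k → ℕ := fun l => q + ρ l with ha
    set w : Fin n → (Fin k → ℕ) → Subgroup.closure (Set.range T) := fun j m =>
      (SP T (P' j) 1)⁻¹ * SP T (P' j) (m + 1) with hw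
    have hwn : ∀ j m, w j m = nrm (SP T (P j)) a (fun l => q * m l) := by
      intro j m
      simp only [hw, nrm, hP']
      have e1 : (fun l => q * (1 : Fin k → ℕ) l + ρ l) = a := by
        funext l
        simp [ha]
      have e2 : (fun l => q * (m + 1) l + ρ l) = (fun l => q * m l) + a := by
        funext l
        simp only [Pi.add_apply, Pi.one_apply, ha]
        ring
      rw [e1, e2]
    have hw0 : ∀ j, w j 0 = 1 := by
      intro j
      simp only [hw]
      rw [zero_add, inv_mul_cancel]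
    have hwQ : ∀ j, w j ∈ clsG T Q (Fin k) := fun j =>
      ⟨k, id, Function.injective_id, P' j, hP'Q j, (SP T (P' j) 1)⁻¹, rfl⟩
    have hwpol : ∀ j, PolG (w j) := by
      intro j
      have h1 := (polF_nrm he0 (hpol j) a).comp (fun m : Fin k → ℕ => fun l => q * m l)
        (fun m n => by funext l; simp only [Pi.add_apply]; ring) 0
      refine ⟨e, he0, ?_⟩
      have e1 : w j = fun m : Fin k → ℕ => nrm (SP T (P j)) a ((fun l => q * m l) + 0) := by
        funext m
        rw [hwn, add_zero]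
      rw [e1]
      exact h1
    have hwmax : ∀ j, LimBd μ fun (m : Fin k → ℕ) x => pact T (w j m) x := fun j =>
      limBd_comp (hmax k hk (P' j) (hP'Q j)) (hWmp (SP T (P' j) 1)⁻¹)
    -- group the equal maps
    set S : Finset ((Fin k → ℕ) → Subgroup.closure (Set.range T)) :=
      (Finset.univ.image w).erase 1 with hS
    have hSw : ∀ B : {B // B ∈ S}, ∃ j, w j = B.1 := by
      intro B
      obtain ⟨j, -, hj⟩ := Finset.mem_image.1 (Finset.mem_of_mem_erase B.2)
      exact ⟨j, hj⟩
    choose jB hjB using hSw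
    set F' : Fin n → X → ℝ := fun j x => F j (pact T (SP T (P' j) 1) x) with hF'
    have hF'm : ∀ j, Measurable (F' j) := fun j => (hFm j).comp (hWmp _).measurable
    have h1 := clos_all (κ := Fin k) (pact T) (fun x => rfl) (fun a b x => rfl) hWmp hc Φ hΦ
      (fun a => folS_of_nilpotent (H a)) K hK (clsG T Q) (renClosedG_cls T Q) hH
      (by rw [Fintype.card_fin]; exact hk) (J := {B // B ∈ S}) (fun B => B.1)
      (fun B => by rw [← hjB B]; exact hwQ _) (fun B => by rw [← hjB B]; exact hwpol _)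
      (fun B => by rw [← hjB B]; exact hw0 _) (fun B => ?_) (fun B B' hBB => ?_)
      (fun B B' l hB hB' => ?_) (fun B => by rw [← hjB B]; exact hwmax _)
      (fun B x => ∏ j ∈ Finset.univ.filter (fun j => w j = B.1), F' j x)
      (fun B => Finset.measurable_fun_prod _ fun j _ => hF'm j)
      (fun B x => abs_prod_le_one _ _ fun j => hF1 j _)
    · filter_upwards [h1] with x hx
      refine (cvg_shift (u := fun m : Fin k → ℕ => ∏ j,
        F j (pact T (SP T (P j) (fun l => q * m l + ρ l)) x))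
        (fun m => abs_prod_le_one _ _ fun j => hF1 j _)).1 ?_
      have h2 : Cvg fun m : Fin k → ℕ => (∏ j ∈ Finset.univ.filter (fun j => w j = 1), F' j x) *
          ∏ B : {B // B ∈ S}, ∏ j ∈ Finset.univ.filter (fun j => w j = B.1),
            F' j (pact T (B.1 m) x) := hx.smul _
      refine h2.congr fun m => ?_
      have h3 : ∀ j, F j (pact T (SP T (P j) (fun l => q * (m + 1) l + ρ l)) x) =
          F' j (pact T (w j m) x) := by
        intro j
        simp only [hF', hw]
        rw [← hP', ← pact_mul, mul_inv_cancel_left]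
      simp only [h3]
      have h4 : ∏ B : {B // B ∈ S}, ∏ j ∈ Finset.univ.filter (fun j => w j = B.1),
          F' j (pact T (B.1 m) x) = ∏ B ∈ S, ∏ j ∈ Finset.univ.filter (fun j => w j = B),
            F' j (pact T (w j m) x) := by
        rw [← Finset.prod_coe_sort S (fun B => ∏ j ∈ Finset.univ.filter (fun j => w j = B),
            F' j (pact T (w j m) x))]
        refine Finset.prod_congr rfl fun B _ => Finset.prod_congr rfl fun j hj => ?_
        rw [(Finset.mem_filter.1 hj).2]
      rw [h4]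
      have h5 : ∏ j ∈ Finset.univ.filter (fun j => w j = 1), F' j x =
          ∏ j ∈ Finset.univ.filter (fun j => w j = 1), F' j (pact T (w j m) x) := by
        refine Finset.prod_congr rfl fun j hj => ?_
        rw [(Finset.mem_filter.1 hj).2]
        rfl
      rw [h5]
      by_cases h1m : (1 : (Fin k → ℕ) → Subgroup.closure (Set.range T)) ∈ Finset.univ.image w
      · rw [hS, Finset.mul_prod_erase (Finset.univ.image w) (fun B =>
          ∏ j ∈ Finset.univ.filter (fun j => w j = B), F' j (pact T (w j m) x)) h1m]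
        exact Finset.prod_fiberwise_of_maps_to (fun j hj => Finset.mem_image_of_mem _ hj) _
      · have h6 : Finset.univ.filter (fun j => w j = 1) = ∅ := by
          refine Finset.filter_eq_empty_iff.2 fun j hj h => h1m ?_
          rw [← h]
          exact Finset.mem_image_of_mem _ hj
        rw [h6, Finset.prod_empty, one_mul, hS, Finset.erase_eq_of_notMem h1m]
        exact Finset.prod_fiberwise_of_maps_to (fun j hj => Finset.mem_image_of_mem _ hj) _
    · -- nontrivial
      by_contra hcon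
      push Not at hcon
      exact Finset.ne_of_mem_erase B.2 (funext hcon)
    · -- distinct
      by_contra hcon
      push Not at hcon
      refine hBB (Subtype.ext ?_)
      rw [← hjB B, ← hjB B'] at hcon ⊢
      have h2 := sep_ne hc he0 hq hper (hpol (jB B)) (hpol (jB B')) a (fun m => by
        rw [← hwn, ← hwn]
        exact hcon m)
      funext m
      rw [hwn, hwn]
      exact h2 m
    · -- dependence
      by_contra hcon
      push Not at hcon
      rw [← hjB B, ← hjB B'] at hcon
      rw [← hjB B] at hB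
      refine sep_dep hc he0 hq hper (hpol (jB B)) (hpol (jB B')) a l (fun m t => ?_) ?_
      · rw [← hwn, ← hwn]
        exact hcon m t
      · have e1 : (fun m : Fin k → ℕ => nrm (SP T (P (jB B))) a fun l => q * m l) =
            w (jB B) := funext fun m => (hwn _ m).symm
        rw [e1]
        exact hB
  have hall : ∀ᵐ x ∂μ, ∀ ρ : Fin k → ℕ, (∀ l, ρ l < q) → Cvg fun m : Fin k → ℕ =>
      ∏ j, F j (pact T (SP T (P j) (fun l => q * m l + ρ l)) x) := by
    rw [ae_all_iff]
    intro ρ
    by_cases hρ : ∀ l, ρ l < q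
    · filter_upwards [hres ρ hρ] with x hx _
      exact hx
    · exact Eventually.of_forall fun x h => absurd h hρ
  filter_upwards [hall] with x hx
  exact cvg_of_residues hq (u := fun m : Fin k → ℕ => ∏ j, F j (pact T (SP T (P j) m) x))
    (fun m => abs_prod_le_one _ _ fun j => hF1 j _) hx

/-- the Pinsker reduction for nilpotent groups -/
theorem nil_reduction {X : Type} (𝒩 : MeasurableSpace X) {mX : MeasurableSpace X} {μ : Measure X}
    [IsProbabilityMeasure μ] {d : ℕ} (T : Fin d → Equiv.Perm X)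
    (hT : ∀ i, Measurable (T i) ∧ Measurable (T i).symm ∧ MeasurePreserving (T i) μ μ)
    (hG : Group.IsNilpotent (Subgroup.closure (Set.range T)))
    (h𝒩 : ∀ A : Set X, MeasurableSet A → ZeroEnt μ (pact T) A →
      ∃ B, MeasurableSet[𝒩] B ∧ A =ᵐ[μ] B)
    (K : Set ℕ) (hK : K = {1} ∨ K = Set.univ)
    (Q : (k : ℕ) → Set (Fin d → MvPolynomial (Fin k) ℤ)) (hQ1 : RenC Q)
    (hQ2 : (∀ g : Subgroup.closure (Set.range T), ∀ n : ℕ, 0 < n → g ^ n = 1 → g = 1) ∨ SubC Q)
    (hmax : ∀ k ∈ K, ∀ P ∈ Q k, LimBd μ fun (m : Fin k → ℕ) x => pact T (SP T P (m + 1)) x) :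
    PolC μ T K Q mX ↔ PolC μ T K Q 𝒩 := by
  constructor
  · intro h k hk n q f hqQ hf
    exact h k hk n q f hqQ fun j => ⟨(hf j).1, (hf j).1.1⟩
  · intro h
    have hK' : ∀ v w, 1 ≤ v → v + w ∈ K → v + 2 * w ∈ K := by
      intro v w hv hvw
      rcases hK with rfl | rfl
      · rw [Set.mem_singleton_iff] at hvw ⊢
        omega
      · exact Set.mem_univ _
    have h1 : MeasurableSpace.generateFrom {A | MeasurableSet[mX] A ∧ ZeroEnt μ (pact T) A} ≤
        eventuallyMeasurableSpace 𝒩 (ae μ) :=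
      MeasurableSpace.generateFrom_le fun A hA => h𝒩 A hA.1 hA.2
    have h2 : PolC μ T K Q
        (MeasurableSpace.generateFrom {A | MeasurableSet[mX] A ∧ ZeroEnt μ (pact T) A}) := by
      intro k hk n q f hqQ hf
      exact h k hk n q f hqQ fun j =>
        ⟨(hf j).1, Pf720gs.aesm_of_mod (fun s hs => h1 s hs) (hf j).2⟩
    have hWmp : ∀ a, MeasurePreserving (pact T a) μ μ := pact_mp T hT
    refine polC_of_real T hT K Q (real_main T hT hG K hK' Q hQ2 hmax
      (polRG_of_polC (MeasurableSpace.generateFrom_le fun A hA => hA.1) T (fun g => ?_) K Q hQ1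
        h2))
    exact comap_zero (fun a b x => rfl) (fun a => (hWmp a).measurable) g

end Pool.Agent.Lib.Pf720nn
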