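import Pool.Agent.Lib.Pf720nn.NFinal
import Pool.Agent.Lib.Pf720pm.Factor

/-!
# Convergence of linear averages for the maps of the class
-/

set_option autoImplicit false
set_option linter.unusedSectionVars false

open Finset MeasureTheory Filter Topology
open scoped ENNReal

namespace Pool.Agent.Lib.Pf720nn

open Pool.Agent.Lib.Pf720ae
open Pool.Agent.Lib.Pf720pm (PolC RenC polC_bot)
open Pool.Agent.Lib.Pf720np (ZeroEnt pact pact_mp)

/-- linear averages of all bounded functions along the polynomial map of `P` -/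
def LinC {X : Type} {mX : MeasurableSpace X} (μ : Measure X) {d : ℕ} (T : Fin d → Equiv.Perm X)
    {k : ℕ} (P : Fin d → MvPolynomial (Fin k) ℤ) : Prop :=
  ∀ f : X → ℂ, MemLp f ⊤ μ → ∀ᵐ x ∂μ, ∃ L : ℂ, Tendsto (fun M : Fin k → ℕ =>
    (∏ l, (M l : ℂ))⁻¹ * ∑ m ∈ Fintype.piFinset (fun l => Finset.Icc 1 (M l)),
      f (pw T (fun i => MvPolynomial.eval (fun l => (m l : ℤ)) (P i)) x)) atTop (𝓝 L)

lemma limBd_of_linC {X : Type} {mX : MeasurableSpace X} {μ : Measure X} [IsProbabilityMeasure μ]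
    {d : ℕ} (T : Fin d → Equiv.Perm X)
    (hT : ∀ i, Measurable (T i) ∧ Measurable (T i).symm ∧ MeasurePreserving (T i) μ μ)
    {k : ℕ} (P : Fin d → MvPolynomial (Fin k) ℤ) (h : LinC μ T P) :
    LimBd μ (fun (m : Fin k → ℕ) x => pact T (SP T P (m + 1)) x) := by
  refine limBd_of_cvg (fun m => pact_mp T hT _) fun g hg hg1 => ?_
  have h1 := h (fun x => ((g x : ℝ) : ℂ)) (MemLp.of_bound
    (Complex.measurable_ofReal.comp hg).aestronglyMeasurable 1 (Eventually.of_forall fun x => by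
      rw [Complex.norm_real]; exact hg1 x))
  filter_upwards [h1] with x hx
  obtain ⟨L, hL⟩ := hx
  refine ⟨L.re, ((Complex.continuous_re.tendsto L).comp hL).congr fun M => ?_⟩
  simp only [Function.comp]
  rw [sum_Icc_eq]
  unfold avg Pool.Agent.Lib.Pf720ae.box
  have e1 : ∀ m : Fin k → ℕ, ((g (pw T (fun i => MvPolynomial.eval
      (fun l => (((m + 1) l : ℕ) : ℤ)) (P i)) x) : ℝ) : ℂ) =
      ((g (pact T (SP T P (m + 1)) x) : ℝ) : ℂ) := by
    intro m
    rw [pact_SP]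
  simp only [e1]
  rw [← Complex.ofReal_sum]
  have e3 : (∏ l : Fin k, ((M l : ℕ) : ℂ))⁻¹ = (((∏ l : Fin k, ((M l : ℕ) : ℝ))⁻¹ : ℝ) : ℂ) := by
    push_cast
    rfl
  rw [e3, ← Complex.ofReal_mul, Complex.ofReal_re]

/-- convergence of the multiple averages contains that of the linear ones -/
lemma linC_of_polC {X : Type} {mX : MeasurableSpace X} {μ : Measure X} [IsProbabilityMeasure μ]
    {d : ℕ} (T : Fin d → Equiv.Perm X) (K : Set ℕ)
    (Q : (k : ℕ) → Set (Fin d → MvPolynomial (Fin k) ℤ)) (h : PolC μ T K Q mX) {k : ℕ}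
    (hk : k ∈ K) {P : Fin d → MvPolynomial (Fin k) ℤ} (hP : P ∈ Q k) : LinC μ T P := by
  intro f hf
  have h1 := h k hk 1 (fun _ => P) (fun _ => f) (fun _ => hP) (fun _ => ⟨hf, hf.1⟩)
  filter_upwards [h1] with x hx
  obtain ⟨L, hL⟩ := hx
  refine ⟨L, hL.congr fun M => ?_⟩
  congr 1
  refine Finset.sum_congr rfl fun m _ => ?_
  simp

end Pool.Agent.Lib.Pf720nn
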