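import Mathlib

/-!
# Polynomial maps into groups: definitions
-/

set_option autoImplicit false
set_option linter.unusedSectionVars false

namespace Pool.Agent.Lib.Pf720nn

variable {κ : Type} {G : Type} [Group G]

/-- the difference of a map `ℕ^κ → G` -/
def dg (h : κ → ℕ) (w : (κ → ℕ) → G) : (κ → ℕ) → G := fun m => w (m + h) * (w m)⁻¹

/-- iterated differences -/
def dgs : List (κ → ℕ) → ((κ → ℕ) → G) → (κ → ℕ) → G
  | [], w => w
  | h :: hs, w => dgs hs (dg h w)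

/-- polynomial maps with respect to a family `F 0, F 1, …` of subgroups, starting at `F a` -/
def PolF (F : ℕ → Subgroup G) (a : ℕ) (w : (κ → ℕ) → G) : Prop :=
  ∀ (hs : List (κ → ℕ)) (m : κ → ℕ), dgs hs w m ∈ F (a + hs.length)

/-- the lower central series, each term repeated `e` times: `lc G e i = γ_{⌈i / e⌉}(G)` -/
def lc (G : Type) [Group G] (e i : ℕ) : Subgroup G :=
  (⊤ : Subgroup G).lowerCentralSeries ((i - 1) / e)

/-- polynomial maps -/
def PolG (w : (κ → ℕ) → G) : Prop := ∃ e, 0 < e ∧ PolF (lc G e) 0 w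

@[simp] lemma dgs_nil (w : (κ → ℕ) → G) : dgs [] w = w := rfl

@[simp] lemma dgs_cons (h : κ → ℕ) (hs : List (κ → ℕ)) (w : (κ → ℕ) → G) :
    dgs (h :: hs) w = dgs hs (dg h w) := rfl

lemma lc_anti (e : ℕ) : Antitone (lc G e) := by
  intro i j hij
  exact Subgroup.lowerCentralSeries_antitone _ (Nat.div_le_div_right (Nat.sub_le_sub_right hij 1))

lemma lc_le (i : ℕ) {e e' : ℕ} (he : 0 < e) (hee : e ≤ e') : lc G e i ≤ lc G e' i :=
  Subgroup.lowerCentralSeries_antitone _ (Nat.div_le_div_left hee he)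

lemma PolF.mono {F F' : ℕ → Subgroup G} (hF : ∀ i, F i ≤ F' i) {a : ℕ} {w : (κ → ℕ) → G}
    (h : PolF F a w) : PolF F' a w := fun hs m => hF _ (h hs m)

lemma PolF.anti {F : ℕ → Subgroup G} (hF : Antitone F) {a b : ℕ} (hab : a ≤ b)
    {w : (κ → ℕ) → G} (h : PolF F b w) : PolF F a w := fun hs m => hF (by omega) (h hs m)

/-- iterated differences and additive substitutions -/
lemma dgs_comp {κ' : Type} (ρ : (κ' → ℕ) → κ → ℕ) (hρ : ∀ m n, ρ (m + n) = ρ m + ρ n) (r : κ → ℕ)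
    (hs : List (κ' → ℕ)) (w : (κ → ℕ) → G) (m : κ' → ℕ) :
    dgs hs (fun n => w (ρ n + r)) m = dgs (hs.map ρ) w (ρ m + r) := by
  induction hs generalizing w with
  | nil => rfl
  | cons h hs ih =>
    rw [dgs_cons, List.map_cons, dgs_cons, ← ih]
    congr 1
    funext n
    show w (ρ (n + h) + r) * (w (ρ n + r))⁻¹ = w (ρ n + r + ρ h) * (w (ρ n + r))⁻¹
    rw [hρ, add_right_comm]

lemma PolF.comp {F : ℕ → Subgroup G} {a : ℕ} {κ' : Type} {w : (κ → ℕ) → G} (h : PolF F a w)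
    (ρ : (κ' → ℕ) → κ → ℕ) (hρ : ∀ m n, ρ (m + n) = ρ m + ρ n) (r : κ → ℕ) :
    PolF F a (fun n : κ' → ℕ => w (ρ n + r)) := by
  intro hs m
  rw [dgs_comp ρ hρ r]
  have := h (hs.map ρ) (ρ m + r)
  rwa [List.length_map] at this

lemma PolG.comp {κ' : Type} {w : (κ → ℕ) → G} (h : PolG w)
    (ρ : (κ' → ℕ) → κ → ℕ) (hρ : ∀ m n, ρ (m + n) = ρ m + ρ n) (r : κ → ℕ) :
    PolG (fun n : κ' → ℕ => w (ρ n + r)) := by
  obtain ⟨e, he, hw⟩ := h
  exact ⟨e, he, hw.comp ρ hρ r⟩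

lemma PolG.comp0 {κ' : Type} {w : (κ → ℕ) → G} (h : PolG w)
    (ρ : (κ' → ℕ) → κ → ℕ) (hρ : ∀ m n, ρ (m + n) = ρ m + ρ n) :
    PolG (fun n : κ' → ℕ => w (ρ n)) := by
  have := h.comp ρ hρ 0
  simpa using this

/-- the iterated differences of a map into a subgroup lie in the subgroup -/
lemma dgs_mem {K : Subgroup G} {w : (κ → ℕ) → G} (hw : ∀ m, w m ∈ K) (hs : List (κ → ℕ))
    (m : κ → ℕ) : dgs hs w m ∈ K := by
  induction hs generalizing w with
  | nil => exact hw m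
  | cons h hs ih => exact ih fun n => K.mul_mem (hw _) (K.inv_mem (hw _))

end Pool.Agent.Lib.Pf720nn
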