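import Mathlib

/-!
# Functions on `ℕ^κ` with vanishing iterated differences are polynomials

`Δ_l f (m) = f (m + e_l) - f m`, `e_l = Pi.single l 1`. Hypothesis: `Δ_l^L f = 0` for all `l`. One variable
(Newton): `f m = ∑_{j < L} (m_l choose j) (Δ_l^j f) (update m l 0)`
(`fwdDiff`: `fwdDiff_iter_eq_sum_shift`, `shift_eq_sum_fwdDiff_iter` in Mathlib). Induction over a finset
`S` of variables: `(L!)^{card S} f (m)` is a finite sum of products of an integer polynomial in the
variables of `S` and of a function `g` of `update .. 0` (the variables of `S` replaced by `0`) which still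
satisfies the hypothesis (the `Δ_l` commute with each other and with setting other variables to zero);
`L! * (x choose j)` is an integer polynomial in `x` for `j < L` (`Nat.descFactorial`, `descPochhammer`).
A convenient formulation of the induction: for every finset `S` and every `f` with the property, if `f`
depends only on the variables in `S` then `(L!)^{card S} * f` is the evaluation of some `P`.
-/

set_option autoImplicit false

namespace Pool.Agent.Lib.Pf720nn

namespace PNewtonAux

variable {κ : Type} [DecidableEq κ]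

/-- the difference in the direction `l` -/
abbrev dl (l : κ) : ((κ → ℕ) → ℤ) → ((κ → ℕ) → ℤ) := fwdDiff (Pi.single l 1 : κ → ℕ)

theorem dl_comm (l l' : κ) : Function.Commute (dl l) (dl l') := by
  intro f
  funext m
  simp only [dl, fwdDiff]
  rw [add_right_comm m (Pi.single l 1) (Pi.single l' 1)]
  ring

theorem dl_zero (l : κ) (j : ℕ) : (dl l)^[j] 0 = 0 := by
  induction j with
  | zero => rfl
  | succ j ih =>
    rw [Function.iterate_succ_apply', ih]
    funext m
    simp [dl, fwdDiff]

theorem update_add {l l' : κ} (h : l' ≠ l) (m : κ → ℕ) :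
    Function.update (m + Pi.single l' 1) l 0 = Function.update m l 0 + Pi.single l' 1 := by
  funext i
  by_cases hi : i = l
  · subst hi
    rw [Function.update_self, Pi.add_apply, Function.update_self, Pi.single_eq_of_ne (Ne.symm h),
      add_zero]
  · rw [Function.update_of_ne hi, Pi.add_apply, Pi.add_apply, Function.update_of_ne hi]

theorem dl_update {l l' : κ} (h : l' ≠ l) (i : ℕ) (F : (κ → ℕ) → ℤ) (m : κ → ℕ) :
    (dl l')^[i] (fun m => F (Function.update m l 0)) m =
      ((dl l')^[i] F) (Function.update m l 0) := by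
  induction i generalizing m with
  | zero => rfl
  | succ i ih =>
    rw [Function.iterate_succ_apply', Function.iterate_succ_apply']
    change (dl l')^[i] (fun m => F (Function.update m l 0)) (m + Pi.single l' 1) -
      (dl l')^[i] (fun m => F (Function.update m l 0)) m =
      (dl l')^[i] F (Function.update m l 0 + Pi.single l' 1) -
      (dl l')^[i] F (Function.update m l 0)
    rw [ih, ih, update_add h]

/-- Newton's formula in one variable. -/
theorem newton_one {f : (κ → ℕ) → ℤ} {L : ℕ} {l : κ} (h : (dl l)^[L] f = 0) (m : κ → ℕ) :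
    f m = ∑ j ∈ Finset.range L, ((m l).choose j : ℤ) *
      ((dl l)^[j] f) (Function.update m l 0) := by
  have h1 := shift_eq_sum_fwdDiff_iter (Pi.single l 1 : κ → ℕ) f (m l) (Function.update m l 0)
  have h2 : Function.update m l 0 + (m l) • (Pi.single l 1 : κ → ℕ) = m := by
    funext i
    by_cases hi : i = l
    · subst hi
      simp
    · simp [Function.update_of_ne hi, Pi.single_eq_of_ne hi]
  rw [h2] at h1
  rw [h1]
  have h3 : ∀ j, L ≤ j → (dl l)^[j] f = 0 := by
    intro j hj
    obtain ⟨i, rfl⟩ := Nat.exists_eq_add_of_le hj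
    rw [Nat.add_comm, Function.iterate_add_apply, h, dl_zero]
  have e1 : ∑ j ∈ Finset.range (m l + 1), (m l).choose j • ((dl l)^[j] f) (Function.update m l 0) =
      ∑ j ∈ Finset.range (max (m l + 1) L),
        (m l).choose j • ((dl l)^[j] f) (Function.update m l 0) := by
    refine Finset.sum_subset (Finset.range_subset_range.2 (le_max_left _ _)) fun j _ hj => ?_
    rw [Finset.mem_range, not_lt] at hj
    rw [Nat.choose_eq_zero_of_lt (by omega), zero_smul]
  have e2 : ∑ j ∈ Finset.range L, (m l).choose j • ((dl l)^[j] f) (Function.update m l 0) =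
      ∑ j ∈ Finset.range (max (m l + 1) L),
        (m l).choose j • ((dl l)^[j] f) (Function.update m l 0) := by
    refine Finset.sum_subset (Finset.range_subset_range.2 (le_max_right _ _)) fun j _ hj => ?_
    rw [Finset.mem_range, not_lt] at hj
    rw [h3 j hj, Pi.zero_apply, smul_zero]
  refine e1.trans (e2.symm.trans (Finset.sum_congr rfl fun j _ => ?_))
  rw [nsmul_eq_mul]

omit [DecidableEq κ] in
/-- `L! * (x choose j)` is an integer polynomial. -/
theorem exists_choose (L j : ℕ) (hj : j < L) (l : κ) : ∃ Q : MvPolynomial κ ℤ, ∀ m : κ → ℕ,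
    (L.factorial : ℤ) * ((m l).choose j : ℤ) = MvPolynomial.eval (fun l => (m l : ℤ)) Q := by
  obtain ⟨c, hc⟩ := Nat.factorial_dvd_factorial hj.le
  refine ⟨MvPolynomial.C (c : ℤ) * Polynomial.aeval (MvPolynomial.X l) (descPochhammer ℤ j),
    fun m => ?_⟩
  have h1 : MvPolynomial.eval (fun l => (m l : ℤ))
      (Polynomial.aeval (MvPolynomial.X l : MvPolynomial κ ℤ) (descPochhammer ℤ j)) =
      (descPochhammer ℤ j).eval ((m l : ℕ) : ℤ) := by
    rw [Polynomial.aeval_def, Polynomial.hom_eval₂, MvPolynomial.eval_X]
    have h2 : (MvPolynomial.eval (fun l => (m l : ℤ))).comp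
        (algebraMap ℤ (MvPolynomial κ ℤ)) = RingHom.id ℤ := RingHom.ext_int _ _
    rw [h2]
    rfl
  rw [map_mul, MvPolynomial.eval_C, h1, descPochhammer_eval_eq_descFactorial,
    Nat.descFactorial_eq_factorial_mul_choose, hc]
  push_cast
  ring

theorem newton_aux {L : ℕ} (S : Finset κ) : ∀ f : (κ → ℕ) → ℤ,
    (∀ l ∈ S, (dl l)^[L] f = 0) → (∀ m m' : κ → ℕ, (∀ l ∈ S, m l = m' l) → f m = f m') →
    ∃ P : MvPolynomial κ ℤ, ∀ m : κ → ℕ, ((L.factorial : ℤ) ^ S.card) * f m =
      MvPolynomial.eval (fun l => (m l : ℤ)) P := by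
  induction S using Finset.induction_on with
  | empty =>
    intro f _ hf
    refine ⟨MvPolynomial.C (f 0), fun m => ?_⟩
    rw [Finset.card_empty, pow_zero, one_mul, MvPolynomial.eval_C]
    exact hf _ _ (by simp)
  | insert l S hl ih =>
    intro f hf hdep
    have hg : ∀ j : ℕ, ∃ P : MvPolynomial κ ℤ, ∀ m : κ → ℕ, ((L.factorial : ℤ) ^ S.card) *
        ((dl l)^[j] f) (Function.update m l 0) =
        MvPolynomial.eval (fun l => (m l : ℤ)) P := by
      intro j
      refine ih (fun m => ((dl l)^[j] f) (Function.update m l 0)) ?_ ?_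
      · intro l' hl'
        have hne : l' ≠ l := fun h => hl (h ▸ hl')
        funext m
        rw [dl_update hne]
        have h1 := ((dl_comm l' l).iterate_iterate L j) f
        rw [h1, hf l' (Finset.mem_insert_of_mem hl'), dl_zero]
        rfl
      · have hd : ∀ i : ℕ, ∀ m m' : κ → ℕ, (∀ x ∈ insert l S, m x = m' x) →
            ((dl l)^[i] f) m = ((dl l)^[i] f) m' := by
          intro i
          induction i with
          | zero => exact hdep
          | succ i ihi =>
            intro m m' hm
            rw [Function.iterate_succ_apply']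
            change (dl l)^[i] f (m + Pi.single l 1) - (dl l)^[i] f m =
              (dl l)^[i] f (m' + Pi.single l 1) - (dl l)^[i] f m'
            rw [ihi m m' hm, ihi (m + Pi.single l 1) (m' + Pi.single l 1) (fun x hx => by
              rw [Pi.add_apply, Pi.add_apply, hm x hx])]
        intro m m' hm
        refine hd j _ _ fun x hx => ?_
        by_cases hxl : x = l
        · subst hxl
          rw [Function.update_self, Function.update_self]
        · rw [Function.update_of_ne hxl, Function.update_of_ne hxl]
          exact hm x (Finset.mem_of_mem_insert_of_ne hx hxl)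
    choose P hP using hg
    have hQ : ∀ j : ℕ, ∃ Q : MvPolynomial κ ℤ, j < L → ∀ m : κ → ℕ,
        (L.factorial : ℤ) * ((m l).choose j : ℤ) =
        MvPolynomial.eval (fun l => (m l : ℤ)) Q := by
      intro j
      by_cases hj : j < L
      · obtain ⟨Q, hQ⟩ := exists_choose L j hj l
        exact ⟨Q, fun _ => hQ⟩
      · exact ⟨0, fun h => absurd h hj⟩
    choose Q hQ using hQ
    refine ⟨∑ j ∈ Finset.range L, Q j * P j, fun m => ?_⟩
    rw [Finset.card_insert_of_notMem hl, newton_one (hf l (Finset.mem_insert_self l S)) m,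
      map_sum, Finset.mul_sum]
    refine Finset.sum_congr rfl fun j hj => ?_
    rw [map_mul, ← hQ j (Finset.mem_range.1 hj) m, ← hP j m]
    ring

end PNewtonAux

open PNewtonAux in
theorem newton {κ : Type} [Fintype κ] [DecidableEq κ] {f : (κ → ℕ) → ℤ} {L : ℕ}
    (h : ∀ (l : κ) (m : κ → ℕ), (fwdDiff (Pi.single l 1 : κ → ℕ))^[L] f m = 0) :
    ∃ P : MvPolynomial κ ℤ, ∀ m : κ → ℕ, ((L.factorial : ℤ) ^ Fintype.card κ) * f m =
      MvPolynomial.eval (fun l => (m l : ℤ)) P := by
  refine newton_aux Finset.univ f (fun l _ => funext fun m => h l m) fun m m' hm => ?_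
  have : m = m' := funext fun l => hm l (Finset.mem_univ l)
  rw [this]

end Pool.Agent.Lib.Pf720nn
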