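import Pool.Agent.Lib.Pf720nn.PDefs
import Pool.Agent.Lib.Pf720nn.PNewton
import Pool.Agent.Lib.Pf720pm.Cls

/-!
# A homomorphism to `ℤ^r` applied to a polynomial map with values in a subgroup

By nilpotency (`nilpotent_iff_lowerCentralSeries`) there is `L` with `lc G e i = ⊥` for `i ≥ L` (take
`L = e * n + 1` if `lowerCentralSeries ⊤ n = ⊥`), so `dgs hs w m = 1` for `hs.length = L`. Since `w` has values
in `K` and `π` is additive on `K`, `(fwdDiff h)^[k] (fun m => π (w m) i) m = π (dgs (replicate k h) w m) i`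
(`dgs_mem`, induction on `k` generalising `w`; `π 1 = 0`, `π g⁻¹ = - π g` on `K`; note
`Function.iterate_succ_apply`), so `newton` applies to each coordinate, with `c = (L!)^{card κ}`.
-/

set_option autoImplicit false
set_option linter.unusedSectionVars false

namespace Pool.Agent.Lib.Pf720nn

open Pool.Agent.Lib.Pf720pm (IsPol)

namespace PEvalAux

variable {κ : Type} {G : Type} [Group G]

theorem hom_one {K : Subgroup G} {r : ℕ} {π : G → Fin r → ℤ}
    (hπ : ∀ g ∈ K, ∀ h ∈ K, π (g * h) = π g + π h) : π 1 = 0 := by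
  have h1 := hπ 1 K.one_mem 1 K.one_mem
  rw [mul_one] at h1
  exact left_eq_add.1 h1

theorem hom_div {K : Subgroup G} {r : ℕ} {π : G → Fin r → ℤ}
    (hπ : ∀ g ∈ K, ∀ h ∈ K, π (g * h) = π g + π h) {g h : G} (hg : g ∈ K) (hh : h ∈ K) :
    π (g * h⁻¹) = π g - π h := by
  have h1 := hπ h⁻¹ (K.inv_mem hh) h hh
  rw [inv_mul_cancel, hom_one hπ] at h1
  rw [hπ g hg h⁻¹ (K.inv_mem hh), eq_neg_of_add_eq_zero_left h1.symm, sub_eq_add_neg]

theorem fwd_eq {K : Subgroup G} {r : ℕ} {π : G → Fin r → ℤ}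
    (hπ : ∀ g ∈ K, ∀ h ∈ K, π (g * h) = π g + π h) (h : κ → ℕ) (i : Fin r) (k : ℕ) :
    ∀ w : (κ → ℕ) → G, (∀ m, w m ∈ K) → ∀ m,
      (fwdDiff h)^[k] (fun m => π (w m) i) m = π (dgs (List.replicate k h) w m) i := by
  induction k with
  | zero => intro w _ m; rfl
  | succ k ih =>
    intro w hw m
    have h1 : fwdDiff h (fun m => π (w m) i) = fun m => π (dg h w m) i := by
      funext m
      unfold dg
      rw [hom_div hπ (hw _) (hw _)]
      rfl
    rw [Function.iterate_succ_apply, h1, List.replicate_succ, dgs_cons]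
    exact ih (dg h w) (fun m => K.mul_mem (hw _) (K.inv_mem (hw _))) m

end PEvalAux

open PEvalAux

theorem exists_isPol {κ : Type} [Fintype κ] [DecidableEq κ] {G : Type} [Group G]
    [Group.IsNilpotent G] {w : (κ → ℕ) → G} (hw : PolG w) (K : Subgroup G) (hK : ∀ m, w m ∈ K)
    {r : ℕ} (π : G → Fin r → ℤ) (hπ : ∀ g ∈ K, ∀ h ∈ K, π (g * h) = π g + π h) :
    ∃ c : ℤ, 0 < c ∧ IsPol fun m i => c * π (w m) i := by
  obtain ⟨e, he, hwe⟩ := hw
  obtain ⟨n, hn⟩ := Subgroup.nilpotent_iff_lowerCentralSeries.1 (inferInstance : Group.IsNilpotent G)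
  have hbot : lc G e (0 + (e * n + 1)) = ⊥ := by
    unfold lc
    rw [zero_add, Nat.add_sub_cancel, Nat.mul_div_cancel_left n he]
    exact hn
  have hP : ∀ i : Fin r, ∃ P : MvPolynomial κ ℤ, ∀ m : κ → ℕ,
      (((e * n + 1).factorial : ℤ) ^ Fintype.card κ) * π (w m) i =
        MvPolynomial.eval (fun l => (m l : ℤ)) P := by
    intro i
    refine newton (f := fun m => π (w m) i) fun l m => ?_
    rw [fwd_eq hπ _ i _ w hK m]
    have h1 := hwe (List.replicate (e * n + 1) (Pi.single l 1 : κ → ℕ)) m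
    rw [List.length_replicate, hbot, Subgroup.mem_bot] at h1
    rw [h1, hom_one hπ]
    rfl
  choose P hP using hP
  refine ⟨((e * n + 1).factorial : ℤ) ^ Fintype.card κ, by positivity, P, fun m i => ?_⟩
  exact hP i m

end Pool.Agent.Lib.Pf720nn
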