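import Pool.Agent.Lib.Pf720nn.PEval
import Pool.Agent.Lib.Pf720nn.GDefs

/-!
# Polynomial maps and the levels of a chain

Induction on `a ≤ s`: `∀ m, w m ∈ H a` (`hc.top` for `a = 0`). Step: `exists_isPol` with `K = H a`, `π = π a`
gives `c > 0` and polynomials `P_i` with `c * π a (w m) i = eval m (P_i)`; at the points `q * m` the left-hand
side vanishes (`hc.ker`: `H s ≤ H (a + 1)`), so `P_i` vanishes on an infinite grid
(`MvPolynomial.funext_set`, with the sets `{q * n | n : ℕ}`; `κ` finite) and `P_i = 0`; so `π a (w m) = 0` for all `m`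
and `w m ∈ H (a + 1)` by `hc.ker`.
-/

set_option autoImplicit false
set_option linter.unusedSectionVars false

namespace Pool.Agent.Lib.Pf720nn

lemma zchain_anti {G : Type} [Group G] {H : ℕ → Subgroup G} {r : ℕ → ℕ}
    {π : (a : ℕ) → G → Fin (r a) → ℤ} {s : ℕ} (hc : ZChain H r π s) :
    ∀ a b : ℕ, a ≤ b → b ≤ s → H b ≤ H a := by
  intro a b hab
  induction b, hab using Nat.le_induction with
  | base => intro _; exact le_rfl
  | succ b hab ih =>
    intro hbs g hg
    exact ih (by omega) ((hc.ker b (by omega) g).1 hg).1

theorem mem_of_mul {κ : Type} [Fintype κ] [DecidableEq κ] {G : Type} [Group G]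
    [Group.IsNilpotent G] {H : ℕ → Subgroup G} {r : ℕ → ℕ} {π : (a : ℕ) → G → Fin (r a) → ℤ}
    {s : ℕ} (hc : ZChain H r π s) {w : (κ → ℕ) → G} (hw : PolG w) {q : ℕ} (hq : 0 < q)
    (h : ∀ m : κ → ℕ, w (fun l => q * m l) ∈ H s) (m : κ → ℕ) : w m ∈ H s := by
  have key : ∀ a, a ≤ s → ∀ m : κ → ℕ, w m ∈ H a := by
    intro a
    induction a with
    | zero => intro _ m; rw [hc.top]; exact Subgroup.mem_top _
    | succ a ih =>
      intro has m
      have hK := ih (by omega)
      obtain ⟨c, hc0, P, hP⟩ := exists_isPol hw (H a) hK (π a) (hc.add a (by omega))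
      have hP0 : ∀ i, P i = 0 := by
        intro i
        refine MvPolynomial.funext_set (fun _ => Set.range fun n : ℕ => ((q * n : ℕ) : ℤ))
          (fun _ => ?_) ?_
        · refine Set.infinite_range_of_injective ?_
          intro x y hxy
          have hxy' : ((q * x : ℕ) : ℤ) = ((q * y : ℕ) : ℤ) := hxy
          have h2 : q * x = q * y := by exact_mod_cast hxy'
          exact Nat.eq_of_mul_eq_mul_left hq h2
        · intro x hx
          have hx' : ∀ l, ∃ n : ℕ, ((q * n : ℕ) : ℤ) = x l := fun l => by
            have := hx l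
            simpa using this
          choose n hn using hx'
          have h1 := hP (fun l => q * n l) i
          have h2 : π a (w fun l => q * n l) = 0 :=
            ((hc.ker a (by omega) _).1 (zchain_anti hc (a + 1) s has le_rfl (h n))).2
          have h3 : (fun l => ((q * n l : ℕ) : ℤ)) = x := funext hn
          beta_reduce at h1
          rw [h2, h3] at h1
          rw [← h1, map_zero]
          simp
      refine (hc.ker a (by omega) _).2 ⟨hK m, ?_⟩
      funext i
      have h1 := hP m i
      rw [hP0 i, map_zero] at h1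
      rcases mul_eq_zero.1 h1 with h2 | h2
      · omega
      · exact h2
  exact key s le_rfl m

end Pool.Agent.Lib.Pf720nn
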